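import Pool.Agent.Q1.SL.Spec

/-!
Specializations of rational curves which keep the coordinates which are powers of the variable.
-/

set_option autoImplicit false

namespace Pool.Agent.Q1.SL

open MvPolynomial

/-- **Specializations of rational curves.** -/
theorem spec_proj' {k M : Type} [Field k] [IsAlgClosed k] [Field M] [Algebra k M] {N : ℕ}
    (p : Fin N → Polynomial M) {G : MvPolynomial (Fin N) k} (hG : aeval p G ≠ 0) {i j : Fin N}
    (hij : p i * Polynomial.C ((p j).eval 1) ≠ p j * Polynomial.C ((p i).eval 1)) :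
    ∃ p' : Fin N → Polynomial k, (∀ j, (p' j).natDegree ≤ (p j).natDegree) ∧
      (∀ F : MvPolynomial (Fin N) k, aeval p F = 0 → aeval p' F = 0) ∧ aeval p' G ≠ 0 ∧
      p' i * Polynomial.C ((p' j).eval 1) ≠ p' j * Polynomial.C ((p' i).eval 1) ∧
      ∀ j a, p j = Polynomial.X ^ a → p' j = Polynomial.X ^ a := by
  classical
  obtain ⟨a1, h1⟩ : ∃ a, (aeval p G).coeff a ≠ 0 := by
    by_contra hcon
    push Not at hcon
    exact hG (Polynomial.ext fun a => by rw [hcon a, Polynomial.coeff_zero])
  obtain ⟨a2, h2⟩ : ∃ a, (p i * Polynomial.C ((p j).eval 1) -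
      p j * Polynomial.C ((p i).eval 1)).coeff a ≠ 0 := by
    by_contra hcon
    push Not at hcon
    exact hij (sub_eq_zero.1 (Polynomial.ext fun a => by rw [hcon a, Polynomial.coeff_zero]))
  obtain ⟨B, ψ, P, hB, hP⟩ := spec_poly (k := k) p
    {((aeval p G).coeff a1)⁻¹, ((p i * Polynomial.C ((p j).eval 1) -
      p j * Polynomial.C ((p i).eval 1)).coeff a2)⁻¹}
  have e1 : ∀ F : MvPolynomial (Fin N) k,
      Polynomial.mapAlgHom B.val (aeval P F) = aeval p F := by
    intro F
    have h3 := MvPolynomial.comp_aeval_apply (f := P) (Polynomial.mapAlgHom B.val) F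
    rw [h3]
    congr 2
    funext j
    exact hP j
  have e2 : ∀ F : MvPolynomial (Fin N) k,
      Polynomial.mapAlgHom ψ (aeval P F) = aeval (fun j => Polynomial.mapAlgHom ψ (P j)) F :=
    fun F => MvPolynomial.comp_aeval_apply (f := P) (Polynomial.mapAlgHom ψ) F
  have hinj : Function.Injective (Polynomial.mapAlgHom B.val) :=
    Polynomial.map_injective _ Subtype.val_injective
  refine ⟨fun j => Polynomial.mapAlgHom ψ (P j), fun j => ?_, fun F hF => ?_, ?_, ?_,
    fun j a hj => ?_⟩
  · have h3 : (p j).natDegree = (P j).natDegree := by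
      rw [← hP j, mapAlg_eq]
      exact Polynomial.natDegree_map_eq_of_injective Subtype.val_injective _
    rw [h3]
    exact Polynomial.natDegree_map_le
  · rw [← e2]
    have h3 : aeval P F = 0 := by
      apply hinj
      rw [e1, hF, map_zero]
    rw [h3, map_zero]
  · rw [← e2]
    apply spec_ne ψ (a := a1)
    · rw [e1]
      exact h1
    · rw [e1]
      exact hB _ (by simp)
  · rw [← sub_ne_zero]
    have e3 : ∀ j, Polynomial.mapAlgHom B.val (Polynomial.C ((P j).eval 1)) =
        Polynomial.C ((p j).eval 1) := by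
      intro j
      rw [← hP j, mapAlg_eq, mapAlg_eq, Polynomial.map_C,
        Polynomial.eval_map]
      congr 1
      have h3 := Polynomial.eval₂_at_apply (p := P j) (B.val : B →+* M) 1
      rw [map_one] at h3
      exact h3.symm
    have e4 : ∀ j, Polynomial.mapAlgHom ψ (Polynomial.C ((P j).eval 1)) =
        Polynomial.C ((Polynomial.mapAlgHom ψ (P j)).eval 1) := by
      intro j
      rw [mapAlg_eq, mapAlg_eq, Polynomial.map_C,
        Polynomial.eval_map]
      congr 1
      have h3 := Polynomial.eval₂_at_apply (p := P j) (ψ : B →+* k) 1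
      rw [map_one] at h3
      exact h3.symm
    have e5 : Polynomial.mapAlgHom B.val (P i * Polynomial.C ((P j).eval 1) -
        P j * Polynomial.C ((P i).eval 1)) = p i * Polynomial.C ((p j).eval 1) -
          p j * Polynomial.C ((p i).eval 1) := by
      rw [map_sub, map_mul, map_mul, e3, e3, hP, hP]
    have e6 : Polynomial.mapAlgHom ψ (P i * Polynomial.C ((P j).eval 1) -
        P j * Polynomial.C ((P i).eval 1)) =
        Polynomial.mapAlgHom ψ (P i) * Polynomial.C ((Polynomial.mapAlgHom ψ (P j)).eval 1) -
          Polynomial.mapAlgHom ψ (P j) *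
            Polynomial.C ((Polynomial.mapAlgHom ψ (P i)).eval 1) := by
      rw [map_sub, map_mul, map_mul, e4, e4]
    rw [← e6]
    apply spec_ne ψ (a := a2)
    · rw [e5]
      exact h2
    · rw [e5]
      exact hB _ (by simp)
  · have h3 : P j = Polynomial.X ^ a := by
      apply hinj
      rw [hP, hj, map_pow, mapAlg_eq, Polynomial.map_X]
    change Polynomial.mapAlgHom ψ (P j) = _
    rw [h3, map_pow, mapAlg_eq, Polynomial.map_X]

end Pool.Agent.Q1.SL
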