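import Pool.Agent.H533R3.SL.Cur

/-!
Rational curves of bounded degree and uniruled varieties over `ℂ`.
-/

set_option autoImplicit false

namespace Pool.Agent.Q1.SL

open MvPolynomial Pool.Agent.H533R3.SL

/-- Nonconstant polynomial vector in homogeneous coordinates. -/
def NonC {k : Type} [Field k] {N : ℕ} (p : Fin N → Polynomial k) : Prop :=
  ∃ s t i j, (p i).eval s * (p j).eval t ≠ (p j).eval s * (p i).eval t

theorem nonC_of_ne {k : Type} [Field k] [Infinite k] {N : ℕ} {p : Fin N → Polynomial k}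
    {i j : Fin N} (h : p i * Polynomial.C ((p j).eval 1) ≠ p j * Polynomial.C ((p i).eval 1)) :
    NonC p := by
  by_contra hcon
  apply h
  apply Polynomial.funext
  intro s
  by_contra h1
  apply hcon
  refine ⟨s, 1, i, j, ?_⟩
  simpa using h1

theorem aeval_ev {k : Type} [Field k] {N : ℕ} (v : Fin N → k) (G : MvPolynomial (Fin N) k) :
    aeval v G = eval v G := by
  rw [← MvPolynomial.coe_aeval_eq_eval]
  rfl

/-- reparametrization -/
theorem exists_repar {k : Type} [Field k] [Infinite k] {N : ℕ} {p : Fin N → Polynomial k}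
    (hp : NonC p) {G : MvPolynomial (Fin N) k} (hG : aeval p G ≠ 0) {d : ℕ}
    (hd : ∀ j, (p j).natDegree ≤ d) :
    ∃ q : Fin N → Polynomial k, (∀ j, (q j).natDegree ≤ d) ∧
      (∀ F : MvPolynomial (Fin N) k, aeval p F = 0 → aeval q F = 0) ∧
      eval (fun j => (q j).eval 1) G ≠ 0 ∧
      ∃ i j, q i * Polynomial.C ((q j).eval 1) ≠ q j * Polynomial.C ((q i).eval 1) := by
  classical
  obtain ⟨s, t, i, j, hst⟩ := hp
  obtain ⟨i0, hi0⟩ : ∃ i0, p i0 ≠ 0 := by
    by_contra hcon
    push Not at hcon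
    apply hst
    rw [hcon i, hcon j, Polynomial.eval_zero, Polynomial.eval_zero]
  have hne : aeval p G * p i0 ≠ 0 := mul_ne_zero hG hi0
  obtain ⟨u, hu⟩ : ∃ u, (aeval p G * p i0).eval u ≠ 0 := by
    by_contra hcon
    push Not at hcon
    exact hne (Polynomial.funext fun u => by rw [hcon u, Polynomial.eval_zero])
  rw [Polynomial.eval_mul] at hu
  let φ : Polynomial k →ₐ[k] Polynomial k :=
    Polynomial.aeval (Polynomial.X + Polynomial.C (u - 1))
  have hφ0 : ∀ E : Polynomial k, φ E = E.comp (Polynomial.X + Polynomial.C (u - 1)) :=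
    fun E => rfl
  have hφ : ∀ (E : Polynomial k) (w : k), (φ E).eval w = E.eval (w + (u - 1)) := by
    intro E w
    rw [hφ0, Polynomial.eval_comp, Polynomial.eval_add, Polynomial.eval_X, Polynomial.eval_C]
  have h1u : (1 : k) + (u - 1) = u := by ring
  have hcomp : ∀ F : MvPolynomial (Fin N) k, aeval (fun j => φ (p j)) F = φ (aeval p F) :=
    fun F => (MvPolynomial.comp_aeval_apply (f := p) φ F).symm
  have hev : ∀ (F : MvPolynomial (Fin N) k) (w : k),
      (aeval (fun j => φ (p j)) F).eval w = eval (fun j => (φ (p j)).eval w) F := by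
    intro F w
    have h2 := MvPolynomial.comp_aeval_apply (f := fun j => φ (p j))
      (Polynomial.aeval w : Polynomial k →ₐ[k] k) F
    rw [Polynomial.coe_aeval_eq_eval] at h2
    rw [h2, aeval_ev]
  refine ⟨fun j => φ (p j), fun j => ?_, fun F hF => ?_, ?_, ?_⟩
  · refine (Polynomial.natDegree_comp_le).trans ?_
    rw [Polynomial.natDegree_X_add_C, mul_one]
    exact hd j
  · rw [hcomp, hF, map_zero]
  · rw [← hev, hcomp, hφ, h1u]
    exact left_ne_zero_of_mul hu
  · by_contra hcon
    push Not at hcon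
    have h2 : ∀ a w, (p a).eval w * (p i0).eval u = (p i0).eval w * (p a).eval u := by
      intro a w
      have h3 := congrArg (Polynomial.eval (w - (u - 1))) (hcon a i0)
      rw [Polynomial.eval_mul, Polynomial.eval_mul, Polynomial.eval_C, Polynomial.eval_C, hφ, hφ,
        hφ, hφ, h1u, sub_add_cancel] at h3
      exact h3
    have hu0 : (p i0).eval u ≠ 0 := right_ne_zero_of_mul hu
    apply hst
    have h4 : ∀ a w, (p a).eval w = (p i0).eval w * (p a).eval u / (p i0).eval u := by
      intro a w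
      rw [eq_div_iff hu0, h2]
    rw [h4 i s, h4 j t, h4 j s, h4 i t]
    ring

section ultra

variable {n : ℕ}

/-- There is a number `d` such that the nonconstant rational curves of degree at most `d` on `X` do
not lie in a proper closed subset. -/
def RatDense (I : Ideal (MvPolynomial (Fin (n + 1)) ℂ)) : Prop :=
  ∃ d : ℕ, ∀ G : MvPolynomial (Fin (n + 1)) ℂ, (∃ e, G.IsHomogeneous e) → G ∉ I →
    ∃ p : Fin (n + 1) → Polynomial ℂ, (∀ j, (p j).natDegree ≤ d) ∧ (∀ F ∈ I, aeval p F = 0) ∧
      NonC p ∧ aeval p G ≠ 0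

/-- **Varieties with dense families of rational curves of bounded degree are uniruled.** -/
theorem uniruled_of_dense {I : Ideal (MvPolynomial (Fin (n + 1)) ℂ)} (hprime : I.IsPrime)
    (h : RatDense I) : Uniruled I := by
  classical
  obtain ⟨d, h⟩ := h
  let ι : Type := {G : MvPolynomial (Fin (n + 1)) ℂ // (∃ e, G.IsHomogeneous e) ∧ G ∉ I}
  have h' : ∀ G : ι, ∃ p : Fin (n + 1) → Polynomial ℂ, (∀ j, (p j).natDegree ≤ d) ∧
      (∀ F ∈ I, aeval p F = 0) ∧ eval (fun j => (p j).eval 1) G.1 ≠ 0 ∧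
      ∃ i j, p i * Polynomial.C ((p j).eval 1) ≠ p j * Polynomial.C ((p i).eval 1) := by
    intro G
    obtain ⟨p, h1, h2, h3, h4⟩ := h G.1 G.2.1 G.2.2
    obtain ⟨q, h5, h6, h7, h8⟩ := exists_repar h3 h4 h1
    exact ⟨q, h5, fun F hF => h6 F (h2 F hF), h7, h8⟩
  choose p hp1 hp2 hp3 hp4 using h'
  let A : Type := ι → ℂ
  -- the ideal
  let mulι : ι → ι → ι := fun G H => ⟨G.1 * H.1, by
    obtain ⟨e, he⟩ := G.2.1
    obtain ⟨e', he'⟩ := H.2.1
    refine ⟨⟨e + e', he.mul he'⟩, fun h1 => ?_⟩
    rcases hprime.mem_or_mem h1 with h2 | h2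
    · exact G.2.2 h2
    · exact H.2.2 h2⟩
  let one : ι := ⟨1, ⟨0, isHomogeneous_one _ _⟩,
    fun h1 => hprime.ne_top ((Ideal.eq_top_iff_one _).2 h1)⟩
  let J : Ideal A :=
    { carrier := {f | ∃ G1 : ι, ∀ G : ι, G1.1 ∣ G.1 → f G = 0}
      add_mem' := by
        rintro f g ⟨G1, h1⟩ ⟨G2, h2⟩
        refine ⟨mulι G1 G2, fun G hG => ?_⟩
        rw [Pi.add_apply, h1 G ((Dvd.intro _ rfl).trans hG),
          h2 G ((Dvd.intro_left _ rfl).trans hG), add_zero]
      zero_mem' := ⟨one, fun G _ => rfl⟩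
      smul_mem' := by
        rintro c f ⟨G1, h1⟩
        refine ⟨G1, fun G hG => ?_⟩
        rw [smul_eq_mul, Pi.mul_apply, h1 G hG, mul_zero] }
  have hJ : J ≠ ⊤ := by
    rw [Ideal.ne_top_iff_one]
    rintro ⟨G1, h1⟩
    exact one_ne_zero (h1 G1 dvd_rfl)
  obtain ⟨m, hm, hJm⟩ := Ideal.exists_le_maximal J hJ
  let iL : Field (A ⧸ m) := Ideal.Quotient.field m
  let Φ : A →ₐ[ℂ] (A ⧸ m) := Ideal.Quotient.mkₐ ℂ m
  have hΦ : ∀ f : A, Φ f = 0 ↔ f ∈ m := fun f => Ideal.Quotient.eq_zero_iff_mem
  have hmem : ∀ f ∈ m, ∀ G1 : ι, ∃ G : ι, G1.1 ∣ G.1 ∧ f G = 0 := by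
    intro f hf G1
    by_contra hcon
    push Not at hcon
    have h1 : 1 - (fun G => (f G)⁻¹) * f ∈ J := by
      refine ⟨G1, fun G hG => ?_⟩
      change 1 - (f G)⁻¹ * f G = 0
      rw [inv_mul_cancel₀ (hcon G hG), sub_self]
    have h2 := m.add_mem (hJm h1) (m.mul_mem_left (fun G => (f G)⁻¹) hf)
    rw [sub_add_cancel] at h2
    exact hm.ne_top ((Ideal.eq_top_iff_one _).2 h2)
  let PP : Fin (n + 1) → Polynomial A := fun j =>
    ∑ a ∈ Finset.range (d + 1), Polynomial.C (fun G => (p G j).coeff a) * Polynomial.X ^ a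
  let ev : ι → A →ₐ[ℂ] ℂ := fun G => Pi.evalAlgHom ℂ (fun _ : ι => ℂ) G
  have hPP : ∀ G j, Polynomial.mapAlgHom (ev G) (PP j) = p G j := by
    intro G j
    change Polynomial.map _ (∑ a ∈ Finset.range (d + 1),
      Polynomial.C (fun G => (p G j).coeff a) * Polynomial.X ^ a) = _
    rw [Polynomial.map_sum]
    simp only [Polynomial.map_mul, Polynomial.map_C, Polynomial.map_pow, Polynomial.map_X]
    conv_rhs => rw [(p G j).as_sum_range' (d + 1) (by have := hp1 G j; omega)]
    refine Finset.sum_congr rfl fun a _ => ?_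
    rw [Polynomial.C_mul_X_pow_eq_monomial]
    rfl
  have hext : ∀ E : Polynomial A, (∀ G, Polynomial.mapAlgHom (ev G) E = 0) → E = 0 := by
    intro E hE
    apply Polynomial.ext
    intro a
    funext G
    have h1 := congrArg (fun E => Polynomial.coeff E a) (hE G)
    change (Polynomial.map _ E).coeff a = _ at h1
    rw [Polynomial.coeff_map] at h1
    exact h1
  have hcA : ∀ (B : Type) [CommRing B] [Algebra ℂ B] (φ : A →ₐ[ℂ] B)
      (F : MvPolynomial (Fin (n + 1)) ℂ), Polynomial.mapAlgHom φ (aeval PP F) =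
        aeval (fun j => Polynomial.mapAlgHom φ (PP j)) F := fun B _ _ φ F =>
    MvPolynomial.comp_aeval_apply (f := PP) (Polynomial.mapAlgHom φ) F
  have hmapeval : ∀ (B : Type) [CommRing B] [Algebra ℂ B] (φ : A →ₐ[ℂ] B) (E : Polynomial A),
      (Polynomial.mapAlgHom φ E).eval 1 = φ (E.eval 1) := by
    intro B _ _ φ E
    change (Polynomial.map (φ : A →+* B) E).eval 1 = _
    rw [Polynomial.eval_map]
    have h3 := Polynomial.eval₂_at_apply (p := E) (φ : A →+* B) 1
    rw [map_one] at h3
    exact h3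
  refine ⟨A ⧸ m, iL, inferInstance, fun j => Polynomial.mapAlgHom Φ (PP j), ?_, ?_, ?_⟩
  · intro F hF
    rw [← hcA]
    have h1 : aeval PP F = 0 := by
      apply hext
      intro G
      rw [hcA]
      have h2 : (fun j => Polynomial.mapAlgHom (ev G) (PP j)) = p G := funext fun j => hPP G j
      rw [h2]
      exact hp2 G F hF
    rw [h1, map_zero]
  · intro G1 hG1 hG2 h0
    let f : A := fun G => eval (fun j => (p G j).eval 1) G1
    have h1 : Φ f = aeval (fun j => (Polynomial.mapAlgHom Φ (PP j)).eval 1) G1 := by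
      have h2 : f = aeval (fun j => (PP j).eval 1) G1 := by
        funext G
        change eval (fun j => (p G j).eval 1) G1 = ev G (aeval (fun j => (PP j).eval 1) G1)
        rw [MvPolynomial.comp_aeval_apply, ← aeval_ev]
        congr 2
        funext j
        rw [← hmapeval, hPP]
      rw [h2, MvPolynomial.comp_aeval_apply]
      congr 2
      funext j
      rw [← hmapeval]
    rw [← h1, hΦ] at h0
    obtain ⟨G, hG, h2⟩ := hmem f h0 ⟨G1, hG1, hG2⟩
    obtain ⟨H, hH⟩ := hG
    apply hp3 G
    have h3 : eval (fun j => (p G j).eval 1) G1 = 0 := h2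
    change G.1 = G1 * H at hH
    rw [hH, map_mul, h3, zero_mul]
  · by_contra hcon
    push Not at hcon
    let W : Fin (n + 1) × Fin (n + 1) → Polynomial A := fun q =>
      PP q.1 * Polynomial.C ((PP q.2).eval 1) - PP q.2 * Polynomial.C ((PP q.1).eval 1)
    have hW : ∀ (B : Type) [CommRing B] [Algebra ℂ B] (φ : A →ₐ[ℂ] B) q,
        Polynomial.mapAlgHom φ (W q) =
          Polynomial.mapAlgHom φ (PP q.1) *
            Polynomial.C ((Polynomial.mapAlgHom φ (PP q.2)).eval 1) -
          Polynomial.mapAlgHom φ (PP q.2) *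
            Polynomial.C ((Polynomial.mapAlgHom φ (PP q.1)).eval 1) := by
      intro B _ _ φ q
      rw [hmapeval, hmapeval, map_sub, map_mul, map_mul]
      congr 2
      · change Polynomial.map (φ : A →+* B) (Polynomial.C _) = _
        rw [Polynomial.map_C]
        rfl
      · change Polynomial.map (φ : A →+* B) (Polynomial.C _) = _
        rw [Polynomial.map_C]
        rfl
    -- all coefficients lie in the maximal ideal
    have hWm : ∀ q a, (W q).coeff a ∈ m := by
      intro q a
      rw [← hΦ]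
      have h1 := hW (A ⧸ m) Φ q
      rw [hcon q.1 q.2, sub_self] at h1
      have h2 := congrArg (fun E => Polynomial.coeff E a) h1
      change (Polynomial.map _ (W q)).coeff a = _ at h2
      rw [Polynomial.coeff_map] at h2
      exact h2
    have hch : ∀ G : ι, ∃ t : (Fin (n + 1) × Fin (n + 1)) × Fin (d + 1),
        (W t.1).coeff t.2 G ≠ 0 := by
      intro G
      by_contra hno
      push Not at hno
      obtain ⟨i, j, hij⟩ := hp4 G
      apply hij
      rw [← sub_eq_zero]
      have h1 := hW ℂ (ev G) (i, j)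
      rw [hPP, hPP] at h1
      rw [← h1]
      apply Polynomial.ext
      intro a
      rw [Polynomial.coeff_zero]
      change (Polynomial.map _ (W (i, j))).coeff a = 0
      rw [Polynomial.coeff_map]
      by_cases ha : a < d + 1
      · exact hno ((i, j), ⟨a, ha⟩)
      · have h2 : (Polynomial.mapAlgHom (ev G) (W (i, j))).coeff a = 0 := by
          rw [h1]
          apply Polynomial.coeff_eq_zero_of_natDegree_lt
          refine lt_of_le_of_lt (Polynomial.natDegree_sub_le _ _) (max_lt ?_ ?_)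
          · exact lt_of_le_of_lt (Polynomial.natDegree_mul_C_le _ _)
              (lt_of_le_of_lt (hp1 G i) (by omega))
          · exact lt_of_le_of_lt (Polynomial.natDegree_mul_C_le _ _)
              (lt_of_le_of_lt (hp1 G j) (by omega))
        change (Polynomial.map _ (W (i, j))).coeff a = 0 at h2
        rwa [Polynomial.coeff_map] at h2
    choose t ht using hch
    let u : (Fin (n + 1) × Fin (n + 1)) × Fin (d + 1) → A := fun q G =>
      if t G = q then ((W q.1).coeff q.2 G)⁻¹ else 0
    have h1 : ∑ q, u q * (W q.1).coeff q.2 ∈ m :=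
      m.sum_mem fun q _ => m.mul_mem_left _ (hWm q.1 q.2)
    obtain ⟨G, -, hG⟩ := hmem _ h1 one
    have h2 : (∑ q, u q * (W q.1).coeff q.2) G = 1 := by
      rw [Finset.sum_apply, Finset.sum_eq_single (t G)]
      · change (if t G = t G then ((W (t G).1).coeff (t G).2 G)⁻¹ else 0) *
          (W (t G).1).coeff (t G).2 G = 1
        rw [if_pos rfl, inv_mul_cancel₀ (ht G)]
      · intro q _ hq
        change (if t G = q then ((W q.1).coeff q.2 G)⁻¹ else 0) * (W q.1).coeff q.2 G = 0
        rw [if_neg (Ne.symm hq), zero_mul]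
      · intro h4
        exact absurd (Finset.mem_univ _) h4
    rw [h2] at hG
    exact one_ne_zero hG

end ultra

end Pool.Agent.Q1.SL
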