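import Pool.Agent.Q1.SL.Ultra
import Pool.Agent.Q1.SL.Spec2
import Pool.Agent.Q1.SL.UltraC

/-!
Ultraproducts of polynomials and of rational curves.
-/

set_option autoImplicit false

namespace Pool.Agent.Q1.SL

open Filter MvPolynomial Pool.Agent.Y377.IL

/-- sequences of numbers and numbers -/
theorem exists_theta : ∃ θ : (ℕ → ℂ) →+* ℂ, Function.Surjective θ ∧
    ∀ c : ℕ → ℂ, θ c = 0 ↔ ∀ᶠ i in (hyperfilter ℕ : Filter ℕ), c i = 0 := by
  obtain ⟨ψ⟩ := exists_psi
  refine ⟨(ψ : UC →+* ℂ).comp (uMk fun _ => ℂ), ?_, fun c => ?_⟩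
  · intro a
    obtain ⟨c, hc⟩ := uMk_surj (K := fun _ => ℂ) (ψ.symm a)
    refine ⟨c, ?_⟩
    change ψ (uMk (fun _ => ℂ) c) = a
    rw [hc, ψ.apply_symm_apply]
  · rw [RingHom.comp_apply]
    change ψ (uMk (fun _ => ℂ) c) = 0 ↔ _
    rw [map_eq_zero_iff ψ ψ.injective, uMk_eq_zero]

/-- **Ultraproducts of differential fields.** -/
theorem exists_ultra2 {K : ℕ → Type} [∀ i, Field (K i)] [∀ i, Algebra ℂ (K i)]
    (D : ∀ i, Derivation ℂ (K i) (K i)) (hC : ∀ i, Cst (D i)) :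
    ∃ (K' : Type) (_ : Field K') (_ : Algebra ℂ K') (D' : Derivation ℂ K' K')
      (π : (∀ i, K i) →+* K') (θ : (ℕ → ℂ) →+* ℂ), Cst D' ∧
      (∀ x, D' (π x) = π fun i => D i (x i)) ∧
      (∀ c : ℕ → ℂ, π (fun i => algebraMap ℂ (K i) (c i)) = algebraMap ℂ K' (θ c)) ∧
      (∀ x, π x = 0 ↔ ∀ᶠ i in (hyperfilter ℕ : Filter ℕ), x i = 0) ∧
      (∀ c : ℕ → ℂ, θ c = 0 ↔ ∀ᶠ i in (hyperfilter ℕ : Filter ℕ), c i = 0) ∧
      Function.Surjective θ := by
  classical
  obtain ⟨ψ⟩ := exists_psi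
  have hD : ∀ y : UP K, ∃ y' : UP K, ∀ x, uMk K x = y → uMk K (fun i => D i (x i)) = y' := by
    intro y
    obtain ⟨x, rfl⟩ := uMk_surj y
    refine ⟨uMk K fun i => D i (x i), fun x' hx' => ?_⟩
    rw [uMk_eq] at hx' ⊢
    filter_upwards [hx'] with i hi
    rw [hi]
  choose d hd using hD
  have hd' : ∀ x, d (uMk K x) = uMk K fun i => D i (x i) := fun x => (hd _ x rfl).symm
  let iA : Algebra ℂ (UP K) := ((uMap K).comp (ψ.symm : ℂ →+* UC)).toAlgebra
  have hal : ∀ c : ℕ → ℂ, uMk K (fun i => algebraMap ℂ (K i) (c i)) =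
      algebraMap ℂ (UP K) (ψ (uMk _ c)) := by
    intro c
    change _ = uMap K (ψ.symm (ψ (uMk _ c)))
    rw [ψ.symm_apply_apply, uMap_mk]
  have hsurj : ∀ a : ℂ, ∃ c : ℕ → ℂ, ψ (uMk _ c) = a := by
    intro a
    obtain ⟨c, hc⟩ := uMk_surj (ψ.symm a)
    exact ⟨c, by rw [hc, ψ.apply_symm_apply]⟩
  obtain ⟨D', hD''⟩ := der_of (uMk K) uMk_surj d (fun x i => D i (x i)) hd'
    (fun x y => by
      funext i
      exact map_add (D i) _ _)
    (fun x y => by
      funext i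
      change D i (x i * y i) = x i * D i (y i) + y i * D i (x i)
      rw [(D i).leibniz, smul_eq_mul, smul_eq_mul])
    (fun a => by
      obtain ⟨c, rfl⟩ := hsurj a
      refine ⟨fun i => algebraMap ℂ (K i) (c i), hal c, ?_⟩
      funext i
      exact (D i).map_algebraMap (c i))
  have hD' : ∀ x, D' (uMk K x) = uMk K fun i => D i (x i) := fun x => (hD'' _).trans (hd' x)
  refine ⟨UP K, inferInstance, iA, D', uMk K, (ψ : UC →+* ℂ).comp (uMk fun _ => ℂ), ?_, hD', hal,
    fun x => uMk_eq_zero, fun c => ?_, fun a => hsurj a⟩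
  · intro y hy
    obtain ⟨y, rfl⟩ := uMk_surj y
    rw [hD', uMk_eq_zero] at hy
    have h1 : ∀ i, ∃ c : ℂ, D i (y i) = 0 → y i = algebraMap ℂ (K i) c := by
      intro i
      by_cases h0 : D i (y i) = 0
      · obtain ⟨c, hc⟩ := hC i _ h0
        exact ⟨c, fun _ => hc⟩
      · exact ⟨0, fun h => absurd h h0⟩
    choose c hc using h1
    refine ⟨ψ (uMk _ c), ?_⟩
    rw [← hal, uMk_eq]
    filter_upwards [hy] with i hi
    exact hc i hi
  · rw [RingHom.comp_apply]
    change ψ (uMk (fun _ => ℂ) c) = 0 ↔ _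
    rw [map_eq_zero_iff ψ ψ.injective, uMk_eq_zero]

/-! ### Polynomials -/

/-- the limit of a sequence of polynomials with exponents in `T` -/
noncomputable def limT (θ : (ℕ → ℂ) →+* ℂ) {N : ℕ} (T : Finset (Fin N →₀ ℕ))
    (F : ℕ → MvPolynomial (Fin N) ℂ) : MvPolynomial (Fin N) ℂ :=
  ∑ m ∈ T, monomial m (θ fun i => (F i).coeff m)

/-- the exponents of degree at most `D` -/
noncomputable def TD (N D : ℕ) : Finset (Fin N →₀ ℕ) :=
  (Finset.range (D + 1)).biUnion fun e => Finset.finsuppAntidiag Finset.univ e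

theorem mem_TD {N D : ℕ} {m : Fin N →₀ ℕ} : m ∈ TD N D ↔ ∑ j, m j ≤ D := by
  unfold TD
  rw [Finset.mem_biUnion]
  constructor
  · rintro ⟨e, he, hm⟩
    rw [Finset.mem_finsuppAntidiag] at hm
    have := Finset.mem_range.1 he
    rw [hm.1]
    omega
  · intro h
    refine ⟨∑ j, m j, Finset.mem_range.2 (by omega), ?_⟩
    rw [Finset.mem_finsuppAntidiag]
    exact ⟨rfl, Finset.subset_univ _⟩

theorem support_TD {N D : ℕ} {F : MvPolynomial (Fin N) ℂ} (h : F.totalDegree ≤ D) :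
    F.support ⊆ TD N D := by
  intro m hm
  rw [mem_TD]
  have h1 := le_totalDegree hm
  rw [Finsupp.sum_fintype _ _ (fun _ => rfl)] at h1
  exact h1.trans h

section lim

variable {K : ℕ → Type} [∀ i, Field (K i)] [∀ i, Algebra ℂ (K i)] {K' : Type} [Field K']
  [Algebra ℂ K'] {π : (∀ i, K i) →+* K'} {θ : (ℕ → ℂ) →+* ℂ} {N : ℕ}

theorem aeval_limT (hal : ∀ c : ℕ → ℂ, π (fun i => algebraMap ℂ (K i) (c i)) =
      algebraMap ℂ K' (θ c))
    (hker : ∀ x, π x = 0 ↔ ∀ᶠ i in (hyperfilter ℕ : Filter ℕ), x i = 0)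
    {T : Finset (Fin N →₀ ℕ)} {F : ℕ → MvPolynomial (Fin N) ℂ}
    (hF : ∀ᶠ i in (hyperfilter ℕ : Filter ℕ), (F i).support ⊆ T) (x : ∀ i, Fin N → K i) :
    aeval (fun j => π fun i => x i j) (limT θ T F) = π fun i => aeval (x i) (F i) := by
  have h1 : π (fun i => aeval (x i) (F i)) =
      π (fun i => ∑ m ∈ T, algebraMap ℂ (K i) ((F i).coeff m) * ∏ j, x i j ^ m j) := by
    rw [← sub_eq_zero, ← map_sub, hker]
    filter_upwards [hF] with i hi
    change aeval (x i) (F i) - ∑ m ∈ T, algebraMap ℂ (K i) ((F i).coeff m) * ∏ j, x i j ^ m j = 0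
    rw [sub_eq_zero, aeval_def, eval₂_eq']
    exact Finset.sum_subset hi fun m _ hm => by rw [notMem_support_iff.1 hm, map_zero, zero_mul]
  have h2 : (fun i => ∑ m ∈ T, algebraMap ℂ (K i) ((F i).coeff m) * ∏ j, x i j ^ m j) =
      ∑ m ∈ T, (fun i => algebraMap ℂ (K i) ((F i).coeff m)) *
        ∏ j, (fun i => x i j) ^ m j := by
    funext i
    rw [Finset.sum_apply]
    refine Finset.sum_congr rfl fun m _ => ?_
    rw [Pi.mul_apply, Finset.prod_apply]
    rfl
  rw [h1, h2, map_sum]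
  unfold limT
  rw [map_sum]
  refine Finset.sum_congr rfl fun m _ => ?_
  rw [aeval_monomial, Finsupp.prod_fintype _ _ (fun _ => pow_zero _), map_mul, hal, map_prod]
  simp only [map_pow]

theorem limT_homog (hk : ∀ c : ℕ → ℂ, θ c = 0 ↔ ∀ᶠ i in (hyperfilter ℕ : Filter ℕ), c i = 0)
    {T : Finset (Fin N →₀ ℕ)} {F : ℕ → MvPolynomial (Fin N) ℂ} {e : ℕ}
    (hF : ∀ᶠ i in (hyperfilter ℕ : Filter ℕ), (F i).IsHomogeneous e) :
    (limT θ T F).IsHomogeneous e := by
  unfold limT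
  refine IsHomogeneous.sum _ _ _ fun m _ => ?_
  by_cases hm : ∑ j, m j = e
  · refine isHomogeneous_monomial _ ?_
    rw [Finsupp.degree_eq_sum]
    exact hm
  · have h0 : θ (fun i => (F i).coeff m) = 0 := by
      rw [hk]
      filter_upwards [hF] with i hi
      by_contra hne
      apply hm
      have h4 := hi hne
      rw [← h4, Finsupp.weight_apply, Finsupp.sum_fintype _ _ (fun _ => by simp)]
      simp
    rw [h0, monomial_zero]
    exact isHomogeneous_zero _ _ _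

end lim

/-! ### Curves -/

section los

variable {θ : (ℕ → ℂ) →+* ℂ} {N : ℕ}

/-- representatives of polynomial vectors -/
theorem exists_rep (hs : Function.Surjective θ) {d0 : ℕ} (p : Fin N → Polynomial ℂ)
    (hd : ∀ j, (p j).natDegree ≤ d0) :
    ∃ pp : ℕ → Fin N → Polynomial ℂ, (∀ i j, (pp i j).natDegree ≤ d0) ∧
      ∀ (t : ℕ → ℂ) j, (p j).eval (θ t) = θ fun i => (pp i j).eval (t i) := by
  choose c hc using fun (j : Fin N) (a : ℕ) => hs ((p j).coeff a)
  refine ⟨fun i j => ∑ a ∈ Finset.range (d0 + 1), Polynomial.C (c j a i) * Polynomial.X ^ a,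
    fun i j => ?_, fun t j => ?_⟩
  · refine Polynomial.natDegree_sum_le_of_forall_le _ _ fun a ha => ?_
    have := Finset.mem_range.1 ha
    exact (Polynomial.natDegree_C_mul_X_pow_le _ _).trans (by omega)
  · have h1 : (fun i => (∑ a ∈ Finset.range (d0 + 1),
        Polynomial.C (c j a i) * Polynomial.X ^ a : Polynomial ℂ).eval (t i)) =
        ∑ a ∈ Finset.range (d0 + 1), c j a * t ^ a := by
      funext i
      rw [Polynomial.eval_finsetSum, Finset.sum_apply]
      refine Finset.sum_congr rfl fun a _ => ?_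
      rw [Polynomial.eval_mul, Polynomial.eval_C, Polynomial.eval_pow, Polynomial.eval_X]
      rfl
    rw [h1, map_sum, Polynomial.eval_eq_sum_range' (n := d0 + 1) (by have := hd j; omega)]
    refine Finset.sum_congr rfl fun a _ => ?_
    rw [map_mul, map_pow, hc]

theorem eval_limT (hk : ∀ c : ℕ → ℂ, θ c = 0 ↔ ∀ᶠ i in (hyperfilter ℕ : Filter ℕ), c i = 0)
    {T : Finset (Fin N →₀ ℕ)} {F : ℕ → MvPolynomial (Fin N) ℂ}
    (hF : ∀ᶠ i in (hyperfilter ℕ : Filter ℕ), (F i).support ⊆ T) (x : ℕ → Fin N → ℂ) :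
    eval (fun j => θ fun i => x i j) (limT θ T F) = θ fun i => eval (x i) (F i) := by
  have h1 := aeval_limT (K := fun _ => ℂ) (K' := ℂ) (π := θ) (θ := θ) (fun c => rfl) hk hF x
  rw [aeval_ev] at h1
  rw [h1]
  congr 1

theorem poly_eval {k : Type} [Field k] (p : Fin N → Polynomial k) (F : MvPolynomial (Fin N) k)
    (w : k) : (aeval p F).eval w = eval (fun j => (p j).eval w) F := by
  have h2 := MvPolynomial.comp_aeval_apply (f := p) (Polynomial.aeval w : Polynomial k →ₐ[k] k) F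
  rw [Polynomial.coe_aeval_eq_eval] at h2
  rw [h2, aeval_ev]

/-- **Transfer of rational curves from the limit.** -/
theorem los_curve (hs : Function.Surjective θ)
    (hk : ∀ c : ℕ → ℂ, θ c = 0 ↔ ∀ᶠ i in (hyperfilter ℕ : Filter ℕ), c i = 0) {d0 : ℕ}
    (p : Fin N → Polynomial ℂ) (hd : ∀ j, (p j).natDegree ≤ d0) (hnc : NonC p)
    {S : ℕ → Set (MvPolynomial (Fin N) ℂ)} {T : Finset (Fin N →₀ ℕ)}
    (hST : ∀ i, ∀ F ∈ S i, F.support ⊆ T)
    (hS : ∀ F : ℕ → MvPolynomial (Fin N) ℂ,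
      (∀ᶠ i in (hyperfilter ℕ : Filter ℕ), F i ∈ S i) → aeval p (limT θ T F) = 0)
    {T' : Finset (Fin N →₀ ℕ)} {G : ℕ → MvPolynomial (Fin N) ℂ}
    (hGT : ∀ᶠ i in (hyperfilter ℕ : Filter ℕ), (G i).support ⊆ T')
    (hG : aeval p (limT θ T' G) ≠ 0) :
    ∀ᶠ i in (hyperfilter ℕ : Filter ℕ), ∃ q : Fin N → Polynomial ℂ,
      (∀ j, (q j).natDegree ≤ d0) ∧ (∀ F ∈ S i, aeval q F = 0) ∧ NonC q ∧
        (aeval q (G i) ≠ 0) ∧ ∀ j a, a ≤ d0 → p j = Polynomial.X ^ a → q j = Polynomial.X ^ a := by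
  classical
  obtain ⟨pp, hpp1, hpp2⟩ := exists_rep hs p hd
  have hkey : ∀ (T : Finset (Fin N →₀ ℕ)) (F : ℕ → MvPolynomial (Fin N) ℂ),
      (∀ᶠ i in (hyperfilter ℕ : Filter ℕ), (F i).support ⊆ T) → ∀ t : ℕ → ℂ,
        (aeval p (limT θ T F)).eval (θ t) = θ fun i => (aeval (pp i) (F i)).eval (t i) := by
    intro T F hF t
    rw [poly_eval]
    simp only [hpp2]
    rw [eval_limT hk hF fun i j => (pp i j).eval (t i)]
    congr 1
    funext i
    exact (poly_eval _ _ _).symm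
  have hA : ∀ᶠ i in (hyperfilter ℕ : Filter ℕ), ∀ F ∈ S i, aeval (pp i) F = 0 := by
    by_contra hno
    have h1 : ∀ᶠ i in (hyperfilter ℕ : Filter ℕ), ¬ ∀ F ∈ S i, aeval (pp i) F = 0 :=
      Ultrafilter.eventually_not.2 hno
    have h2 : ∀ i, ∃ F, (¬ ∀ F ∈ S i, aeval (pp i) F = 0) → F ∈ S i ∧ aeval (pp i) F ≠ 0 := by
      intro i
      by_cases h : ∀ F ∈ S i, aeval (pp i) F = 0
      · exact ⟨0, fun h' => absurd h h'⟩
      · push Not at h
        obtain ⟨F, hF⟩ := h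
        exact ⟨F, fun _ => hF⟩
    choose F hF using h2
    have h3 : ∀ i, ∃ t : ℂ, aeval (pp i) (F i) ≠ 0 → (aeval (pp i) (F i)).eval t ≠ 0 := by
      intro i
      by_cases h : aeval (pp i) (F i) = 0
      · exact ⟨0, fun h' => absurd h h'⟩
      · by_contra hcon
        push Not at hcon
        exact h (Polynomial.funext fun t => by rw [(hcon t).2, Polynomial.eval_zero])
    choose t ht using h3
    have h4 : ∀ᶠ i in (hyperfilter ℕ : Filter ℕ), F i ∈ S i := by
      filter_upwards [h1] with i hi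
      exact (hF i hi).1
    have h5 := hkey T F (by
      filter_upwards [h4] with i hi
      exact hST i _ hi) t
    rw [hS F h4, Polynomial.eval_zero] at h5
    have h6 := (hk _).1 h5.symm
    obtain ⟨i, h7, h8⟩ := (h6.and h1).exists
    exact ht i (hF i h8).2 h7
  have hB : ∀ᶠ i in (hyperfilter ℕ : Filter ℕ), aeval (pp i) (G i) ≠ 0 := by
    obtain ⟨t0, ht0⟩ : ∃ t, (aeval p (limT θ T' G)).eval t ≠ 0 := by
      by_contra hcon
      push Not at hcon
      exact hG (Polynomial.funext fun t => by rw [hcon t, Polynomial.eval_zero])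
    obtain ⟨t, rfl⟩ := hs t0
    rw [hkey T' G hGT t] at ht0
    have h1 : ¬ ∀ᶠ i in (hyperfilter ℕ : Filter ℕ), (aeval (pp i) (G i)).eval (t i) = 0 :=
      fun h => ht0 ((hk _).2 h)
    filter_upwards [Ultrafilter.eventually_not.2 h1] with i hi h0
    rw [h0, Polynomial.eval_zero] at hi
    exact hi rfl
  have hCn : ∀ᶠ i in (hyperfilter ℕ : Filter ℕ), NonC (pp i) := by
    obtain ⟨s0, t0, a, b, hst⟩ := hnc
    obtain ⟨s, rfl⟩ := hs s0
    obtain ⟨t, rfl⟩ := hs t0
    have h1 : ¬ ∀ᶠ i in (hyperfilter ℕ : Filter ℕ), (pp i a).eval (s i) * (pp i b).eval (t i) -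
        (pp i b).eval (s i) * (pp i a).eval (t i) = 0 := by
      intro h
      apply hst
      have h2 := (hk (fun i => (pp i a).eval (s i) * (pp i b).eval (t i) -
        (pp i b).eval (s i) * (pp i a).eval (t i))).2 h
      have h3 : (fun i => (pp i a).eval (s i) * (pp i b).eval (t i) -
          (pp i b).eval (s i) * (pp i a).eval (t i)) =
          (fun i => (pp i a).eval (s i)) * (fun i => (pp i b).eval (t i)) -
            (fun i => (pp i b).eval (s i)) * (fun i => (pp i a).eval (t i)) := rfl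
      rw [h3, map_sub, map_mul, map_mul, ← hpp2, ← hpp2, ← hpp2, ← hpp2] at h2
      exact sub_eq_zero.1 h2
    filter_upwards [Ultrafilter.eventually_not.2 h1] with i hi
    exact ⟨s i, t i, a, b, fun h => hi (sub_eq_zero.2 h)⟩
  have hM : ∀ j a, a ≤ d0 → p j = Polynomial.X ^ a →
      ∀ᶠ i in (hyperfilter ℕ : Filter ℕ), pp i j = Polynomial.X ^ a := by
    intro j a ha hj
    by_contra hno
    have h1 : ∀ᶠ i in (hyperfilter ℕ : Filter ℕ), ¬ pp i j = Polynomial.X ^ a :=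
      Ultrafilter.eventually_not.2 hno
    have h3 : ∀ i, ∃ t : ℂ, pp i j ≠ Polynomial.X ^ a → (pp i j).eval t ≠ t ^ a := by
      intro i
      by_cases h : pp i j = Polynomial.X ^ a
      · exact ⟨0, fun h' => absurd h h'⟩
      · by_contra hcon
        push Not at hcon
        exact h (Polynomial.funext fun t => by
          rw [(hcon t).2, Polynomial.eval_pow, Polynomial.eval_X])
    choose t ht using h3
    have h4 := hpp2 t j
    rw [hj, Polynomial.eval_pow, Polynomial.eval_X, ← map_pow, ← sub_eq_zero, ← map_sub] at h4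
    have h5 := (hk _).1 h4
    obtain ⟨i, h6, h7⟩ := (h5.and h1).exists
    apply ht i h7
    have h8 : t i ^ a - (pp i j).eval (t i) = 0 := h6
    exact (sub_eq_zero.1 h8).symm
  have hM' : ∀ᶠ i in (hyperfilter ℕ : Filter ℕ), ∀ j, ∀ a ∈ Finset.range (d0 + 1),
      p j = Polynomial.X ^ a → pp i j = Polynomial.X ^ a := by
    rw [eventually_all]
    intro j
    rw [Filter.eventually_all_finset]
    intro a ha
    by_cases hj : p j = Polynomial.X ^ a
    · filter_upwards [hM j a (by have := Finset.mem_range.1 ha; omega) hj] with i hi _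
      exact hi
    · exact Eventually.of_forall fun i h => absurd h hj
  filter_upwards [hA, hB, hCn, hM'] with i h1 h2 h3 h4
  exact ⟨pp i, hpp1 i, h1, h3, h2, fun j a ha hj => h4 j a (Finset.mem_range.2 (by omega)) hj⟩

end los

end Pool.Agent.Q1.SL
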