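import Pool.Agent.Q1.SL.DMain
import Pool.Agent.Y377.EL.Main

/-!
Curves given by iterated linear differential equations of bounded complexity.
-/

set_option autoImplicit false

namespace Pool.Agent.Q1.SL

open Filter Set MvPolynomial Pool.Agent.TH143 Pool.Agent.Y377.EL Pool.Agent.Y377.IL
  Pool.Agent.Y377.ST Pool.Agent.H533R3.SL

/-- `X_1(z), ..., X_s(z)` are matrices of size `r` of functions which are analytic on `Ω`, invertible
with inverses `Y_l(z)`, such that the entries of `X_l'(z) X_l(z)⁻¹` are, for all `z` in `Ω`, the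
values of polynomials with complex coefficients, of degree at most `e` in each variable, at the
entries of `X_i(z)` and `X_i(z)⁻¹`, `i < l`. -/
structure DIter (Ω : Set ℂ) {s r : ℕ} (e : ℕ) (X Y : Fin s → ℂ → Matrix (Fin r) (Fin r) ℂ) :
    Prop where
  an : ∀ l i j, AnalyticOnNhd ℂ (fun z => X l z i j) Ω
  an' : ∀ l i j, AnalyticOnNhd ℂ (fun z => Y l z i j) Ω
  inv : ∀ l, ∀ z ∈ Ω, X l z * Y l z = 1
  coc : ∀ (l : Fin s) (i j : Fin r), ∃ c : (Ix s r → Fin (e + 1)) → ℂ, ∀ z ∈ Ω,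
    ∑ k, deriv (fun w => X l w i k) z * Y l z k j = pev c (before l (entries X Y z))

/-- The coordinates of `f(z)` are, on `Ω`, the values of polynomials of degree at most `e` in each
variable at the entries of `X_1(z), X_1(z)⁻¹, ..., X_s(z), X_s(z)⁻¹`, for matrices `X_l` of size `r`
as in `DIter`. -/
def DVec (Ω : Set ℂ) {n : ℕ} (s r e : ℕ) (f : ℂ → Fin n → ℂ) : Prop :=
  ∃ X Y : Fin s → ℂ → Matrix (Fin r) (Fin r) ℂ, DIter Ω e X Y ∧
    ∀ j, ∃ c : (Ix s r → Fin (e + 1)) → ℂ, ∀ z ∈ Ω, f z j = pev c (entries X Y z)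

section curve

variable {Ω : Set ℂ} {s r e n : ℕ}

theorem pev_an {ι : Type} [Fintype ι] [DecidableEq ι] (c : (ι → Fin (e + 1)) → ℂ)
    {w : ℂ → ι → ℂ} (hw : ∀ i, AnalyticOnNhd ℂ (fun z => w z i) Ω) :
    AnalyticOnNhd ℂ (fun z => pev c (w z)) Ω := by
  unfold pev
  intro z hz
  refine Finset.analyticAt_fun_sum _ fun m _ => ?_
  exact analyticAt_const.mul (Finset.analyticAt_fun_prod _ fun i _ => (hw i z hz).pow _)

theorem DIter.ent {X Y : Fin s → ℂ → Matrix (Fin r) (Fin r) ℂ} (hX : DIter Ω e X Y)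
    (v : Ix s r) : AnalyticOnNhd ℂ (fun z => entries X Y z v) Ω := by
  unfold entries
  by_cases hb : v.2.1 = true
  · simp only [if_pos hb]
    exact hX.an _ _ _
  · simp only [if_neg hb]
    exact hX.an' _ _ _

theorem DIter.bef {X Y : Fin s → ℂ → Matrix (Fin r) (Fin r) ℂ} (hX : DIter Ω e X Y) (l : Fin s)
    (v : Ix s r) : AnalyticOnNhd ℂ (fun z => before l (entries X Y z) v) Ω := by
  unfold before
  by_cases hb : v.1 < l
  · simp only [if_pos hb]
    exact hX.ent v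
  · simp only [if_neg hb]
    exact analyticOnNhd_const

theorem DVec.an {f : ℂ → Fin n → ℂ} (hΩ : IsOpen Ω) (hf : DVec Ω s r e f) (j : Fin n) :
    AnalyticOnNhd ℂ (fun z => f z j) Ω := by
  obtain ⟨X, Y, hX, hc⟩ := hf
  obtain ⟨c, hc⟩ := hc j
  exact (pev_an c hX.ent).congr hΩ fun z hz => (hc z hz).symm

variable {K : Type} [Field K] [Algebra ℂ K] {D : Derivation ℂ K K} {A : Subalgebra ℂ K}
  {i : Hol Ω →ₐ[ℂ] K}

theorem i_pev (i : Hol Ω →ₐ[ℂ] K) {ι : Type} [Fintype ι] [DecidableEq ι]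
    (c : (ι → Fin (e + 1)) → ℂ) {w : ℂ → ι → ℂ}
    (hw : ∀ i, AnalyticOnNhd ℂ (fun z => w z i) Ω) {F : ℂ → ℂ} (hF : AnalyticOnNhd ℂ F Ω)
    (h : ∀ z ∈ Ω, F z = pev c (w z)) :
    i (toHol F hF) = pev (fun m => algebraMap ℂ K (c m)) (fun v => i (toHol _ (hw v))) := by
  have h1 : toHol F hF =
      pev (fun m => algebraMap ℂ (Hol Ω) (c m)) (fun v => toHol _ (hw v)) := by
    apply hol_ext
    intro z
    rw [evz_toHol, h z z.2]
    have h2 := map_pev (evz z : Hol Ω →+* ℂ) (fun m => algebraMap ℂ (Hol Ω) (c m))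
      (fun v => toHol _ (hw v))
    refine Eq.trans ?_ h2.symm
    rfl
  rw [h1]
  have h2 := map_pev (i : Hol Ω →+* K) (fun m => algebraMap ℂ (Hol Ω) (c m))
    (fun v => toHol _ (hw v))
  refine h2.trans ?_
  congr 1
  funext m
  exact i.commutes (c m)

theorem der_hol (hA : Amb Ω K D A i) {F : ℂ → ℂ} (hF : AnalyticOnNhd ℂ F Ω) :
    D (i (toHol F hF)) = i (toHol (deriv F) hF.deriv) :=
  hA.der _ _ _ _ fun z hz => (hF z hz).differentiableAt.hasDerivAt

theorem ent_hol (i : Hol Ω →ₐ[ℂ] K) {X Y : Fin s → ℂ → Matrix (Fin r) (Fin r) ℂ}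
    (hX : DIter Ω e X Y) (v : Ix s r) :
    entD (fun l => Matrix.of fun a b => i (toHol _ (hX.an l a b)))
      (fun l => Matrix.of fun a b => i (toHol _ (hX.an' l a b))) v =
      i (toHol _ (hX.ent v)) := by
  by_cases hb : v.2.1 = true
  · have h1 : (fun z => entries X Y z v) = fun z => X v.1 z v.2.2.1 v.2.2.2 := by
      funext z
      unfold entries
      rw [if_pos hb]
    have h2 : toHol _ (hX.ent v) = toHol _ (hX.an v.1 v.2.2.1 v.2.2.2) :=
      hol_ext fun z => congrFun h1 z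
    rw [h2]
    unfold entD entries
    rw [if_pos hb]
    rfl
  · have h1 : (fun z => entries X Y z v) = fun z => Y v.1 z v.2.2.1 v.2.2.2 := by
      funext z
      unfold entries
      rw [if_neg hb]
    have h2 : toHol _ (hX.ent v) = toHol _ (hX.an' v.1 v.2.2.1 v.2.2.2) :=
      hol_ext fun z => congrFun h1 z
    rw [h2]
    unfold entD entries
    rw [if_neg hb]
    rfl

theorem DVec.toF (hΩ : IsOpen Ω) (hA : Amb Ω K D A i) {f : ℂ → Fin n → ℂ}
    (hf : DVec Ω s r e f) : DVecF D s r e fun j => i (toHol _ (hf.an hΩ j)) := by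
  obtain ⟨X, Y, hX, hc⟩ := id hf
  refine ⟨fun l => Matrix.of fun a b => i (toHol _ (hX.an l a b)),
    fun l => Matrix.of fun a b => i (toHol _ (hX.an' l a b)), ⟨fun l => ?_, fun l a b => ?_⟩,
    fun j => ?_⟩
  · ext a b
    rw [Matrix.mul_apply]
    simp only [Matrix.of_apply, ← map_mul, ← map_sum]
    have h1 : (∑ k, toHol _ (hX.an l a k) * toHol _ (hX.an' l k b)) =
        if a = b then 1 else 0 := by
      apply hol_ext
      intro z
      rw [map_sum]
      simp only [map_mul, evz_toHol]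
      have h2 := congrFun (congrFun (hX.inv l z z.2) a) b
      rw [Matrix.mul_apply] at h2
      rw [h2, Matrix.one_apply]
      split_ifs
      · exact (map_one _).symm
      · exact (map_zero _).symm
    rw [h1, Matrix.one_apply]
    split_ifs
    · exact map_one i
    · exact map_zero i
  · obtain ⟨c, hc'⟩ := hX.coc l a b
    refine ⟨c, ?_⟩
    have hFa : AnalyticOnNhd ℂ (fun z => ∑ k, deriv (fun w => X l w a k) z * Y l z k b) Ω := by
      intro z hz
      exact Finset.analyticAt_fun_sum _ fun k _ => ((hX.an l a k).deriv z hz).mul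
        (hX.an' l k b z hz)
    have h1 : i (toHol _ hFa) =
        ∑ k, D (i (toHol _ (hX.an l a k))) * i (toHol _ (hX.an' l k b)) := by
      simp only [der_hol hA, ← map_mul, ← map_sum]
      congr 1
      apply hol_ext
      intro z
      rw [map_sum]
      simp only [map_mul, evz_toHol]
    simp only [Matrix.of_apply]
    rw [← h1, i_pev i c (hX.bef l) hFa hc']
    congr 1
    funext v
    unfold before
    by_cases hb : v.1 < l
    · simp only [if_pos hb]
      rw [ent_hol i hX v]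
    · simp only [if_neg hb]
      have h3 : toHol (fun _ => (0 : ℂ)) (analyticOnNhd_const (𝕜 := ℂ) (s := Ω)) = 0 :=
        hol_ext fun z => (map_zero (evz z)).symm
      rw [h3, map_zero]
  · obtain ⟨c, hc'⟩ := hc j
    refine ⟨c, ?_⟩
    change i (toHol _ (hf.an hΩ j)) = _
    rw [i_pev i c hX.ent (hf.an hΩ j) hc']
    congr 1
    funext v
    exact (ent_hol i hX v).symm

/-- the Wronskians of a nonconstant curve -/
theorem exists_cross (hΩ : IsOpen Ω) (hΩc : IsPreconnected Ω) (hA : Amb Ω K D A i)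
    {f : ℂ → Fin n → ℂ} (hf : ∀ j, AnalyticOnNhd ℂ (fun z => f z j) Ω)
    (hnc : ∃ z ∈ Ω, ∃ w ∈ Ω, ∃ u v, f z u * f w v ≠ f z v * f w u) :
    ∃ u v, D (i (toHol _ (hf u))) * i (toHol _ (hf v)) ≠
      i (toHol _ (hf u)) * D (i (toHol _ (hf v))) := by
  by_contra hcon
  push Not at hcon
  obtain ⟨z0, hz0, w0, hw0, u0, v0, hne⟩ := hnc
  obtain ⟨v, hv⟩ : ∃ v, f z0 v ≠ 0 := by
    by_contra h1
    push Not at h1
    apply hne
    rw [h1 u0, h1 v0, zero_mul, zero_mul]
  have h1 : ∀ u, ∃ c : ℂ, ∀ z ∈ Ω, f z u = c * f z v := by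
    intro u
    refine wronskian_const hΩ hΩc (hf u) (hf v) ⟨z0, hz0, hv⟩ ?_
    intro z hz
    have h2 := hcon u v
    rw [der_hol hA, der_hol hA, ← map_mul, ← map_mul] at h2
    have h3 := congrArg (evz (⟨z, hz⟩ : Ω)) (hA.inj h2)
    rw [map_mul, map_mul] at h3
    exact h3
  choose c hc using h1
  apply hne
  rw [hc u0 z0 hz0, hc v0 w0 hw0, hc v0 z0 hz0, hc u0 w0 hw0]
  ring

end curve

/-- **One closed set for all curves given by iterated linear differential equations of bounded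
complexity.** -/
theorem strong_curves {k : Type} [Field k] [Countable k] {n : ℕ}
    (FF : Set (MvPolynomial (Fin (n + 1)) k)) (hhom : ∀ F ∈ FF, ∃ e, F.IsHomogeneous e)
    (hprime : (Ideal.span FF).IsPrime) (hnu : ¬ Uniruled (Ideal.span FF)) (s r e : ℕ) :
    ∃ G : MvPolynomial (Fin (n + 1)) k, (∃ d, G.IsHomogeneous d) ∧ G ∉ Ideal.span FF ∧
      ∀ (σ : k →+* ℂ) (Ω : Set ℂ), IsOpen Ω → IsPreconnected Ω → ∀ f : ℂ → Fin (n + 1) → ℂ,
        DVec Ω s r e f → (∀ z ∈ Ω, ∀ F ∈ FF, eval₂ σ (f z) F = 0) →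
        (∃ z ∈ Ω, ∃ w ∈ Ω, ∃ u v, f z u * f w v ≠ f z v * f w u) →
          ∀ z ∈ Ω, eval₂ σ (f z) G = 0 := by
  obtain ⟨G, hG1, hG2, hG3⟩ := strong_diff FF hhom hprime hnu s r e
  refine ⟨G, hG1, hG2, ?_⟩
  intro σ Ω hΩ hΩc f hf hF hnc
  obtain ⟨K, _, _, D, A, i, hA⟩ := exists_amb hΩ hΩc ⟨_, hnc.choose_spec.1⟩
  have hC : Cst D := hA.con
  have h1 := hG3 σ K D hC _ (hf.toF hΩ hA) (fun F hFF => ?_)
    (exists_cross hΩ hΩc hA (fun j => hf.an hΩ j) hnc)
  · rw [← eval₂_map] at h1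
    have h2 := (vanish_iff hA.inj (f := f) (fun j => hf.an hΩ j) (map σ G)).1 h1
    intro z hz
    have h3 := h2 z hz
    rwa [eval_map] at h3
  · rw [← eval₂_map]
    refine (vanish_iff hA.inj (f := f) (fun j => hf.an hΩ j) (map σ F)).2 ?_
    intro z hz
    rw [eval_map]
    exact hF z hz F hFF

end Pool.Agent.Q1.SL
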