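import Pool.Agent.Q1.SL.DTow
import Pool.Agent.Y377.IL.All
import Pool.Agent.Y377.ST.Main
import Pool.Agent.Y837.ST.Uni

/-!
Points over differential fields given by iterated linear differential equations of bounded
complexity on varieties which are not uniruled.
-/

set_option autoImplicit false

namespace Pool.Agent.Q1.SL

open Filter MvPolynomial Pool.Agent.Y377.IL Pool.Agent.Y377.ST Pool.Agent.H533R3.SL

/-- a rational curve through the point -/
theorem rat_pointD {K : Type} [Field K] [Algebra ℂ K] {D : Derivation ℂ K K} (hC : Cst D)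
    {s r e n : ℕ} {x : Fin (n + 1) → K} (hx : DVecF D s r e x) {u v : Fin (n + 1)}
    (huv : D (x u) * x v ≠ x u * D (x v)) :
    ∃ (M : Type) (_ : Field M) (_ : Algebra ℂ M) (q : Fin (n + 1) → RatFunc M),
      (∀ (G : MvPolynomial (Fin (n + 1)) ℂ) (d : ℕ), G.IsHomogeneous d →
        (aeval q G = 0 ↔ aeval x G = 0)) ∧
      ∃ i l, q l ≠ 0 ∧ ∀ c : M, q i / q l ≠ algebraMap M (RatFunc M) c := by
  classical
  obtain ⟨R, hR, hmem⟩ := hx.tow
  have hv : x v ≠ 0 := by
    intro h0
    apply huv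
    rw [h0, map_zero, mul_zero, mul_zero]
  let t : Finset K := Finset.univ.image fun j => x j / x v
  have hF : RatFam R t := by
    refine hyp.main hC (goodB_bot D) hR (fun a ha => ?_) ?_
    · obtain ⟨j, -, rfl⟩ := Finset.mem_image.1 ha
      exact fracs_mem (hmem j) (hmem v)
    · by_contra hcon
      push Not at hcon
      obtain ⟨c, hc⟩ := const_of_alg (hcon (x u / x v)
        (Finset.mem_image.2 ⟨u, Finset.mem_univ u, rfl⟩))
      rw [div_eq_iff hv] at hc
      apply huv
      rw [hc, ← Algebra.smul_def, D.map_smul, Algebra.smul_def, Algebra.smul_def]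
      ring
  obtain ⟨S0, M, i1, i2, φ, -, h2, -, ⟨z, hz, hzc⟩, -⟩ := hF
  have hm : ∀ j, x j / x v ∈ frac S0 := fun j =>
    h2 _ (Finset.mem_image_of_mem _ (Finset.mem_univ j))
  let w : Fin (n + 1) → frac S0 := fun j => ⟨x j / x v, hm j⟩
  have h1w : w v = 1 := Subtype.ext (div_self hv)
  refine ⟨M, i1, i2, fun j => φ (w j), fun G d hG => ?_, ?_⟩
  · have h3 : aeval (fun j => φ (w j)) G = φ (aeval w G) :=
      (MvPolynomial.comp_aeval_apply (f := w) φ G).symm
    have h4 : ((aeval w G : frac S0) : K) = aeval (fun j => x j / x v) G :=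
      MvPolynomial.comp_aeval_apply (f := w) (frac S0).val G
    rw [h3, map_eq_zero_iff φ φ.toRingHom.injective, ← Subtype.coe_inj, h4]
    change aeval (fun j => x j / x v) G = 0 ↔ _
    exact form_div hG x hv
  · obtain ⟨i, -, hi⟩ := Finset.mem_image.1 hz
    refine ⟨i, v, ?_, fun c hc => hzc c ?_⟩
    · change φ (w v) ≠ 0
      rw [h1w, map_one]
      exact one_ne_zero
    · have h4 : w i = z := Subtype.ext hi
      change φ (w i) / φ (w v) = _ at hc
      rw [h1w, map_one, div_one, h4] at hc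
      exact hc

/-- **One closed set for all points given by iterated linear differential equations of bounded
complexity.** -/
theorem strong_diff {k : Type} [Field k] [Countable k] {n : ℕ}
    (FF : Set (MvPolynomial (Fin (n + 1)) k)) (hhom : ∀ F ∈ FF, ∃ e, F.IsHomogeneous e)
    (hprime : (Ideal.span FF).IsPrime) (hnu : ¬ Uniruled (Ideal.span FF)) (s r e : ℕ) :
    ∃ G : MvPolynomial (Fin (n + 1)) k, (∃ d, G.IsHomogeneous d) ∧ G ∉ Ideal.span FF ∧
      ∀ (σ : k →+* ℂ) (K : Type) [Field K] [Algebra ℂ K] (D : Derivation ℂ K K), Cst D →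
        ∀ x : Fin (n + 1) → K, DVecF D s r e x →
        (∀ F ∈ FF, eval₂ ((algebraMap ℂ K).comp σ) x F = 0) →
        (∃ u v, D (x u) * x v ≠ x u * D (x v)) → eval₂ ((algebraMap ℂ K).comp σ) x G = 0 := by
  classical
  by_contra hcon
  have hC : ∀ G : MvPolynomial (Fin (n + 1)) k, (∃ d, G.IsHomogeneous d) → G ∉ Ideal.span FF →
      ∃ (σ : k →+* ℂ) (K : Type) (_ : Field K) (_ : Algebra ℂ K) (D : Derivation ℂ K K)
        (x : Fin (n + 1) → K), Cst D ∧ DVecF D s r e x ∧
        (∀ F ∈ FF, eval₂ ((algebraMap ℂ K).comp σ) x F = 0) ∧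
        (∃ u v, D (x u) * x v ≠ x u * D (x v)) ∧ eval₂ ((algebraMap ℂ K).comp σ) x G ≠ 0 := by
    intro G hG1 hG2
    by_contra h1
    refine hcon ⟨G, hG1, hG2, ?_⟩
    intro σ K _ _ D hCD x hx hF huv
    by_contra h2
    exact h1 ⟨σ, K, _, _, D, x, hCD, hx, hF, huv, h2⟩
  -- an enumeration of the forms
  let S : Type := {G : MvPolynomial (Fin (n + 1)) k // (∃ d, G.IsHomogeneous d) ∧
    G ∉ Ideal.span FF}
  have hcs : Countable (MvPolynomial (Fin (n + 1)) k) := by
    rw [← Cardinal.mk_le_aleph0_iff]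
    refine cardinalMk_le_max.trans ?_
    exact max_le (max_le (Cardinal.mk_le_aleph0_iff.2 inferInstance)
      (Cardinal.mk_le_aleph0_iff.2 inferInstance)) le_rfl
  have hne : Nonempty S := ⟨⟨1, ⟨0, isHomogeneous_one _ _⟩,
    fun h1 => hprime.ne_top ((Ideal.eq_top_iff_one _).2 h1)⟩⟩
  obtain ⟨en, hen⟩ := exists_surjective_nat S
  let Q : ℕ → MvPolynomial (Fin (n + 1)) k := fun i => ∏ j ∈ Finset.range (i + 1), (en j).1
  have hQ1 : ∀ i, ∃ d, (Q i).IsHomogeneous d := by
    intro i
    choose d hd using fun j => (en j).2.1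
    exact ⟨_, IsHomogeneous.prod _ _ d fun j _ => hd j⟩
  have hQ2 : ∀ i, Q i ∉ Ideal.span FF := by
    intro i h1
    obtain ⟨j, -, hj⟩ := (hprime.prod_mem_iff).1 h1
    exact (en j).2.2 hj
  choose σ K iK jK D x hCD hx hF huv hG using fun i => hC (Q i) (hQ1 i) (hQ2 i)
  obtain ⟨K', iK', jK', D', π, θ, hC', hD', hal, hker, hkθ⟩ := exists_ultra D hCD
  let σ' : k →+* ℂ := θ.comp (RingHom.pi σ)
  let x' : Fin (n + 1) → K' := fun j => π fun i => x i j
  have hx' : DVecF D' s r e x' := DVecF.ultra hD' hal hx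
  have key : ∀ F : MvPolynomial (Fin (n + 1)) k,
      eval₂ ((algebraMap ℂ K').comp σ') x' F =
        π fun i => eval₂ ((algebraMap ℂ (K i)).comp (σ i)) (x i) F := by
    intro F
    let τ : k →+* (∀ i, K i) := RingHom.pi fun i => (algebraMap ℂ (K i)).comp (σ i)
    have h1 := eval₂_comp_left π τ (fun j i => x i j) F
    have h2 : eval₂ τ (fun j i => x i j) F =
        fun i => eval₂ ((algebraMap ℂ (K i)).comp (σ i)) (x i) F := by
      funext i
      exact eval₂_comp_left (Pi.evalRingHom K i) τ (fun j i => x i j) F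
    rw [h2] at h1
    have h3 : π.comp τ = (algebraMap ℂ K').comp σ' := by
      ext c
      exact hal fun i => σ i c
    rw [h3] at h1
    exact h1.symm
  have hzero : ∀ F ∈ FF, eval₂ ((algebraMap ℂ K').comp σ') x' F = 0 := by
    intro F hFF
    rw [key]
    have h1 : (fun i => eval₂ ((algebraMap ℂ (K i)).comp (σ i)) (x i) F) = 0 :=
      funext fun i => hF i F hFF
    rw [h1, map_zero]
  have hnz : ∀ G : MvPolynomial (Fin (n + 1)) k, (∃ d, G.IsHomogeneous d) →
      G ∉ Ideal.span FF → eval₂ ((algebraMap ℂ K').comp σ') x' G ≠ 0 := by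
    intro G hG1 hG2 h0
    obtain ⟨j, hj⟩ := hen ⟨G, hG1, hG2⟩
    rw [key, hker] at h0
    have hge : ∀ᶠ i in (hyperfilter ℕ : Filter ℕ), j ≤ i := by
      have h1 : ∀ᶠ i : ℕ in cofinite, j ≤ i := by
        rw [Nat.cofinite_eq_atTop]
        exact eventually_ge_atTop j
      exact h1.filter_mono hyperfilter_le_cofinite
    obtain ⟨i, h5, hi⟩ := (h0.and hge).exists
    have h4 : (en j).1 ∣ Q i := Finset.dvd_prod_of_mem (fun j => (en j).1)
      (Finset.mem_range.2 (by omega))
    rw [hj] at h4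
    obtain ⟨G', hG'⟩ := h4
    apply hG i
    rw [hG', eval₂_mul]
    change eval₂ ((algebraMap ℂ (K i)).comp (σ i)) (x i) G * _ = 0
    rw [h5, zero_mul]
  have hcross : ∃ u v, D' (x' u) * x' v ≠ x' u * D' (x' v) := by
    choose u v huv using huv
    obtain ⟨⟨u0, v0⟩, h1⟩ : ∃ p : Fin (n + 1) × Fin (n + 1),
        ∀ᶠ i in (hyperfilter ℕ : Filter ℕ), (u i, v i) = p := by
      by_contra hno
      push Not at hno
      have h2 : ∀ p : Fin (n + 1) × Fin (n + 1),
          ∀ᶠ i in (hyperfilter ℕ : Filter ℕ), (u i, v i) ≠ p := fun p =>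
        hno p
      have h3 : ∀ᶠ i in (hyperfilter ℕ : Filter ℕ), ∀ p : Fin (n + 1) × Fin (n + 1),
          (u i, v i) ≠ p := eventually_all.2 h2
      obtain ⟨i, hi⟩ := h3.exists
      exact hi _ rfl
    refine ⟨u0, v0, fun h2 => ?_⟩
    have h3 : π (fun i => D i (x i u0) * x i v0 - x i u0 * D i (x i v0)) = 0 := by
      have h4 : (fun i => D i (x i u0) * x i v0 - x i u0 * D i (x i v0)) =
          (fun i => D i (x i u0)) * (fun i => x i v0) -
            (fun i => x i u0) * (fun i => D i (x i v0)) := rfl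
      rw [h4, map_sub, map_mul, map_mul, ← hD', ← hD']
      exact sub_eq_zero.2 h2
    rw [hker] at h3
    obtain ⟨i, h5, h6⟩ := (h3.and h1).exists
    apply huv i
    have h7 : u i = u0 := congrArg Prod.fst h6
    have h8 : v i = v0 := congrArg Prod.snd h6
    rw [h7, h8]
    exact sub_eq_zero.1 h5
  obtain ⟨u, v, huv'⟩ := hcross
  obtain ⟨M, j1, j2, q, hq1, hq2⟩ := rat_pointD hC' hx' huv'
  apply hnu
  let _ : Algebra k M := ((algebraMap ℂ M).comp σ').toAlgebra
  have hcz : CharZero M := charZero_of_injective_algebraMap (algebraMap ℂ M).injective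
  have hal' : algebraMap k (RatFunc M) = (algebraMap ℂ (RatFunc M)).comp σ' := by
    ext c
    rw [IsScalarTower.algebraMap_apply k M (RatFunc M), RingHom.comp_apply,
      IsScalarTower.algebraMap_apply ℂ M (RatFunc M)]
    rfl
  have hae : ∀ F : MvPolynomial (Fin (n + 1)) k, aeval q F = aeval q (map σ' F) := by
    intro F
    rw [aeval_def, aeval_def, eval₂_map, hal']
  have hae' : ∀ F : MvPolynomial (Fin (n + 1)) k, aeval x' (map σ' F) =
      eval₂ ((algebraMap ℂ K').comp σ') x' F := by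
    intro F
    rw [aeval_def, eval₂_map]
  refine Pool.Agent.Y837.ST.t_UNI k n FF hhom M q ?_ ?_ hq2
  · intro F hFF d hd
    rw [hae, hq1 _ d (hd.map σ'), hae']
    exact hzero F hFF
  · rintro G ⟨d, hd⟩ hG2 h1
    rw [hae, hq1 _ d (hd.map σ'), hae'] at h1
    exact hnz G ⟨d, hd⟩ hG2 h1

end Pool.Agent.Q1.SL
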