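import Pool.Agent.Q1.SL.Los
import Pool.Agent.Q1.SL.DMain

/-!
Curves given by iterated linear differential equations on projective varieties of bounded degree.
-/

set_option autoImplicit false

namespace Pool.Agent.Q1.SL

open Filter MvPolynomial Pool.Agent.Y377.IL Pool.Agent.Y377.ST

/-- common denominators -/
theorem clear_den {M : Type} [Field M] {N : ℕ} (q : Fin N → RatFunc M) :
    ∃ (d : Polynomial M) (a : Fin N → Polynomial M), d ≠ 0 ∧
      ∀ j, algebraMap (Polynomial M) (RatFunc M) (a j) =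
        algebraMap (Polynomial M) (RatFunc M) d * q j := by
  classical
  obtain ⟨⟨d, hd⟩, hda⟩ := IsLocalization.exist_integer_multiples_of_finite
    (nonZeroDivisors (Polynomial M)) q
  choose a ha using hda
  refine ⟨d, a, nonZeroDivisors.ne_zero hd, fun j => ?_⟩
  rw [ha j]
  exact Algebra.smul_def d (q j)

/-- pigeonhole for the degrees -/
theorem exists_deg {N D : ℕ} {F : ℕ → MvPolynomial (Fin N) ℂ}
    (h : ∀ᶠ i in (hyperfilter ℕ : Filter ℕ), ∃ e, e ≤ D ∧ (F i).IsHomogeneous e) :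
    ∃ e, e ≤ D ∧ ∀ᶠ i in (hyperfilter ℕ : Filter ℕ), (F i).IsHomogeneous e := by
  by_contra hcon
  push Not at hcon
  have h1 : ∀ᶠ i in (hyperfilter ℕ : Filter ℕ), ∀ e ∈ Finset.range (D + 1),
      ¬ (F i).IsHomogeneous e := by
    rw [Filter.eventually_all_finset]
    intro e he
    exact hcon e (by have := Finset.mem_range.1 he; omega)
  obtain ⟨i, ⟨e, h2, h3⟩, h4⟩ := (h.and h1).exists
  exact h4 e (Finset.mem_range.2 (by omega)) h3

theorem support_hom {N e D : ℕ} {F : MvPolynomial (Fin N) ℂ} (h : F.IsHomogeneous e)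
    (he : e ≤ D) : F.support ⊆ TD N D :=
  support_TD (h.totalDegree_le.trans he)

/-- **The key lemma.** -/
theorem key_proj {θ : (ℕ → ℂ) →+* ℂ} (hs : Function.Surjective θ)
    (hk : ∀ c : ℕ → ℂ, θ c = 0 ↔ ∀ᶠ i in (hyperfilter ℕ : Filter ℕ), c i = 0) {n D : ℕ}
    {S : ℕ → Set (MvPolynomial (Fin (n + 1)) ℂ)}
    (hS : ∀ i, ∀ F ∈ S i, ∃ e, e ≤ D ∧ F.IsHomogeneous e) {M : Type} [Field M] [Algebra ℂ M]
    (q : Fin (n + 1) → RatFunc M)
    (hq : ∀ F : ℕ → MvPolynomial (Fin (n + 1)) ℂ,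
      (∀ᶠ i in (hyperfilter ℕ : Filter ℕ), F i ∈ S i) →
        aeval q (limT θ (TD (n + 1) D) F) = 0)
    (hnc : ∃ i l, q l ≠ 0 ∧ ∀ c : M, q i / q l ≠ algebraMap M (RatFunc M) c) :
    ∃ d0 : ℕ, ∀ (G : ℕ → MvPolynomial (Fin (n + 1)) ℂ) (e : ℕ),
      (∀ᶠ i in (hyperfilter ℕ : Filter ℕ), (G i).IsHomogeneous e) →
      aeval q (limT θ (TD (n + 1) e) G) ≠ 0 →
      ∀ᶠ i in (hyperfilter ℕ : Filter ℕ), ∃ p : Fin (n + 1) → Polynomial ℂ,
        (∀ j, (p j).natDegree ≤ d0) ∧ (∀ F ∈ S i, aeval p F = 0) ∧ NonC p ∧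
          aeval p (G i) ≠ 0 := by
  classical
  obtain ⟨d, a, hd0, ha⟩ := clear_den q
  have hcz : CharZero M := charZero_of_injective_algebraMap (algebraMap ℂ M).injective
  have hd0' : algebraMap (Polynomial M) (RatFunc M) d ≠ 0 := by
    rw [Ne, FaithfulSMul.algebraMap_eq_zero_iff]
    exact hd0
  have hform : ∀ (F : MvPolynomial (Fin (n + 1)) ℂ) (e : ℕ), F.IsHomogeneous e →
      (aeval a F = 0 ↔ aeval q F = 0) := by
    intro F e hF
    have h1 : (fun j => algebraMap (Polynomial M) (RatFunc M) (a j)) =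
        fun j => algebraMap (Polynomial M) (RatFunc M) d * q j := funext ha
    have h2 : algebraMap (Polynomial M) (RatFunc M) (aeval a F) =
        (algebraMap (Polynomial M) (RatFunc M) d) ^ e * aeval q F := by
      rw [← MvPolynomial.aeval_algebraMap_apply, ← Pool.Agent.Y837.ST.aeval_scale _ _ hF]
      congr 2
    rw [← FaithfulSMul.algebraMap_eq_zero_iff (Polynomial M) (RatFunc M), h2, mul_eq_zero]
    constructor
    · rintro (h3 | h3)
      · exact absurd h3 (pow_ne_zero _ hd0')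
      · exact h3
    · exact Or.inr
  have hNC : NonC a := by
    obtain ⟨i, l, hl, hc⟩ := hnc
    have hal : a l ≠ 0 := by
      intro h
      have h1 := ha l
      rw [h, map_zero] at h1
      exact mul_ne_zero hd0' hl h1.symm
    obtain ⟨t0, ht0⟩ : ∃ t : M, (a l).eval t ≠ 0 := by
      by_contra hcon
      push Not at hcon
      exact hal (Polynomial.funext fun r => by rw [hcon r, Polynomial.eval_zero])
    by_contra hno
    have h1 : a i * Polynomial.C ((a l).eval t0) = a l * Polynomial.C ((a i).eval t0) := by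
      apply Polynomial.funext
      intro t
      rw [Polynomial.eval_mul, Polynomial.eval_mul, Polynomial.eval_C, Polynomial.eval_C]
      by_contra h2
      exact hno ⟨t, t0, i, l, h2⟩
    apply hc ((a i).eval t0 / (a l).eval t0)
    have h2 := congrArg (algebraMap (Polynomial M) (RatFunc M)) h1
    rw [map_mul, map_mul, ha, ha, RatFunc.algebraMap_C, RatFunc.algebraMap_C] at h2
    have h3 : (algebraMap M (RatFunc M)) ((a l).eval t0) ≠ 0 := by
      rw [Ne, map_eq_zero]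
      exact ht0
    have h4 : ∀ c : M, RatFunc.C c = algebraMap M (RatFunc M) c := fun c => rfl
    rw [h4, h4] at h2
    rw [map_div₀, div_eq_div_iff hl h3]
    apply mul_left_cancel₀ hd0'
    linear_combination h2
  let d0 : ℕ := Finset.univ.sup fun j => (a j).natDegree
  have had0 : ∀ j, (a j).natDegree ≤ d0 := fun j =>
    Finset.le_sup (f := fun j => (a j).natDegree) (Finset.mem_univ j)
  have hSa : ∀ F : ℕ → MvPolynomial (Fin (n + 1)) ℂ,
      (∀ᶠ i in (hyperfilter ℕ : Filter ℕ), F i ∈ S i) →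
        aeval a (limT θ (TD (n + 1) D) F) = 0 := by
    intro F hF
    obtain ⟨e, -, he⟩ := exists_deg (D := D) (by
      filter_upwards [hF] with i hi
      exact hS i _ hi)
    exact (hform _ e (limT_homog hk he)).2 (hq F hF)
  refine ⟨d0, fun G e hG hGne => ?_⟩
  have hGa : aeval a (limT θ (TD (n + 1) e) G) ≠ 0 := fun h0 =>
    hGne ((hform _ e (limT_homog hk hG)).1 h0)
  have hmap : ∀ (b : Fin (n + 1) → Polynomial M) (F : MvPolynomial (Fin (n + 1)) ℂ),
      aeval b (map (algebraMap ℂ M) F) = aeval b F := fun b F =>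
    MvPolynomial.aeval_map_algebraMap M b F
  obtain ⟨b, hb1, hb2, hb3, i, j, hij⟩ := exists_repar hNC
    (G := map (algebraMap ℂ M) (limT θ (TD (n + 1) e) G)) (by rw [hmap]; exact hGa) had0
  have hbG : aeval b (limT θ (TD (n + 1) e) G) ≠ 0 := by
    intro h0
    apply hb3
    rw [← poly_eval, hmap, h0, Polynomial.eval_zero]
  obtain ⟨p, hp1, hp2, hp3, hp4⟩ := spec_proj b hbG hij
  have h5 := los_curve hs hk (d0 := d0) p (fun j => (hp1 j).trans (hb1 j)) (nonC_of_ne hp4)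
    (S := S) (T := TD (n + 1) D) (fun i F hF => by
      obtain ⟨e, he, hFe⟩ := hS i F hF
      exact support_hom hFe he) (fun F hF => hp2 _ (by
      rw [← hmap]
      exact hb2 _ (by rw [hmap]; exact hSa F hF))) (T' := TD (n + 1) e) (G := G) (by
      filter_upwards [hG] with i hi
      exact support_hom hi le_rfl) hp3
  filter_upwards [h5] with i hi
  obtain ⟨p, h1, h2, h3, h4, -⟩ := hi
  exact ⟨p, h1, h2, h3, h4⟩

/-- limits of nonconstant points -/
theorem cross_ultra {K : ℕ → Type} [∀ i, Field (K i)] [∀ i, Algebra ℂ (K i)]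
    {D : ∀ i, Derivation ℂ (K i) (K i)} {K' : Type} [Field K'] [Algebra ℂ K']
    {D' : Derivation ℂ K' K'} {π : (∀ i, K i) →+* K'}
    (hD' : ∀ x, D' (π x) = π fun i => D i (x i))
    (hker : ∀ x, π x = 0 ↔ ∀ᶠ i in (hyperfilter ℕ : Filter ℕ), x i = 0) {N : ℕ}
    {x : ∀ i, Fin N → K i} (huv : ∀ i, ∃ u v, D i (x i u) * x i v ≠ x i u * D i (x i v)) :
    ∃ u v, D' (π fun i => x i u) * (π fun i => x i v) ≠
      (π fun i => x i u) * D' (π fun i => x i v) := by
  classical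
  choose u v huv using huv
  obtain ⟨⟨u0, v0⟩, h1⟩ : ∃ p : Fin N × Fin N,
      ∀ᶠ i in (hyperfilter ℕ : Filter ℕ), (u i, v i) = p := by
    by_contra hno
    push Not at hno
    have h3 : ∀ᶠ i in (hyperfilter ℕ : Filter ℕ), ∀ p : Fin N × Fin N, (u i, v i) ≠ p :=
      eventually_all.2 fun p => hno p
    obtain ⟨i, hi⟩ := h3.exists
    exact hi _ rfl
  refine ⟨u0, v0, fun h2 => ?_⟩
  have h3 : π (fun i => D i (x i u0) * x i v0 - x i u0 * D i (x i v0)) = 0 := by
    have h4 : (fun i => D i (x i u0) * x i v0 - x i u0 * D i (x i v0)) =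
        (fun i => D i (x i u0)) * (fun i => x i v0) -
          (fun i => x i u0) * (fun i => D i (x i v0)) := rfl
    rw [h4, map_sub, map_mul, map_mul, ← hD', ← hD']
    exact sub_eq_zero.2 h2
  rw [hker] at h3
  obtain ⟨i, h5, h6⟩ := (h3.and h1).exists
  apply huv i
  have h7 : u i = u0 := congrArg Prod.fst h6
  have h8 : v i = v0 := congrArg Prod.snd h6
  rw [h7, h8]
  exact sub_eq_zero.1 h5

/-- **Uniform degrees of rational curves.** -/
theorem ode_uniform_diff (n D s r e : ℕ) : ∃ d : ℕ,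
    ∀ (S : Set (MvPolynomial (Fin (n + 1)) ℂ)) (G : MvPolynomial (Fin (n + 1)) ℂ),
      (∀ F ∈ S, ∃ e, e ≤ D ∧ F.IsHomogeneous e) → (∃ e, e ≤ D ∧ G.IsHomogeneous e) →
      (∀ p : Fin (n + 1) → Polynomial ℂ, (∀ j, (p j).natDegree ≤ d) → (∀ F ∈ S, aeval p F = 0) →
        NonC p → aeval p G = 0) →
      ∀ (K : Type) [Field K] [Algebra ℂ K] (D : Derivation ℂ K K), Cst D →
        ∀ x : Fin (n + 1) → K, DVecF D s r e x → (∀ F ∈ S, aeval x F = 0) →
        (∃ u v, D (x u) * x v ≠ x u * D (x v)) → aeval x G = 0 := by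
  classical
  by_contra hcon
  have hC : ∀ d : ℕ, ∃ (S : Set (MvPolynomial (Fin (n + 1)) ℂ))
      (G : MvPolynomial (Fin (n + 1)) ℂ) (K : Type) (_ : Field K) (_ : Algebra ℂ K)
      (D1 : Derivation ℂ K K) (x : Fin (n + 1) → K),
      (∀ F ∈ S, ∃ e, e ≤ D ∧ F.IsHomogeneous e) ∧ (∃ e, e ≤ D ∧ G.IsHomogeneous e) ∧
      (∀ p : Fin (n + 1) → Polynomial ℂ, (∀ j, (p j).natDegree ≤ d) → (∀ F ∈ S, aeval p F = 0) →
        NonC p → aeval p G = 0) ∧ Cst D1 ∧ DVecF D1 s r e x ∧ (∀ F ∈ S, aeval x F = 0) ∧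
        (∃ u v, D1 (x u) * x v ≠ x u * D1 (x v)) ∧ aeval x G ≠ 0 := by
    intro d
    by_contra h1
    refine hcon ⟨d, ?_⟩
    intro S G h2 h3 h4 K _ _ D1 h5 x h6 h7 h8
    by_contra h9
    exact h1 ⟨S, G, K, _, _, D1, x, h2, h3, h4, h5, h6, h7, h8, h9⟩
  choose S G K iK jK D1 x hS hG hrat hCD hx hF huv hGne using hC
  obtain ⟨K', iK', jK', D', π, θ, hC', hD', hal, hker, hk, hs⟩ := exists_ultra2 D1 hCD
  let x' : Fin (n + 1) → K' := fun j => π fun i => x i j
  have hx' : DVecF D' s r e x' := DVecF.ultra hD' hal hx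
  obtain ⟨u, v, huv'⟩ := cross_ultra hD' hker huv
  obtain ⟨M, j1, j2, q, hq1, hq2⟩ := rat_pointD hC' hx' huv'
  have hev : ∀ (T : Finset (Fin (n + 1) →₀ ℕ)) (F : ℕ → MvPolynomial (Fin (n + 1)) ℂ),
      (∀ᶠ i in (hyperfilter ℕ : Filter ℕ), (F i).support ⊆ T) →
        aeval x' (limT θ T F) = π fun i => aeval (x i) (F i) := fun T F hF =>
    aeval_limT hal hker hF x
  obtain ⟨d0, hd0⟩ := key_proj hs hk hS q (fun F hF' => by
    obtain ⟨e', he', hhe⟩ := exists_deg (D := D) (by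
      filter_upwards [hF'] with i hi
      exact hS i _ hi)
    rw [hq1 _ e' (limT_homog hk hhe), hev _ F (by
      filter_upwards [hhe] with i hi
      exact support_hom hi he'), hker]
    filter_upwards [hF'] with i hi
    exact hF i _ hi) hq2
  obtain ⟨e', he', hhe⟩ := exists_deg (F := G) (D := D) (Eventually.of_forall hG)
  have h1 := hd0 G e' hhe (fun h0 => by
    rw [hq1 _ e' (limT_homog hk hhe), hev _ G (by
      filter_upwards [hhe] with i hi
      exact support_hom hi le_rfl), hker] at h0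
    obtain ⟨i, hi⟩ := h0.exists
    exact hGne i hi)
  have hge : ∀ᶠ i in (hyperfilter ℕ : Filter ℕ), d0 ≤ i := by
    have h1 : ∀ᶠ i : ℕ in cofinite, d0 ≤ i := by
      rw [Nat.cofinite_eq_atTop]
      exact eventually_ge_atTop d0
    exact h1.filter_mono hyperfilter_le_cofinite
  obtain ⟨i, ⟨p, hp1, hp2, hp3, hp4⟩, hi⟩ := (h1.and hge).exists
  exact hp4 (hrat i p (fun j => (hp1 j).trans hi) hp2 hp3)

/-- finite sets of forms -/
theorem exists_finite_forms {n : ℕ} (S : Set (MvPolynomial (Fin (n + 1)) ℂ)) :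
    ∃ S0 : Finset (MvPolynomial (Fin (n + 1)) ℂ), (∀ F ∈ S0, F ∈ S) ∧
      ∀ (A : Type) [CommRing A] [Algebra ℂ A] (x : Fin (n + 1) → A),
        (∀ F ∈ S0, aeval x F = 0) → ∀ F ∈ S, aeval x F = 0 := by
  classical
  have hfg : (Ideal.span S).FG := IsNoetherian.noetherian _
  obtain ⟨S0, hS1, hS2⟩ := (Submodule.fg_span_iff_fg_span_finset_subset _).1 hfg
  refine ⟨S0, fun F hF => hS1 hF, ?_⟩
  intro A _ _ x hx F hF
  have h1 : F ∈ Ideal.span (S0 : Set (MvPolynomial (Fin (n + 1)) ℂ)) := by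
    have h2 : F ∈ Ideal.span S := Ideal.subset_span hF
    have h3 : Ideal.span S = Ideal.span (S0 : Set (MvPolynomial (Fin (n + 1)) ℂ)) := hS2
    rwa [h3] at h2
  have h2 : Ideal.span (S0 : Set (MvPolynomial (Fin (n + 1)) ℂ)) ≤
      RingHom.ker (aeval x : MvPolynomial (Fin (n + 1)) ℂ →ₐ[ℂ] A) := by
    rw [Ideal.span_le]
    intro F hF
    exact hx F hF
  exact h2 h1

/-- **The special sets.** -/
theorem ode_special_diff {n : ℕ} (S : Set (MvPolynomial (Fin (n + 1)) ℂ))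
    (hS : ∀ F ∈ S, ∃ e, F.IsHomogeneous e) (s r e : ℕ) : ∃ d : ℕ,
    ∀ G : MvPolynomial (Fin (n + 1)) ℂ, (∃ e, G.IsHomogeneous e) →
      (∀ p : Fin (n + 1) → Polynomial ℂ, (∀ j, (p j).natDegree ≤ d) → (∀ F ∈ S, aeval p F = 0) →
        NonC p → aeval p G = 0) →
      ∀ (K : Type) [Field K] [Algebra ℂ K] (D : Derivation ℂ K K), Cst D →
        ∀ x : Fin (n + 1) → K, DVecF D s r e x → (∀ F ∈ S, aeval x F = 0) →
        (∃ u v, D (x u) * x v ≠ x u * D (x v)) → aeval x G = 0 := by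
  classical
  obtain ⟨S0, hS0, hS0'⟩ := exists_finite_forms S
  obtain ⟨D, hD⟩ : ∃ D, ∀ F ∈ S0, ∃ e, e ≤ D ∧ F.IsHomogeneous e := by
    refine ⟨S0.sup fun F => F.totalDegree, fun F hF => ?_⟩
    obtain ⟨e, he⟩ := hS F (hS0 F hF)
    by_cases h0 : F = 0
    · exact ⟨0, Nat.zero_le _, h0 ▸ isHomogeneous_zero _ _ _⟩
    · refine ⟨e, ?_, he⟩
      rw [← he.totalDegree h0]
      exact Finset.le_sup (f := fun F : MvPolynomial (Fin (n + 1)) ℂ => F.totalDegree) hF
  by_contra hcon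
  have hC : ∀ d : ℕ, ∃ (G : MvPolynomial (Fin (n + 1)) ℂ) (K : Type) (_ : Field K)
      (_ : Algebra ℂ K) (D1 : Derivation ℂ K K) (x : Fin (n + 1) → K),
      (∃ e, G.IsHomogeneous e) ∧
      (∀ p : Fin (n + 1) → Polynomial ℂ, (∀ j, (p j).natDegree ≤ d) → (∀ F ∈ S, aeval p F = 0) →
        NonC p → aeval p G = 0) ∧ Cst D1 ∧ DVecF D1 s r e x ∧ (∀ F ∈ S, aeval x F = 0) ∧
        (∃ u v, D1 (x u) * x v ≠ x u * D1 (x v)) ∧ aeval x G ≠ 0 := by
    intro d
    by_contra h1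
    refine hcon ⟨d, ?_⟩
    intro G h3 h4 K _ _ D1 h5 x h6 h7 h8
    by_contra h9
    exact h1 ⟨G, K, _, _, D1, x, h3, h4, h5, h6, h7, h8, h9⟩
  choose G K iK jK D1 x hG hrat hCD hx hF huv hGne using hC
  obtain ⟨K', iK', jK', D', π, θ, hC', hD', hal, hker, hk, hs⟩ := exists_ultra2 D1 hCD
  let x' : Fin (n + 1) → K' := fun j => π fun i => x i j
  have hx' : DVecF D' s r e x' := DVecF.ultra hD' hal hx
  obtain ⟨u, v, huv'⟩ := cross_ultra hD' hker huv
  obtain ⟨M, j1, j2, q, hq1, hq2⟩ := rat_pointD hC' hx' huv'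
  have hev : ∀ (T : Finset (Fin (n + 1) →₀ ℕ)) (F : ℕ → MvPolynomial (Fin (n + 1)) ℂ),
      (∀ᶠ i in (hyperfilter ℕ : Filter ℕ), (F i).support ⊆ T) →
        aeval x' (limT θ T F) = π fun i => aeval (x i) (F i) := fun T F hF =>
    aeval_limT hal hker hF x
  obtain ⟨d0, hd0⟩ := key_proj hs hk (S := fun _ => (S0 : Set (MvPolynomial (Fin (n + 1)) ℂ)))
    (D := D) (fun i F hF => hD F hF) q (fun F hF' => by
    obtain ⟨e', he', hhe⟩ := exists_deg (D := D) (by
      filter_upwards [hF'] with i hi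
      exact hD _ hi)
    rw [hq1 _ e' (limT_homog hk hhe), hev _ F (by
      filter_upwards [hhe] with i hi
      exact support_hom hi he'), hker]
    filter_upwards [hF'] with i hi
    exact hF i _ (hS0 _ hi)) hq2
  -- the forms which vanish on the rational curves of degree at most `d0`
  obtain ⟨W, hW1, hW2⟩ := exists_finite_forms {g : MvPolynomial (Fin (n + 1)) ℂ |
    (∃ e, g.IsHomogeneous e) ∧ ∀ p : Fin (n + 1) → Polynomial ℂ, (∀ j, (p j).natDegree ≤ d0) →
      (∀ F ∈ S, aeval p F = 0) → NonC p → aeval p g = 0}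
  have hWx : ∀ g ∈ W, ∀ᶠ i in (hyperfilter ℕ : Filter ℕ), aeval (x i) g = 0 := by
    intro g hg
    obtain ⟨⟨e', he'⟩, hg2⟩ := hW1 g hg
    by_contra hno
    have h1 := hd0 (fun _ => g) e' (Eventually.of_forall fun _ => he') (fun h0 => by
      rw [hq1 _ e' (limT_homog hk (Eventually.of_forall fun _ => he')),
        hev _ (fun _ => g) (Eventually.of_forall fun _ => support_hom he' le_rfl), hker] at h0
      exact hno h0)
    obtain ⟨i, p, hp1, hp2, hp3, hp4⟩ := h1.exists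
    exact hp4 (hg2 p hp1 (hS0' _ p hp2) hp3)
  have hWx' : ∀ᶠ i in (hyperfilter ℕ : Filter ℕ), ∀ g ∈ W, aeval (x i) g = 0 := by
    rw [Filter.eventually_all_finset]
    exact hWx
  have hge : ∀ᶠ i in (hyperfilter ℕ : Filter ℕ), d0 ≤ i := by
    have h1 : ∀ᶠ i : ℕ in cofinite, d0 ≤ i := by
      rw [Nat.cofinite_eq_atTop]
      exact eventually_ge_atTop d0
    exact h1.filter_mono hyperfilter_le_cofinite
  obtain ⟨i, h2, hi⟩ := (hWx'.and hge).exists
  exact hGne i (hW2 (K i) (x i) h2 (G i) ⟨hG i, fun p hp1 hp2 hp3 =>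
    hrat i p (fun j => (hp1 j).trans hi) hp2 hp3⟩)

end Pool.Agent.Q1.SL
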