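import Mathlib

/-!
Specializations of polynomial curves, and countable algebraically closed subfields of `ℂ`.
-/

set_option autoImplicit false

namespace Pool.Agent.Q1.SL

open MvPolynomial Cardinal

/-- **Points of finitely generated algebras.** -/
theorem exists_spec {k M : Type} [Field k] [IsAlgClosed k] [Field M] [Algebra k M]
    (T : Finset M) : ∃ (B : Subalgebra k M) (_ : B →ₐ[k] k), ∀ x ∈ T, x ∈ B := by
  classical
  let B : Subalgebra k M := Algebra.adjoin k (T : Set M)
  have hft : Algebra.FiniteType k B := (Subalgebra.fg_iff_finiteType _).1 ⟨T, rfl⟩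
  obtain ⟨m, hm⟩ := Ideal.exists_maximal B
  let _ : Field (B ⧸ m) := Ideal.Quotient.field m
  have h1 : Algebra.FiniteType k (B ⧸ m) :=
    Algebra.FiniteType.of_surjective (Ideal.Quotient.mkₐ k m) (Ideal.Quotient.mkₐ_surjective k m)
  have h2 : Module.Finite k (B ⧸ m) := finite_of_finite_type_of_isJacobsonRing k (B ⧸ m)
  have h3 : Function.Bijective (algebraMap k (B ⧸ m)) :=
    IsAlgClosed.algebraMap_bijective_of_isIntegral
  let e : k ≃ₐ[k] (B ⧸ m) := AlgEquiv.ofBijective (Algebra.ofId k _) h3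
  exact ⟨B, e.symm.toAlgHom.comp (Ideal.Quotient.mkₐ k m),
    fun x hx => Algebra.subset_adjoin hx⟩

/-- **Countable algebraically closed fields of definition.** -/
theorem exists_ctble (C0 : Set ℂ) (h : C0.Countable) :
    ∃ (k : Type) (_ : Field k) (_ : Algebra k ℂ), Countable k ∧ IsAlgClosed k ∧
      ∀ c ∈ C0, ∃ a : k, algebraMap k ℂ a = c := by
  let k0 : IntermediateField ℚ ℂ := IntermediateField.adjoin ℚ C0
  let k := algebraicClosure k0 ℂ
  have h0 : #k0 ≤ ℵ₀ := by
    refine (IntermediateField.cardinalMk_adjoin_le ℚ C0).trans ?_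
    refine max_le (max_le ?_ h.le_aleph0) le_rfl
    exact Cardinal.mk_le_aleph0
  have h1 : #k ≤ ℵ₀ :=
    (Algebra.IsAlgebraic.cardinalMk_le_max k0 k).trans (max_le h0 le_rfl)
  refine ⟨k, inferInstance, inferInstance, Cardinal.mk_le_aleph0_iff.1 h1,
    (algebraicClosure.isAlgClosure k0 ℂ).isAlgClosed, fun c hc => ?_⟩
  have h2 : c ∈ k0 := IntermediateField.subset_adjoin ℚ C0 hc
  exact ⟨⟨c, (algebraicClosure k0 ℂ).algebraMap_mem ⟨c, h2⟩⟩, rfl⟩

/-- **Specializations of polynomial vectors.** -/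
theorem spec_poly {k M : Type} [Field k] [IsAlgClosed k] [Field M] [Algebra k M] {N : ℕ}
    (p : Fin N → Polynomial M) (T : Finset M) :
    ∃ (B : Subalgebra k M) (_ : B →ₐ[k] k) (P : Fin N → Polynomial B), (∀ x ∈ T, x ∈ B) ∧
      ∀ j, Polynomial.mapAlgHom B.val (P j) = p j := by
  classical
  let T' : Finset M := T ∪ Finset.univ.biUnion fun j => (p j).coeffs
  obtain ⟨B, ψ, hB⟩ := exists_spec (k := k) T'
  have h2 : ∀ j, p j ∈ Polynomial.lifts (B.val : B →+* M) := by
    intro j
    rw [Polynomial.lifts_iff_coeff_lifts]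
    intro n
    by_cases h0 : (p j).coeff n = 0
    · exact ⟨0, by rw [map_zero, h0]⟩
    · refine ⟨⟨(p j).coeff n, hB _ ?_⟩, rfl⟩
      refine Finset.mem_union_right _ (Finset.mem_biUnion.2 ⟨j, Finset.mem_univ j, ?_⟩)
      exact Polynomial.coeff_mem_coeffs h0
  choose P hP using fun j => (Polynomial.mem_lifts _).1 (h2 j)
  exact ⟨B, ψ, P, fun x hx => hB x (Finset.mem_union_left _ hx), hP⟩

theorem mapAlg_eq {k A B : Type} [CommSemiring k] [CommSemiring A] [CommSemiring B] [Algebra k A]
    [Algebra k B] (f : A →ₐ[k] B) (E : Polynomial A) :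
    Polynomial.mapAlgHom f E = E.map (f : A →+* B) := rfl

/-- nonvanishing -/
theorem spec_ne {k M : Type} [Field k] [Field M] [Algebra k M] {B : Subalgebra k M}
    (ψ : B →ₐ[k] k) {E : Polynomial B} {a : ℕ} (h0 : (Polynomial.mapAlgHom B.val E).coeff a ≠ 0)
    (hinv : ((Polynomial.mapAlgHom B.val E).coeff a)⁻¹ ∈ B) : Polynomial.mapAlgHom ψ E ≠ 0 := by
  have h1 : (Polynomial.mapAlgHom B.val E).coeff a = (E.coeff a : M) := by
    rw [mapAlg_eq, Polynomial.coeff_map]
    rfl
  rw [h1] at h0 hinv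
  intro h2
  have h3 : (Polynomial.mapAlgHom ψ E).coeff a = ψ (E.coeff a) := by
    rw [mapAlg_eq, Polynomial.coeff_map]
    rfl
  rw [h2, Polynomial.coeff_zero] at h3
  have h4 : E.coeff a * ⟨_, hinv⟩ = 1 := Subtype.ext (mul_inv_cancel₀ h0)
  have h5 := congrArg ψ h4
  rw [map_mul, ← h3, zero_mul, map_one] at h5
  exact zero_ne_one h5

/-- **Specializations of rational curves.** -/
theorem spec_proj {k M : Type} [Field k] [IsAlgClosed k] [Field M] [Algebra k M] {N : ℕ}
    (p : Fin N → Polynomial M) {G : MvPolynomial (Fin N) k} (hG : aeval p G ≠ 0) {i j : Fin N}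
    (hij : p i * Polynomial.C ((p j).eval 1) ≠ p j * Polynomial.C ((p i).eval 1)) :
    ∃ p' : Fin N → Polynomial k, (∀ j, (p' j).natDegree ≤ (p j).natDegree) ∧
      (∀ F : MvPolynomial (Fin N) k, aeval p F = 0 → aeval p' F = 0) ∧ aeval p' G ≠ 0 ∧
      p' i * Polynomial.C ((p' j).eval 1) ≠ p' j * Polynomial.C ((p' i).eval 1) := by
  classical
  obtain ⟨a1, h1⟩ : ∃ a, (aeval p G).coeff a ≠ 0 := by
    by_contra hcon
    push Not at hcon
    exact hG (Polynomial.ext fun a => by rw [hcon a, Polynomial.coeff_zero])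
  obtain ⟨a2, h2⟩ : ∃ a, (p i * Polynomial.C ((p j).eval 1) -
      p j * Polynomial.C ((p i).eval 1)).coeff a ≠ 0 := by
    by_contra hcon
    push Not at hcon
    exact hij (sub_eq_zero.1 (Polynomial.ext fun a => by rw [hcon a, Polynomial.coeff_zero]))
  obtain ⟨B, ψ, P, hB, hP⟩ := spec_poly (k := k) p
    {((aeval p G).coeff a1)⁻¹, ((p i * Polynomial.C ((p j).eval 1) -
      p j * Polynomial.C ((p i).eval 1)).coeff a2)⁻¹}
  have e1 : ∀ F : MvPolynomial (Fin N) k,
      Polynomial.mapAlgHom B.val (aeval P F) = aeval p F := by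
    intro F
    have h3 := MvPolynomial.comp_aeval_apply (f := P) (Polynomial.mapAlgHom B.val) F
    rw [h3]
    congr 2
    funext j
    exact hP j
  have e2 : ∀ F : MvPolynomial (Fin N) k,
      Polynomial.mapAlgHom ψ (aeval P F) = aeval (fun j => Polynomial.mapAlgHom ψ (P j)) F :=
    fun F => MvPolynomial.comp_aeval_apply (f := P) (Polynomial.mapAlgHom ψ) F
  have hinj : Function.Injective (Polynomial.mapAlgHom B.val) :=
    Polynomial.map_injective _ Subtype.val_injective
  refine ⟨fun j => Polynomial.mapAlgHom ψ (P j), fun j => ?_, fun F hF => ?_, ?_, ?_⟩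
  · have h3 : (p j).natDegree = (P j).natDegree := by
      rw [← hP j, mapAlg_eq]
      exact Polynomial.natDegree_map_eq_of_injective Subtype.val_injective _
    rw [h3]
    exact Polynomial.natDegree_map_le
  · rw [← e2]
    have h3 : aeval P F = 0 := by
      apply hinj
      rw [e1, hF, map_zero]
    rw [h3, map_zero]
  · rw [← e2]
    apply spec_ne ψ (a := a1)
    · rw [e1]
      exact h1
    · rw [e1]
      exact hB _ (by simp)
  · rw [← sub_ne_zero]
    have e3 : ∀ j, Polynomial.mapAlgHom B.val (Polynomial.C ((P j).eval 1)) =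
        Polynomial.C ((p j).eval 1) := by
      intro j
      rw [← hP j, mapAlg_eq, mapAlg_eq, Polynomial.map_C,
        Polynomial.eval_map]
      congr 1
      have h3 := Polynomial.eval₂_at_apply (p := P j) (B.val : B →+* M) 1
      rw [map_one] at h3
      exact h3.symm
    have e4 : ∀ j, Polynomial.mapAlgHom ψ (Polynomial.C ((P j).eval 1)) =
        Polynomial.C ((Polynomial.mapAlgHom ψ (P j)).eval 1) := by
      intro j
      rw [mapAlg_eq, mapAlg_eq, Polynomial.map_C,
        Polynomial.eval_map]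
      congr 1
      have h3 := Polynomial.eval₂_at_apply (p := P j) (ψ : B →+* k) 1
      rw [map_one] at h3
      exact h3.symm
    have e5 : Polynomial.mapAlgHom B.val (P i * Polynomial.C ((P j).eval 1) -
        P j * Polynomial.C ((P i).eval 1)) = p i * Polynomial.C ((p j).eval 1) -
          p j * Polynomial.C ((p i).eval 1) := by
      rw [map_sub, map_mul, map_mul, e3, e3, hP, hP]
    have e6 : Polynomial.mapAlgHom ψ (P i * Polynomial.C ((P j).eval 1) -
        P j * Polynomial.C ((P i).eval 1)) =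
        Polynomial.mapAlgHom ψ (P i) * Polynomial.C ((Polynomial.mapAlgHom ψ (P j)).eval 1) -
          Polynomial.mapAlgHom ψ (P j) *
            Polynomial.C ((Polynomial.mapAlgHom ψ (P i)).eval 1) := by
      rw [map_sub, map_mul, map_mul, e4, e4]
    rw [← e6]
    apply spec_ne ψ (a := a2)
    · rw [e5]
      exact h2
    · rw [e5]
      exact hB _ (by simp)

end Pool.Agent.Q1.SL
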