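import Pool.Agent.Y377.ST.Def

/-!
Countable fields of definition of families given by iterated recurrences.
-/

set_option autoImplicit false

namespace Pool.Agent.Q1.SL

open Cardinal Pool.Agent.Y377.ST

/-- **Countable fields of characteristic zero can be embedded in `ℂ`.** -/
theorem exists_embed (L : Type) [Field L] [CharZero L] [Countable L] : Nonempty (L →+* ℂ) := by
  let F := MvPolynomial ℝ L
  let Q := FractionRing F
  let M := AlgebraicClosure Q
  have h1 : #F ≤ 𝔠 := by
    refine (MvPolynomial.cardinalMk_le_max).trans ?_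
    refine max_le (max_le ?_ ?_) aleph0_le_continuum
    · exact (Cardinal.mk_le_aleph0).trans aleph0_le_continuum
    · exact Cardinal.mk_real.le
  have h2 : #Q ≤ 𝔠 := (IsLocalization.cardinalMk_le (nonZeroDivisors F)).trans h1
  have h3 : #M ≤ 𝔠 :=
    (Algebra.IsAlgebraic.cardinalMk_le_max Q M).trans (max_le h2 aleph0_le_continuum)
  have hinj : Function.Injective fun r : ℝ =>
      algebraMap Q M (algebraMap F Q (MvPolynomial.X r)) := by
    intro a b hab
    have h4 := (algebraMap Q M).injective hab
    have h5 := IsFractionRing.injective F Q h4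
    exact MvPolynomial.X_injective h5
  have h4 : 𝔠 ≤ #M := by
    rw [← Cardinal.mk_real]
    exact Cardinal.mk_le_of_injective hinj
  have h5 : #M = 𝔠 := le_antisymm h3 h4
  have hcF : CharZero F := charZero_of_injective_algebraMap (MvPolynomial.C_injective ℝ L)
  have hcQ : CharZero Q := charZero_of_injective_algebraMap (IsFractionRing.injective F Q)
  have hcM : CharZero M := charZero_of_injective_algebraMap (algebraMap Q M).injective
  obtain ⟨ψ⟩ : Nonempty (M ≃+* ℂ) := IsAlgClosed.ringEquiv_of_equiv_of_charZero
    (by rw [h5]; exact aleph0_lt_continuum) (Cardinal.eq.1 (by rw [h5, Cardinal.mk_complex]))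
  exact ⟨(ψ : M →+* ℂ).comp ((algebraMap Q M).comp ((algebraMap F Q).comp
    (algebraMap L F)))⟩

/-- restriction to subgroups -/
theorem iterVec_sub {L H : Type} [CommRing L] [Group H] {s r e n : ℕ} {x : H → Fin n → L}
    (hx : IterVec s r e x) (N : Subgroup H) : IterVec s r e fun h : N => x h := by
  obtain ⟨X, Y, hX, hc⟩ := hx
  refine ⟨fun l h => X l h, fun l h => Y l h, ⟨fun l h => hX.inv l h, fun l g i j => ?_⟩,
    fun j => ?_⟩
  · obtain ⟨c, hc⟩ := hX.coc l g i j
    exact ⟨c, fun h => hc h⟩
  · obtain ⟨c, hc⟩ := hc j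
    exact ⟨c, fun h => hc h⟩

/-- **Countable fields of definition.** -/
theorem descend {k0 k H : Type} [Field k0] [Countable k0] [Field k] [Algebra k0 k] [Group H]
    [Countable H] {s r e n : ℕ} {x : H → Fin n → k} (hx : IterVec s r e x) :
    ∃ (L : Type) (_ : Field L) (_ : Algebra k0 L) (_ : Countable L) (ι : L →ₐ[k0] k)
      (x' : H → Fin n → L), IterVec s r e x' ∧ ∀ h j, ι (x' h j) = x h j := by
  classical
  obtain ⟨X, Y, hX, hc⟩ := hx
  choose c hc using hc
  choose b hb using hX.coc
  let C0 : Set k := (⋃ (l : Fin s) (h : H) (i : Fin r) (j : Fin r), {X l h i j, Y l h i j}) ∪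
    ((⋃ (j : Fin n), Set.range (c j)) ∪
      ⋃ (l : Fin s) (g : H) (i : Fin r) (j : Fin r), Set.range (b l g i j))
  have hC0 : C0.Countable := by
    refine Set.Countable.union ?_ (Set.Countable.union ?_ ?_)
    · refine Set.countable_iUnion fun l => Set.countable_iUnion fun h =>
        Set.countable_iUnion fun i => Set.countable_iUnion fun j => ?_
      exact (Set.countable_singleton _).insert _
    · exact Set.countable_iUnion fun j => Set.countable_range _
    · refine Set.countable_iUnion fun l => Set.countable_iUnion fun h =>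
        Set.countable_iUnion fun i => Set.countable_iUnion fun j => Set.countable_range _
  let L : IntermediateField k0 k := IntermediateField.adjoin k0 C0
  have hL : #L ≤ ℵ₀ := by
    refine (IntermediateField.cardinalMk_adjoin_le k0 C0).trans ?_
    exact max_le (max_le Cardinal.mk_le_aleph0 hC0.le_aleph0) le_rfl
  have hXm : ∀ l h i j, X l h i j ∈ L := by
    intro l h i j
    refine IntermediateField.subset_adjoin k0 C0 (Or.inl ?_)
    simp only [Set.mem_iUnion]
    exact ⟨l, h, i, j, Or.inl rfl⟩
  have hYm : ∀ l h i j, Y l h i j ∈ L := by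
    intro l h i j
    refine IntermediateField.subset_adjoin k0 C0 (Or.inl ?_)
    simp only [Set.mem_iUnion]
    exact ⟨l, h, i, j, Or.inr rfl⟩
  have hcm : ∀ j m, c j m ∈ L := by
    intro j m
    refine IntermediateField.subset_adjoin k0 C0 (Or.inr (Or.inl ?_))
    simp only [Set.mem_iUnion]
    exact ⟨j, m, rfl⟩
  have hbm : ∀ l g i j m, b l g i j m ∈ L := by
    intro l g i j m
    refine IntermediateField.subset_adjoin k0 C0 (Or.inr (Or.inr ?_))
    simp only [Set.mem_iUnion]
    exact ⟨l, g, i, j, m, rfl⟩
  let X' : Fin s → H → Matrix (Fin r) (Fin r) L := fun l h =>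
    Matrix.of fun i j => ⟨X l h i j, hXm l h i j⟩
  let Y' : Fin s → H → Matrix (Fin r) (Fin r) L := fun l h =>
    Matrix.of fun i j => ⟨Y l h i j, hYm l h i j⟩
  let ι : L →+* k := algebraMap L k
  have hι : Function.Injective ι := ι.injective
  have hX' : ∀ l h, (X' l h).map ι = X l h := fun l h => rfl
  have hY' : ∀ l h, (Y' l h).map ι = Y l h := fun l h => rfl
  have hent : ∀ h, (fun v => ι (entries X' Y' h v)) = entries X Y h := by
    intro h
    funext v
    exact (entries_map ι X' Y' h v).symm
  have hiter : Iter e X' Y' := by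
    refine ⟨fun l h => ?_, fun l g i j => ?_⟩
    · apply Matrix.map_injective hι
      change (X' l h * Y' l h).map ι = (1 : Matrix (Fin r) (Fin r) L).map ι
      rw [Matrix.map_mul, hX', hY', hX.inv, Matrix.map_one _ (map_zero ι) (map_one ι)]
    · refine ⟨fun m => ⟨b l g i j m, hbm l g i j m⟩, fun h => ?_⟩
      apply hι
      rw [map_pev]
      have h1 : ι ((X' l (g * h) * Y' l h) i j) = (X l (g * h) * Y l h) i j := by
        rw [← hX', ← hY', ← Matrix.map_mul]
        rfl
      have h2 : (fun v => ι (before l (entries X' Y' h) v)) = before l (entries X Y h) := by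
        funext v
        rw [← before_map, hent]
      rw [h1, hb l g i j h, h2]
      rfl
  refine ⟨L, inferInstance, inferInstance, Cardinal.mk_le_aleph0_iff.1 hL, L.val,
    fun h j => pev (fun m => ⟨c j m, hcm j m⟩) (entries X' Y' h),
    ⟨X', Y', hiter, fun j => ⟨_, fun h => rfl⟩⟩, fun h j => ?_⟩
  change ι (pev _ _) = _
  rw [map_pev, hent, hc j h]
  rfl

end Pool.Agent.Q1.SL
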