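import Pool.Agent.Q1.SL.Unif
import Pool.Agent.Q1.SL.Uni

/-!
Families of points given by iterated recurrences and rational curves of bounded degree: bounds which
depend only on the degrees of the equations of the variety and on the complexity of the recurrences.
-/

set_option autoImplicit false

namespace Pool.Agent.Q1.SL

open Filter MvPolynomial Pool.Agent.Y377.EL Pool.Agent.Y377.IL Pool.Agent.Y377.IR
  Pool.Agent.H533R3.SL Pool.Agent.TH717.GO Pool.Agent.Y377.ST

/-- different points off `G = 0` -/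
theorem exists_seqC {n : ℕ} {G : MvPolynomial (Fin (n + 1)) ℂ} {H : Type} [Group H]
    {x : H → Fin (n + 1) → ℂ} {B : ℕ} (hB : ¬ (ptsOff G x).encard ≤ (B : ℕ∞)) :
    ∃ hs : ℕ → H, (∀ i, x (hs i) ≠ 0) ∧ (∀ i, eval (x (hs i)) G ≠ 0) ∧
      ∀ i j, i ≤ B → j ≤ B → i ≠ j → ∃ u v, x (hs i) u * x (hs j) v ≠ x (hs i) v * x (hs j) u := by
  classical
  have h1 : ((B + 1 : ℕ) : ℕ∞) ≤ (ptsOff G x).encard := by
    rw [Nat.cast_add, Nat.cast_one]
    exact Order.add_one_le_of_lt (not_le.1 hB)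
  obtain ⟨t, hts, htc⟩ := Set.exists_subset_encard_eq h1
  have htf : t.Finite := Set.finite_of_encard_eq_coe htc
  have hcard : htf.toFinset.card = B + 1 := by
    have h2 := htf.encard_eq_coe_toFinset_card
    rw [htc] at h2
    exact_mod_cast h2.symm
  let P : Fin (B + 1) ≃ htf.toFinset := (Finset.equivFinOfCardEq hcard).symm
  have hP : ∀ i : Fin (B + 1), ((P i : htf.toFinset) : Projectivization ℂ (Fin (n + 1) → ℂ)) ∈
      ptsOff G x := fun i => hts (htf.mem_toFinset.1 (P i).2)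
  choose hs0 h0 hG0 hPe using hP
  let c : ℕ → Fin (B + 1) := fun i => if hi : i < B + 1 then ⟨i, hi⟩ else 0
  refine ⟨fun i => hs0 (c i), fun i => h0 (c i), fun i => ?_, ?_⟩
  · have h2 := hG0 (c i)
    rwa [MvPolynomial.aeval_def] at h2
  · intro i j hi hj hij
    have hci : c i = ⟨i, by omega⟩ := dif_pos (by omega)
    have hcj : c j = ⟨j, by omega⟩ := dif_pos (by omega)
    have hcij : c i ≠ c j := by
      rw [hci, hcj]
      intro h2
      exact hij (Fin.mk.inj_iff.1 h2)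
    by_contra hcon
    push Not at hcon
    apply hcij
    apply P.injective
    apply Subtype.ext
    rw [hPe (c i), hPe (c j), Projectivization.mk_eq_mk_iff']
    obtain ⟨v0, hv0⟩ := Function.ne_iff.1 (h0 (c j))
    have hv0' : x (hs0 (c j)) v0 ≠ 0 := hv0
    refine ⟨x (hs0 (c i)) v0 / x (hs0 (c j)) v0, ?_⟩
    funext u
    rw [Pi.smul_apply, smul_eq_mul]
    have h3 := hcon u v0
    rw [div_mul_eq_mul_div, ← h3, mul_div_assoc, div_self hv0', mul_one]

/-- **Bounds which are uniform in the variety.** -/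
theorem rec_uniform (n D s r e : ℕ) : ∃ d B : ℕ,
    ∀ (S : Set (MvPolynomial (Fin (n + 1)) ℂ)) (G : MvPolynomial (Fin (n + 1)) ℂ),
      (∀ F ∈ S, ∃ e, e ≤ D ∧ F.IsHomogeneous e) → (∃ e, e ≤ D ∧ G.IsHomogeneous e) →
      RatIn S G d → ∀ (H : Type) [Group H] (x : H → Fin (n + 1) → ℂ), IterVec s r e x →
        (∀ h, ∀ F ∈ S, eval (x h) F = 0) → (ptsOff G x).encard ≤ (B : ℕ∞) := by
  classical
  by_contra hcon
  have hC : ∀ d : ℕ, ∃ (S : Set (MvPolynomial (Fin (n + 1)) ℂ))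
      (G : MvPolynomial (Fin (n + 1)) ℂ) (H : Type) (_ : Group H) (x : H → Fin (n + 1) → ℂ),
      (∀ F ∈ S, ∃ e, e ≤ D ∧ F.IsHomogeneous e) ∧ (∃ e, e ≤ D ∧ G.IsHomogeneous e) ∧
      RatIn S G d ∧ IterVec s r e x ∧ (∀ h, ∀ F ∈ S, eval (x h) F = 0) ∧
      ∃ hs : ℕ → H, (∀ i, x (hs i) ≠ 0) ∧ (∀ i, eval (x (hs i)) G ≠ 0) ∧
        ∀ i j, i ≤ d → j ≤ d → i ≠ j →
          ∃ u v, x (hs i) u * x (hs j) v ≠ x (hs i) v * x (hs j) u := by
    intro d
    by_contra h1
    refine hcon ⟨d, d, ?_⟩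
    intro S G h2 h3 h4 H _ x h5 h6
    by_contra h7
    exact h1 ⟨S, G, H, _, x, h2, h3, h4, h5, h6, exists_seqC h7⟩
  choose S G Hs iH x hS hG hrat hx hF hs h0 hoff hnp using hC
  obtain ⟨θ, hsur, hk⟩ := exists_theta
  have hΘ : ∀ f : ℕ → ℂ, (∃ n, ∀ i, n ≤ i → f i = 0) → θ f = 0 := by
    rintro f ⟨N, hN⟩
    rw [hk]
    have h1 : ∀ᶠ i : ℕ in cofinite, N ≤ i := by
      rw [Nat.cofinite_eq_atTop]
      exact eventually_ge_atTop N
    filter_upwards [h1.filter_mono hyperfilter_le_cofinite] with i hi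
    exact hN i hi
  let xs : (∀ i, Hs i) → Fin (n + 1) → ℂ := fun h j => θ fun i => x i (h i) j
  have hxs : IterVec s r e xs := (IterVec.prod hx).map θ
  have key : ∀ (T : Finset (Fin (n + 1) →₀ ℕ)) (F : ℕ → MvPolynomial (Fin (n + 1)) ℂ),
      (∀ᶠ i in (hyperfilter ℕ : Filter ℕ), (F i).support ⊆ T) → ∀ h : ∀ i, Hs i,
        eval (xs h) (limT θ T F) = θ fun i => eval (x i (h i)) (F i) := fun T F hF h =>
    eval_limT hk hF fun i => x i (h i)
  let a : ℕ → ∀ i, Hs i := fun m i => hs i m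
  have hxne : ∀ m, ∃ l, xs (a m) l ≠ 0 := fun m =>
    theta_ne hΘ (fun l i => x i (a m i) l) 0 fun i _ => Function.ne_iff.1 (h0 i m)
  have hcross : ∀ m m', m ≠ m' → ∃ u v, xs (a m) u * xs (a m') v ≠ xs (a m) v * xs (a m') u := by
    intro m m' hmm
    obtain ⟨⟨u, v⟩, h1⟩ := theta_ne hΘ (fun (p : Fin (n + 1) × Fin (n + 1)) i =>
      x i (a m i) p.1 * x i (a m' i) p.2 - x i (a m i) p.2 * x i (a m' i) p.1) (max m m')
      (fun i hi => by
        obtain ⟨u, v, h1⟩ := hnp i m m' ((le_max_left _ _).trans hi)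
          ((le_max_right _ _).trans hi) hmm
        exact ⟨(u, v), sub_ne_zero.2 h1⟩)
    refine ⟨u, v, fun h2 => h1 ?_⟩
    have h3 : (fun i => x i (a m i) u * x i (a m' i) v - x i (a m i) v * x i (a m' i) u) =
        (fun i => x i (a m i) u) * (fun i => x i (a m' i) v) -
          (fun i => x i (a m i) v) * (fun i => x i (a m' i) u) := rfl
    change θ (fun i => x i (a m i) u * x i (a m' i) v - x i (a m i) v * x i (a m' i) u) = 0
    rw [h3, map_sub, map_mul, map_mul]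
    exact sub_eq_zero.2 h2
  obtain ⟨R, hR, hmem⟩ := hxs.tow
  obtain ⟨Nn, hn, hfi, hres⟩ := exists_res fhyp hR
  have hq : Finite ((∀ i, Hs i) ⧸ Nn) := inferInstance
  obtain ⟨m, m', hmm, hmk⟩ := Finite.exists_ne_map_eq_of_infinite
    fun m : ℕ => (QuotientGroup.mk (a m) : (∀ i, Hs i) ⧸ Nn)
  have hco : a m' * (a m)⁻¹ ∈ Nn := hn.mem_comm (QuotientGroup.eq.1 hmk)
  obtain ⟨l, hl⟩ := hxne m
  obtain ⟨u, v, huv⟩ := hcross m m' hmm
  obtain ⟨K, i1, i2, Γ, ρ, hρ⟩ := hres (a m)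
  obtain ⟨M, j1, j2, q, hq1, hq2, i, hq3⟩ := rat_point hmem hρ hl hco huv
  obtain ⟨d0, hd0⟩ := key_proj hsur hk hS q (fun F hF' => by
    obtain ⟨e', he', hhe⟩ := exists_deg (D := D) (by
      filter_upwards [hF'] with i hi
      exact hS i _ hi)
    rw [hq1 _ e' (limT_homog hk hhe)]
    intro g _
    rw [key _ F (by
      filter_upwards [hhe] with i hi
      exact support_hom hi he'), hk]
    filter_upwards [hF'] with i hi
    exact hF i _ _ hi) ⟨i, l, hq2, hq3⟩
  obtain ⟨e', he', hhe⟩ := exists_deg (F := G) (D := D) (Eventually.of_forall hG)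
  have h1 := hd0 G e' hhe (fun h0 => by
    rw [hq1 _ e' (limT_homog hk hhe)] at h0
    have h2 := h0 1 Nn.one_mem
    rw [one_mul, key _ G (by
      filter_upwards [hhe] with i hi
      exact support_hom hi le_rfl), hk] at h2
    obtain ⟨i, hi⟩ := h2.exists
    exact hoff i m hi)
  have hge : ∀ᶠ i in (hyperfilter ℕ : Filter ℕ), d0 ≤ i := by
    have h1 : ∀ᶠ i : ℕ in cofinite, d0 ≤ i := by
      rw [Nat.cofinite_eq_atTop]
      exact eventually_ge_atTop d0
    exact h1.filter_mono hyperfilter_le_cofinite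
  obtain ⟨i, ⟨p, hp1, hp2, hp3, hp4⟩, hi⟩ := (h1.and hge).exists
  exact hp4 (hrat i p (fun j => (hp1 j).trans hi) hp2 hp3)

/-- values of polynomials at the integers -/
theorem iterVec_poly {d N : ℕ} (p : Fin N → Polynomial ℂ) (hp : ∀ j, (p j).natDegree ≤ d) :
    IterVec 1 2 d fun (h : Multiplicative ℤ) j =>
      (p j).eval ((Multiplicative.toAdd h : ℤ) : ℂ) := by
  refine ⟨fun _ h => !![1, ((Multiplicative.toAdd h : ℤ) : ℂ); 0, 1],
    fun _ h => !![1, -((Multiplicative.toAdd h : ℤ) : ℂ); 0, 1], ⟨fun l h => ?_,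
    fun l g i j => ?_⟩, fun j => ?_⟩
  · ext i j
    fin_cases i <;> fin_cases j <;> simp [Matrix.mul_apply, Fin.sum_univ_two]
  · refine ⟨fun m => if m = 0 then
      (!![1, ((Multiplicative.toAdd g : ℤ) : ℂ); 0, 1] : Matrix (Fin 2) (Fin 2) ℂ) i j else 0,
      fun h => ?_⟩
    rw [pev_const, toAdd_mul, Int.cast_add]
    fin_cases i <;> fin_cases j <;> simp [Matrix.mul_apply, Fin.sum_univ_two]
  · obtain ⟨c, hc⟩ := pev_one (p j) (hp j) ((0, true, 0, 1) : Ix 1 2)
    refine ⟨c, fun h => ?_⟩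
    rw [hc]
    rfl

/-- **The converse.** -/
theorem ratIn_of_rec {n : ℕ} {S : Set (MvPolynomial (Fin (n + 1)) ℂ)}
    {G : MvPolynomial (Fin (n + 1)) ℂ} {d : ℕ}
    (h : ∀ x : Multiplicative ℤ → Fin (n + 1) → ℂ, IterVec 1 2 d x →
      (∀ h, ∀ F ∈ S, eval (x h) F = 0) → (ptsOff G x).Finite) : RatIn S G d := by
  classical
  intro p hp1 hp2 hp3
  by_contra hG
  have hfin := h _ (iterVec_poly p hp1) (fun h F hF => by
    rw [← poly_eval, hp2 F hF, Polynomial.eval_zero])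
  obtain ⟨s, t, i, j, hst⟩ := hp3
  obtain ⟨l, hl⟩ : ∃ l, p l ≠ 0 := by
    by_contra hcon
    push Not at hcon
    apply hst
    rw [hcon i, hcon j, Polynomial.eval_zero, Polynomial.eval_zero]
  -- the integers where both are not zero
  let W : Set ℤ := {h | (p l * aeval p G).eval (h : ℂ) ≠ 0}
  have hW : W.Infinite := by
    have h1 : {h : ℤ | (p l * aeval p G).eval (h : ℂ) = 0}.Finite := by
      refine Set.Finite.preimage (fun a _ b _ hab => Int.cast_injective hab)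
        (Polynomial.finite_setOfPred_isRoot (mul_ne_zero hl hG)) (f := fun h : ℤ => (h : ℂ))
    have h2 : W = {h : ℤ | (p l * aeval p G).eval (h : ℂ) = 0}ᶜ := rfl
    rw [h2]
    exact h1.infinite_compl
  let xx : Multiplicative ℤ → Fin (n + 1) → ℂ := fun h j =>
    (p j).eval ((Multiplicative.toAdd h : ℤ) : ℂ)
  have hxne : ∀ h ∈ W, xx (Multiplicative.ofAdd h) ≠ 0 := by
    intro h hh h0
    apply hh
    rw [Polynomial.eval_mul]
    have h1 : (p l).eval (h : ℂ) = 0 := congrFun h0 l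
    rw [h1, zero_mul]
  let f : ℤ → Projectivization ℂ (Fin (n + 1) → ℂ) := fun h =>
    if hh : h ∈ W then Projectivization.mk ℂ (xx (Multiplicative.ofAdd h)) (hxne h hh) else
      Projectivization.mk ℂ (xx (Multiplicative.ofAdd hW.nonempty.some))
        (hxne _ hW.nonempty.some_mem)
  have hfW : ∀ h (hh : h ∈ W), f h = Projectivization.mk ℂ (xx (Multiplicative.ofAdd h))
      (hxne h hh) := fun h hh => dif_pos hh
  have hmaps : Set.MapsTo f W (ptsOff G xx) := by
    intro h hh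
    refine ⟨Multiplicative.ofAdd h, hxne h hh, ?_, hfW h hh⟩
    intro h0
    apply hh
    rw [MvPolynomial.aeval_def] at h0
    have h1 : eval (xx (Multiplicative.ofAdd h)) G = 0 := h0
    rw [Polynomial.eval_mul, poly_eval]
    change _ * eval (xx (Multiplicative.ofAdd h)) G = 0
    rw [h1, mul_zero]
  have h1 : ¬ Set.InjOn f W := fun hinj =>
    hW (Set.Finite.of_injOn hmaps hinj hfin)
  -- one point with infinitely many preimages
  obtain ⟨P, hP, hPi⟩ : ∃ P ∈ ptsOff G xx, {h ∈ W | f h = P}.Infinite := by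
    by_contra hcon
    push Not at hcon
    apply hW
    refine Set.Finite.subset (hfin.biUnion (t := fun P => {h ∈ W | f h = P}) fun P hP => ?_)
      fun h hh => ?_
    · exact hcon P hP
    · rw [Set.mem_iUnion₂]
      exact ⟨f h, hmaps hh, hh, rfl⟩
  obtain ⟨h0, hh0, hh0'⟩ := hPi.nonempty
  have hc : ∀ u v : Fin (n + 1), p u * Polynomial.C ((p v).eval (h0 : ℂ)) =
      p v * Polynomial.C ((p u).eval (h0 : ℂ)) := by
    intro u v
    refine Polynomial.eq_of_infinite_eval_eq _ _ (Set.Infinite.mono ?_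
      (hPi.image (f := fun h : ℤ => (h : ℂ)) fun a _ b _ hab => Int.cast_injective hab))
    rintro _ ⟨h, ⟨hh, hhP⟩, rfl⟩
    change (p u * Polynomial.C ((p v).eval (h0 : ℂ))).eval (h : ℂ) =
      (p v * Polynomial.C ((p u).eval (h0 : ℂ))).eval (h : ℂ)
    have h2 : f h = f h0 := hhP.trans hh0'.symm
    rw [hfW h hh, hfW h0 hh0] at h2
    obtain ⟨c, hc⟩ := (Projectivization.mk_eq_mk_iff' ℂ _ _ (hxne h hh) (hxne h0 hh0)).1 h2
    have hcu : ∀ w, c * (p w).eval (h0 : ℂ) = (p w).eval (h : ℂ) := fun w => congrFun hc w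
    rw [Polynomial.eval_mul, Polynomial.eval_C, Polynomial.eval_mul, Polynomial.eval_C, ← hcu u,
      ← hcu v]
    ring
  have hl0 : (p l).eval (h0 : ℂ) ≠ 0 := by
    intro h2
    apply hh0
    rw [Polynomial.eval_mul, h2, zero_mul]
  have hcs : ∀ (w : ℂ) (u : Fin (n + 1)), (p u).eval w =
      (p l).eval w * ((p u).eval (h0 : ℂ) / (p l).eval (h0 : ℂ)) := by
    intro w u
    have h2 := congrArg (fun q => Polynomial.eval w q) (hc u l)
    simp only [Polynomial.eval_mul, Polynomial.eval_C] at h2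
    field_simp
    exact h2
  apply hst
  rw [hcs s i, hcs t j, hcs s j, hcs t i]
  ring

end Pool.Agent.Q1.SL
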