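import Pool.Agent.Q1.SL.OverC
import Pool.Agent.Q1.SL.UnifR
import Pool.Agent.Q1.SL.EmbC

/-!
Families of points given by iterated recurrences on projective varieties over algebraically closed
fields of characteristic zero.
-/

set_option autoImplicit false

namespace Pool.Agent.Q1.SL

open Set MvPolynomial Cardinal Pool.Agent.H533R3.SL Pool.Agent.Y377.ST

section ultra

variable {k : Type} [Field k] [Infinite k] {n : ℕ}

/-- There is a number `d` such that the nonconstant rational curves of degree at most `d` on `X` do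
not lie in a proper closed subset. -/
def RatDenseK (I : Ideal (MvPolynomial (Fin (n + 1)) k)) : Prop :=
  ∃ d : ℕ, ∀ G : MvPolynomial (Fin (n + 1)) k, (∃ e, G.IsHomogeneous e) → G ∉ I →
    ∃ p : Fin (n + 1) → Polynomial k, (∀ j, (p j).natDegree ≤ d) ∧ (∀ F ∈ I, aeval p F = 0) ∧
      NonC p ∧ aeval p G ≠ 0

/-- **Varieties with dense families of rational curves of bounded degree are uniruled.** -/
theorem uniruled_of_denseK {I : Ideal (MvPolynomial (Fin (n + 1)) k)} (hprime : I.IsPrime)
    (h : RatDenseK I) : Uniruled I := by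
  classical
  obtain ⟨d, h⟩ := h
  let ι : Type := {G : MvPolynomial (Fin (n + 1)) k // (∃ e, G.IsHomogeneous e) ∧ G ∉ I}
  have h' : ∀ G : ι, ∃ p : Fin (n + 1) → Polynomial k, (∀ j, (p j).natDegree ≤ d) ∧
      (∀ F ∈ I, aeval p F = 0) ∧ eval (fun j => (p j).eval 1) G.1 ≠ 0 ∧
      ∃ i j, p i * Polynomial.C ((p j).eval 1) ≠ p j * Polynomial.C ((p i).eval 1) := by
    intro G
    obtain ⟨p, h1, h2, h3, h4⟩ := h G.1 G.2.1 G.2.2
    obtain ⟨q, h5, h6, h7, h8⟩ := exists_repar h3 h4 h1
    exact ⟨q, h5, fun F hF => h6 F (h2 F hF), h7, h8⟩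
  choose p hp1 hp2 hp3 hp4 using h'
  let A : Type := ι → k
  -- the ideal
  let mulι : ι → ι → ι := fun G H => ⟨G.1 * H.1, by
    obtain ⟨e, he⟩ := G.2.1
    obtain ⟨e', he'⟩ := H.2.1
    refine ⟨⟨e + e', he.mul he'⟩, fun h1 => ?_⟩
    rcases hprime.mem_or_mem h1 with h2 | h2
    · exact G.2.2 h2
    · exact H.2.2 h2⟩
  let one : ι := ⟨1, ⟨0, isHomogeneous_one _ _⟩,
    fun h1 => hprime.ne_top ((Ideal.eq_top_iff_one _).2 h1)⟩
  let J : Ideal A :=
    { carrier := {f | ∃ G1 : ι, ∀ G : ι, G1.1 ∣ G.1 → f G = 0}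
      add_mem' := by
        rintro f g ⟨G1, h1⟩ ⟨G2, h2⟩
        refine ⟨mulι G1 G2, fun G hG => ?_⟩
        rw [Pi.add_apply, h1 G ((Dvd.intro _ rfl).trans hG),
          h2 G ((Dvd.intro_left _ rfl).trans hG), add_zero]
      zero_mem' := ⟨one, fun G _ => rfl⟩
      smul_mem' := by
        rintro c f ⟨G1, h1⟩
        refine ⟨G1, fun G hG => ?_⟩
        rw [smul_eq_mul, Pi.mul_apply, h1 G hG, mul_zero] }
  have hJ : J ≠ ⊤ := by
    rw [Ideal.ne_top_iff_one]
    rintro ⟨G1, h1⟩
    exact one_ne_zero (h1 G1 dvd_rfl)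
  obtain ⟨m, hm, hJm⟩ := Ideal.exists_le_maximal J hJ
  let iL : Field (A ⧸ m) := Ideal.Quotient.field m
  let Φ : A →ₐ[k] (A ⧸ m) := Ideal.Quotient.mkₐ k m
  have hΦ : ∀ f : A, Φ f = 0 ↔ f ∈ m := fun f => Ideal.Quotient.eq_zero_iff_mem
  have hmem : ∀ f ∈ m, ∀ G1 : ι, ∃ G : ι, G1.1 ∣ G.1 ∧ f G = 0 := by
    intro f hf G1
    by_contra hcon
    push Not at hcon
    have h1 : 1 - (fun G => (f G)⁻¹) * f ∈ J := by
      refine ⟨G1, fun G hG => ?_⟩
      change 1 - (f G)⁻¹ * f G = 0
      rw [inv_mul_cancel₀ (hcon G hG), sub_self]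
    have h2 := m.add_mem (hJm h1) (m.mul_mem_left (fun G => (f G)⁻¹) hf)
    rw [sub_add_cancel] at h2
    exact hm.ne_top ((Ideal.eq_top_iff_one _).2 h2)
  let PP : Fin (n + 1) → Polynomial A := fun j =>
    ∑ a ∈ Finset.range (d + 1), Polynomial.C (fun G => (p G j).coeff a) * Polynomial.X ^ a
  let ev : ι → A →ₐ[k] k := fun G => Pi.evalAlgHom k (fun _ : ι => k) G
  have hPP : ∀ G j, Polynomial.mapAlgHom (ev G) (PP j) = p G j := by
    intro G j
    change Polynomial.map _ (∑ a ∈ Finset.range (d + 1),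
      Polynomial.C (fun G => (p G j).coeff a) * Polynomial.X ^ a) = _
    rw [Polynomial.map_sum]
    simp only [Polynomial.map_mul, Polynomial.map_C, Polynomial.map_pow, Polynomial.map_X]
    conv_rhs => rw [(p G j).as_sum_range' (d + 1) (by have := hp1 G j; omega)]
    refine Finset.sum_congr rfl fun a _ => ?_
    rw [Polynomial.C_mul_X_pow_eq_monomial]
    rfl
  have hext : ∀ E : Polynomial A, (∀ G, Polynomial.mapAlgHom (ev G) E = 0) → E = 0 := by
    intro E hE
    apply Polynomial.ext
    intro a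
    funext G
    have h1 := congrArg (fun E => Polynomial.coeff E a) (hE G)
    change (Polynomial.map _ E).coeff a = _ at h1
    rw [Polynomial.coeff_map] at h1
    exact h1
  have hcA : ∀ (B : Type) [CommRing B] [Algebra k B] (φ : A →ₐ[k] B)
      (F : MvPolynomial (Fin (n + 1)) k), Polynomial.mapAlgHom φ (aeval PP F) =
        aeval (fun j => Polynomial.mapAlgHom φ (PP j)) F := fun B _ _ φ F =>
    MvPolynomial.comp_aeval_apply (f := PP) (Polynomial.mapAlgHom φ) F
  have hmapeval : ∀ (B : Type) [CommRing B] [Algebra k B] (φ : A →ₐ[k] B) (E : Polynomial A),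
      (Polynomial.mapAlgHom φ E).eval 1 = φ (E.eval 1) := by
    intro B _ _ φ E
    change (Polynomial.map (φ : A →+* B) E).eval 1 = _
    rw [Polynomial.eval_map]
    have h3 := Polynomial.eval₂_at_apply (p := E) (φ : A →+* B) 1
    rw [map_one] at h3
    exact h3
  refine ⟨A ⧸ m, iL, inferInstance, fun j => Polynomial.mapAlgHom Φ (PP j), ?_, ?_, ?_⟩
  · intro F hF
    rw [← hcA]
    have h1 : aeval PP F = 0 := by
      apply hext
      intro G
      rw [hcA]
      have h2 : (fun j => Polynomial.mapAlgHom (ev G) (PP j)) = p G := funext fun j => hPP G j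
      rw [h2]
      exact hp2 G F hF
    rw [h1, map_zero]
  · intro G1 hG1 hG2 h0
    let f : A := fun G => eval (fun j => (p G j).eval 1) G1
    have h1 : Φ f = aeval (fun j => (Polynomial.mapAlgHom Φ (PP j)).eval 1) G1 := by
      have h2 : f = aeval (fun j => (PP j).eval 1) G1 := by
        funext G
        change eval (fun j => (p G j).eval 1) G1 = ev G (aeval (fun j => (PP j).eval 1) G1)
        rw [MvPolynomial.comp_aeval_apply, ← aeval_ev]
        congr 2
        funext j
        rw [← hmapeval, hPP]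
      rw [h2, MvPolynomial.comp_aeval_apply]
      congr 2
      funext j
      rw [← hmapeval]
    rw [← h1, hΦ] at h0
    obtain ⟨G, hG, h2⟩ := hmem f h0 ⟨G1, hG1, hG2⟩
    obtain ⟨H, hH⟩ := hG
    apply hp3 G
    have h3 : eval (fun j => (p G j).eval 1) G1 = 0 := h2
    change G.1 = G1 * H at hH
    rw [hH, map_mul, h3, zero_mul]
  · by_contra hcon
    push Not at hcon
    let W : Fin (n + 1) × Fin (n + 1) → Polynomial A := fun q =>
      PP q.1 * Polynomial.C ((PP q.2).eval 1) - PP q.2 * Polynomial.C ((PP q.1).eval 1)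
    have hW : ∀ (B : Type) [CommRing B] [Algebra k B] (φ : A →ₐ[k] B) q,
        Polynomial.mapAlgHom φ (W q) =
          Polynomial.mapAlgHom φ (PP q.1) *
            Polynomial.C ((Polynomial.mapAlgHom φ (PP q.2)).eval 1) -
          Polynomial.mapAlgHom φ (PP q.2) *
            Polynomial.C ((Polynomial.mapAlgHom φ (PP q.1)).eval 1) := by
      intro B _ _ φ q
      rw [hmapeval, hmapeval, map_sub, map_mul, map_mul]
      congr 2
      · change Polynomial.map (φ : A →+* B) (Polynomial.C _) = _
        rw [Polynomial.map_C]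
        rfl
      · change Polynomial.map (φ : A →+* B) (Polynomial.C _) = _
        rw [Polynomial.map_C]
        rfl
    -- all coefficients lie in the maximal ideal
    have hWm : ∀ q a, (W q).coeff a ∈ m := by
      intro q a
      rw [← hΦ]
      have h1 := hW (A ⧸ m) Φ q
      rw [hcon q.1 q.2, sub_self] at h1
      have h2 := congrArg (fun E => Polynomial.coeff E a) h1
      change (Polynomial.map _ (W q)).coeff a = _ at h2
      rw [Polynomial.coeff_map] at h2
      exact h2
    have hch : ∀ G : ι, ∃ t : (Fin (n + 1) × Fin (n + 1)) × Fin (d + 1),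
        (W t.1).coeff t.2 G ≠ 0 := by
      intro G
      by_contra hno
      push Not at hno
      obtain ⟨i, j, hij⟩ := hp4 G
      apply hij
      rw [← sub_eq_zero]
      have h1 := hW k (ev G) (i, j)
      rw [hPP, hPP] at h1
      rw [← h1]
      apply Polynomial.ext
      intro a
      rw [Polynomial.coeff_zero]
      change (Polynomial.map _ (W (i, j))).coeff a = 0
      rw [Polynomial.coeff_map]
      by_cases ha : a < d + 1
      · exact hno ((i, j), ⟨a, ha⟩)
      · have h2 : (Polynomial.mapAlgHom (ev G) (W (i, j))).coeff a = 0 := by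
          rw [h1]
          apply Polynomial.coeff_eq_zero_of_natDegree_lt
          refine lt_of_le_of_lt (Polynomial.natDegree_sub_le _ _) (max_lt ?_ ?_)
          · exact lt_of_le_of_lt (Polynomial.natDegree_mul_C_le _ _)
              (lt_of_le_of_lt (hp1 G i) (by omega))
          · exact lt_of_le_of_lt (Polynomial.natDegree_mul_C_le _ _)
              (lt_of_le_of_lt (hp1 G j) (by omega))
        change (Polynomial.map _ (W (i, j))).coeff a = 0 at h2
        rwa [Polynomial.coeff_map] at h2
    choose t ht using hch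
    let u : (Fin (n + 1) × Fin (n + 1)) × Fin (d + 1) → A := fun q G =>
      if t G = q then ((W q.1).coeff q.2 G)⁻¹ else 0
    have h1 : ∑ q, u q * (W q.1).coeff q.2 ∈ m :=
      m.sum_mem fun q _ => m.mul_mem_left _ (hWm q.1 q.2)
    obtain ⟨G, -, hG⟩ := hmem _ h1 one
    have h2 : (∑ q, u q * (W q.1).coeff q.2) G = 1 := by
      rw [Finset.sum_apply, Finset.sum_eq_single (t G)]
      · change (if t G = t G then ((W (t G).1).coeff (t G).2 G)⁻¹ else 0) *
          (W (t G).1).coeff (t G).2 G = 1
        rw [if_pos rfl, inv_mul_cancel₀ (ht G)]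
      · intro q _ hq
        change (if t G = q then ((W q.1).coeff q.2 G)⁻¹ else 0) * (W q.1).coeff q.2 G = 0
        rw [if_neg (Ne.symm hq), zero_mul]
      · intro h4
        exact absurd (Finset.mem_univ _) h4
    rw [h2] at hG
    exact one_ne_zero hG

end ultra

/-! ### The properties -/

section props

variable {k : Type} [Field k] {n : ℕ}

/-- For every `d` there is a form `G` which does not vanish on `X` such that all nonconstant rational
curves of degree at most `d` on `X` over `k` lie in `G = 0`. -/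
def RatDegF (I : Ideal (MvPolynomial (Fin (n + 1)) k)) : Prop :=
  ∀ d : ℕ, ∃ G : MvPolynomial (Fin (n + 1)) k, (∃ e, G.IsHomogeneous e) ∧ G ∉ I ∧
    ∀ p : Fin (n + 1) → Polynomial k, (∀ j, (p j).natDegree ≤ d) → (∀ F ∈ I, aeval p F = 0) →
      NonC p → aeval p G = 0

/-- For all `s`, `r`, `e` there are a form `G` which does not vanish on `X` and a number `B` such that
all families of points of `X(k)` given by `s` iterated recurrences with matrices of size `r` and
polynomials of degree at most `e`, for all groups `H`, contain at most `B` points outside of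
`G = 0`. -/
def MordB (I : Ideal (MvPolynomial (Fin (n + 1)) k)) : Prop :=
  ∀ s r e : ℕ, ∃ G : MvPolynomial (Fin (n + 1)) k, (∃ d, G.IsHomogeneous d) ∧ G ∉ I ∧
    ∃ B : ℕ, ∀ (H : Type) [Group H] (x : H → Fin (n + 1) → k), IterVec s r e x →
      (∀ h, ∀ F ∈ I, eval (x h) F = 0) → (ptsOff G x).encard ≤ (B : ℕ∞)

/-- For every `d` there is a form `G` which does not vanish on `X` such that all sequences of points
of `X(k)`, indexed by the integers and given by one recurrence of size `2` and polynomials of degree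
at most `d`, contain only finitely many points outside of `G = 0`. -/
def SeqB (I : Ideal (MvPolynomial (Fin (n + 1)) k)) : Prop :=
  ∀ d : ℕ, ∃ G : MvPolynomial (Fin (n + 1)) k, (∃ e, G.IsHomogeneous e) ∧ G ∉ I ∧
    ∀ x : Multiplicative ℤ → Fin (n + 1) → k, IterVec 1 2 d x →
      (∀ h, ∀ F ∈ I, eval (x h) F = 0) → (ptsOff G x).Finite

theorem ratDegF_of_not [Infinite k] {I : Ideal (MvPolynomial (Fin (n + 1)) k)}
    (hprime : I.IsPrime) (h : ¬ Uniruled I) : RatDegF I := by
  intro d
  by_contra hcon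
  refine h (uniruled_of_denseK hprime ⟨d, fun G h1 h2 => ?_⟩)
  by_contra hno
  refine hcon ⟨G, h1, h2, fun p h4 h5 h6 => ?_⟩
  by_contra h7
  exact hno ⟨p, h4, h5, h6, h7⟩

/-- values of polynomials at the integers -/
theorem iterVec_polyK {d N : ℕ} (p : Fin N → Polynomial k) (hp : ∀ j, (p j).natDegree ≤ d) :
    IterVec 1 2 d fun (h : Multiplicative ℤ) j =>
      (p j).eval ((Multiplicative.toAdd h : ℤ) : k) := by
  refine ⟨fun _ h => !![1, ((Multiplicative.toAdd h : ℤ) : k); 0, 1],
    fun _ h => !![1, -((Multiplicative.toAdd h : ℤ) : k); 0, 1], ⟨fun l h => ?_,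
    fun l g i j => ?_⟩, fun j => ?_⟩
  · ext i j
    fin_cases i <;> fin_cases j <;> simp [Matrix.mul_apply, Fin.sum_univ_two]
  · refine ⟨fun m => if m = 0 then
      (!![1, ((Multiplicative.toAdd g : ℤ) : k); 0, 1] : Matrix (Fin 2) (Fin 2) k) i j else 0,
      fun h => ?_⟩
    rw [pev_const, toAdd_mul, Int.cast_add]
    fin_cases i <;> fin_cases j <;> simp [Matrix.mul_apply, Fin.sum_univ_two]
  · obtain ⟨c, hc⟩ := pev_one (p j) (hp j) ((0, true, 0, 1) : Ix 1 2)
    refine ⟨c, fun h => ?_⟩
    rw [hc]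
    rfl

/-- **The converse.** -/
theorem rat_of_fin [CharZero k] {G : MvPolynomial (Fin (n + 1)) k} {p : Fin (n + 1) → Polynomial k}
    (hfin : (ptsOff G fun (h : Multiplicative ℤ) j =>
      (p j).eval ((Multiplicative.toAdd h : ℤ) : k)).Finite) (hp3 : NonC p) : aeval p G = 0 := by
  classical
  by_contra hG
  obtain ⟨s, t, i, j, hst⟩ := hp3
  obtain ⟨l, hl⟩ : ∃ l, p l ≠ 0 := by
    by_contra hcon
    push Not at hcon
    apply hst
    rw [hcon i, hcon j, Polynomial.eval_zero, Polynomial.eval_zero]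
  let W : Set ℤ := {h | (p l * aeval p G).eval (h : k) ≠ 0}
  have hW : W.Infinite := by
    have h1 : {h : ℤ | (p l * aeval p G).eval (h : k) = 0}.Finite := by
      refine Set.Finite.preimage (fun a _ b _ hab => Int.cast_injective hab)
        (Polynomial.finite_setOfPred_isRoot (mul_ne_zero hl hG)) (f := fun h : ℤ => (h : k))
    have h2 : W = {h : ℤ | (p l * aeval p G).eval (h : k) = 0}ᶜ := rfl
    rw [h2]
    exact h1.infinite_compl
  let xx : Multiplicative ℤ → Fin (n + 1) → k := fun h j =>
    (p j).eval ((Multiplicative.toAdd h : ℤ) : k)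
  have hxne : ∀ h ∈ W, xx (Multiplicative.ofAdd h) ≠ 0 := by
    intro h hh h0
    apply hh
    rw [Polynomial.eval_mul]
    have h1 : (p l).eval (h : k) = 0 := congrFun h0 l
    rw [h1, zero_mul]
  let f : ℤ → Projectivization k (Fin (n + 1) → k) := fun h =>
    if hh : h ∈ W then Projectivization.mk k (xx (Multiplicative.ofAdd h)) (hxne h hh) else
      Projectivization.mk k (xx (Multiplicative.ofAdd hW.nonempty.some))
        (hxne _ hW.nonempty.some_mem)
  have hfW : ∀ h (hh : h ∈ W), f h = Projectivization.mk k (xx (Multiplicative.ofAdd h))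
      (hxne h hh) := fun h hh => dif_pos hh
  have hmaps : Set.MapsTo f W (ptsOff G xx) := by
    intro h hh
    refine ⟨Multiplicative.ofAdd h, hxne h hh, ?_, hfW h hh⟩
    intro h0
    apply hh
    rw [MvPolynomial.aeval_def] at h0
    have h1 : eval (xx (Multiplicative.ofAdd h)) G = 0 := h0
    rw [Polynomial.eval_mul, poly_eval]
    change _ * eval (xx (Multiplicative.ofAdd h)) G = 0
    rw [h1, mul_zero]
  obtain ⟨P, hP, hPi⟩ : ∃ P ∈ ptsOff G xx, {h ∈ W | f h = P}.Infinite := by
    by_contra hcon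
    push Not at hcon
    apply hW
    refine Set.Finite.subset (hfin.biUnion (t := fun P => {h ∈ W | f h = P}) fun P hP => ?_)
      fun h hh => ?_
    · exact hcon P hP
    · rw [Set.mem_iUnion₂]
      exact ⟨f h, hmaps hh, hh, rfl⟩
  obtain ⟨h0, hh0, hh0'⟩ := hPi.nonempty
  have hc : ∀ u v : Fin (n + 1), p u * Polynomial.C ((p v).eval (h0 : k)) =
      p v * Polynomial.C ((p u).eval (h0 : k)) := by
    intro u v
    refine Polynomial.eq_of_infinite_eval_eq _ _ (Set.Infinite.mono ?_
      (hPi.image (f := fun h : ℤ => (h : k)) fun a _ b _ hab => Int.cast_injective hab))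
    rintro _ ⟨h, ⟨hh, hhP⟩, rfl⟩
    change (p u * Polynomial.C ((p v).eval (h0 : k))).eval (h : k) =
      (p v * Polynomial.C ((p u).eval (h0 : k))).eval (h : k)
    have h2 : f h = f h0 := hhP.trans hh0'.symm
    rw [hfW h hh, hfW h0 hh0] at h2
    obtain ⟨c, hc⟩ := (Projectivization.mk_eq_mk_iff' k _ _ (hxne h hh) (hxne h0 hh0)).1 h2
    have hcu : ∀ w, c * (p w).eval (h0 : k) = (p w).eval (h : k) := fun w => congrFun hc w
    rw [Polynomial.eval_mul, Polynomial.eval_C, Polynomial.eval_mul, Polynomial.eval_C, ← hcu u,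
      ← hcu v]
    ring
  have hl0 : (p l).eval (h0 : k) ≠ 0 := by
    intro h2
    apply hh0
    rw [Polynomial.eval_mul, h2, zero_mul]
  have hcs : ∀ (w : k) (u : Fin (n + 1)), (p u).eval w =
      (p l).eval w * ((p u).eval (h0 : k) / (p l).eval (h0 : k)) := by
    intro w u
    have h2 := congrArg (fun q => Polynomial.eval w q) (hc u l)
    simp only [Polynomial.eval_mul, Polynomial.eval_C] at h2
    field_simp
    exact h2
  apply hst
  rw [hcs s i, hcs t j, hcs s j, hcs t i]
  ring

theorem ratDegF_of_seqB [CharZero k] {I : Ideal (MvPolynomial (Fin (n + 1)) k)} (h : SeqB I) :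
    RatDegF I := by
  intro d
  obtain ⟨G, h1, h2, h3⟩ := h d
  refine ⟨G, h1, h2, fun p hp1 hp2 hp3 => rat_of_fin (h3 _ (iterVec_polyK p hp1)
    fun h F hF => ?_) hp3⟩
  rw [← poly_eval, hp2 F hF, Polynomial.eval_zero]

theorem seqB_of_mordB {I : Ideal (MvPolynomial (Fin (n + 1)) k)} (h : MordB I) : SeqB I := by
  intro d
  obtain ⟨G, h1, h2, B, hB⟩ := h 1 2 d
  exact ⟨G, h1, h2, fun x hx hF => Set.finite_of_encard_le_coe (hB _ x hx hF)⟩

/-- different points off `G = 0` -/
theorem exists_seqF {G : MvPolynomial (Fin (n + 1)) k} {H : Type} [Group H]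
    {x : H → Fin (n + 1) → k} {B : ℕ} (hB : ¬ (ptsOff G x).encard ≤ (B : ℕ∞)) :
    ∃ hs : Fin (B + 1) → H, (∀ i, x (hs i) ≠ 0) ∧ (∀ i, eval (x (hs i)) G ≠ 0) ∧
      ∀ i j, i ≠ j → ∃ u v, x (hs i) u * x (hs j) v ≠ x (hs i) v * x (hs j) u := by
  classical
  have h1 : ((B + 1 : ℕ) : ℕ∞) ≤ (ptsOff G x).encard := by
    rw [Nat.cast_add, Nat.cast_one]
    exact Order.add_one_le_of_lt (not_le.1 hB)
  obtain ⟨t, hts, htc⟩ := Set.exists_subset_encard_eq h1
  have htf : t.Finite := Set.finite_of_encard_eq_coe htc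
  have hcard : htf.toFinset.card = B + 1 := by
    have h2 := htf.encard_eq_coe_toFinset_card
    rw [htc] at h2
    exact_mod_cast h2.symm
  let P : Fin (B + 1) ≃ htf.toFinset := (Finset.equivFinOfCardEq hcard).symm
  have hP : ∀ i : Fin (B + 1), ((P i : htf.toFinset) : Projectivization k (Fin (n + 1) → k)) ∈
      ptsOff G x := fun i => hts (htf.mem_toFinset.1 (P i).2)
  choose hs0 h0 hG0 hPe using hP
  refine ⟨hs0, h0, fun i => ?_, ?_⟩
  · have h2 := hG0 i
    rwa [MvPolynomial.aeval_def] at h2
  · intro i j hij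
    by_contra hcon
    push Not at hcon
    apply hij
    apply P.injective
    apply Subtype.ext
    rw [hPe i, hPe j, Projectivization.mk_eq_mk_iff']
    obtain ⟨v0, hv0⟩ := Function.ne_iff.1 (h0 j)
    have hv0' : x (hs0 j) v0 ≠ 0 := hv0
    refine ⟨x (hs0 i) v0 / x (hs0 j) v0, ?_⟩
    funext u
    rw [Pi.smul_apply, smul_eq_mul]
    have h3 := hcon u v0
    rw [div_mul_eq_mul_div, ← h3, mul_div_assoc, div_self hv0', mul_one]

end props

/-- **Countable algebraically closed fields of definition.** -/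
theorem exists_ctbleK {k : Type} [Field k] [CharZero k] [IsAlgClosed k] (C0 : Set k)
    (h : C0.Countable) :
    ∃ (k1 : Type) (_ : Field k1) (_ : Algebra k1 k), Countable k1 ∧ IsAlgClosed k1 ∧
      ∀ c ∈ C0, ∃ a : k1, algebraMap k1 k a = c := by
  let k0 : IntermediateField ℚ k := IntermediateField.adjoin ℚ C0
  let k1 := algebraicClosure k0 k
  have h0 : #k0 ≤ ℵ₀ := by
    refine (IntermediateField.cardinalMk_adjoin_le ℚ C0).trans ?_
    refine max_le (max_le ?_ h.le_aleph0) le_rfl
    exact Cardinal.mk_le_aleph0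
  have h1 : #k1 ≤ ℵ₀ :=
    (Algebra.IsAlgebraic.cardinalMk_le_max k0 k1).trans (max_le h0 le_rfl)
  refine ⟨k1, inferInstance, inferInstance, Cardinal.mk_le_aleph0_iff.1 h1,
    (algebraicClosure.isAlgClosure k0 k).isAlgClosed, fun c hc => ?_⟩
  have h2 : c ∈ k0 := IntermediateField.subset_adjoin ℚ C0 hc
  exact ⟨⟨c, (algebraicClosure k0 k).algebraMap_mem ⟨c, h2⟩⟩, rfl⟩

attribute [local instance] MvPolynomial.gradedAlgebra in
/-- descent of a homogeneous ideal -/
theorem span_formsK {k k1 : Type} [Field k] [Field k1] [Algebra k1 k] {n : ℕ}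
    {I : Ideal (MvPolynomial (Fin (n + 1)) k)}
    (hI : ∃ S : Set (MvPolynomial (Fin (n + 1)) k), (∀ F ∈ S, ∃ e, F.IsHomogeneous e) ∧
      I = Ideal.span S) :
    Ideal.span {F : MvPolynomial (Fin (n + 1)) k1 | (∃ e, F.IsHomogeneous e) ∧
      map (algebraMap k1 k) F ∈ I} = Ideal.comap (map (algebraMap k1 k)) I := by
  obtain ⟨S, hS, rfl⟩ := hI
  have hh : (Ideal.span S).IsHomogeneous (homogeneousSubmodule (Fin (n + 1)) k) := by
    apply Ideal.homogeneous_span
    intro F hF
    obtain ⟨e, he⟩ := hS F hF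
    exact ⟨e, he⟩
  apply le_antisymm
  · rw [Ideal.span_le]
    intro F hF
    exact hF.2
  · intro F hF
    rw [Ideal.mem_comap] at hF
    rw [← sum_homogeneousComponent F]
    refine Ideal.sum_mem _ fun i _ =>
      Ideal.subset_span ⟨⟨i, homogeneousComponent_isHomogeneous i F⟩, ?_⟩
    have h1 := homogeneousComponent_mem_of_mem hh hF i
    have h2 : map (algebraMap k1 k) (homogeneousComponent i F) =
        homogeneousComponent i (map (algebraMap k1 k) F) := by
      ext m
      rw [coeff_map, coeff_homogeneousComponent, coeff_homogeneousComponent, coeff_map]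
      split_ifs
      · rfl
      · exact map_zero _
    rw [h2]
    exact h1

/-- **One closed subset and one bound for all families of bounded complexity.** -/
theorem mordB_of_ratDegF {k : Type} [Field k] [CharZero k] [IsAlgClosed k] {n : ℕ}
    (FF : Finset (MvPolynomial (Fin (n + 1)) k))
    (hhom : ∀ F ∈ FF, ∃ e, F.IsHomogeneous e)
    (hprime : (Ideal.span (FF : Set (MvPolynomial (Fin (n + 1)) k))).IsPrime)
    (h : RatDegF (Ideal.span (FF : Set (MvPolynomial (Fin (n + 1)) k)))) :
    MordB (Ideal.span (FF : Set (MvPolynomial (Fin (n + 1)) k))) := by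
  classical
  set I : Ideal (MvPolynomial (Fin (n + 1)) k) :=
    Ideal.span (FF : Set (MvPolynomial (Fin (n + 1)) k)) with hIdef
  choose Gd hGd1 hGd2 hGd3 using h
  obtain ⟨k1, _, _, hkc, hka, hk⟩ := exists_ctbleK
    ((⋃ F ∈ FF, (F.coeffs : Set k)) ∪ ⋃ d, ((Gd d).coeffs : Set k)) (by
      refine Set.Countable.union ?_ ?_
      · exact Set.Countable.biUnion FF.countable_toSet fun F _ => F.coeffs.countable_toSet
      · exact Set.countable_iUnion fun d => (Gd d).coeffs.countable_toSet)
  have hinj : Function.Injective (algebraMap k1 k) := (algebraMap k1 k).injective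
  have hlift : ∀ F : MvPolynomial (Fin (n + 1)) k, (∀ c ∈ F.coeffs, ∃ a : k1,
      algebraMap k1 k a = c) → ∃ F' : MvPolynomial (Fin (n + 1)) k1,
        map (algebraMap k1 k) F' = F := by
    intro F hF
    exact mem_range_map_iff_coeffs_subset.2 hF
  have hliftF : ∀ F ∈ FF, ∃ F' : MvPolynomial (Fin (n + 1)) k1, map (algebraMap k1 k) F' = F :=
    fun F hF => hlift F fun c hc => hk c (Or.inl (Set.mem_biUnion (x := F) hF hc))
  have hliftG : ∀ d, ∃ G' : MvPolynomial (Fin (n + 1)) k1, map (algebraMap k1 k) G' = Gd d :=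
    fun d => hlift (Gd d) fun c hc => hk c (Or.inr (Set.mem_iUnion.2 ⟨d, hc⟩))
  let FFk : Set (MvPolynomial (Fin (n + 1)) k1) := {F | (∃ e, F.IsHomogeneous e) ∧
    map (algebraMap k1 k) F ∈ I}
  have hspan : Ideal.span FFk = Ideal.comap (map (algebraMap k1 k)) I :=
    span_formsK ⟨_, hhom, rfl⟩
  have hpk : (Ideal.span FFk).IsPrime := by
    rw [hspan]
    exact Ideal.IsPrime.comap _
  have hmem : ∀ F, F ∈ Ideal.span FFk ↔ map (algebraMap k1 k) F ∈ I := by
    intro F
    rw [hspan, Ideal.mem_comap]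
  have hnu : ¬ Uniruled (Ideal.span FFk) := by
    apply not_uniruled
    intro d
    obtain ⟨G', hG'⟩ := hliftG d
    refine ⟨G', ?_, ?_, ?_⟩
    · obtain ⟨e, he⟩ := hGd1 d
      exact ⟨e, IsHomogeneous.of_map hinj (hG' ▸ he)⟩
    · rw [hmem, hG']
      exact hGd2 d
    · intro p hp1 hp2 hp3
      let φ : Polynomial k1 →ₐ[k1] Polynomial k := Polynomial.mapAlgHom (Algebra.ofId k1 k)
      have hφi : Function.Injective φ := Polynomial.map_injective _ hinj
      have hc : ∀ F : MvPolynomial (Fin (n + 1)) k1,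
          aeval (fun j => φ (p j)) (map (algebraMap k1 k) F) = φ (aeval p F) := by
        intro F
        rw [MvPolynomial.comp_aeval_apply, MvPolynomial.aeval_map_algebraMap]
      have h0 := hGd3 d (fun j => φ (p j)) (fun j => ?_) (fun F hF => ?_) ?_
      · rw [← hG', hc] at h0
        exact hφi (h0.trans (map_zero φ).symm)
      · exact (Polynomial.natDegree_map_le).trans (hp1 j)
      · have h1 : I ≤ RingHom.ker (aeval (fun j => φ (p j)) :
            MvPolynomial (Fin (n + 1)) k →ₐ[k] Polynomial k) := by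
          rw [hIdef, Ideal.span_le]
          intro F hF
          obtain ⟨F', hF'⟩ := hliftF F hF
          change aeval (fun j => φ (p j)) F = 0
          rw [← hF', hc, hp2 F' ((hmem F').2 (by rw [hF']; exact Ideal.subset_span hF)), map_zero]
        exact h1 hF
      · obtain ⟨s, t, i, j, hst⟩ := hp3
        have he : ∀ (E : Polynomial k1) (w : k1),
            (φ E).eval (algebraMap k1 k w) = algebraMap k1 k (E.eval w) := by
          intro E w
          change (Polynomial.map _ E).eval _ = _
          rw [Polynomial.eval_map]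
          exact Polynomial.eval₂_at_apply (algebraMap k1 k) w
        refine ⟨algebraMap k1 k s, algebraMap k1 k t, i, j, fun h1 => hst ?_⟩
        rw [he, he, he, he, ← map_mul, ← map_mul] at h1
        exact hinj h1
  intro s r e
  obtain ⟨G, hG1, hG2, B, hB⟩ := strong_uniform FFk (fun F hF => hF.1) hpk hnu s r e
  refine ⟨map (algebraMap k1 k) G, ?_, fun h1 => hG2 ((hmem G).2 h1), B, ?_⟩
  · obtain ⟨d, hd⟩ := hG1
    exact ⟨d, hd.map _⟩
  · intro H _ x hx hI
    by_contra hcon
    obtain ⟨hs, h0, hoff, hcr⟩ := exists_seqF hcon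
    let N : Subgroup H := (FreeGroup.lift hs).range
    have hNc : Countable N := (MonoidHom.rangeRestrict_surjective (FreeGroup.lift hs)).countable
    obtain ⟨L, iL, iA, hLc, ι, x', hx', hιx⟩ := descend (k0 := k1) (iterVec_sub hx N)
    have hcL : CharZero L := RingHom.charZero (ι : L →+* k)
    obtain ⟨τ⟩ := exists_embed L
    have hev : ∀ (h : N) (F : MvPolynomial (Fin (n + 1)) k1),
        ι (aeval (x' h) F) = eval (x h) (map (algebraMap k1 k) F) := by
      intro h F
      have h1 := MvPolynomial.comp_aeval_apply (f := x' h) ι F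
      have h2 : (fun j => ι (x' h j)) = x h := funext fun j => hιx h j
      rw [h1, h2, eval_map, aeval_def]
    have h5 := hB L τ N x' hx' (fun h F hF => by
      have h6 : ι (aeval (x' h) F) = 0 := by
        rw [hev]
        exact hI h _ hF.2
      exact (map_eq_zero ι).1 h6)
    let hs' : Fin (B + 1) → N := fun i => ⟨hs i, FreeGroup.of i, FreeGroup.lift_apply_of⟩
    have h0' : ∀ i, x' (hs' i) ≠ 0 := by
      intro i h6
      apply h0 i
      funext j
      have h7 := hιx (hs' i) j
      rw [congrFun h6 j] at h7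
      exact h7.symm.trans (map_zero ι)
    let f : Fin (B + 1) → Projectivization L (Fin (n + 1) → L) := fun i =>
      Projectivization.mk L (x' (hs' i)) (h0' i)
    have hf : Function.Injective f := by
      intro i j hij
      by_contra hne
      obtain ⟨u, v, huv⟩ := hcr i j hne
      apply huv
      obtain ⟨c, hc⟩ := (Projectivization.mk_eq_mk_iff' L _ _ (h0' i) (h0' j)).1 hij
      have hcu : ∀ w, x (hs i) w = ι c * x (hs j) w := by
        intro w
        have h6 := congrArg ι (congrFun hc w)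
        rw [Pi.smul_apply, smul_eq_mul, map_mul, hιx, hιx] at h6
        exact h6.symm
      rw [hcu u, hcu v]
      ring
    have hr : Set.range f ⊆ ptsOff G x' := by
      rintro _ ⟨i, rfl⟩
      refine ⟨hs' i, h0' i, fun h6 => hoff i ?_, rfl⟩
      have h7 := hev (hs' i) G
      rw [h6, map_zero] at h7
      exact h7.symm
    have h8 := hf.encard_range.trans ((Set.encard_le_encard hr).trans h5)
    rw [ENat.card_eq_coe_fintype_card, Fintype.card_fin] at h8
    have h9 : B + 1 ≤ B := by exact_mod_cast h8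
    omega

/-- **The bounded complexity version of the conjecture of Lang and Vojta.** -/
theorem mord_tfae {k : Type} [Field k] [CharZero k] [IsAlgClosed k] {n : ℕ}
    (FF : Finset (MvPolynomial (Fin (n + 1)) k))
    (hhom : ∀ F ∈ FF, ∃ e, F.IsHomogeneous e)
    (hprime : (Ideal.span (FF : Set (MvPolynomial (Fin (n + 1)) k))).IsPrime) :
    List.TFAE [¬ Uniruled (Ideal.span (FF : Set (MvPolynomial (Fin (n + 1)) k))),
      RatDegF (Ideal.span (FF : Set (MvPolynomial (Fin (n + 1)) k))),
      MordB (Ideal.span (FF : Set (MvPolynomial (Fin (n + 1)) k))),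
      SeqB (Ideal.span (FF : Set (MvPolynomial (Fin (n + 1)) k)))] := by
  tfae_have 1 → 2 := ratDegF_of_not hprime
  tfae_have 2 → 1 := not_uniruled
  tfae_have 2 → 3 := mordB_of_ratDegF FF hhom hprime
  tfae_have 3 → 4 := seqB_of_mordB
  tfae_have 4 → 2 := ratDegF_of_seqB
  tfae_finish

end Pool.Agent.Q1.SL
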