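import Pool.Agent.Q1.SL.DCurve
import Pool.Agent.Q1.SL.Spec
import Pool.Agent.Q1.SL.UltraC
import Pool.Agent.Y377.ST.Conv

/-!
Curves given by iterated linear differential equations of bounded complexity in projective varieties
over `ℂ`.
-/

set_option autoImplicit false

namespace Pool.Agent.Q1.SL

open Set MvPolynomial Pool.Agent.Y377.ST Pool.Agent.H533R3.SL

variable {n : ℕ}

/-- For every `d` there is a form `G` which does not vanish on `X` such that all nonconstant rational
curves of degree at most `d` on `X` lie in `G = 0`. -/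
def RatDeg (I : Ideal (MvPolynomial (Fin (n + 1)) ℂ)) : Prop :=
  ∀ d : ℕ, ∃ G : MvPolynomial (Fin (n + 1)) ℂ, (∃ e, G.IsHomogeneous e) ∧ G ∉ I ∧
    ∀ p : Fin (n + 1) → Polynomial ℂ, (∀ j, (p j).natDegree ≤ d) → (∀ F ∈ I, aeval p F = 0) →
      NonC p → aeval p G = 0

/-- For all `s`, `r`, `e` there is a form `G` which does not vanish on `X` such that all nonconstant
curves on `X`, on all domains `Ω` of the plane, given by `s` iterated linear differential equations
with matrices of size `r` and polynomials of degree at most `e`, lie in `G = 0`. -/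
def OdeDeg (I : Ideal (MvPolynomial (Fin (n + 1)) ℂ)) : Prop :=
  ∀ s r e : ℕ, ∃ G : MvPolynomial (Fin (n + 1)) ℂ, (∃ d, G.IsHomogeneous d) ∧ G ∉ I ∧
    ∀ Ω : Set ℂ, IsOpen Ω → IsPreconnected Ω → ∀ f : ℂ → Fin (n + 1) → ℂ, DVec Ω s r e f →
      (∀ z ∈ Ω, ∀ F ∈ I, eval (f z) F = 0) →
      (∃ z ∈ Ω, ∃ w ∈ Ω, ∃ i j, f z i * f w j ≠ f z j * f w i) → ∀ z ∈ Ω, eval (f z) G = 0

theorem ratDeg_iff {I : Ideal (MvPolynomial (Fin (n + 1)) ℂ)} : RatDeg I ↔ ¬ RatDense I := by
  constructor
  · rintro h ⟨d, hd⟩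
    obtain ⟨G, h1, h2, h3⟩ := h d
    obtain ⟨p, h4, h5, h6, h7⟩ := hd G h1 h2
    exact h7 (h3 p h4 h5 h6)
  · intro h d
    by_contra hcon
    refine h ⟨d, fun G h1 h2 => ?_⟩
    by_contra hno
    refine hcon ⟨G, h1, h2, fun p h4 h5 h6 => ?_⟩
    by_contra h7
    exact hno ⟨p, h4, h5, h6, h7⟩

/-- specialization of uniruled varieties -/
theorem not_uniruled {k : Type} [Field k] [IsAlgClosed k] {I : Ideal (MvPolynomial (Fin (n + 1)) k)}
    (h : ∀ d : ℕ, ∃ G : MvPolynomial (Fin (n + 1)) k, (∃ e, G.IsHomogeneous e) ∧ G ∉ I ∧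
      ∀ p : Fin (n + 1) → Polynomial k, (∀ j, (p j).natDegree ≤ d) → (∀ F ∈ I, aeval p F = 0) →
        NonC p → aeval p G = 0) : ¬ Uniruled I := by
  classical
  rintro ⟨L, _, _, p, hp1, hp2, i, j, hij⟩
  obtain ⟨G, hG1, hG2, hG3⟩ := h (Finset.univ.sup fun j => (p j).natDegree)
  have hG : aeval p G ≠ 0 := by
    intro h0
    apply hp2 G hG1 hG2
    have h1 := MvPolynomial.comp_aeval_apply (f := p)
      ((Polynomial.aeval (1 : L) : Polynomial L →ₐ[L] L).restrictScalars k) G
    rw [h0, map_zero] at h1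
    have h2 : (fun i => ((Polynomial.aeval (1 : L) : Polynomial L →ₐ[L] L).restrictScalars k)
        (p i)) = fun i => (p i).eval 1 := by
      funext i
      change Polynomial.aeval (1 : L) (p i) = _
      rw [Polynomial.coe_aeval_eq_eval]
    rw [h2] at h1
    exact h1.symm
  obtain ⟨q, hq1, hq2, hq3, hq4⟩ := spec_proj p hG hij
  apply hq3
  refine hG3 q (fun j => ?_) (fun F hF => hq2 F (hp1 F hF)) (nonC_of_ne hq4)
  exact (hq1 j).trans (Finset.le_sup (f := fun j => (p j).natDegree) (Finset.mem_univ j))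

theorem not_uniruled_iff {I : Ideal (MvPolynomial (Fin (n + 1)) ℂ)} (hprime : I.IsPrime) :
    ¬ Uniruled I ↔ RatDeg I := by
  refine ⟨fun h => ratDeg_iff.2 fun h1 => h (uniruled_of_dense hprime h1), fun h => ?_⟩
  exact not_uniruled h

/-- a polynomial in one of the variables -/
theorem pev_one {L ι : Type} [CommRing L] [Fintype ι] [DecidableEq ι] {d : ℕ} (q : Polynomial L)
    (hq : q.natDegree ≤ d) (v : ι) :
    ∃ c : (ι → Fin (d + 1)) → L, ∀ w : ι → L, pev c w = q.eval (w v) := by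
  classical
  refine ⟨fun m => ∑ a : Fin (d + 1), if m = (fun u => if u = v then a else 0) then q.coeff a
    else 0, fun w => ?_⟩
  unfold pev
  simp_rw [Finset.sum_mul]
  rw [Finset.sum_comm, Polynomial.eval_eq_sum_range' (n := d + 1) (by omega),
    ← Fin.sum_univ_eq_sum_range (fun i => q.coeff i * w v ^ i)]
  refine Finset.sum_congr rfl fun a _ => ?_
  rw [Finset.sum_eq_single (fun u => if u = v then a else 0)]
  · rw [if_pos rfl, Finset.prod_eq_single v]
    · simp
    · intro u _ hu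
      simp [hu]
    · intro h
      exact absurd (Finset.mem_univ _) h
  · intro m _ hm
    rw [if_neg hm, zero_mul]
  · intro h
    exact absurd (Finset.mem_univ _) h

/-- polynomial curves -/
theorem dvec_poly {d N : ℕ} (p : Fin N → Polynomial ℂ) (hp : ∀ j, (p j).natDegree ≤ d) :
    DVec univ 1 2 d fun z j => (p j).eval z := by
  refine ⟨fun _ z => !![1, z; 0, 1], fun _ z => !![1, -z; 0, 1], ⟨fun l i j => ?_,
    fun l i j => ?_, fun l z _ => ?_, fun l i j => ?_⟩, fun j => ?_⟩
  · fin_cases i <;> fin_cases j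
    · exact analyticOnNhd_const
    · exact fun z _ => analyticAt_id
    · exact analyticOnNhd_const
    · exact analyticOnNhd_const
  · fin_cases i <;> fin_cases j
    · exact analyticOnNhd_const
    · exact fun z _ => analyticAt_id.neg
    · exact analyticOnNhd_const
    · exact analyticOnNhd_const
  · ext i j
    fin_cases i <;> fin_cases j <;> simp [Matrix.mul_apply, Fin.sum_univ_two]
  · refine ⟨fun m => if m = 0 then (if i = 0 ∧ j = 1 then 1 else 0) else 0, fun z _ => ?_⟩
    rw [pev_const]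
    fin_cases i <;> fin_cases j <;> simp [Fin.sum_univ_two]
  · obtain ⟨c, hc⟩ := pev_one (p j) (hp j) ((0, true, 0, 1) : Ix 1 2)
    refine ⟨c, fun z _ => ?_⟩
    rw [hc]
    rfl

theorem ratDeg_of_odeDeg {I : Ideal (MvPolynomial (Fin (n + 1)) ℂ)} (h : OdeDeg I) :
    RatDeg I := by
  intro d
  obtain ⟨G, hG1, hG2, hG3⟩ := h 1 2 d
  refine ⟨G, hG1, hG2, fun p hp1 hp2 hp3 => ?_⟩
  have hev : ∀ (F : MvPolynomial (Fin (n + 1)) ℂ) (w : ℂ),
      (aeval p F).eval w = eval (fun j => (p j).eval w) F := by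
    intro F w
    have h2 := MvPolynomial.comp_aeval_apply (f := p)
      (Polynomial.aeval w : Polynomial ℂ →ₐ[ℂ] ℂ) F
    rw [Polynomial.coe_aeval_eq_eval] at h2
    rw [h2, aeval_ev]
  obtain ⟨s, t, i, j, hst⟩ := hp3
  apply Polynomial.funext
  intro w
  rw [hev, Polynomial.eval_zero]
  refine hG3 univ isOpen_univ isPreconnected_univ (fun z j => (p j).eval z) (dvec_poly p hp1)
    (fun z _ F hF => ?_) ⟨s, mem_univ s, t, mem_univ t, i, j, hst⟩ w (mem_univ w)
  rw [← hev, hp2 F hF, Polynomial.eval_zero]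

attribute [local instance] MvPolynomial.gradedAlgebra in
/-- descent of a homogeneous ideal -/
theorem span_forms {k : Type} [Field k] [Algebra k ℂ] {I : Ideal (MvPolynomial (Fin (n + 1)) ℂ)}
    (hI : ∃ S : Set (MvPolynomial (Fin (n + 1)) ℂ), (∀ F ∈ S, ∃ e, F.IsHomogeneous e) ∧
      I = Ideal.span S) :
    Ideal.span {F : MvPolynomial (Fin (n + 1)) k | (∃ e, F.IsHomogeneous e) ∧
      map (algebraMap k ℂ) F ∈ I} = Ideal.comap (map (algebraMap k ℂ)) I := by
  obtain ⟨S, hS, rfl⟩ := hI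
  have hh : (Ideal.span S).IsHomogeneous (homogeneousSubmodule (Fin (n + 1)) ℂ) := by
    apply Ideal.homogeneous_span
    intro F hF
    obtain ⟨e, he⟩ := hS F hF
    exact ⟨e, he⟩
  apply le_antisymm
  · rw [Ideal.span_le]
    intro F hF
    exact hF.2
  · intro F hF
    rw [Ideal.mem_comap] at hF
    rw [← sum_homogeneousComponent F]
    refine Ideal.sum_mem _ fun i _ => Ideal.subset_span ⟨⟨i, homogeneousComponent_isHomogeneous i F⟩, ?_⟩
    have h1 := homogeneousComponent_mem_of_mem hh hF i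
    have h2 : map (algebraMap k ℂ) (homogeneousComponent i F) =
        homogeneousComponent i (map (algebraMap k ℂ) F) := by
      ext m
      rw [coeff_map, coeff_homogeneousComponent, coeff_homogeneousComponent, coeff_map]
      split_ifs
      · rfl
      · exact map_zero _
    rw [h2]
    exact h1

theorem odeDeg_of_ratDeg (FF : Finset (MvPolynomial (Fin (n + 1)) ℂ))
    (hhom : ∀ F ∈ FF, ∃ e, F.IsHomogeneous e)
    (hprime : (Ideal.span (FF : Set (MvPolynomial (Fin (n + 1)) ℂ))).IsPrime)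
    (h : RatDeg (Ideal.span (FF : Set (MvPolynomial (Fin (n + 1)) ℂ)))) :
    OdeDeg (Ideal.span (FF : Set (MvPolynomial (Fin (n + 1)) ℂ))) := by
  classical
  set I : Ideal (MvPolynomial (Fin (n + 1)) ℂ) :=
    Ideal.span (FF : Set (MvPolynomial (Fin (n + 1)) ℂ)) with hIdef
  choose Gd hGd1 hGd2 hGd3 using h
  obtain ⟨k, _, _, hkc, hka, hk⟩ := exists_ctble
    ((⋃ F ∈ FF, (F.coeffs : Set ℂ)) ∪ ⋃ d, ((Gd d).coeffs : Set ℂ)) (by
      refine Set.Countable.union ?_ ?_
      · exact Set.Countable.biUnion FF.countable_toSet fun F _ => F.coeffs.countable_toSet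
      · exact Set.countable_iUnion fun d => (Gd d).coeffs.countable_toSet)
  have hinj : Function.Injective (algebraMap k ℂ) := (algebraMap k ℂ).injective
  have hlift : ∀ F : MvPolynomial (Fin (n + 1)) ℂ, (∀ c ∈ F.coeffs, ∃ a : k,
      algebraMap k ℂ a = c) → ∃ F' : MvPolynomial (Fin (n + 1)) k,
        map (algebraMap k ℂ) F' = F := by
    intro F hF
    exact mem_range_map_iff_coeffs_subset.2 hF
  have hliftF : ∀ F ∈ FF, ∃ F' : MvPolynomial (Fin (n + 1)) k, map (algebraMap k ℂ) F' = F :=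
    fun F hF => hlift F fun c hc => hk c (Or.inl (Set.mem_biUnion (x := F) hF hc))
  have hliftG : ∀ d, ∃ G' : MvPolynomial (Fin (n + 1)) k, map (algebraMap k ℂ) G' = Gd d :=
    fun d => hlift (Gd d) fun c hc => hk c (Or.inr (Set.mem_iUnion.2 ⟨d, hc⟩))
  let FFk : Set (MvPolynomial (Fin (n + 1)) k) := {F | (∃ e, F.IsHomogeneous e) ∧
    map (algebraMap k ℂ) F ∈ I}
  have hspan : Ideal.span FFk = Ideal.comap (map (algebraMap k ℂ)) I :=
    span_forms ⟨_, hhom, rfl⟩
  have hpk : (Ideal.span FFk).IsPrime := by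
    rw [hspan]
    exact Ideal.IsPrime.comap _
  have hmem : ∀ F, F ∈ Ideal.span FFk ↔ map (algebraMap k ℂ) F ∈ I := by
    intro F
    rw [hspan, Ideal.mem_comap]
  have hnu : ¬ Uniruled (Ideal.span FFk) := by
    apply not_uniruled
    intro d
    obtain ⟨G', hG'⟩ := hliftG d
    refine ⟨G', ?_, ?_, ?_⟩
    · obtain ⟨e, he⟩ := hGd1 d
      exact ⟨e, IsHomogeneous.of_map hinj (hG' ▸ he)⟩
    · rw [hmem, hG']
      exact hGd2 d
    · intro p hp1 hp2 hp3
      let φ : Polynomial k →ₐ[k] Polynomial ℂ := Polynomial.mapAlgHom (Algebra.ofId k ℂ)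
      have hφi : Function.Injective φ := Polynomial.map_injective _ hinj
      have hc : ∀ F : MvPolynomial (Fin (n + 1)) k,
          aeval (fun j => φ (p j)) (map (algebraMap k ℂ) F) = φ (aeval p F) := by
        intro F
        rw [MvPolynomial.comp_aeval_apply, MvPolynomial.aeval_map_algebraMap]
      have h0 := hGd3 d (fun j => φ (p j)) (fun j => ?_) (fun F hF => ?_) ?_
      · rw [← hG', hc] at h0
        exact hφi (h0.trans (map_zero φ).symm)
      · exact (Polynomial.natDegree_map_le).trans (hp1 j)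
      · have h1 : I ≤ RingHom.ker (aeval (fun j => φ (p j)) :
            MvPolynomial (Fin (n + 1)) ℂ →ₐ[ℂ] Polynomial ℂ) := by
          rw [hIdef, Ideal.span_le]
          intro F hF
          obtain ⟨F', hF'⟩ := hliftF F hF
          change aeval (fun j => φ (p j)) F = 0
          rw [← hF', hc, hp2 F' ((hmem F').2 (by rw [hF']; exact Ideal.subset_span hF)), map_zero]
        exact h1 hF
      · obtain ⟨s, t, i, j, hst⟩ := hp3
        have he : ∀ (E : Polynomial k) (w : k),
            (φ E).eval (algebraMap k ℂ w) = algebraMap k ℂ (E.eval w) := by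
          intro E w
          change (Polynomial.map _ E).eval _ = _
          rw [Polynomial.eval_map]
          exact Polynomial.eval₂_at_apply (algebraMap k ℂ) w
        refine ⟨algebraMap k ℂ s, algebraMap k ℂ t, i, j, fun h1 => hst ?_⟩
        rw [he, he, he, he, ← map_mul, ← map_mul] at h1
        exact hinj h1
  intro s r e
  obtain ⟨G, hG1, hG2, hG3⟩ := strong_curves FFk (fun F hF => hF.1) hpk hnu s r e
  refine ⟨map (algebraMap k ℂ) G, ?_, fun h1 => hG2 ((hmem G).2 h1), ?_⟩
  · obtain ⟨d, hd⟩ := hG1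
    exact ⟨d, hd.map _⟩
  · intro Ω hΩ hΩc f hf hI hnc z hz
    rw [eval_map]
    refine hG3 (algebraMap k ℂ) Ω hΩ hΩc f hf (fun w hw F hF => ?_) hnc z hz
    rw [← eval_map]
    exact hI w hw _ hF.2

/-- **Rational curves of bounded degree and curves given by iterated linear differential equations of
bounded complexity.** -/
theorem ode_tfae (FF : Finset (MvPolynomial (Fin (n + 1)) ℂ))
    (hhom : ∀ F ∈ FF, ∃ e, F.IsHomogeneous e)
    (hprime : (Ideal.span (FF : Set (MvPolynomial (Fin (n + 1)) ℂ))).IsPrime) :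
    List.TFAE [¬ Uniruled (Ideal.span (FF : Set (MvPolynomial (Fin (n + 1)) ℂ))),
      RatDeg (Ideal.span (FF : Set (MvPolynomial (Fin (n + 1)) ℂ))),
      OdeDeg (Ideal.span (FF : Set (MvPolynomial (Fin (n + 1)) ℂ)))] := by
  tfae_have 1 ↔ 2 := not_uniruled_iff hprime
  tfae_have 2 → 3 := odeDeg_of_ratDeg FF hhom hprime
  tfae_have 3 → 2 := ratDeg_of_odeDeg
  tfae_finish

end Pool.Agent.Q1.SL
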