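import Pool.Agent.Q1.SL.AffODE

/-!
Curves given by iterated linear differential equations of bounded complexity in affine varieties
over `ℂ`.
-/

set_option autoImplicit false

namespace Pool.Agent.Q1.SL

open Set MvPolynomial Pool.Agent.TH143 Pool.Agent.Y377.EL Pool.Agent.Y377.IL Pool.Agent.Y377.ST

variable {n : ℕ}

/-- For every `d` there is a polynomial `G` which does not vanish on `V` such that all nonconstant
curves `p(t) / t ^ m`, `t ≠ 0`, on `V` with `m` and the degrees of the `p_j` at most `d` lie in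
`G = 0`. -/
def LauDeg (I : Ideal (MvPolynomial (Fin n) ℂ)) : Prop :=
  ∀ d : ℕ, ∃ G : MvPolynomial (Fin n) ℂ, G ∉ I ∧ ∀ (m : ℕ) (p : Fin n → Polynomial ℂ), m ≤ d →
    (∀ j, (p j).natDegree ≤ d) → (∀ t, t ≠ 0 → ∀ F ∈ I, eval (lpt m p t) F = 0) →
      (∃ s t, s ≠ 0 ∧ t ≠ 0 ∧ lpt m p s ≠ lpt m p t) → ∀ t, t ≠ 0 → eval (lpt m p t) G = 0

/-- For all `s`, `r`, `e` there is a polynomial `G` which does not vanish on `V` such that all
nonconstant curves on `V`, on all domains `Ω` of the plane, given by `s` iterated linear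
differential equations with matrices of size `r` and polynomials of degree at most `e`, lie in
`G = 0`. -/
def OdeDegA (I : Ideal (MvPolynomial (Fin n) ℂ)) : Prop :=
  ∀ s r e : ℕ, ∃ G : MvPolynomial (Fin n) ℂ, G ∉ I ∧
    ∀ Ω : Set ℂ, IsOpen Ω → IsPreconnected Ω → ∀ f : ℂ → Fin n → ℂ, DVec Ω s r e f →
      (∀ z ∈ Ω, ∀ F ∈ I, eval (f z) F = 0) → (∃ z ∈ Ω, ∃ w ∈ Ω, f z ≠ f w) →
        ∀ z ∈ Ω, eval (f z) G = 0

theorem strong_curvesA {k : Type} [Field k] [Countable k] [IsAlgClosed k]
    (I : Ideal (MvPolynomial (Fin n) k)) (hprime : I.IsPrime) (hL : LauDegK I) (s r e : ℕ) :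
    ∃ G : MvPolynomial (Fin n) k, G ∉ I ∧
      ∀ (σ : k →+* ℂ) (Ω : Set ℂ), IsOpen Ω → IsPreconnected Ω → ∀ f : ℂ → Fin n → ℂ,
        DVec Ω s r e f → (∀ z ∈ Ω, ∀ F ∈ I, eval₂ σ (f z) F = 0) →
        (∃ z ∈ Ω, ∃ w ∈ Ω, f z ≠ f w) → ∀ z ∈ Ω, eval₂ σ (f z) G = 0 := by
  obtain ⟨G, hG2, hG3⟩ := strong_diffA I hprime hL s r e
  refine ⟨G, hG2, ?_⟩
  intro σ Ω hΩ hΩc f hf hF hnc
  obtain ⟨K, _, _, D, A, i, hA⟩ := exists_amb hΩ hΩc ⟨_, hnc.choose_spec.1⟩
  have hC : Cst D := hA.con
  have h1 := hG3 σ K D hC _ (hf.toF hΩ hA) (fun F hFF => ?_) ?_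
  · rw [← eval₂_map] at h1
    have h2 := (vanish_iff hA.inj (f := f) (fun j => hf.an hΩ j) (map σ G)).1 h1
    intro z hz
    have h3 := h2 z hz
    rwa [eval_map] at h3
  · rw [← eval₂_map]
    refine (vanish_iff hA.inj (f := f) (fun j => hf.an hΩ j) (map σ F)).2 ?_
    intro z hz
    rw [eval_map]
    exact hF z hz F hFF
  · by_contra hcon
    push Not at hcon
    obtain ⟨z, hz, w, hw, hne⟩ := hnc
    apply hne
    funext u
    obtain ⟨c, hc⟩ := hC _ (hcon u)
    have h2 : toHol _ (hf.an hΩ u) = algebraMap ℂ (Hol Ω) c := by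
      apply hA.inj
      rw [i.commutes]
      exact hc
    have h3 : ∀ v (hv : v ∈ Ω), f v u = c := by
      intro v hv
      have h4 := congrArg (evz (⟨v, hv⟩ : Ω)) h2
      rw [evz_toHol] at h4
      rw [h4, AlgHom.commutes]
      rfl
    rw [h3 z hz, h3 w hw]

/-- homogenization and extension of the coefficients -/
theorem map_homK {k L : Type} [Field k] [Field L] (φ : k →+* L) (F : MvPolynomial (Fin n) k) :
    map φ (homK F) = homK (map φ F) := by
  have h1 : (map φ F).totalDegree = F.totalDegree := by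
    unfold totalDegree
    rw [support_map_of_injective F φ.injective]
  unfold homK
  rw [h1, map_sum]
  refine Finset.sum_congr rfl fun e _ => ?_
  rw [map_mul, map_pow, map_X, map_rename]
  congr 2
  ext m
  rw [coeff_map, coeff_homogeneousComponent, coeff_homogeneousComponent, coeff_map]
  split_ifs
  · rfl
  · exact map_zero _

theorem odeDegA_of_lauDeg {I : Ideal (MvPolynomial (Fin n) ℂ)} (hprime : I.IsPrime)
    (h : LauDeg I) : OdeDegA I := by
  classical
  obtain ⟨FF, hFF⟩ : ∃ FF : Finset (MvPolynomial (Fin n) ℂ),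
      Ideal.span (FF : Set (MvPolynomial (Fin n) ℂ)) = I :=
    (IsNoetherian.noetherian I : I.FG)
  choose Gd hGd2 hGd3 using h
  obtain ⟨k, _, _, hkc, hka, hk⟩ := exists_ctble
    ((⋃ F ∈ FF, (F.coeffs : Set ℂ)) ∪ ⋃ d, ((Gd d).coeffs : Set ℂ)) (by
      refine Set.Countable.union ?_ ?_
      · exact Set.Countable.biUnion FF.countable_toSet fun F _ => F.coeffs.countable_toSet
      · exact Set.countable_iUnion fun d => (Gd d).coeffs.countable_toSet)
  have hinj : Function.Injective (algebraMap k ℂ) := (algebraMap k ℂ).injective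
  have hlift : ∀ F : MvPolynomial (Fin n) ℂ, (∀ c ∈ F.coeffs, ∃ a : k,
      algebraMap k ℂ a = c) → ∃ F' : MvPolynomial (Fin n) k,
        map (algebraMap k ℂ) F' = F := by
    intro F hF
    exact mem_range_map_iff_coeffs_subset.2 hF
  have hliftF : ∀ F ∈ FF, ∃ F' : MvPolynomial (Fin n) k, map (algebraMap k ℂ) F' = F :=
    fun F hF => hlift F fun c hc => hk c (Or.inl (Set.mem_biUnion (x := F) hF hc))
  have hliftG : ∀ d, ∃ G' : MvPolynomial (Fin n) k, map (algebraMap k ℂ) G' = Gd d :=
    fun d => hlift (Gd d) fun c hc => hk c (Or.inr (Set.mem_iUnion.2 ⟨d, hc⟩))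
  let Ik : Ideal (MvPolynomial (Fin n) k) := Ideal.comap (map (algebraMap k ℂ)) I
  have hpk : Ik.IsPrime := Ideal.IsPrime.comap _
  have hmem : ∀ F, F ∈ Ik ↔ map (algebraMap k ℂ) F ∈ I := fun F => Ideal.mem_comap
  have hLk : LauDegK Ik := by
    intro d
    obtain ⟨G', hG'⟩ := hliftG d
    refine ⟨G', ?_, ?_⟩
    · rw [hmem, hG']
      exact hGd2 d
    · intro m p hm hp1 hp2 hp3
      let φ : Polynomial k →ₐ[k] Polynomial ℂ := Polynomial.mapAlgHom (Algebra.ofId k ℂ)
      have hφi : Function.Injective φ := Polynomial.map_injective _ hinj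
      have hlau : (fun j => φ (lau m p j)) = lau m fun j => φ (p j) := by
        funext j
        refine Fin.cases ?_ (fun l => rfl) j
        change φ (Polynomial.X ^ m) = Polynomial.X ^ m
        rw [map_pow]
        change (Polynomial.map _ Polynomial.X) ^ m = _
        rw [Polynomial.map_X]
      have hc : ∀ F : MvPolynomial (Fin n) k,
          aeval (lau m fun j => φ (p j)) (homK (map (algebraMap k ℂ) F)) =
            φ (aeval (lau m p) (homK F)) := by
        intro F
        rw [← map_homK, ← hlau, MvPolynomial.comp_aeval_apply, MvPolynomial.aeval_map_algebraMap]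
      have h0 := hGd3 d m (fun j => φ (p j)) hm (fun j => ?_) (fun t ht F hF => ?_) ?_
      · rw [← hG', ← on_iff, hc] at h0
        exact hφi (h0.trans (map_zero φ).symm)
      · exact (Polynomial.natDegree_map_le).trans (hp1 j)
      · have h1 : I ≤ RingHom.ker (eval (lpt m (fun j => φ (p j)) t)) := by
          rw [← hFF, Ideal.span_le]
          intro F hF
          obtain ⟨F', hF'⟩ := hliftF F hF
          change eval (lpt m (fun j => φ (p j)) t) F = 0
          have h2 : aeval (lau m fun j => φ (p j)) (homK F) = 0 := by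
            rw [← hF', hc, hp2 F' ((hmem F').2 (by
              rw [hF', ← hFF]
              exact Ideal.subset_span hF)), map_zero]
          exact (on_iff m (fun j => φ (p j)) F).1 h2 t ht
        exact h1 hF
      · rw [← nonc_iff]
        obtain ⟨j, hj⟩ := hp3
        refine ⟨j, fun h1 => hj (hφi ?_)⟩
        rw [map_mul, map_pow]
        have h2 : φ Polynomial.X = Polynomial.X := Polynomial.map_X _
        have h3 : φ (Polynomial.C ((p j).eval 1)) = Polynomial.C ((φ (p j)).eval 1) := by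
          change Polynomial.map (algebraMap k ℂ) (Polynomial.C _) =
            Polynomial.C ((Polynomial.map (algebraMap k ℂ) (p j)).eval 1)
          rw [Polynomial.map_C, Polynomial.eval_map]
          congr 1
          have h4 := Polynomial.eval₂_at_apply (p := p j) (algebraMap k ℂ) 1
          rw [map_one] at h4
          exact h4.symm
        rw [h2, h3]
        exact h1
  intro s r e
  obtain ⟨G, hG2, hG3⟩ := strong_curvesA Ik hpk hLk s r e
  refine ⟨map (algebraMap k ℂ) G, fun h1 => hG2 ((hmem G).2 h1), ?_⟩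
  intro Ω hΩ hΩc f hf hI hnc z hz
  rw [eval_map]
  refine hG3 (algebraMap k ℂ) Ω hΩ hΩc f hf (fun w hw F hF => ?_) hnc z hz
  rw [← eval_map]
  exact hI w hw _ ((hmem F).1 hF)

/-- a polynomial in one of the variables times a power of another one -/
theorem pev_two {L ι : Type} [CommRing L] [Fintype ι] [DecidableEq ι] {d : ℕ} (q : Polynomial L)
    (hq : q.natDegree ≤ d) {b : ℕ} (hb : b ≤ d) {v1 v2 : ι} (hv : v1 ≠ v2) :
    ∃ c : (ι → Fin (d + 1)) → L, ∀ w : ι → L, pev c w = q.eval (w v1) * w v2 ^ b := by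
  classical
  refine ⟨fun m => ∑ a : Fin (d + 1), if m = (fun u => if u = v1 then a else
    if u = v2 then ⟨b, by omega⟩ else 0) then q.coeff a else 0, fun w => ?_⟩
  unfold pev
  simp_rw [Finset.sum_mul]
  rw [Finset.sum_comm, Polynomial.eval_eq_sum_range' (n := d + 1) (by omega), Finset.sum_mul,
    ← Fin.sum_univ_eq_sum_range (fun i => q.coeff i * w v1 ^ i * w v2 ^ b)]
  refine Finset.sum_congr rfl fun a _ => ?_
  rw [Finset.sum_eq_single (fun u => if u = v1 then a else if u = v2 then ⟨b, by omega⟩ else 0)]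
  · rw [if_pos rfl, Finset.prod_eq_mul v1 v2 hv]
    · simp only [if_true, if_neg hv.symm]
      ring
    · intro u _ hu
      simp [hu.1, hu.2]
    · intro h
      exact absurd (Finset.mem_univ _) h
    · intro h
      exact absurd (Finset.mem_univ _) h
  · intro m _ hm
    rw [if_neg hm, zero_mul]
  · intro h
    exact absurd (Finset.mem_univ _) h

/-- Laurent curves -/
theorem dvec_laur {d m N : ℕ} (p : Fin N → Polynomial ℂ) (hp : ∀ j, (p j).natDegree ≤ d)
    (hm : m ≤ d) : DVec univ 1 1 d fun z => lpt m p (Complex.exp z) := by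
  refine ⟨fun _ z => Matrix.of fun _ _ => Complex.exp z,
    fun _ z => Matrix.of fun _ _ => Complex.exp (-z), ⟨fun l i j z _ => ?_,
    fun l i j z _ => ?_, fun l z _ => ?_, fun l i j => ?_⟩, fun j => ?_⟩
  · exact analyticAt_cexp
  · exact (analyticAt_id.neg).cexp
  · ext i j
    rw [Matrix.mul_apply, Fin.sum_univ_one, Matrix.of_apply, Matrix.of_apply, ← Complex.exp_add,
      add_neg_cancel, Complex.exp_zero, Subsingleton.elim i j, Matrix.one_apply_eq]
  · refine ⟨fun m => if m = 0 then 1 else 0, fun z _ => ?_⟩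
    rw [pev_const, Fin.sum_univ_one]
    simp only [Matrix.of_apply]
    rw [Complex.deriv_exp, ← Complex.exp_add, add_neg_cancel, Complex.exp_zero]
  · obtain ⟨c, hc⟩ := pev_two (p j) (hp j) hm (v1 := ((0, true, 0, 0) : Ix 1 1))
      (v2 := ((0, false, 0, 0) : Ix 1 1)) (by simp)
    refine ⟨c, fun z _ => ?_⟩
    rw [hc]
    change (p j).eval (Complex.exp z) / Complex.exp z ^ m =
      (p j).eval (Complex.exp z) * Complex.exp (-z) ^ m
    rw [Complex.exp_neg, inv_pow, div_eq_mul_inv]

theorem lauDeg_of_odeDegA {I : Ideal (MvPolynomial (Fin n) ℂ)} (h : OdeDegA I) : LauDeg I := by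
  intro d
  obtain ⟨G, hG2, hG3⟩ := h 1 1 d
  refine ⟨G, hG2, fun m p hm hp1 hp2 hp3 t ht => ?_⟩
  obtain ⟨s, t', hs, ht', hst⟩ := hp3
  have h1 := hG3 univ isOpen_univ isPreconnected_univ (fun z => lpt m p (Complex.exp z))
    (dvec_laur p hp1 hm) (fun z _ F hF => hp2 _ (Complex.exp_ne_zero z) F hF)
    ⟨Complex.log s, mem_univ _, Complex.log t', mem_univ _, by
      rw [Complex.exp_log hs, Complex.exp_log ht']
      exact hst⟩ (Complex.log t) (mem_univ _)
  rwa [Complex.exp_log ht] at h1

/-- **Laurent curves of bounded degree and curves given by iterated linear differential equations of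
bounded complexity.** -/
theorem lauDeg_iff {I : Ideal (MvPolynomial (Fin n) ℂ)} (hprime : I.IsPrime) :
    LauDeg I ↔ OdeDegA I := ⟨odeDegA_of_lauDeg hprime, lauDeg_of_odeDegA⟩

end Pool.Agent.Q1.SL
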