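import Pool.Agent.Q1.SL.Spec2
import Pool.Agent.Q1.SL.UltraC

/-!
Laurent curves in affine varieties as rational curves in the projective space.
-/

set_option autoImplicit false

namespace Pool.Agent.Q1.SL

open MvPolynomial

variable {k : Type} [Field k] {n : ℕ}

/-- the homogenization of a polynomial -/
noncomputable def homK (G : MvPolynomial (Fin n) k) : MvPolynomial (Fin (n + 1)) k :=
  ∑ e ∈ Finset.range (G.totalDegree + 1),
    X 0 ^ (G.totalDegree - e) * rename Fin.succ (homogeneousComponent e G)

theorem aeval_scale {A : Type} [CommRing A] [Algebra k A] {G : MvPolynomial (Fin n) k} {d : ℕ}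
    (hG : G.IsHomogeneous d) (c : A) (y : Fin n → A) :
    aeval (fun j => c * y j) G = c ^ d * aeval y G := by
  rw [aeval_def, aeval_def, eval₂_eq', eval₂_eq', Finset.mul_sum]
  refine Finset.sum_congr rfl fun m hm => ?_
  have h3 : ∑ i, m i = d := by
    have h4 := hG (mem_support_iff.1 hm)
    rw [← h4, Finsupp.weight_apply, Finsupp.sum_fintype _ _ (fun _ => by simp)]
    simp
  have h5 : ∏ i, (c * y i) ^ m i = c ^ d * ∏ i, y i ^ m i := by
    rw [← h3, ← Finset.prod_pow_eq_pow_sum, ← Finset.prod_mul_distrib]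
    exact Finset.prod_congr rfl fun i _ => mul_pow _ _ _
  rw [h5]
  ring

theorem aeval_homK {A : Type} [Field A] [Algebra k A] (G : MvPolynomial (Fin n) k)
    (v : Fin (n + 1) → A) (hv : v 0 ≠ 0) :
    aeval v (homK G) = v 0 ^ G.totalDegree * aeval (fun i => v (Fin.succ i) / v 0) G := by
  have h1 : ∀ e ∈ Finset.range (G.totalDegree + 1),
      aeval v (X 0 ^ (G.totalDegree - e) * rename Fin.succ (homogeneousComponent e G)) =
        v 0 ^ G.totalDegree *
          aeval (fun i => v (Fin.succ i) / v 0) (homogeneousComponent e G) := by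
    intro e he
    have h2 := Finset.mem_range.1 he
    rw [map_mul, map_pow, aeval_X, aeval_rename]
    have h3 : (v ∘ Fin.succ : Fin n → A) = fun i => v 0 * (v (Fin.succ i) / v 0) := by
      funext i
      rw [mul_div_cancel₀ _ hv]
      rfl
    rw [h3, aeval_scale (homogeneousComponent_isHomogeneous e G), ← mul_assoc, ← pow_add]
    congr 2
    omega
  unfold homK
  rw [map_sum, Finset.sum_congr rfl h1, ← Finset.mul_sum, ← map_sum, sum_homogeneousComponent]

/-- the homogeneous coordinates of the curve `p(t) / t ^ m` -/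
noncomputable def lau (m : ℕ) (p : Fin n → Polynomial k) : Fin (n + 1) → Polynomial k :=
  Fin.cons (Polynomial.X ^ m) p

/-- the point `p(t) / t ^ m` -/
noncomputable def lpt (m : ℕ) (p : Fin n → Polynomial k) (t : k) : Fin n → k :=
  fun j => (p j).eval t / t ^ m

theorem eval_lau (m : ℕ) (p : Fin n → Polynomial k) (F : MvPolynomial (Fin n) k) {t : k}
    (ht : t ≠ 0) : (aeval (lau m p) (homK F)).eval t =
      (t ^ m) ^ F.totalDegree * eval (lpt m p t) F := by
  have h2 := MvPolynomial.comp_aeval_apply (f := lau m p)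
    (Polynomial.aeval t : Polynomial k →ₐ[k] k) (homK F)
  rw [Polynomial.coe_aeval_eq_eval] at h2
  rw [h2]
  have h3 : Polynomial.eval t (lau m p 0) = t ^ m := by
    change Polynomial.eval t (Polynomial.X ^ m) = _
    rw [Polynomial.eval_pow, Polynomial.eval_X]
  have h4 := aeval_homK F (fun j => Polynomial.eval t (lau m p j)) (by
    rw [h3]
    exact pow_ne_zero _ ht)
  rw [h4, h3, aeval_ev]
  rfl

theorem on_iff [Infinite k] (m : ℕ) (p : Fin n → Polynomial k) (F : MvPolynomial (Fin n) k) :
    aeval (lau m p) (homK F) = 0 ↔ ∀ t, t ≠ 0 → eval (lpt m p t) F = 0 := by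
  constructor
  · intro h t ht
    have h1 := eval_lau m p F ht
    rw [h, Polynomial.eval_zero] at h1
    rcases mul_eq_zero.1 h1.symm with h2 | h2
    · exact absurd h2 (pow_ne_zero _ (pow_ne_zero _ ht))
    · exact h2
  · intro h
    have h1 : Polynomial.X * aeval (lau m p) (homK F) = 0 := by
      apply Polynomial.funext
      intro t
      rw [Polynomial.eval_mul, Polynomial.eval_X, Polynomial.eval_zero]
      by_cases ht : t = 0
      · rw [ht, zero_mul]
      · rw [eval_lau m p F ht, h t ht, mul_zero, mul_zero]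
    exact (mul_eq_zero.1 h1).resolve_left Polynomial.X_ne_zero

theorem nonc_iff [Infinite k] (m : ℕ) (p : Fin n → Polynomial k) :
    (∃ j, Polynomial.X ^ m * Polynomial.C ((p j).eval 1) ≠ p j) ↔
      ∃ s t : k, s ≠ 0 ∧ t ≠ 0 ∧ lpt m p s ≠ lpt m p t := by
  constructor
  · rintro ⟨j, hj⟩
    by_contra hcon
    push Not at hcon
    apply hj
    have h1 : Polynomial.X * (Polynomial.X ^ m * Polynomial.C ((p j).eval 1)) =
        Polynomial.X * p j := by
      apply Polynomial.funext
      intro t
      rw [Polynomial.eval_mul, Polynomial.eval_mul, Polynomial.eval_mul, Polynomial.eval_X]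
      by_cases ht : t = 0
      · rw [ht, zero_mul, zero_mul]
      · have h2 := congrFun (hcon t 1 ht one_ne_zero) j
        change (p j).eval t / t ^ m = (p j).eval 1 / 1 ^ m at h2
        rw [one_pow, div_one, div_eq_iff (pow_ne_zero _ ht)] at h2
        rw [h2, Polynomial.eval_pow, Polynomial.eval_X, Polynomial.eval_C]
        ring
    exact mul_left_cancel₀ Polynomial.X_ne_zero h1
  · rintro ⟨s, t, hs, ht, hst⟩
    by_contra hcon
    push Not at hcon
    apply hst
    have h1 : ∀ u, u ≠ 0 → lpt m p u = fun j => (p j).eval 1 := by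
      intro u hu
      funext j
      change (p j).eval u / u ^ m = _
      rw [div_eq_iff (pow_ne_zero _ hu)]
      conv_lhs => rw [← hcon j]
      rw [Polynomial.eval_mul, Polynomial.eval_pow, Polynomial.eval_X, Polynomial.eval_C]
      ring
    rw [h1 s hs, h1 t ht]

/-- **Specializations of Laurent curves.** -/
theorem spec_lau [IsAlgClosed k] {M : Type} [Field M] [Algebra k M] (m : ℕ)
    (p : Fin n → Polynomial M) {G : MvPolynomial (Fin n) k}
    (hG : aeval (lau m p) (homK G) ≠ 0)
    (hj : ∃ j, Polynomial.X ^ m * Polynomial.C ((p j).eval 1) ≠ p j) :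
    ∃ p' : Fin n → Polynomial k, (∀ j, (p' j).natDegree ≤ (p j).natDegree) ∧
      (∀ F : MvPolynomial (Fin n) k, aeval (lau m p) (homK F) = 0 →
        aeval (lau m p') (homK F) = 0) ∧ aeval (lau m p') (homK G) ≠ 0 ∧
      ∃ j, Polynomial.X ^ m * Polynomial.C ((p' j).eval 1) ≠ p' j := by
  obtain ⟨j, hj⟩ := hj
  have h0 : ∀ (L : Type) [Field L] (q : Fin n → Polynomial L) (j : Fin n),
      (lau m q 0 * Polynomial.C ((lau m q j.succ).eval 1) ≠
        lau m q j.succ * Polynomial.C ((lau m q 0).eval 1)) ↔
      (Polynomial.X ^ m * Polynomial.C ((q j).eval 1) ≠ q j) := by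
    intro L _ q j
    have h1 : lau m q 0 = Polynomial.X ^ m := rfl
    have h2 : lau m q j.succ = q j := rfl
    rw [h1, h2, Polynomial.eval_pow, Polynomial.eval_X, one_pow, Polynomial.C_1, mul_one]
  obtain ⟨p', h1, h2, h3, h4, h5⟩ := spec_proj' (lau m p) hG (i := 0) (j := j.succ)
    ((h0 M p j).2 hj)
  have h6 : lau m (fun j => p' j.succ) = p' := by
    funext l
    refine Fin.cases ?_ (fun l => rfl) l
    exact (h5 0 m rfl).symm
  refine ⟨fun j => p' j.succ, fun j => h1 j.succ, fun F hF => ?_, ?_, j, ?_⟩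
  · rw [h6]
    exact h2 _ hF
  · rw [h6]
    exact h3
  · refine (h0 k (fun j => p' j.succ) j).1 ?_
    rw [h6]
    exact h4

end Pool.Agent.Q1.SL
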