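import Pool.Agent.Q1.SL.OverC
import Pool.Agent.Q1.SL.HomK

/-!
Curves given by iterated linear differential equations of bounded complexity in affine varieties.
-/

set_option autoImplicit false

namespace Pool.Agent.Q1.SL

open Set Filter MvPolynomial Pool.Agent.TH143 Pool.Agent.Y377.EL Pool.Agent.Y377.IL
  Pool.Agent.Y377.ST

/-- a Laurent curve through the point -/
theorem rat_pointA {K : Type} [Field K] [Algebra ℂ K] {D : Derivation ℂ K K} (hC : Cst D)
    {s r e n : ℕ} {x : Fin n → K} (hx : DVecF D s r e x) {u : Fin n} (hu : D (x u) ≠ 0) :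
    ∃ (M : Type) (_ : Field M) (_ : Algebra ℂ M) (q : Fin n → RatFunc M) (m : ℕ)
      (p : Fin n → Polynomial M),
      (∀ G : MvPolynomial (Fin n) ℂ, aeval q G = 0 ↔ aeval x G = 0) ∧
      (∀ j, q j * RatFunc.X ^ m = algebraMap (Polynomial M) (RatFunc M) (p j)) ∧
      ∃ i, ∀ c : M, q i ≠ algebraMap M (RatFunc M) c := by
  classical
  obtain ⟨R, hR, hmem⟩ := hx.tow
  let t : Finset K := Finset.univ.image x
  have hF : RatFam R t := by
    refine hyp.main hC (goodB_bot D) hR (fun a ha => ?_) ⟨x u, ?_, ?_⟩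
    · obtain ⟨j, -, rfl⟩ := Finset.mem_image.1 ha
      exact le_frac R (hmem j)
    · exact Finset.mem_image_of_mem _ (Finset.mem_univ u)
    · intro hal
      obtain ⟨c, hc⟩ := const_of_alg hal
      apply hu
      rw [hc]
      exact D.map_algebraMap c
  obtain ⟨S0, M, i1, i2, φ, -, h2, h3, ⟨z, hz, hzc⟩, h4⟩ := hF
  have hm : ∀ j, x j ∈ S0 := fun j =>
    h3 _ (Finset.mem_image_of_mem _ (Finset.mem_univ j)) (hmem j)
  let w : Fin n → frac S0 := fun j => ⟨x j, le_frac S0 (hm j)⟩
  choose p k hpk using fun j => h4 (w j) (hm j)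
  refine ⟨M, i1, i2, fun j => φ (w j), ∑ j, k j,
    fun j => p j * Polynomial.X ^ (∑ i ∈ Finset.univ.erase j, k i), fun G => ?_, fun j => ?_, ?_⟩
  · have h5 : aeval (fun j => φ (w j)) G = φ (aeval w G) :=
      (MvPolynomial.comp_aeval_apply (f := w) φ G).symm
    have h6 : ((aeval w G : frac S0) : K) = aeval x G :=
      MvPolynomial.comp_aeval_apply (f := w) (frac S0).val G
    rw [h5, map_eq_zero_iff φ φ.toRingHom.injective, ← Subtype.coe_inj, h6]
    rfl
  · have h5 : ∑ i, k i = k j + ∑ i ∈ Finset.univ.erase j, k i :=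
      (Finset.add_sum_erase Finset.univ k (Finset.mem_univ j)).symm
    rw [h5, pow_add, ← mul_assoc, hpk, map_mul, map_pow, RatFunc.algebraMap_X]
  · obtain ⟨i, -, hi⟩ := Finset.mem_image.1 hz
    refine ⟨i, fun c hc => hzc c ?_⟩
    have h5 : w i = z := Subtype.ext hi
    rw [← h5]
    exact hc

section strong

variable {k : Type} [Field k] [Countable k] [IsAlgClosed k] {n : ℕ}

/-- All Laurent curves of degree at most `d` lie in a proper closed subset, for all `d`. -/
def LauDegK (I : Ideal (MvPolynomial (Fin n) k)) : Prop :=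
  ∀ d : ℕ, ∃ G : MvPolynomial (Fin n) k, G ∉ I ∧ ∀ (m : ℕ) (p : Fin n → Polynomial k), m ≤ d →
    (∀ j, (p j).natDegree ≤ d) → (∀ F ∈ I, aeval (lau m p) (homK F) = 0) →
      (∃ j, Polynomial.X ^ m * Polynomial.C ((p j).eval 1) ≠ p j) →
        aeval (lau m p) (homK G) = 0

/-- **One closed set for all points of an affine variety given by iterated linear differential
equations of bounded complexity.** -/
theorem strong_diffA (I : Ideal (MvPolynomial (Fin n) k)) (hprime : I.IsPrime)
    (hL : LauDegK I) (s r e : ℕ) :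
    ∃ G : MvPolynomial (Fin n) k, G ∉ I ∧
      ∀ (σ : k →+* ℂ) (K : Type) [Field K] [Algebra ℂ K] (D : Derivation ℂ K K), Cst D →
        ∀ x : Fin n → K, DVecF D s r e x →
        (∀ F ∈ I, eval₂ ((algebraMap ℂ K).comp σ) x F = 0) →
        (∃ u, D (x u) ≠ 0) → eval₂ ((algebraMap ℂ K).comp σ) x G = 0 := by
  classical
  by_contra hcon
  have hC : ∀ G : MvPolynomial (Fin n) k, G ∉ I →
      ∃ (σ : k →+* ℂ) (K : Type) (_ : Field K) (_ : Algebra ℂ K) (D : Derivation ℂ K K)
        (x : Fin n → K), Cst D ∧ DVecF D s r e x ∧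
        (∀ F ∈ I, eval₂ ((algebraMap ℂ K).comp σ) x F = 0) ∧
        (∃ u, D (x u) ≠ 0) ∧ eval₂ ((algebraMap ℂ K).comp σ) x G ≠ 0 := by
    intro G hG2
    by_contra h1
    refine hcon ⟨G, hG2, ?_⟩
    intro σ K _ _ D hCD x hx hF huv
    by_contra h2
    exact h1 ⟨σ, K, _, _, D, x, hCD, hx, hF, huv, h2⟩
  let S : Type := {G : MvPolynomial (Fin n) k // G ∉ I}
  have hcs : Countable (MvPolynomial (Fin n) k) := by
    rw [← Cardinal.mk_le_aleph0_iff]
    refine cardinalMk_le_max.trans ?_
    exact max_le (max_le (Cardinal.mk_le_aleph0_iff.2 inferInstance)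
      (Cardinal.mk_le_aleph0_iff.2 inferInstance)) le_rfl
  have hne : Nonempty S := ⟨⟨1, fun h1 => hprime.ne_top ((Ideal.eq_top_iff_one _).2 h1)⟩⟩
  obtain ⟨en, hen⟩ := exists_surjective_nat S
  let Q : ℕ → MvPolynomial (Fin n) k := fun i => ∏ j ∈ Finset.range (i + 1), (en j).1
  have hQ2 : ∀ i, Q i ∉ I := by
    intro i h1
    obtain ⟨j, -, hj⟩ := (hprime.prod_mem_iff).1 h1
    exact (en j).2 hj
  choose σ K iK jK D x hCD hx hF huv hG using fun i => hC (Q i) (hQ2 i)
  obtain ⟨K', iK', jK', D', π, θ, hC', hD', hal, hker, hkθ⟩ := exists_ultra D hCD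
  let σ' : k →+* ℂ := θ.comp (RingHom.pi σ)
  let x' : Fin n → K' := fun j => π fun i => x i j
  have hx' : DVecF D' s r e x' := DVecF.ultra hD' hal hx
  have key : ∀ F : MvPolynomial (Fin n) k,
      eval₂ ((algebraMap ℂ K').comp σ') x' F =
        π fun i => eval₂ ((algebraMap ℂ (K i)).comp (σ i)) (x i) F := by
    intro F
    let τ : k →+* (∀ i, K i) := RingHom.pi fun i => (algebraMap ℂ (K i)).comp (σ i)
    have h1 := eval₂_comp_left π τ (fun j i => x i j) F
    have h2 : eval₂ τ (fun j i => x i j) F =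
        fun i => eval₂ ((algebraMap ℂ (K i)).comp (σ i)) (x i) F := by
      funext i
      exact eval₂_comp_left (Pi.evalRingHom K i) τ (fun j i => x i j) F
    rw [h2] at h1
    have h3 : π.comp τ = (algebraMap ℂ K').comp σ' := by
      ext c
      exact hal fun i => σ i c
    rw [h3] at h1
    exact h1.symm
  have hzero : ∀ F ∈ I, eval₂ ((algebraMap ℂ K').comp σ') x' F = 0 := by
    intro F hFF
    rw [key]
    have h1 : (fun i => eval₂ ((algebraMap ℂ (K i)).comp (σ i)) (x i) F) = 0 :=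
      funext fun i => hF i F hFF
    rw [h1, map_zero]
  have hnz : ∀ G : MvPolynomial (Fin n) k, G ∉ I →
      eval₂ ((algebraMap ℂ K').comp σ') x' G ≠ 0 := by
    intro G hG2 h0
    obtain ⟨j, hj⟩ := hen ⟨G, hG2⟩
    rw [key, hker] at h0
    have hge : ∀ᶠ i in (hyperfilter ℕ : Filter ℕ), j ≤ i := by
      have h1 : ∀ᶠ i : ℕ in cofinite, j ≤ i := by
        rw [Nat.cofinite_eq_atTop]
        exact eventually_ge_atTop j
      exact h1.filter_mono hyperfilter_le_cofinite
    obtain ⟨i, h5, hi⟩ := (h0.and hge).exists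
    have h4 : (en j).1 ∣ Q i := Finset.dvd_prod_of_mem (fun j => (en j).1)
      (Finset.mem_range.2 (by omega))
    rw [hj] at h4
    obtain ⟨G', hG'⟩ := h4
    apply hG i
    rw [hG', eval₂_mul]
    change eval₂ ((algebraMap ℂ (K i)).comp (σ i)) (x i) G * _ = 0
    rw [h5, zero_mul]
  have hcross : ∃ u, D' (x' u) ≠ 0 := by
    choose u huv using huv
    obtain ⟨u0, h1⟩ : ∃ u0 : Fin n, ∀ᶠ i in (hyperfilter ℕ : Filter ℕ), u i = u0 := by
      by_contra hno
      push Not at hno
      have h3 : ∀ᶠ i in (hyperfilter ℕ : Filter ℕ), ∀ p : Fin n, u i ≠ p :=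
        eventually_all.2 hno
      obtain ⟨i, hi⟩ := h3.exists
      exact hi _ rfl
    refine ⟨u0, fun h2 => ?_⟩
    have h3 : π (fun i => D i (x i u0)) = 0 := by
      rw [← hD']
      exact h2
    rw [hker] at h3
    obtain ⟨i, h5, h6⟩ := (h3.and h1).exists
    apply huv i
    rw [h6]
    exact h5
  obtain ⟨u, hu'⟩ := hcross
  obtain ⟨M, j1, j2, q, m, p, hq1, hq2, i, hq3⟩ := rat_pointA hC' hx' hu'
  let _ : Algebra k M := ((algebraMap ℂ M).comp σ').toAlgebra
  have hal' : algebraMap k (RatFunc M) = (algebraMap ℂ (RatFunc M)).comp σ' := by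
    ext c
    rw [IsScalarTower.algebraMap_apply k M (RatFunc M), RingHom.comp_apply,
      IsScalarTower.algebraMap_apply ℂ M (RatFunc M)]
    rfl
  have hae : ∀ F : MvPolynomial (Fin n) k,
      aeval q F = 0 ↔ eval₂ ((algebraMap ℂ K').comp σ') x' F = 0 := by
    intro F
    have h1 : aeval q F = aeval q (map σ' F) := by
      rw [aeval_def, aeval_def, eval₂_map, hal']
    have h2 : aeval x' (map σ' F) = eval₂ ((algebraMap ℂ K').comp σ') x' F := by
      rw [aeval_def, eval₂_map]
    rw [h1, hq1, h2]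
  have hX : (RatFunc.X : RatFunc M) ^ m ≠ 0 := pow_ne_zero _ RatFunc.X_ne_zero
  have hlau : ∀ F : MvPolynomial (Fin n) k, aeval (lau m p) (homK F) = 0 ↔ aeval q F = 0 := by
    intro F
    let ι : Polynomial M →ₐ[k] RatFunc M :=
      IsScalarTower.toAlgHom k (Polynomial M) (RatFunc M)
    have hι : Function.Injective ι := RatFunc.algebraMap_injective M
    have h1 : ι (aeval (lau m p) (homK F)) = aeval (fun j => ι (lau m p j)) (homK F) :=
      MvPolynomial.comp_aeval_apply (f := lau m p) ι (homK F)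
    have h0 : ι (lau m p 0) = RatFunc.X ^ m := by
      change algebraMap (Polynomial M) (RatFunc M) (Polynomial.X ^ m) = _
      rw [map_pow, RatFunc.algebraMap_X]
    have h2 := aeval_homK F (fun j => ι (lau m p j)) (by rw [h0]; exact hX)
    have h3 : (fun i : Fin n => ι (lau m p i.succ) / ι (lau m p 0)) = q := by
      funext i
      rw [h0, div_eq_iff hX, hq2]
      rfl
    rw [h3, h0] at h2
    rw [← map_eq_zero_iff ι hι, h1, h2, mul_eq_zero]
    constructor
    · rintro (h4 | h4)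
      · exact absurd h4 (pow_ne_zero _ hX)
      · exact h4
    · exact Or.inr
  obtain ⟨Gd, hGd1, hGd2⟩ := hL (max m (Finset.univ.sup fun j => (p j).natDegree))
  obtain ⟨p', h1, h2, h3, h4⟩ := spec_lau m p
    (fun h0 => hnz Gd hGd1 ((hae Gd).1 ((hlau Gd).1 h0))) ⟨i, fun h0 => by
      refine hq3 ((p i).eval 1) ?_
      have h5 := hq2 i
      rw [← h0, map_mul, map_pow, RatFunc.algebraMap_X, mul_comm] at h5
      have h6 := mul_left_cancel₀ hX h5
      rw [h6, RatFunc.algebraMap_C]
      rfl⟩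
  apply h3
  refine hGd2 m p' (le_max_left _ _) (fun j => ?_) (fun F hF => h2 F ?_) h4
  · exact (h1 j).trans ((Finset.le_sup (f := fun j => (p j).natDegree)
      (Finset.mem_univ j)).trans (le_max_right _ _))
  · exact (hlau F).2 ((hae F).2 (hzero F hF))

end strong

end Pool.Agent.Q1.SL
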