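import Pool.Agent.Y377.ST.Uniform
import Pool.Agent.Y377.IR.Aff

/-!
Uniform bounds for families of points of affine varieties given by iterated recurrences.
-/

set_option autoImplicit false

namespace Pool.Agent.Q1.SL

open MvPolynomial Pool.Agent.Y377.IR Pool.Agent.Y377.ST
open scoped NumberField

variable {K : Type} [Field K] {ι κ : Type} {n : ℕ}

/-- For all `s`, `r`, `e` there is one bound for the numbers of the points outside of `V'` in the
families of points of `V(L)` given by iterated recurrences with `s` steps, matrices of size `r` and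
polynomials of degree at most `e` in each variable, for all groups and all fields `L ⊇ K`
embeddable in `ℂ`. -/
def UniformOutA (F : ι → MvPolynomial (Fin n) (𝓞 K)) (G : κ → MvPolynomial (Fin n) (𝓞 K)) :
    Prop :=
  ∀ s r e : ℕ, ∃ B : ℕ, ∀ (L : Type) [Field L] [Algebra K L] (_ : L →+* ℂ) (H : Type) [Group H]
    (x : H → Fin n → L), IterVec s r e x → (∀ h, x h ∈ Zeros F L) →
      (Set.range x \ Zeros G L).encard ≤ (B : ℕ∞)

/-- finitely many of the polynomials suffice -/
theorem exists_finA [NumberField K] (G : κ → MvPolynomial (Fin n) (𝓞 K)) :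
    ∃ S : Finset κ, ∀ (A : Type) [CommRing A] (φ : 𝓞 K →+* A) (x : Fin n → A),
      (∀ l ∈ S, eval₂ φ x (G l) = 0) → ∀ l, eval₂ φ x (G l) = 0 := by
  classical
  have hfg : (Ideal.span (Set.range G)).FG := IsNoetherian.noetherian _
  obtain ⟨S, hS1, hS2⟩ := (Submodule.fg_span_iff_fg_span_finset_subset _).1 hfg
  have hsel : ∀ g : MvPolynomial (Fin n) (𝓞 K), g ∈ S → ∃ l, G l = g := fun g hg => hS1 hg
  choose sel hsel using hsel
  refine ⟨S.attach.image fun g => sel g.1 g.2, ?_⟩
  intro A _ φ x hx l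
  have h1 : G l ∈ Ideal.span (S : Set (MvPolynomial (Fin n) (𝓞 K))) := by
    have h2 : G l ∈ Ideal.span (Set.range G) := Ideal.subset_span ⟨l, rfl⟩
    have h3 : Ideal.span (Set.range G) =
        Ideal.span (S : Set (MvPolynomial (Fin n) (𝓞 K))) := hS2
    rwa [h3] at h2
  have h2 : Ideal.span (S : Set (MvPolynomial (Fin n) (𝓞 K))) ≤ RingHom.ker (eval₂Hom φ x) := by
    rw [Ideal.span_le]
    intro g hg
    have h4 := hx (sel g hg) (Finset.mem_image.2 ⟨⟨g, hg⟩, Finset.mem_attach _ _, rfl⟩)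
    rw [hsel g hg] at h4
    exact h4
  exact h2 h1

/-- different points -/
theorem exists_seqA {F : ι → MvPolynomial (Fin n) (𝓞 K)} {G : κ → MvPolynomial (Fin n) (𝓞 K)}
    {s r e : ℕ} {L : Type} [Field L] [Algebra K L] (τ : L →+* ℂ) {H : Type} [Group H]
    {x : H → Fin n → L} (hx : IterVec s r e x) (hF : ∀ h, x h ∈ Zeros F L) {B : ℕ}
    (hB : ¬ (Set.range x \ Zeros G L).encard ≤ (B : ℕ∞)) :
    ∃ (σ : K →+* ℂ) (H : Type) (_ : Group H) (x : H → Fin n → ℂ), IterVec s r e x ∧
      (∀ h i, eval₂ (σ.comp (algebraMap (𝓞 K) K)) (x h) (F i) = 0) ∧ ∃ hs : ℕ → H,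
        (∀ i, ∃ l, eval₂ (σ.comp (algebraMap (𝓞 K) K)) (x (hs i)) (G l) ≠ 0) ∧
        ∀ i j, i ≤ B → j ≤ B → i ≠ j → x (hs i) ≠ x (hs j) := by
  classical
  have hev : ∀ h F, eval₂ ((τ.comp (algebraMap K L)).comp (algebraMap (𝓞 K) K))
      (fun j => τ (x h j)) F =
      τ (eval₂ ((algebraMap K L).comp (algebraMap (𝓞 K) K)) (x h) F) := fun h F =>
    (eval₂_comp_left τ ((algebraMap K L).comp (algebraMap (𝓞 K) K)) (x h) F).symm
  have h1 : ((B + 1 : ℕ) : ℕ∞) ≤ (Set.range x \ Zeros G L).encard := by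
    rw [Nat.cast_add, Nat.cast_one]
    exact Order.add_one_le_of_lt (not_le.1 hB)
  obtain ⟨t, hts, htc⟩ := Set.exists_subset_encard_eq h1
  have htf : t.Finite := Set.finite_of_encard_eq_coe htc
  have hcard : htf.toFinset.card = B + 1 := by
    have h2 := htf.encard_eq_coe_toFinset_card
    rw [htc] at h2
    exact_mod_cast h2.symm
  let P : Fin (B + 1) ≃ htf.toFinset := (Finset.equivFinOfCardEq hcard).symm
  have hP : ∀ i : Fin (B + 1), ((P i : htf.toFinset) : Fin n → L) ∈ Set.range x \ Zeros G L :=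
    fun i => hts (htf.mem_toFinset.1 (P i).2)
  have hP1 : ∀ i : Fin (B + 1), ∃ h, x h = ((P i : htf.toFinset) : Fin n → L) :=
    fun i => (hP i).1
  choose hs0 hPe using hP1
  let c : ℕ → Fin (B + 1) := fun i => if hi : i < B + 1 then ⟨i, hi⟩ else 0
  refine ⟨τ.comp (algebraMap K L), H, inferInstance, fun h j => τ (x h j), hx.map τ, ?_,
    fun i => hs0 (c i), ?_, ?_⟩
  · intro h i
    rw [hev, hF h i, map_zero]
  · intro i
    by_contra hcon
    push Not at hcon
    apply (hP (c i)).2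
    intro l
    rw [← hPe (c i)]
    have h2 := hcon l
    rw [hev] at h2
    exact (map_eq_zero τ).1 h2
  · intro i j hi hj hij h2
    have hci : c i = ⟨i, by omega⟩ := dif_pos (by omega)
    have hcj : c j = ⟨j, by omega⟩ := dif_pos (by omega)
    have hcij : c i ≠ c j := by
      rw [hci, hcj]
      intro h2
      exact hij (Fin.mk.inj_iff.1 h2)
    apply hcij
    apply P.injective
    apply Subtype.ext
    rw [← hPe (c i), ← hPe (c j)]
    funext u
    exact τ.injective (congrFun h2 u)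

/-- **Uniform bounds from finiteness.** -/
theorem uniformOutA_of [NumberField K] {F : ι → MvPolynomial (Fin n) (𝓞 K)}
    {G : κ → MvPolynomial (Fin n) (𝓞 K)} (hfin : IteratedFiniteA F G) : UniformOutA F G := by
  classical
  intro s r e
  by_contra hcon
  have hC : ∀ B : ℕ,
      ∃ (σ : K →+* ℂ) (H : Type) (_ : Group H) (x : H → Fin n → ℂ), IterVec s r e x ∧
        (∀ h i, eval₂ (σ.comp (algebraMap (𝓞 K) K)) (x h) (F i) = 0) ∧ ∃ hs : ℕ → H,
          (∀ i, ∃ l, eval₂ (σ.comp (algebraMap (𝓞 K) K)) (x (hs i)) (G l) ≠ 0) ∧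
          ∀ i j, i ≤ B → j ≤ B → i ≠ j → x (hs i) ≠ x (hs j) := by
    intro B
    by_contra h1
    refine hcon ⟨B, ?_⟩
    intro L _ _ τ H _ x hx hF
    by_contra h2
    exact h1 (exists_seqA τ hx hF h2)
  choose σ Hs iH x hx hF hs hoff hnp using hC
  obtain ⟨S, hS⟩ := exists_finA G
  obtain ⟨Θ, hΘ⟩ := Pool.Agent.Y455.ST.t_THETA
  let σs : K →+* ℂ := Θ.comp (RingHom.pi σ)
  let xs : (∀ i, Hs i) → Fin n → ℂ := fun h j => Θ fun i => x i (h i) j
  have hxs : IterVec s r e xs := (IterVec.prod hx).map Θ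
  have key : ∀ (F : MvPolynomial (Fin n) (𝓞 K)) (h : ∀ i, Hs i),
      eval₂ (σs.comp (algebraMap (𝓞 K) K)) (xs h) F =
        Θ fun i => eval₂ ((σ i).comp (algebraMap (𝓞 K) K)) (x i (h i)) F := by
    intro F h
    have h1 := eval₂_comp_left Θ ((RingHom.pi σ).comp (algebraMap (𝓞 K) K))
      (fun j i => x i (h i) j) F
    have h2 : eval₂ ((RingHom.pi σ).comp (algebraMap (𝓞 K) K)) (fun j i => x i (h i) j) F =
        fun i => eval₂ ((σ i).comp (algebraMap (𝓞 K) K)) (x i (h i)) F := by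
      funext i
      have h3 := eval₂_comp_left (Pi.evalRingHom (fun _ : ℕ => ℂ) i)
        ((RingHom.pi σ).comp (algebraMap (𝓞 K) K)) (fun j i => x i (h i) j) F
      exact h3
    rw [h2] at h1
    exact h1.symm
  let a : ℕ → ∀ i, Hs i := fun m i => hs i m
  let _ : Algebra K ℂ := σs.toAlgebra
  have hzero : ∀ h, xs h ∈ Zeros F ℂ := by
    intro h i
    change eval₂ (σs.comp (algebraMap (𝓞 K) K)) (xs h) (F i) = 0
    rw [key]
    have h1 : (fun j => eval₂ ((σ j).comp (algebraMap (𝓞 K) K)) (x j (h j)) (F i)) = 0 :=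
      funext fun j => hF j (h j) i
    rw [h1, map_zero]
  have hGne : ∀ m, xs (a m) ∉ Zeros G ℂ := by
    intro m hm
    obtain ⟨⟨l, hl⟩, h1⟩ := theta_ne hΘ
      (fun (l : S) => fun i => eval₂ ((σ i).comp (algebraMap (𝓞 K) K)) (x i (a m i)) (G l.1)) 0
      (fun i _ => by
        obtain ⟨l, hl⟩ := hoff i m
        by_contra hc
        push Not at hc
        exact hl (hS ℂ ((σ i).comp (algebraMap (𝓞 K) K)) (x i (a m i))
          (fun l' hl' => hc ⟨l', hl'⟩) l))
    apply h1
    change (Θ fun i => eval₂ ((σ i).comp (algebraMap (𝓞 K) K)) (x i (a m i)) (G l)) = 0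
    rw [← key]
    exact hm l
  have hinj : Function.Injective fun m => xs (a m) := by
    intro m m' hmm
    by_contra hne
    obtain ⟨u, hu⟩ := theta_ne hΘ (fun (u : Fin n) i => x i (a m i) u - x i (a m' i) u)
      (max m m') (fun i hi => by
        obtain ⟨u, hu⟩ := Function.ne_iff.1 (hnp i m m' ((le_max_left _ _).trans hi)
          ((le_max_right _ _).trans hi) hne)
        exact ⟨u, sub_ne_zero.2 hu⟩)
    apply hu
    have h3 : (fun i => x i (a m i) u - x i (a m' i) u) =
        (fun i => x i (a m i) u) - (fun i => x i (a m' i) u) := rfl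
    change (Θ fun i => x i (a m i) u - x i (a m' i) u) = 0
    rw [h3, map_sub, sub_eq_zero]
    exact congrFun hmm u
  obtain ⟨R, hR, hmem⟩ := hxs.tow
  have hf := hfin ℂ (RingHom.id ℂ) (∀ i, Hs i) R xs hR (fun j => hmem j) hzero
  refine Set.infinite_of_injective_forall_mem (f := fun m => xs (a m)) hinj ?_ hf
  intro m
  exact ⟨⟨a m, rfl⟩, hGne m⟩

end Pool.Agent.Q1.SL
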