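import Pool.Agent.Q1.SL.Ultra
import Pool.Agent.Y377.ST.Def

/-!
Points over differential fields given by iterated linear differential equations of bounded
complexity; towers and ultraproducts.
-/

set_option autoImplicit false

namespace Pool.Agent.Q1.SL

open Filter Pool.Agent.Y377.IL Pool.Agent.Y377.ST

/-- the entries of the matrices -/
def entD {K : Type} {s r : ℕ} (X Y : Fin s → Matrix (Fin r) (Fin r) K) : Ix s r → K :=
  entries (H := Unit) (fun l _ => X l) (fun l _ => Y l) ()

/-- Matrices `X_1, ..., X_s` of size `r` over the differential field `K`, with inverses `Y_l`,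
such that the entries of `X_l' X_l⁻¹` are values of polynomials with complex coefficients, of degree
at most `e` in each variable, at the entries of `X_i`, `Y_i`, `i < l`. -/
structure DIterF {K : Type} [Field K] [Algebra ℂ K] {s r : ℕ} (D : Derivation ℂ K K) (e : ℕ)
    (X Y : Fin s → Matrix (Fin r) (Fin r) K) : Prop where
  inv : ∀ l, X l * Y l = 1
  coc : ∀ (l : Fin s) (i j : Fin r), ∃ c : (Ix s r → Fin (e + 1)) → ℂ,
    ∑ k, D (X l i k) * Y l k j = pev (fun m => algebraMap ℂ K (c m)) (before l (entD X Y))

/-- vectors given by iterated linear differential equations -/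
def DVecF {K : Type} [Field K] [Algebra ℂ K] {n : ℕ} (D : Derivation ℂ K K) (s r e : ℕ)
    (x : Fin n → K) : Prop :=
  ∃ X Y : Fin s → Matrix (Fin r) (Fin r) K, DIterF D e X Y ∧
    ∀ j, ∃ c : (Ix s r → Fin (e + 1)) → ℂ,
      x j = pev (fun m => algebraMap ℂ K (c m)) (entD X Y)

section tower

variable {K : Type} [Field K] [Algebra ℂ K] {D : Derivation ℂ K K} {s r e n : ℕ}

/-- the ring generated by the entries of the first matrices -/
noncomputable def ringD (X Y : Fin s → Matrix (Fin r) (Fin r) K) (m : ℕ) : Subalgebra ℂ K :=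
  Algebra.adjoin ℂ {f | ∃ v : Ix s r, (v.1 : ℕ) < m ∧ f = entD X Y v}

theorem pevD_mem {ι : Type} [Fintype ι] [DecidableEq ι] (R : Subalgebra ℂ K)
    (c : (ι → Fin (e + 1)) → ℂ) (w : ι → K) (hw : ∀ i, w i ∈ R) :
    pev (fun m => algebraMap ℂ K (c m)) w ∈ R := by
  unfold pev
  exact Subalgebra.sum_mem _ fun m _ => R.mul_mem (R.algebraMap_mem _)
    (Subalgebra.prod_mem _ fun i _ => R.pow_mem (hw i) _)

theorem ringD_tow {X Y : Fin s → Matrix (Fin r) (Fin r) K} (hX : DIterF D e X Y) :
    ∀ m : ℕ, m ≤ s → LTow D ⊥ (ringD X Y m) := by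
  intro m
  induction m with
  | zero =>
    intro _
    have h1 : ringD X Y 0 = ⊥ := by
      unfold ringD
      have h2 : {f | ∃ v : Ix s r, (v.1 : ℕ) < 0 ∧ f = entD X Y v} = (∅ : Set K) := by
        ext f
        simp
      rw [h2, Algebra.adjoin_empty]
    rw [h1]
    exact LTow.base
  | succ m ih =>
    intro hm
    have ht := ih (by omega)
    let l : Fin s := ⟨m, hm⟩
    have hF : Fund D (ringD X Y m) (X l) (Y l)
        (Matrix.of fun i j => ∑ k, D (X l i k) * Y l k j) := by
      refine ⟨hX.inv l, ?_, ?_⟩
      · intro i j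
        obtain ⟨c, hc⟩ := hX.coc l i j
        rw [Matrix.of_apply, hc]
        refine pevD_mem _ c _ fun v => ?_
        unfold before
        by_cases hb : v.1 < l
        · rw [if_pos hb]
          exact Algebra.subset_adjoin ⟨v, hb, rfl⟩
        · rw [if_neg hb]
          exact (ringD X Y m).zero_mem
      · intro i j
        have h1 : Y l * X l = 1 := mul_eq_one_comm.1 (hX.inv l)
        simp only [Matrix.of_apply, Finset.sum_mul]
        rw [Finset.sum_comm]
        have h2 : ∀ k, ∑ k', D (X l i k) * Y l k k' * X l k' j =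
            D (X l i k) * (1 : Matrix (Fin r) (Fin r) K) k j := by
          intro k
          rw [← h1, Matrix.mul_apply, Finset.mul_sum]
          exact Finset.sum_congr rfl fun k' _ => mul_assoc _ _ _
        simp only [h2, Matrix.one_apply, mul_ite, mul_one, mul_zero, Finset.sum_ite_eq',
          Finset.mem_univ, if_true]
    have h2 : ringD X Y (m + 1) = mat (ringD X Y m) (X l) (Y l) := by
      apply le_antisymm
      · unfold ringD
        rw [Algebra.adjoin_le_iff]
        rintro f ⟨v, hv, rfl⟩
        rcases Nat.lt_succ_iff_lt_or_eq.1 hv with h3 | h3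
        · exact (le_sup_left : ringD X Y m ≤ mat (ringD X Y m) (X l) (Y l))
            (Algebra.subset_adjoin ⟨v, h3, rfl⟩)
        · have h4 : v.1 = l := Fin.ext h3
          refine (le_sup_right : Algebra.adjoin ℂ _ ≤ mat (ringD X Y m) (X l) (Y l))
            (Algebra.subset_adjoin ⟨v.2.2.1, v.2.2.2, ?_⟩)
          by_cases hb : v.2.1 = true
          · left
            unfold entD entries
            rw [if_pos hb, h4]
          · right
            unfold entD entries
            rw [if_neg hb, h4]
      · unfold mat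
        refine sup_le ?_ ?_
        · unfold ringD
          refine Algebra.adjoin_mono ?_
          rintro f ⟨v, hv, rfl⟩
          exact ⟨v, by omega, rfl⟩
        · rw [Algebra.adjoin_le_iff]
          rintro f ⟨i, j, h3 | h3⟩
          · refine Algebra.subset_adjoin ⟨(l, true, i, j), Nat.lt_succ_self m, ?_⟩
            rw [h3]
            rfl
          · refine Algebra.subset_adjoin ⟨(l, false, i, j), Nat.lt_succ_self m, ?_⟩
            rw [h3]
            rfl
    rw [h2]
    exact LTow.step ht hF

theorem DVecF.tow {x : Fin n → K} (hx : DVecF D s r e x) :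
    ∃ R : Subalgebra ℂ K, LTow D ⊥ R ∧ ∀ j, x j ∈ R := by
  obtain ⟨X, Y, hX, hc⟩ := hx
  refine ⟨ringD X Y s, ringD_tow hX s le_rfl, fun j => ?_⟩
  obtain ⟨c, hc⟩ := hc j
  rw [hc]
  exact pevD_mem _ c _ fun v => Algebra.subset_adjoin ⟨v, v.1.2, rfl⟩

end tower

/-! ### Ultraproducts -/

section ultra

variable {K : ℕ → Type} [∀ i, Field (K i)] [∀ i, Algebra ℂ (K i)] {D : ∀ i, Derivation ℂ (K i) (K i)}
  {K' : Type} [Field K'] [Algebra ℂ K'] {D' : Derivation ℂ K' K'} {π : (∀ i, K i) →+* K'}
  {θ : (ℕ → ℂ) →+* ℂ} {s r e n : ℕ}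

theorem pi_pev (hal : ∀ c : ℕ → ℂ, π (fun i => algebraMap ℂ (K i) (c i)) = algebraMap ℂ K' (θ c))
    {ι : Type} [Fintype ι] [DecidableEq ι] (c : ℕ → (ι → Fin (e + 1)) → ℂ) (v : ∀ i, ι → K i) :
    π (fun i => pev (fun m => algebraMap ℂ (K i) (c i m)) (v i)) =
      pev (fun m => algebraMap ℂ K' (θ fun i => c i m)) (fun a => π fun i => v i a) := by
  have h1 : (fun i => pev (fun m => algebraMap ℂ (K i) (c i m)) (v i)) =
      pev (fun m i => algebraMap ℂ (K i) (c i m)) (fun a i => v i a) := by
    funext i
    exact (map_pev (Pi.evalRingHom K i) (fun m i => algebraMap ℂ (K i) (c i m))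
      (fun a i => v i a)).symm
  rw [h1, map_pev]
  congr 1
  funext m
  exact hal _

theorem ent_pi (X Y : ∀ i, Fin s → Matrix (Fin r) (Fin r) (K i)) (v : Ix s r) :
    entD (fun l => Matrix.of fun a b => π fun i => X i l a b)
      (fun l => Matrix.of fun a b => π fun i => Y i l a b) v = π fun i => entD (X i) (Y i) v := by
  unfold entD entries
  by_cases hb : v.2.1 = true
  · simp only [if_pos hb]
    rfl
  · simp only [if_neg hb]
    rfl

theorem DVecF.ultra (hD : ∀ x, D' (π x) = π fun i => D i (x i))
    (hal : ∀ c : ℕ → ℂ, π (fun i => algebraMap ℂ (K i) (c i)) = algebraMap ℂ K' (θ c))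
    {x : ∀ i, Fin n → K i} (hx : ∀ i, DVecF (D i) s r e (x i)) :
    DVecF D' s r e fun j => π fun i => x i j := by
  choose X Y hX hc using hx
  refine ⟨fun l => Matrix.of fun a b => π fun i => X i l a b,
    fun l => Matrix.of fun a b => π fun i => Y i l a b, ⟨fun l => ?_, fun l a b => ?_⟩,
    fun j => ?_⟩
  · ext a b
    rw [Matrix.mul_apply]
    simp only [Matrix.of_apply, ← map_mul, ← map_sum]
    have h1 : (∑ k, (fun i => X i l a k) * (fun i => Y i l k b)) =
        fun i => (1 : Matrix (Fin r) (Fin r) (K i)) a b := by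
      funext i
      rw [Finset.sum_apply]
      exact congrFun (congrFun ((hX i).inv l) a) b
    rw [h1]
    by_cases hab : a = b
    · subst hab
      simp only [Matrix.one_apply_eq]
      exact map_one π
    · simp only [Matrix.one_apply_ne hab]
      exact map_zero π
  · choose c hc' using fun i => (hX i).coc l a b
    refine ⟨fun m => θ fun i => c i m, ?_⟩
    simp only [Matrix.of_apply, hD, ← map_mul, ← map_sum]
    have h1 : (∑ k, (fun i => D i (X i l a k)) * (fun i => Y i l k b)) =
        fun i => pev (fun m => algebraMap ℂ (K i) (c i m)) (before l (entD (X i) (Y i))) := by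
      funext i
      rw [Finset.sum_apply]
      exact hc' i
    rw [h1, pi_pev hal]
    congr 1
    funext v
    unfold before
    by_cases hb : v.1 < l
    · simp only [if_pos hb]
      exact (ent_pi X Y v).symm
    · simp only [if_neg hb]
      exact map_zero π
  · choose c hc' using fun i => hc i j
    refine ⟨fun m => θ fun i => c i m, ?_⟩
    have h1 : (fun i => x i j) =
        fun i => pev (fun m => algebraMap ℂ (K i) (c i m)) (entD (X i) (Y i)) := funext hc'
    change π (fun i => x i j) = _
    rw [h1, pi_pev hal]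
    congr 1
    funext v
    exact (ent_pi X Y v).symm

end ultra

end Pool.Agent.Q1.SL
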