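import Mathlib

/-!
Limits of families of polynomial vectors of bounded degree.
-/

set_option autoImplicit false

namespace Pool.Agent.Q1.SL

open MvPolynomial

/-- **Limits of polynomial vectors of bounded degree.** -/
theorem exists_limit {ι : Type} [Nonempty ι] (le : ι → ι → Prop) (hrefl : ∀ a, le a a)
    (hdir : ∀ a b, ∃ c, ∀ x, le c x → le a x ∧ le b x) {N d : ℕ}
    (p : ι → Fin N → Polynomial ℂ) (hp1 : ∀ G j, (p G j).natDegree ≤ d) :
    ∃ (L : Type) (_ : Field L) (_ : Algebra ℂ L) (q : Fin N → Polynomial L),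
      (∀ E : MvPolynomial (Fin N) ℂ, (∀ G, aeval (p G) E = 0) → aeval q E = 0) ∧
      (∀ E : MvPolynomial (Fin N) ℂ,
        (∃ G1, ∀ G, le G1 G → eval (fun j => (p G j).eval 1) E ≠ 0) →
          aeval (fun j => (q j).eval 1) E ≠ 0) ∧
      ((∀ G, ∃ i j, p G i * Polynomial.C ((p G j).eval 1) ≠
        p G j * Polynomial.C ((p G i).eval 1)) →
          ∃ i j, q i * Polynomial.C ((q j).eval 1) ≠ q j * Polynomial.C ((q i).eval 1)) ∧
      ∀ j a, a ≤ d → (∀ G, p G j = Polynomial.X ^ a) → q j = Polynomial.X ^ a := by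
  classical
  let A : Type := ι → ℂ
  let J : Ideal A :=
    { carrier := {f | ∃ G1 : ι, ∀ G : ι, le G1 G → f G = 0}
      add_mem' := by
        rintro f g ⟨G1, h1⟩ ⟨G2, h2⟩
        obtain ⟨G3, h3⟩ := hdir G1 G2
        refine ⟨G3, fun G hG => ?_⟩
        rw [Pi.add_apply, h1 G (h3 G hG).1, h2 G (h3 G hG).2, add_zero]
      zero_mem' := ⟨Classical.arbitrary ι, fun G _ => rfl⟩
      smul_mem' := by
        rintro c f ⟨G1, h1⟩
        refine ⟨G1, fun G hG => ?_⟩
        rw [smul_eq_mul, Pi.mul_apply, h1 G hG, mul_zero] }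
  have hJ : J ≠ ⊤ := by
    rw [Ideal.ne_top_iff_one]
    rintro ⟨G1, h1⟩
    exact one_ne_zero (h1 G1 (hrefl G1))
  obtain ⟨m, hm, hJm⟩ := Ideal.exists_le_maximal J hJ
  let iL : Field (A ⧸ m) := Ideal.Quotient.field m
  let Φ : A →ₐ[ℂ] (A ⧸ m) := Ideal.Quotient.mkₐ ℂ m
  have hΦ : ∀ f : A, Φ f = 0 ↔ f ∈ m := fun f => Ideal.Quotient.eq_zero_iff_mem
  have hmem : ∀ f ∈ m, ∀ G1 : ι, ∃ G : ι, le G1 G ∧ f G = 0 := by
    intro f hf G1
    by_contra hcon
    push Not at hcon
    have h1 : 1 - (fun G => (f G)⁻¹) * f ∈ J := by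
      refine ⟨G1, fun G hG => ?_⟩
      change 1 - (f G)⁻¹ * f G = 0
      rw [inv_mul_cancel₀ (hcon G hG), sub_self]
    have h2 := m.add_mem (hJm h1) (m.mul_mem_left (fun G => (f G)⁻¹) hf)
    rw [sub_add_cancel] at h2
    exact hm.ne_top ((Ideal.eq_top_iff_one _).2 h2)
  let PP : Fin N → Polynomial A := fun j =>
    ∑ a ∈ Finset.range (d + 1), Polynomial.C (fun G => (p G j).coeff a) * Polynomial.X ^ a
  let ev : ι → A →ₐ[ℂ] ℂ := fun G => Pi.evalAlgHom ℂ (fun _ : ι => ℂ) G
  have hPP : ∀ G j, Polynomial.mapAlgHom (ev G) (PP j) = p G j := by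
    intro G j
    change Polynomial.map _ (∑ a ∈ Finset.range (d + 1),
      Polynomial.C (fun G => (p G j).coeff a) * Polynomial.X ^ a) = _
    rw [Polynomial.map_sum]
    simp only [Polynomial.map_mul, Polynomial.map_C, Polynomial.map_pow, Polynomial.map_X]
    conv_rhs => rw [(p G j).as_sum_range' (d + 1) (by have := hp1 G j; omega)]
    refine Finset.sum_congr rfl fun a _ => ?_
    rw [Polynomial.C_mul_X_pow_eq_monomial]
    rfl
  have hext : ∀ E : Polynomial A, (∀ G, Polynomial.mapAlgHom (ev G) E = 0) → E = 0 := by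
    intro E hE
    apply Polynomial.ext
    intro a
    funext G
    have h1 := congrArg (fun E => Polynomial.coeff E a) (hE G)
    change (Polynomial.map _ E).coeff a = _ at h1
    rw [Polynomial.coeff_map] at h1
    exact h1
  have hcA : ∀ (B : Type) [CommRing B] [Algebra ℂ B] (φ : A →ₐ[ℂ] B)
      (F : MvPolynomial (Fin N) ℂ), Polynomial.mapAlgHom φ (aeval PP F) =
        aeval (fun j => Polynomial.mapAlgHom φ (PP j)) F := fun B _ _ φ F =>
    MvPolynomial.comp_aeval_apply (f := PP) (Polynomial.mapAlgHom φ) F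
  have hmapeval : ∀ (B : Type) [CommRing B] [Algebra ℂ B] (φ : A →ₐ[ℂ] B) (E : Polynomial A),
      (Polynomial.mapAlgHom φ E).eval 1 = φ (E.eval 1) := by
    intro B _ _ φ E
    change (Polynomial.map (φ : A →+* B) E).eval 1 = _
    rw [Polynomial.eval_map]
    have h3 := Polynomial.eval₂_at_apply (p := E) (φ : A →+* B) 1
    rw [map_one] at h3
    exact h3
  refine ⟨A ⧸ m, iL, inferInstance, fun j => Polynomial.mapAlgHom Φ (PP j), ?_, ?_, ?_, ?_⟩
  · intro F hF
    rw [← hcA]
    have h1 : aeval PP F = 0 := by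
      apply hext
      intro G
      rw [hcA]
      have h2 : (fun j => Polynomial.mapAlgHom (ev G) (PP j)) = p G := funext fun j => hPP G j
      rw [h2]
      exact hF G
    rw [h1, map_zero]
  · intro E hE h0
    obtain ⟨G1, hG1⟩ := hE
    let f : A := fun G => eval (fun j => (p G j).eval 1) E
    have h1 : Φ f = aeval (fun j => (Polynomial.mapAlgHom Φ (PP j)).eval 1) E := by
      have h2 : f = aeval (fun j => (PP j).eval 1) E := by
        funext G
        change eval (fun j => (p G j).eval 1) E = ev G (aeval (fun j => (PP j).eval 1) E)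
        rw [MvPolynomial.comp_aeval_apply]
        have h3 : (fun i => ev G ((PP i).eval 1)) = fun j => (p G j).eval 1 := by
          funext j
          rw [← hmapeval, hPP]
        rw [h3, ← MvPolynomial.coe_aeval_eq_eval]
        rfl
      rw [h2, MvPolynomial.comp_aeval_apply]
      congr 2
      funext j
      rw [← hmapeval]
    rw [← h1, hΦ] at h0
    obtain ⟨G, hG, h2⟩ := hmem f h0 G1
    exact hG1 G hG h2
  · intro hp4
    by_contra hcon
    push Not at hcon
    let W : Fin N × Fin N → Polynomial A := fun q =>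
      PP q.1 * Polynomial.C ((PP q.2).eval 1) - PP q.2 * Polynomial.C ((PP q.1).eval 1)
    have hW : ∀ (B : Type) [CommRing B] [Algebra ℂ B] (φ : A →ₐ[ℂ] B) q,
        Polynomial.mapAlgHom φ (W q) =
          Polynomial.mapAlgHom φ (PP q.1) *
            Polynomial.C ((Polynomial.mapAlgHom φ (PP q.2)).eval 1) -
          Polynomial.mapAlgHom φ (PP q.2) *
            Polynomial.C ((Polynomial.mapAlgHom φ (PP q.1)).eval 1) := by
      intro B _ _ φ q
      rw [hmapeval, hmapeval, map_sub, map_mul, map_mul]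
      congr 2
      · change Polynomial.map (φ : A →+* B) (Polynomial.C _) = _
        rw [Polynomial.map_C]
        rfl
      · change Polynomial.map (φ : A →+* B) (Polynomial.C _) = _
        rw [Polynomial.map_C]
        rfl
    have hWm : ∀ q a, (W q).coeff a ∈ m := by
      intro q a
      rw [← hΦ]
      have h1 := hW (A ⧸ m) Φ q
      rw [hcon q.1 q.2, sub_self] at h1
      have h2 := congrArg (fun E => Polynomial.coeff E a) h1
      change (Polynomial.map _ (W q)).coeff a = _ at h2
      rw [Polynomial.coeff_map] at h2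
      exact h2
    have hch : ∀ G : ι, ∃ t : (Fin N × Fin N) × Fin (d + 1),
        (W t.1).coeff t.2 G ≠ 0 := by
      intro G
      by_contra hno
      push Not at hno
      obtain ⟨i, j, hij⟩ := hp4 G
      apply hij
      rw [← sub_eq_zero]
      have h1 := hW ℂ (ev G) (i, j)
      rw [hPP, hPP] at h1
      rw [← h1]
      apply Polynomial.ext
      intro a
      rw [Polynomial.coeff_zero]
      change (Polynomial.map _ (W (i, j))).coeff a = 0
      rw [Polynomial.coeff_map]
      by_cases ha : a < d + 1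
      · exact hno ((i, j), ⟨a, ha⟩)
      · have h2 : (Polynomial.mapAlgHom (ev G) (W (i, j))).coeff a = 0 := by
          rw [h1]
          apply Polynomial.coeff_eq_zero_of_natDegree_lt
          refine lt_of_le_of_lt (Polynomial.natDegree_sub_le _ _) (max_lt ?_ ?_)
          · exact lt_of_le_of_lt (Polynomial.natDegree_mul_C_le _ _)
              (lt_of_le_of_lt (hp1 G i) (by omega))
          · exact lt_of_le_of_lt (Polynomial.natDegree_mul_C_le _ _)
              (lt_of_le_of_lt (hp1 G j) (by omega))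
        change (Polynomial.map _ (W (i, j))).coeff a = 0 at h2
        rwa [Polynomial.coeff_map] at h2
    choose t ht using hch
    let u : (Fin N × Fin N) × Fin (d + 1) → A := fun q G =>
      if t G = q then ((W q.1).coeff q.2 G)⁻¹ else 0
    have h1 : ∑ q, u q * (W q.1).coeff q.2 ∈ m :=
      m.sum_mem fun q _ => m.mul_mem_left _ (hWm q.1 q.2)
    obtain ⟨G, -, hG⟩ := hmem _ h1 (Classical.arbitrary ι)
    have h2 : (∑ q, u q * (W q.1).coeff q.2) G = 1 := by
      rw [Finset.sum_apply, Finset.sum_eq_single (t G)]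
      · change (if t G = t G then ((W (t G).1).coeff (t G).2 G)⁻¹ else 0) *
          (W (t G).1).coeff (t G).2 G = 1
        rw [if_pos rfl, inv_mul_cancel₀ (ht G)]
      · intro q _ hq
        change (if t G = q then ((W q.1).coeff q.2 G)⁻¹ else 0) * (W q.1).coeff q.2 G = 0
        rw [if_neg (Ne.symm hq), zero_mul]
      · intro h4
        exact absurd (Finset.mem_univ _) h4
    rw [h2] at hG
    exact one_ne_zero hG
  · intro j a _ hja
    have h1 : PP j = Polynomial.X ^ a := by
      rw [← sub_eq_zero]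
      apply hext
      intro G
      rw [map_sub, hPP, hja G, map_pow]
      have h2 : Polynomial.mapAlgHom (ev G) Polynomial.X = Polynomial.X := Polynomial.map_X _
      rw [h2, sub_self]
    change Polynomial.mapAlgHom Φ (PP j) = _
    rw [h1, map_pow]
    have h2 : Polynomial.mapAlgHom Φ Polynomial.X = Polynomial.X := Polynomial.map_X _
    rw [h2]

end Pool.Agent.Q1.SL
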