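import Pool.Agent.Q1.SL.AffC
import Pool.Agent.Q1.SL.UltraG

/-!
Laurent curves of bounded degree and Laurent curves through generic points.
-/

set_option autoImplicit false

namespace Pool.Agent.Q1.SL

open MvPolynomial

variable {n : ℕ}

/-- Over an extension field `L` of `k` there is a nonconstant curve `p(t) / t ^ m`, `t ≠ 0`, on `V`
such that the point with `t = 1` is generic: no polynomial over `k` which does not vanish on `V`
vanishes there. -/
def GmUniruled {k : Type} [Field k] (I : Ideal (MvPolynomial (Fin n) k)) : Prop :=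
  ∃ (L : Type) (_ : Field L) (_ : Algebra k L) (m : ℕ) (p : Fin n → Polynomial L),
    (∀ t : L, t ≠ 0 → ∀ F ∈ I, aeval (lpt m p t) F = 0) ∧
    (∀ G : MvPolynomial (Fin n) k, G ∉ I → aeval (lpt m p 1) G ≠ 0) ∧
    ∃ s t : L, s ≠ 0 ∧ t ≠ 0 ∧ lpt m p s ≠ lpt m p t

theorem on_iffL {k L : Type} [Field k] [Field L] [Algebra k L] [Infinite L] (m : ℕ)
    (p : Fin n → Polynomial L) (F : MvPolynomial (Fin n) k) :
    aeval (lau m p) (homK F) = 0 ↔ ∀ t : L, t ≠ 0 → aeval (lpt m p t) F = 0 := by
  have h1 : aeval (lau m p) (homK (map (algebraMap k L) F)) = aeval (lau m p) (homK F) := by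
    rw [← map_homK, MvPolynomial.aeval_map_algebraMap]
  rw [← h1, on_iff]
  have h2 : ∀ t : L, eval (lpt m p t) (map (algebraMap k L) F) = aeval (lpt m p t) F := by
    intro t
    rw [eval_map, aeval_def]
  simp only [h2]

theorem not_gmUniruled {I : Ideal (MvPolynomial (Fin n) ℂ)} (h : LauDeg I) :
    ¬ GmUniruled I := by
  classical
  rintro ⟨L, _, _, m, p, hp1, hp2, hp3⟩
  have : CharZero L := charZero_of_injective_algebraMap (algebraMap ℂ L).injective
  obtain ⟨G, hG1, hG2⟩ := h (max m (Finset.univ.sup fun j => (p j).natDegree))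
  obtain ⟨p', h1, h2, h3, h4⟩ := spec_lau m p (G := G)
    (fun h0 => hp2 G hG1 ((on_iffL m p G).1 h0 1 one_ne_zero)) ((nonc_iff m p).2 hp3)
  apply h3
  rw [on_iff]
  refine hG2 m p' (le_max_left _ _) (fun j => ?_) (fun t ht F hF => ?_) ((nonc_iff m p').1 h4)
  · exact (h1 j).trans ((Finset.le_sup (f := fun j => (p j).natDegree)
      (Finset.mem_univ j)).trans (le_max_right _ _))
  · exact (on_iff m p' F).1 (h2 F ((on_iffL m p F).2 fun t ht => hp1 t ht F hF)) t ht

theorem lauDeg_of_not {I : Ideal (MvPolynomial (Fin n) ℂ)} (hprime : I.IsPrime)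
    (h : ¬ GmUniruled I) : LauDeg I := by
  classical
  intro d
  by_contra hcon
  apply h
  let ι : Type := {G : MvPolynomial (Fin n) ℂ // G ∉ I}
  have hne : Nonempty ι := ⟨⟨1, fun h1 => hprime.ne_top ((Ideal.eq_top_iff_one _).2 h1)⟩⟩
  have h' : ∀ G : ι, ∃ (p : Fin n → Polynomial ℂ), (∀ j, (p j).natDegree ≤ 2 * d) ∧
      (∀ t, t ≠ 0 → ∀ F ∈ I, eval (lpt d p t) F = 0) ∧
      (∃ j, Polynomial.X ^ d * Polynomial.C ((p j).eval 1) ≠ p j) ∧
      eval (fun j => (p j).eval 1) G.1 ≠ 0 := by
    intro G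
    obtain ⟨m, p, hm, hp1, hp2, hp3, u, hu, hu2⟩ : ∃ (m : ℕ) (p : Fin n → Polynomial ℂ), m ≤ d ∧
        (∀ j, (p j).natDegree ≤ d) ∧ (∀ t, t ≠ 0 → ∀ F ∈ I, eval (lpt m p t) F = 0) ∧
        (∃ s t, s ≠ 0 ∧ t ≠ 0 ∧ lpt m p s ≠ lpt m p t) ∧
          ∃ t, t ≠ 0 ∧ eval (lpt m p t) G.1 ≠ 0 := by
      by_contra hno
      refine hcon ⟨G.1, G.2, fun m p hm h1 h2 h3 t ht => ?_⟩
      by_contra h4
      exact hno ⟨m, p, hm, h1, h2, h3, t, ht, h4⟩
    let p' : Fin n → Polynomial ℂ := fun j => Polynomial.C ((u ^ m)⁻¹) *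
      (p j).comp (Polynomial.C u * Polynomial.X) * Polynomial.X ^ (d - m)
    have hev : ∀ j t, (p' j).eval t = (u ^ m)⁻¹ * (p j).eval (u * t) * t ^ (d - m) := by
      intro j t
      change (Polynomial.C ((u ^ m)⁻¹) * (p j).comp (Polynomial.C u * Polynomial.X) *
        Polynomial.X ^ (d - m)).eval t = _
      rw [Polynomial.eval_mul, Polynomial.eval_mul, Polynomial.eval_C, Polynomial.eval_comp,
        Polynomial.eval_mul, Polynomial.eval_C, Polynomial.eval_X, Polynomial.eval_pow,
        Polynomial.eval_X]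
    have hlpt : ∀ t, t ≠ 0 → lpt d p' t = lpt m p (u * t) := by
      intro t ht
      funext j
      change (p' j).eval t / t ^ d = (p j).eval (u * t) / (u * t) ^ m
      have h1 : t ^ d = t ^ m * t ^ (d - m) := by
        rw [← pow_add]
        congr 1
        omega
      rw [hev, h1, mul_pow]
      have h2 : t ^ m ≠ 0 := pow_ne_zero _ ht
      have h3 : t ^ (d - m) ≠ 0 := pow_ne_zero _ ht
      have h4 : u ^ m ≠ 0 := pow_ne_zero _ hu
      field_simp
    refine ⟨p', fun j => ?_, fun t ht F hF => ?_, ?_, ?_⟩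
    · change (Polynomial.C ((u ^ m)⁻¹) * (p j).comp (Polynomial.C u * Polynomial.X) *
        Polynomial.X ^ (d - m)).natDegree ≤ _
      refine (Polynomial.natDegree_mul_le).trans ?_
      have h1 : (Polynomial.C ((u ^ m)⁻¹) * (p j).comp (Polynomial.C u *
          Polynomial.X)).natDegree ≤ d := by
        refine (Polynomial.natDegree_C_mul_le _ _).trans ?_
        refine (Polynomial.natDegree_comp_le).trans ?_
        have h2 : (Polynomial.C u * Polynomial.X : Polynomial ℂ).natDegree ≤ 1 :=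
          (Polynomial.natDegree_C_mul_le _ _).trans Polynomial.natDegree_X_le
        calc (p j).natDegree * (Polynomial.C u * Polynomial.X : Polynomial ℂ).natDegree
            ≤ d * 1 := Nat.mul_le_mul (hp1 j) h2
          _ = d := mul_one d
      have h2 : (Polynomial.X ^ (d - m) : Polynomial ℂ).natDegree ≤ d :=
        (Polynomial.natDegree_X_pow_le _).trans (Nat.sub_le _ _)
      omega
    · rw [hlpt t ht]
      exact hp2 _ (mul_ne_zero hu ht) F hF
    · rw [nonc_iff]
      obtain ⟨s, t, hs, ht, hst⟩ := hp3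
      refine ⟨u⁻¹ * s, u⁻¹ * t, mul_ne_zero (inv_ne_zero hu) hs, mul_ne_zero (inv_ne_zero hu) ht,
        ?_⟩
      rw [hlpt _ (mul_ne_zero (inv_ne_zero hu) hs), hlpt _ (mul_ne_zero (inv_ne_zero hu) ht),
        mul_inv_cancel_left₀ hu, mul_inv_cancel_left₀ hu]
      exact hst
    · have h1 : (fun j => (p' j).eval 1) = lpt m p u := by
        funext j
        change (p' j).eval 1 = (p j).eval u / u ^ m
        rw [hev, mul_one, one_pow, mul_one, div_eq_mul_inv, mul_comm]
      rw [h1]
      exact hu2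
  choose p hp1 hp2 hp3 hp4 using h'
  let le : ι → ι → Prop := fun a b => a.1 ∣ b.1
  have hdir : ∀ a b : ι, ∃ c : ι, ∀ x, le c x → le a x ∧ le b x := by
    intro a b
    refine ⟨⟨a.1 * b.1, fun h1 => ?_⟩, fun x hx => ?_⟩
    · rcases hprime.mem_or_mem h1 with h2 | h2
      · exact a.2 h2
      · exact b.2 h2
    · exact ⟨(Dvd.intro _ rfl).trans hx, (Dvd.intro_left _ rfl).trans hx⟩
  obtain ⟨L, iL, iA, q, h1, h2, h3, h4⟩ := exists_limit le (fun a => dvd_rfl) hdir
    (N := n + 1) (d := 2 * d) (fun G => lau d (p G)) (fun G j => by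
      refine Fin.cases ?_ (fun l => ?_) j
      · change (Polynomial.X ^ d : Polynomial ℂ).natDegree ≤ _
        exact (Polynomial.natDegree_X_pow_le _).trans (by omega)
      · exact hp1 G l)
  have hcz : CharZero L := charZero_of_injective_algebraMap (algebraMap ℂ L).injective
  have hq0 : q 0 = Polynomial.X ^ d := h4 0 d (by omega) fun G => rfl
  let q' : Fin n → Polynomial L := fun j => q j.succ
  have hq' : lau d q' = q := by
    funext j
    refine Fin.cases ?_ (fun l => rfl) j
    exact hq0.symm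
  refine ⟨L, iL, iA, d, q', ?_, ?_, ?_⟩
  · intro t ht F hF
    refine (on_iffL d q' F).1 ?_ t ht
    rw [hq']
    exact h1 _ fun G => (on_iff d (p G) F).2 fun t ht => hp2 G t ht F hF
  · intro G1 hG1 h0
    refine h2 (rename Fin.succ G1) ⟨⟨G1, hG1⟩, fun G hG => ?_⟩ ?_
    · rw [eval_rename]
      intro h5
      obtain ⟨H, hH⟩ := hG
      apply hp4 G
      change G.1 = G1 * H at hH
      rw [hH, map_mul]
      have h6 : eval (fun j => (p G j).eval 1) G1 = 0 := h5
      rw [h6, zero_mul]
    · rw [aeval_rename]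
      have h5 : lpt d q' 1 = (fun j => (q j).eval 1) ∘ Fin.succ := by
        funext j
        change (q j.succ).eval 1 / 1 ^ d = (q j.succ).eval 1
        rw [one_pow, div_one]
      rw [← h5]
      exact h0
  · rw [← nonc_iff]
    by_contra hno
    push Not at hno
    have h5 : ∀ j, q j = Polynomial.X ^ d * Polynomial.C ((q j).eval 1) := by
      intro j
      refine Fin.cases ?_ (fun l => ?_) j
      · rw [hq0, Polynomial.eval_pow, Polynomial.eval_X, one_pow, Polynomial.C_1, mul_one]
      · exact (hno l).symm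
    obtain ⟨i, j, hij⟩ := h3 fun G => by
      obtain ⟨j, hj⟩ := hp3 G
      refine ⟨0, j.succ, ?_⟩
      change Polynomial.X ^ d * Polynomial.C ((p G j).eval 1) ≠
        p G j * Polynomial.C ((Polynomial.X ^ d : Polynomial ℂ).eval 1)
      rw [Polynomial.eval_pow, Polynomial.eval_X, one_pow, Polynomial.C_1, mul_one]
      exact hj
    apply hij
    conv_lhs => rw [h5 i]
    conv_rhs => rw [h5 j]
    ring

/-- **Laurent curves and curves given by iterated linear differential equations.** -/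
theorem gm_tfae {I : Ideal (MvPolynomial (Fin n) ℂ)} (hprime : I.IsPrime) :
    List.TFAE [¬ GmUniruled I, LauDeg I, OdeDegA I] := by
  tfae_have 1 → 2 := lauDeg_of_not hprime
  tfae_have 2 → 1 := not_gmUniruled
  tfae_have 2 ↔ 3 := lauDeg_iff hprime
  tfae_finish

end Pool.Agent.Q1.SL
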