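import Pool.Agent.Q1.SL.Key
import Pool.Agent.Q1.SL.GmUni

/-!
Curves given by iterated linear differential equations on affine varieties of bounded degree.
-/

set_option autoImplicit false

namespace Pool.Agent.Q1.SL

open Filter MvPolynomial Pool.Agent.Y377.IL Pool.Agent.Y377.ST

section los

variable {θ : (ℕ → ℂ) →+* ℂ} {n : ℕ}

theorem theta_div {a b : ℕ → ℂ} (hb : ∀ i, b i ≠ 0) : θ (fun i => a i / b i) = θ a / θ b := by
  have h1 : (fun i => a i / b i) * b = a := by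
    funext i
    change a i / b i * b i = a i
    rw [div_mul_cancel₀ _ (hb i)]
  have h2 : θ b ≠ 0 := by
    intro h0
    have h3 : b * (fun i => (b i)⁻¹) = 1 := by
      funext i
      exact mul_inv_cancel₀ (hb i)
    have h4 := congrArg θ h3
    rw [map_mul, h0, zero_mul, map_one] at h4
    exact zero_ne_one h4
  rw [eq_div_iff h2, ← map_mul, h1]

/-- **Transfer of Laurent curves from the limit.** -/
theorem los_lau (hs : Function.Surjective θ)
    (hk : ∀ c : ℕ → ℂ, θ c = 0 ↔ ∀ᶠ i in (hyperfilter ℕ : Filter ℕ), c i = 0) {d0 m : ℕ}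
    (p : Fin n → Polynomial ℂ) (hd : ∀ j, (p j).natDegree ≤ d0)
    (hnc : ∃ s t, s ≠ 0 ∧ t ≠ 0 ∧ lpt m p s ≠ lpt m p t)
    {S : ℕ → Set (MvPolynomial (Fin n) ℂ)} {T : Finset (Fin n →₀ ℕ)}
    (hST : ∀ i, ∀ F ∈ S i, F.support ⊆ T)
    (hS : ∀ F : ℕ → MvPolynomial (Fin n) ℂ, (∀ᶠ i in (hyperfilter ℕ : Filter ℕ), F i ∈ S i) →
      ∀ t, t ≠ 0 → eval (lpt m p t) (limT θ T F) = 0)
    {T' : Finset (Fin n →₀ ℕ)} {G : ℕ → MvPolynomial (Fin n) ℂ}
    (hGT : ∀ᶠ i in (hyperfilter ℕ : Filter ℕ), (G i).support ⊆ T')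
    (hG : ∃ t, t ≠ 0 ∧ eval (lpt m p t) (limT θ T' G) ≠ 0) :
    ∀ᶠ i in (hyperfilter ℕ : Filter ℕ), ∃ q : Fin n → Polynomial ℂ,
      (∀ j, (q j).natDegree ≤ d0) ∧ (∀ t, t ≠ 0 → ∀ F ∈ S i, eval (lpt m q t) F = 0) ∧
        (∃ s t, s ≠ 0 ∧ t ≠ 0 ∧ lpt m q s ≠ lpt m q t) ∧
          ∃ t, t ≠ 0 ∧ eval (lpt m q t) (G i) ≠ 0 := by
  classical
  obtain ⟨pp, hpp1, hpp2⟩ := exists_rep hs p hd
  have hlift : ∀ t0 : ℂ, t0 ≠ 0 → ∃ t : ℕ → ℂ, (∀ i, t i ≠ 0) ∧ θ t = t0 := by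
    intro t0 ht0
    obtain ⟨t, ht⟩ := hs t0
    refine ⟨fun i => if t i = 0 then 1 else t i, fun i => ?_, ?_⟩
    · by_cases h : t i = 0
      · simp [h]
      · simp [h]
    · rw [← ht, ← sub_eq_zero, ← map_sub, hk]
      have h1 : ∀ᶠ i in (hyperfilter ℕ : Filter ℕ), t i ≠ 0 := by
        refine Ultrafilter.eventually_not.2 fun h => ht0 ?_
        rw [← ht]
        exact (hk t).2 h
      filter_upwards [h1] with i hi
      simp [hi]
  have hlpt : ∀ t : ℕ → ℂ, (∀ i, t i ≠ 0) →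
      lpt m p (θ t) = fun j => θ fun i => lpt m (pp i) (t i) j := by
    intro t ht
    funext j
    change (p j).eval (θ t) / θ t ^ m = θ fun i => (pp i j).eval (t i) / t i ^ m
    rw [hpp2, theta_div (a := fun i => (pp i j).eval (t i)) (b := fun i => t i ^ m)
      (fun i => pow_ne_zero _ (ht i))]
    congr 1
    exact (map_pow θ t m).symm
  have hkey : ∀ (T : Finset (Fin n →₀ ℕ)) (F : ℕ → MvPolynomial (Fin n) ℂ),
      (∀ᶠ i in (hyperfilter ℕ : Filter ℕ), (F i).support ⊆ T) → ∀ t : ℕ → ℂ, (∀ i, t i ≠ 0) →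
        eval (lpt m p (θ t)) (limT θ T F) = θ fun i => eval (lpt m (pp i) (t i)) (F i) := by
    intro T F hF t ht
    rw [hlpt t ht]
    exact eval_limT hk hF fun i => lpt m (pp i) (t i)
  have hA : ∀ᶠ i in (hyperfilter ℕ : Filter ℕ), ∀ t, t ≠ 0 → ∀ F ∈ S i,
      eval (lpt m (pp i) t) F = 0 := by
    by_contra hno
    have h1 : ∀ᶠ i in (hyperfilter ℕ : Filter ℕ), ¬ ∀ t, t ≠ 0 → ∀ F ∈ S i,
      eval (lpt m (pp i) t) F = 0 := Ultrafilter.eventually_not.2 hno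
    have h2 : ∀ i, ∃ (F : MvPolynomial (Fin n) ℂ) (t : ℂ), t ≠ 0 ∧
        ((¬ ∀ t, t ≠ 0 → ∀ F ∈ S i, eval (lpt m (pp i) t) F = 0) →
          F ∈ S i ∧ eval (lpt m (pp i) t) F ≠ 0) := by
      intro i
      by_cases h : ∀ t, t ≠ 0 → ∀ F ∈ S i, eval (lpt m (pp i) t) F = 0
      · exact ⟨0, 1, one_ne_zero, fun h' => absurd h h'⟩
      · have h0 := h
        push Not at h
        obtain ⟨t, ht, F, hF⟩ := h
        exact ⟨F, t, ht, fun _ => hF⟩
    choose F t ht hF using h2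
    have h4 : ∀ᶠ i in (hyperfilter ℕ : Filter ℕ), F i ∈ S i := by
      filter_upwards [h1] with i hi
      exact (hF i hi).1
    have h5 := hkey T F (by
      filter_upwards [h4] with i hi
      exact hST i _ hi) t ht
    have ht0 : θ t ≠ 0 := by
      intro h0
      obtain ⟨i, hi⟩ := ((hk t).1 h0).exists
      exact ht i hi
    rw [hS F h4 _ ht0] at h5
    have h6 := (hk _).1 h5.symm
    obtain ⟨i, h7, h8⟩ := (h6.and h1).exists
    exact (hF i h8).2 h7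
  have hB : ∀ᶠ i in (hyperfilter ℕ : Filter ℕ), ∃ t, t ≠ 0 ∧
      eval (lpt m (pp i) t) (G i) ≠ 0 := by
    obtain ⟨t0, ht0, hne⟩ := hG
    obtain ⟨t, ht, rfl⟩ := hlift t0 ht0
    rw [hkey T' G hGT t ht] at hne
    have h1 : ¬ ∀ᶠ i in (hyperfilter ℕ : Filter ℕ), eval (lpt m (pp i) (t i)) (G i) = 0 :=
      fun h => hne ((hk _).2 h)
    filter_upwards [Ultrafilter.eventually_not.2 h1] with i hi
    exact ⟨t i, ht i, hi⟩
  have hCn : ∀ᶠ i in (hyperfilter ℕ : Filter ℕ), ∃ s t, s ≠ 0 ∧ t ≠ 0 ∧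
      lpt m (pp i) s ≠ lpt m (pp i) t := by
    obtain ⟨s0, t0, hs0, ht0, hst⟩ := hnc
    obtain ⟨s, hsn, rfl⟩ := hlift s0 hs0
    obtain ⟨t, htn, rfl⟩ := hlift t0 ht0
    rw [hlpt s hsn, hlpt t htn] at hst
    obtain ⟨j, hj⟩ := Function.ne_iff.1 hst
    have h1 : ¬ ∀ᶠ i in (hyperfilter ℕ : Filter ℕ),
        lpt m (pp i) (s i) j - lpt m (pp i) (t i) j = 0 := by
      intro h
      apply hj
      have h2 := (hk (fun i => lpt m (pp i) (s i) j - lpt m (pp i) (t i) j)).2 h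
      have h3 : (fun i => lpt m (pp i) (s i) j - lpt m (pp i) (t i) j) =
          (fun i => lpt m (pp i) (s i) j) - fun i => lpt m (pp i) (t i) j := rfl
      rw [h3, map_sub] at h2
      exact sub_eq_zero.1 h2
    filter_upwards [Ultrafilter.eventually_not.2 h1] with i hi
    exact ⟨s i, t i, hsn i, htn i, fun h => hi (by rw [h, sub_self])⟩
  filter_upwards [hA, hB, hCn] with i h1 h2 h3
  exact ⟨pp i, hpp1 i, h1, h3, h2⟩

end los

/-- **The key lemma, affine case.** -/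
theorem key_aff {θ : (ℕ → ℂ) →+* ℂ} (hs : Function.Surjective θ)
    (hk : ∀ c : ℕ → ℂ, θ c = 0 ↔ ∀ᶠ i in (hyperfilter ℕ : Filter ℕ), c i = 0) {n D : ℕ}
    {S : ℕ → Set (MvPolynomial (Fin n) ℂ)} (hS : ∀ i, ∀ F ∈ S i, F.totalDegree ≤ D)
    {M : Type} [Field M] [Algebra ℂ M] (q : Fin n → RatFunc M) (m : ℕ)
    (p : Fin n → Polynomial M)
    (hqp : ∀ j, q j * RatFunc.X ^ m = algebraMap (Polynomial M) (RatFunc M) (p j))
    (hq : ∀ F : ℕ → MvPolynomial (Fin n) ℂ,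
      (∀ᶠ i in (hyperfilter ℕ : Filter ℕ), F i ∈ S i) → aeval q (limT θ (TD n D) F) = 0)
    (hnc : ∃ i, ∀ c : M, q i ≠ algebraMap M (RatFunc M) c) :
    ∃ d0 : ℕ, m ≤ d0 ∧ ∀ (G : ℕ → MvPolynomial (Fin n) ℂ) (D' : ℕ),
      (∀ᶠ i in (hyperfilter ℕ : Filter ℕ), (G i).totalDegree ≤ D') →
      aeval q (limT θ (TD n D') G) ≠ 0 →
      ∀ᶠ i in (hyperfilter ℕ : Filter ℕ), ∃ p : Fin n → Polynomial ℂ,
        (∀ j, (p j).natDegree ≤ d0) ∧ (∀ t, t ≠ 0 → ∀ F ∈ S i, eval (lpt m p t) F = 0) ∧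
          (∃ s t, s ≠ 0 ∧ t ≠ 0 ∧ lpt m p s ≠ lpt m p t) ∧
            ∃ t, t ≠ 0 ∧ eval (lpt m p t) (G i) ≠ 0 := by
  classical
  have hX : (RatFunc.X : RatFunc M) ^ m ≠ 0 := pow_ne_zero _ RatFunc.X_ne_zero
  have hlau : ∀ F : MvPolynomial (Fin n) ℂ, aeval (lau m p) (homK F) = 0 ↔ aeval q F = 0 := by
    intro F
    let ι : Polynomial M →ₐ[ℂ] RatFunc M :=
      IsScalarTower.toAlgHom ℂ (Polynomial M) (RatFunc M)
    have hι : Function.Injective ι := RatFunc.algebraMap_injective M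
    have h1 : ι (aeval (lau m p) (homK F)) = aeval (fun j => ι (lau m p j)) (homK F) :=
      MvPolynomial.comp_aeval_apply (f := lau m p) ι (homK F)
    have h0 : ι (lau m p 0) = RatFunc.X ^ m := by
      change algebraMap (Polynomial M) (RatFunc M) (Polynomial.X ^ m) = _
      rw [map_pow, RatFunc.algebraMap_X]
    have h2 := aeval_homK F (fun j => ι (lau m p j)) (by rw [h0]; exact hX)
    have h3 : (fun i : Fin n => ι (lau m p i.succ) / ι (lau m p 0)) = q := by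
      funext i
      rw [h0, div_eq_iff hX, hqp]
      rfl
    rw [h3, h0] at h2
    rw [← map_eq_zero_iff ι hι, h1, h2, mul_eq_zero]
    constructor
    · rintro (h4 | h4)
      · exact absurd h4 (pow_ne_zero _ hX)
      · exact h4
    · exact Or.inr
  refine ⟨max m (Finset.univ.sup fun j => (p j).natDegree), le_max_left _ _,
    fun G D' hG hGne => ?_⟩
  obtain ⟨i, hi⟩ := hnc
  obtain ⟨p', h1, h2, h3, h4⟩ := spec_lau m p (G := limT θ (TD n D') G)
    (fun h0 => hGne ((hlau _).1 h0)) ⟨i, fun h0 => by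
      refine hi ((p i).eval 1) ?_
      have h5 := hqp i
      rw [← h0, map_mul, map_pow, RatFunc.algebraMap_X, mul_comm] at h5
      have h6 := mul_left_cancel₀ hX h5
      rw [h6, RatFunc.algebraMap_C]
      rfl⟩
  refine los_lau hs hk p' (fun j => ?_) ((nonc_iff m p').1 h4) (S := S) (T := TD n D)
    (fun i F hF => support_TD (hS i F hF)) (fun F hF => ?_) (T' := TD n D') (G := G) (by
      filter_upwards [hG] with i hi
      exact support_TD hi) ?_
  · exact (h1 j).trans ((Finset.le_sup (f := fun j => (p j).natDegree)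
      (Finset.mem_univ j)).trans (le_max_right _ _))
  · exact (on_iff m p' _).1 (h2 _ ((hlau _).2 (hq F hF)))
  · by_contra hno
    push Not at hno
    exact h3 ((on_iff m p' _).2 hno)

/-- All nonconstant curves `p(t) / t ^ m`, `t ≠ 0`, on the affine variety of `S`, with `m` and the
degrees of the `p_j` at most `d`, lie in `G = 0`. -/
def LauIn {n : ℕ} (S : Set (MvPolynomial (Fin n) ℂ)) (G : MvPolynomial (Fin n) ℂ) (d : ℕ) :
    Prop :=
  ∀ (m : ℕ) (p : Fin n → Polynomial ℂ), m ≤ d → (∀ j, (p j).natDegree ≤ d) →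
    (∀ t, t ≠ 0 → ∀ F ∈ S, eval (lpt m p t) F = 0) →
      (∃ s t, s ≠ 0 ∧ t ≠ 0 ∧ lpt m p s ≠ lpt m p t) → ∀ t, t ≠ 0 → eval (lpt m p t) G = 0

/-- **Uniform degrees of Laurent curves.** -/
theorem ode_uniform_diffA (n D s r e : ℕ) : ∃ d : ℕ,
    ∀ (S : Set (MvPolynomial (Fin n) ℂ)) (G : MvPolynomial (Fin n) ℂ),
      (∀ F ∈ S, F.totalDegree ≤ D) → G.totalDegree ≤ D → LauIn S G d →
      ∀ (K : Type) [Field K] [Algebra ℂ K] (D : Derivation ℂ K K), Cst D →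
        ∀ x : Fin n → K, DVecF D s r e x → (∀ F ∈ S, aeval x F = 0) →
        (∃ u, D (x u) ≠ 0) → aeval x G = 0 := by
  classical
  by_contra hcon
  have hC : ∀ d : ℕ, ∃ (S : Set (MvPolynomial (Fin n) ℂ))
      (G : MvPolynomial (Fin n) ℂ) (K : Type) (_ : Field K) (_ : Algebra ℂ K)
      (D1 : Derivation ℂ K K) (x : Fin n → K),
      (∀ F ∈ S, F.totalDegree ≤ D) ∧ G.totalDegree ≤ D ∧ LauIn S G d ∧ Cst D1 ∧
        DVecF D1 s r e x ∧ (∀ F ∈ S, aeval x F = 0) ∧ (∃ u, D1 (x u) ≠ 0) ∧ aeval x G ≠ 0 := by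
    intro d
    by_contra h1
    refine hcon ⟨d, ?_⟩
    intro S G h2 h3 h4 K _ _ D1 h5 x h6 h7 h8
    by_contra h9
    exact h1 ⟨S, G, K, _, _, D1, x, h2, h3, h4, h5, h6, h7, h8, h9⟩
  choose S G K iK jK D1 x hS hG hrat hCD hx hF huv hGne using hC
  obtain ⟨K', iK', jK', D', π, θ, hC', hD', hal, hker, hk, hs⟩ := exists_ultra2 D1 hCD
  let x' : Fin n → K' := fun j => π fun i => x i j
  have hx' : DVecF D' s r e x' := DVecF.ultra hD' hal hx
  have hcross : ∃ u, D' (x' u) ≠ 0 := by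
    choose u huv using huv
    obtain ⟨u0, h1⟩ : ∃ u0 : Fin n, ∀ᶠ i in (hyperfilter ℕ : Filter ℕ), u i = u0 := by
      by_contra hno
      push Not at hno
      have h3 : ∀ᶠ i in (hyperfilter ℕ : Filter ℕ), ∀ p : Fin n, u i ≠ p :=
        eventually_all.2 fun p => hno p
      obtain ⟨i, hi⟩ := h3.exists
      exact hi _ rfl
    refine ⟨u0, fun h2 => ?_⟩
    have h3 : π (fun i => D1 i (x i u0)) = 0 := by
      rw [← hD']
      exact h2
    rw [hker] at h3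
    obtain ⟨i, h5, h6⟩ := (h3.and h1).exists
    apply huv i
    rw [h6]
    exact h5
  obtain ⟨u, hu'⟩ := hcross
  obtain ⟨M, j1, j2, q, m, p, hq1, hq2, hq3⟩ := rat_pointA hC' hx' hu'
  have hev : ∀ (T : Finset (Fin n →₀ ℕ)) (F : ℕ → MvPolynomial (Fin n) ℂ),
      (∀ᶠ i in (hyperfilter ℕ : Filter ℕ), (F i).support ⊆ T) →
        aeval x' (limT θ T F) = π fun i => aeval (x i) (F i) := fun T F hF =>
    aeval_limT hal hker hF x
  obtain ⟨d0, hm0, hd0⟩ := key_aff hs hk hS q m p hq2 (fun F hF' => by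
    rw [hq1, hev _ F (by
      filter_upwards [hF'] with i hi
      exact support_TD (hS i _ hi)), hker]
    filter_upwards [hF'] with i hi
    exact hF i _ hi) hq3
  have h1 := hd0 G D (Eventually.of_forall hG) (fun h0 => by
    rw [hq1, hev _ G (Eventually.of_forall fun i => support_TD (hG i)), hker] at h0
    obtain ⟨i, hi⟩ := h0.exists
    exact hGne i hi)
  have hge : ∀ᶠ i in (hyperfilter ℕ : Filter ℕ), d0 ≤ i := by
    have h1 : ∀ᶠ i : ℕ in cofinite, d0 ≤ i := by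
      rw [Nat.cofinite_eq_atTop]
      exact eventually_ge_atTop d0
    exact h1.filter_mono hyperfilter_le_cofinite
  obtain ⟨i, ⟨p, hp1, hp2, hp3, t, ht, hp4⟩, hi⟩ := (h1.and hge).exists
  exact hp4 (hrat i m p (hm0.trans hi) (fun j => (hp1 j).trans hi) hp2 hp3 t ht)

/-- finite sets of polynomials -/
theorem exists_finite_polys {n : ℕ} (S : Set (MvPolynomial (Fin n) ℂ)) :
    ∃ S0 : Finset (MvPolynomial (Fin n) ℂ), (∀ F ∈ S0, F ∈ S) ∧
      ∀ (A : Type) [CommRing A] [Algebra ℂ A] (x : Fin n → A),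
        (∀ F ∈ S0, aeval x F = 0) → ∀ F ∈ S, aeval x F = 0 := by
  classical
  have hfg : (Ideal.span S).FG := IsNoetherian.noetherian _
  obtain ⟨S0, hS1, hS2⟩ := (Submodule.fg_span_iff_fg_span_finset_subset _).1 hfg
  refine ⟨S0, fun F hF => hS1 hF, ?_⟩
  intro A _ _ x hx F hF
  have h1 : F ∈ Ideal.span (S0 : Set (MvPolynomial (Fin n) ℂ)) := by
    have h2 : F ∈ Ideal.span S := Ideal.subset_span hF
    have h3 : Ideal.span S = Ideal.span (S0 : Set (MvPolynomial (Fin n) ℂ)) := hS2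
    rwa [h3] at h2
  have h2 : Ideal.span (S0 : Set (MvPolynomial (Fin n) ℂ)) ≤
      RingHom.ker (aeval x : MvPolynomial (Fin n) ℂ →ₐ[ℂ] A) := by
    rw [Ideal.span_le]
    intro F hF
    exact hx F hF
  exact h2 h1

/-- limits of nonconstant points -/
theorem der_ultra {K : ℕ → Type} [∀ i, Field (K i)] [∀ i, Algebra ℂ (K i)]
    {D : ∀ i, Derivation ℂ (K i) (K i)} {K' : Type} [Field K'] [Algebra ℂ K']
    {D' : Derivation ℂ K' K'} {π : (∀ i, K i) →+* K'}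
    (hD' : ∀ x, D' (π x) = π fun i => D i (x i))
    (hker : ∀ x, π x = 0 ↔ ∀ᶠ i in (hyperfilter ℕ : Filter ℕ), x i = 0) {N : ℕ}
    {x : ∀ i, Fin N → K i} (huv : ∀ i, ∃ u, D i (x i u) ≠ 0) :
    ∃ u, D' (π fun i => x i u) ≠ 0 := by
  classical
  choose u huv using huv
  obtain ⟨u0, h1⟩ : ∃ u0 : Fin N, ∀ᶠ i in (hyperfilter ℕ : Filter ℕ), u i = u0 := by
    by_contra hno
    push Not at hno
    have h3 : ∀ᶠ i in (hyperfilter ℕ : Filter ℕ), ∀ p : Fin N, u i ≠ p :=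
      eventually_all.2 fun p => hno p
    obtain ⟨i, hi⟩ := h3.exists
    exact hi _ rfl
  refine ⟨u0, fun h2 => ?_⟩
  rw [hD', hker] at h2
  obtain ⟨i, h5, h6⟩ := (h2.and h1).exists
  apply huv i
  rw [h6]
  exact h5

/-- **The special sets, affine case.** -/
theorem ode_special_diffA {n : ℕ} (S : Set (MvPolynomial (Fin n) ℂ)) (s r e : ℕ) : ∃ d : ℕ,
    ∀ G : MvPolynomial (Fin n) ℂ, LauIn S G d →
      ∀ (K : Type) [Field K] [Algebra ℂ K] (D : Derivation ℂ K K), Cst D →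
        ∀ x : Fin n → K, DVecF D s r e x → (∀ F ∈ S, aeval x F = 0) →
        (∃ u, D (x u) ≠ 0) → aeval x G = 0 := by
  classical
  obtain ⟨S0, hS0, hS0'⟩ := exists_finite_polys S
  obtain ⟨D, hD⟩ : ∃ D, ∀ F ∈ S0, F.totalDegree ≤ D :=
    ⟨S0.sup fun F => F.totalDegree, fun F hF =>
      Finset.le_sup (f := fun F : MvPolynomial (Fin n) ℂ => F.totalDegree) hF⟩
  by_contra hcon
  have hC : ∀ d : ℕ, ∃ (G : MvPolynomial (Fin n) ℂ) (K : Type) (_ : Field K)
      (_ : Algebra ℂ K) (D1 : Derivation ℂ K K) (x : Fin n → K),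
      LauIn S G d ∧ Cst D1 ∧ DVecF D1 s r e x ∧ (∀ F ∈ S, aeval x F = 0) ∧
        (∃ u, D1 (x u) ≠ 0) ∧ aeval x G ≠ 0 := by
    intro d
    by_contra h1
    refine hcon ⟨d, ?_⟩
    intro G h4 K _ _ D1 h5 x h6 h7 h8
    by_contra h9
    exact h1 ⟨G, K, _, _, D1, x, h4, h5, h6, h7, h8, h9⟩
  choose G K iK jK D1 x hrat hCD hx hF huv hGne using hC
  obtain ⟨K', iK', jK', D', π, θ, hC', hD', hal, hker, hk, hs⟩ := exists_ultra2 D1 hCD
  let x' : Fin n → K' := fun j => π fun i => x i j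
  have hx' : DVecF D' s r e x' := DVecF.ultra hD' hal hx
  obtain ⟨u, hu'⟩ := der_ultra hD' hker huv
  obtain ⟨M, j1, j2, q, m, p, hq1, hq2, hq3⟩ := rat_pointA hC' hx' hu'
  have hev : ∀ (T : Finset (Fin n →₀ ℕ)) (F : ℕ → MvPolynomial (Fin n) ℂ),
      (∀ᶠ i in (hyperfilter ℕ : Filter ℕ), (F i).support ⊆ T) →
        aeval x' (limT θ T F) = π fun i => aeval (x i) (F i) := fun T F hF =>
    aeval_limT hal hker hF x
  obtain ⟨d0, hm0, hd0⟩ := key_aff hs hk (S := fun _ => (S0 : Set (MvPolynomial (Fin n) ℂ)))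
    (D := D) (fun i F hF => hD F hF) q m p hq2 (fun F hF' => by
    rw [hq1, hev _ F (by
      filter_upwards [hF'] with i hi
      exact support_TD (hD _ hi)), hker]
    filter_upwards [hF'] with i hi
    exact hF i _ (hS0 _ hi)) hq3
  -- the polynomials which vanish on the Laurent curves of degree at most `d0`
  obtain ⟨W, hW1, hW2⟩ := exists_finite_polys {g : MvPolynomial (Fin n) ℂ | LauIn S g d0}
  have hWx : ∀ g ∈ W, ∀ᶠ i in (hyperfilter ℕ : Filter ℕ), aeval (x i) g = 0 := by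
    intro g hg
    by_contra hno
    have h1 := hd0 (fun _ => g) g.totalDegree (Eventually.of_forall fun _ => le_rfl)
      (fun h0 => by
        rw [hq1, hev _ (fun _ => g) (Eventually.of_forall fun _ => support_TD le_rfl), hker] at h0
        exact hno h0)
    obtain ⟨i, p, hp1, hp2, hp3, t, ht, hp4⟩ := h1.exists
    exact hp4 (hW1 g hg m p hm0 hp1 (fun t ht F hF => by
      have h5 := hS0' ℂ (lpt m p t) (fun F hF => by
        rw [MvPolynomial.aeval_def]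
        exact hp2 t ht F hF) F hF
      rw [MvPolynomial.aeval_def] at h5
      exact h5) hp3 t ht)
  have hWx' : ∀ᶠ i in (hyperfilter ℕ : Filter ℕ), ∀ g ∈ W, aeval (x i) g = 0 := by
    rw [Filter.eventually_all_finset]
    exact hWx
  have hge : ∀ᶠ i in (hyperfilter ℕ : Filter ℕ), d0 ≤ i := by
    have h1 : ∀ᶠ i : ℕ in cofinite, d0 ≤ i := by
      rw [Nat.cofinite_eq_atTop]
      exact eventually_ge_atTop d0
    exact h1.filter_mono hyperfilter_le_cofinite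
  obtain ⟨i, h2, hi⟩ := (hWx'.and hge).exists
  exact hGne i (hW2 (K i) (x i) h2 (G i) fun m p hm hp1 hp2 hp3 =>
    hrat i m p (hm.trans hi) (fun j => (hp1 j).trans hi) hp2 hp3)

end Pool.Agent.Q1.SL
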