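import Pool.Agent.Q1.SL.UnifRA

/-!
Affine varieties over number fields: Laurent curves, curves given by iterated linear differential
equations and points given by iterated recurrences.
-/

set_option autoImplicit false

namespace Pool.Agent.Q1.SL

open Set Filter MvPolynomial Pool.Agent.TH143 Pool.Agent.Y377.EL Pool.Agent.Y377.IL
  Pool.Agent.Y377.IR Pool.Agent.H533R3.SL Pool.Agent.TH717.GO Pool.Agent.Y377.ST

variable {n : ℕ}

/-- the value of a polynomial at the variable -/
theorem eval_X_map {M : Type} [Field M] (p : Polynomial M) :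
    (p.map (algebraMap M (RatFunc M))).eval RatFunc.X =
      algebraMap (Polynomial M) (RatFunc M) p := by
  have h1 : (Polynomial.evalRingHom (RatFunc.X : RatFunc M)).comp
      (Polynomial.mapRingHom (algebraMap M (RatFunc M))) =
        algebraMap (Polynomial M) (RatFunc M) := by
    apply Polynomial.ringHom_ext
    · intro a
      rw [RingHom.comp_apply, Polynomial.coe_mapRingHom, Polynomial.map_C,
        Polynomial.coe_evalRingHom, Polynomial.eval_C, RatFunc.algebraMap_C]
      rfl
    · rw [RingHom.comp_apply, Polynomial.coe_mapRingHom, Polynomial.map_X,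
        Polynomial.coe_evalRingHom, Polynomial.eval_X, RatFunc.algebraMap_X]
  exact RingHom.congr_fun h1 p

/-- **Generic Laurent points and Laurent curves.** -/
theorem gmUniruled_of {k : Type} [Field k] {I : Ideal (MvPolynomial (Fin n) k)} (σ : k →+* ℂ)
    {M : Type} [Field M] [Algebra ℂ M] (q : Fin n → RatFunc M) (m : ℕ)
    (p : Fin n → Polynomial M)
    (hq1 : ∀ F ∈ I, aeval q (map σ F) = 0) (hq2 : ∀ G, G ∉ I → aeval q (map σ G) ≠ 0)
    (hqp : ∀ j, q j * RatFunc.X ^ m = algebraMap (Polynomial M) (RatFunc M) (p j))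
    (hnc : ∃ i, ∀ c : M, q i ≠ algebraMap M (RatFunc M) c) : GmUniruled I := by
  classical
  let L := RatFunc M
  let _ : Algebra k L := ((algebraMap ℂ L).comp σ).toAlgebra
  have : CharZero M := charZero_of_injective_algebraMap (algebraMap ℂ M).injective
  have hcL : CharZero L := charZero_of_injective_algebraMap (algebraMap ℂ L).injective
  have hX : (RatFunc.X : L) ≠ 0 := RatFunc.X_ne_zero
  let pL : Fin n → Polynomial L := fun j => (p j).map (algebraMap M L)
  have hae : ∀ (v : Fin n → L) (F : MvPolynomial (Fin n) k), aeval v F = aeval v (map σ F) := by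
    intro v F
    rw [aeval_def, aeval_def, eval₂_map]
    rfl
  have hlX : lpt m pL RatFunc.X = q := by
    funext j
    change (pL j).eval RatFunc.X / RatFunc.X ^ m = q j
    rw [eval_X_map, ← hqp, mul_div_cancel_right₀ _ (pow_ne_zero _ hX)]
  have hMq : ∀ F : MvPolynomial (Fin n) ℂ, aeval q F = 0 → ∀ T : L, T ≠ 0 →
      aeval (lpt m pL T) F = 0 := by
    intro F hF
    rw [← on_iffL]
    let ι : Polynomial M →ₐ[ℂ] L := IsScalarTower.toAlgHom ℂ (Polynomial M) L
    have hι : Function.Injective ι := RatFunc.algebraMap_injective M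
    have h1 : ι (aeval (lau m p) (homK F)) = aeval (fun j => ι (lau m p j)) (homK F) :=
      MvPolynomial.comp_aeval_apply (f := lau m p) ι (homK F)
    have h0 : ι (lau m p 0) = RatFunc.X ^ m := by
      change algebraMap (Polynomial M) L (Polynomial.X ^ m) = _
      rw [map_pow, RatFunc.algebraMap_X]
    have h2 := aeval_homK F (fun j => ι (lau m p j)) (by rw [h0]; exact pow_ne_zero _ hX)
    have h3 : (fun i : Fin n => ι (lau m p i.succ) / ι (lau m p 0)) = q := by
      funext i
      rw [h0, div_eq_iff (pow_ne_zero _ hX), hqp]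
      rfl
    rw [h3, hF, mul_zero, ← h1, map_eq_zero_iff ι hι] at h2
    let φ : Polynomial M →ₐ[ℂ] Polynomial L :=
      Polynomial.mapAlgHom (IsScalarTower.toAlgHom ℂ M L)
    have h4 : φ (aeval (lau m p) (homK F)) = aeval (fun j => φ (lau m p j)) (homK F) :=
      MvPolynomial.comp_aeval_apply (f := lau m p) φ (homK F)
    have h5 : (fun j => φ (lau m p j)) = lau m pL := by
      funext j
      refine Fin.cases ?_ (fun l => rfl) j
      change φ (Polynomial.X ^ m) = Polynomial.X ^ m
      rw [map_pow]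
      change (Polynomial.map _ Polynomial.X) ^ m = _
      rw [Polynomial.map_X]
    rw [h5, h2, map_zero] at h4
    exact h4.symm
  let p' : Fin n → Polynomial L := fun j => Polynomial.C ((RatFunc.X ^ m)⁻¹) *
    (pL j).comp (Polynomial.C RatFunc.X * Polynomial.X)
  have hp' : ∀ T : L, T ≠ 0 → lpt m p' T = lpt m pL (RatFunc.X * T) := by
    intro T hT
    funext j
    change (Polynomial.C ((RatFunc.X ^ m)⁻¹) *
      (pL j).comp (Polynomial.C RatFunc.X * Polynomial.X)).eval T / T ^ m =
        (pL j).eval (RatFunc.X * T) / (RatFunc.X * T) ^ m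
    rw [Polynomial.eval_mul, Polynomial.eval_C, Polynomial.eval_comp, Polynomial.eval_mul,
      Polynomial.eval_C, Polynomial.eval_X, mul_pow]
    rw [div_eq_mul_inv, div_eq_mul_inv, mul_inv]
    ring
  refine ⟨L, inferInstance, inferInstance, m, p', fun T hT F hF => ?_, fun G hG => ?_, ?_⟩
  · rw [hae, hp' T hT]
    exact hMq _ (hq1 F hF) _ (mul_ne_zero hX hT)
  · rw [hae, hp' 1 one_ne_zero, mul_one, hlX]
    exact hq2 G hG
  · by_contra hno
    push Not at hno
    obtain ⟨i, hi⟩ := hnc
    have h1 := hno 1 (RatFunc.X)⁻¹ one_ne_zero (inv_ne_zero hX)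
    rw [hp' 1 one_ne_zero, hp' _ (inv_ne_zero hX), mul_one, mul_inv_cancel₀ hX, hlX] at h1
    apply hi ((p i).eval 1)
    rw [congrFun h1 i]
    change (pL i).eval 1 / 1 ^ m = _
    rw [one_pow, div_one, Polynomial.eval_map]
    have h3 := Polynomial.eval₂_at_apply (p := p i) (algebraMap M L) 1
    rw [map_one] at h3
    exact h3

/-! ### The properties -/

variable {K : Type} [Field K]

/-- For every `d` there is a polynomial `G` which does not vanish on `V` such that all nonconstant
curves `p(t) / t ^ m`, `t ≠ 0`, on `V` over number fields `L ⊇ K`, with `m` and the degrees of the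
`p_j` at most `d`, lie in `G = 0`. -/
def LauDegNF (I : Ideal (MvPolynomial (Fin n) K)) : Prop :=
  ∀ d : ℕ, ∃ G : MvPolynomial (Fin n) K, G ∉ I ∧ ∀ (L : Type) [Field L] [NumberField L]
    [Algebra K L] (m : ℕ) (p : Fin n → Polynomial L), m ≤ d → (∀ j, (p j).natDegree ≤ d) →
    (∀ t : L, t ≠ 0 → ∀ F ∈ I, aeval (lpt m p t) F = 0) →
    (∃ s t : L, s ≠ 0 ∧ t ≠ 0 ∧ lpt m p s ≠ lpt m p t) →
      ∀ t : L, t ≠ 0 → aeval (lpt m p t) G = 0

/-- the points `x(h)` outside of `G = 0` -/
def offK (G : MvPolynomial (Fin n) K) {L : Type} [Field L] [Algebra K L] {H : Type}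
    (x : H → Fin n → L) : Set (Fin n → L) :=
  {v | ∃ h, x h = v ∧ aeval v G ≠ 0}

/-- For all `s`, `r`, `e` there are a polynomial `G` which does not vanish on `V` and a number `B`
such that all families of points of `V(L)` given by `s` iterated recurrences with matrices of size
`r` and polynomials of degree at most `e`, for all groups `H` and all fields `L ⊇ K` embeddable in
`ℂ`, contain at most `B` points outside of `G = 0`. -/
def RecDeg (I : Ideal (MvPolynomial (Fin n) K)) : Prop :=
  ∀ s r e : ℕ, ∃ G : MvPolynomial (Fin n) K, G ∉ I ∧ ∃ B : ℕ, ∀ (L : Type) [Field L] [Algebra K L]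
    (_ : L →+* ℂ) (H : Type) [Group H] (x : H → Fin n → L), IterVec s r e x →
    (∀ h, ∀ F ∈ I, aeval (x h) F = 0) → (offK G x).encard ≤ (B : ℕ∞)

/-- For every `d` there is a polynomial `G` which does not vanish on `V` such that all sequences of
points of `V(L)`, `L ⊇ K` a number field, indexed by the integers and given by one recurrence of size
`1` and polynomials of degree at most `d`, contain only finitely many points outside of `G = 0`. -/
def SeqDeg (I : Ideal (MvPolynomial (Fin n) K)) : Prop :=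
  ∀ d : ℕ, ∃ G : MvPolynomial (Fin n) K, G ∉ I ∧ ∀ (L : Type) [Field L] [NumberField L]
    [Algebra K L] (x : Multiplicative ℤ → Fin n → L), IterVec 1 1 d x →
    (∀ h, ∀ F ∈ I, aeval (x h) F = 0) → (offK G x).Finite

/-- For all `s`, `r`, `e` there is a polynomial `G` which does not vanish on `V` such that, for all
embeddings `σ` of `K` in `ℂ`, all nonconstant curves on `V_σ`, on all domains of the plane, given by
`s` iterated linear differential equations with matrices of size `r` and polynomials of degree at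
most `e`, lie in `G = 0`. -/
def OdeDegS (I : Ideal (MvPolynomial (Fin n) K)) : Prop :=
  ∀ s r e : ℕ, ∃ G : MvPolynomial (Fin n) K, G ∉ I ∧ ∀ (σ : K →+* ℂ) (Ω : Set ℂ), IsOpen Ω →
    IsPreconnected Ω → ∀ f : ℂ → Fin n → ℂ, DVec Ω s r e f →
      (∀ z ∈ Ω, ∀ F ∈ I, eval₂ σ (f z) F = 0) → (∃ z ∈ Ω, ∃ w ∈ Ω, f z ≠ f w) →
        ∀ z ∈ Ω, eval₂ σ (f z) G = 0

/-- Laurent curves which take only finitely many values off `G = 0` at the powers of `2` -/
theorem lau_of_fin {L : Type} [Field L] [CharZero L] [Algebra K L] {G : MvPolynomial (Fin n) K}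
    {m : ℕ} {p : Fin n → Polynomial L}
    (hfin : (offK G fun h : Multiplicative ℤ =>
      lpt m p ((2 : L) ^ (Multiplicative.toAdd h : ℤ))).Finite)
    (hnc : ∃ s t : L, s ≠ 0 ∧ t ≠ 0 ∧ lpt m p s ≠ lpt m p t) :
    ∀ t : L, t ≠ 0 → aeval (lpt m p t) G = 0 := by
  classical
  by_contra hG
  push Not at hG
  have hP : aeval (lau m p) (homK G) ≠ 0 := by
    intro h0
    obtain ⟨t, ht, hne⟩ := hG
    exact hne ((on_iffL m p G).1 h0 t ht)
  have hevP : ∀ t : L, t ≠ 0 → aeval (lpt m p t) G = 0 →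
      (aeval (lau m p) (homK G)).eval t = 0 := by
    intro t ht h0
    have h1 : aeval (lau m p) (homK (map (algebraMap K L) G)) = aeval (lau m p) (homK G) := by
      rw [← map_homK, MvPolynomial.aeval_map_algebraMap]
    rw [← h1, eval_lau m p _ ht, eval_map]
    rw [aeval_def] at h0
    rw [h0, mul_zero]
  let W : Set ℤ := {h | (aeval (lau m p) (homK G)).eval ((2 : L) ^ h) ≠ 0}
  have hW : W.Infinite := by
    have h1 : {h : ℤ | (aeval (lau m p) (homK G)).eval ((2 : L) ^ h) = 0}.Finite :=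
      Set.Finite.preimage (fun a _ b _ hab => two_zpow_inj hab)
        (Polynomial.finite_setOfPred_isRoot hP) (f := fun h : ℤ => (2 : L) ^ h)
    have h2 : W = {h : ℤ | (aeval (lau m p) (homK G)).eval ((2 : L) ^ h) = 0}ᶜ := rfl
    rw [h2]
    exact h1.infinite_compl
  have hmaps : ∀ h ∈ W, lpt m p ((2 : L) ^ h) ∈ (offK G fun h : Multiplicative ℤ =>
      lpt m p ((2 : L) ^ (Multiplicative.toAdd h : ℤ))) := by
    intro h hh
    exact ⟨Multiplicative.ofAdd h, rfl, fun h0 => hh (hevP _ (zpow_ne_zero h two_ne_zero) h0)⟩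
  obtain ⟨v, hv, hvi⟩ : ∃ v ∈ (offK G fun h : Multiplicative ℤ =>
      lpt m p ((2 : L) ^ (Multiplicative.toAdd h : ℤ))),
      {h ∈ W | lpt m p ((2 : L) ^ h) = v}.Infinite := by
    by_contra hcon
    push Not at hcon
    apply hW
    refine Set.Finite.subset (hfin.biUnion (t := fun v => {h ∈ W | lpt m p ((2 : L) ^ h) = v})
      fun v hv => hcon v hv) fun h hh => ?_
    rw [Set.mem_iUnion₂]
    exact ⟨_, hmaps h hh, hh, rfl⟩
  have hc : ∀ j : Fin n, p j = Polynomial.X ^ m * Polynomial.C (v j) := by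
    intro j
    refine Polynomial.eq_of_infinite_eval_eq _ _ (Set.Infinite.mono ?_
      (hvi.image (f := fun h : ℤ => (2 : L) ^ h) fun a _ b _ hab => two_zpow_inj hab))
    rintro _ ⟨h, ⟨hh, hhv⟩, rfl⟩
    change (p j).eval ((2 : L) ^ h) = (Polynomial.X ^ m * Polynomial.C (v j)).eval ((2 : L) ^ h)
    rw [Polynomial.eval_mul, Polynomial.eval_pow, Polynomial.eval_X, Polynomial.eval_C, ← hhv]
    change (p j).eval ((2 : L) ^ h) = ((2 : L) ^ h) ^ m *
      ((p j).eval ((2 : L) ^ h) / ((2 : L) ^ h) ^ m)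
    rw [mul_div_cancel₀ _ (pow_ne_zero _ (zpow_ne_zero _ two_ne_zero))]
  obtain ⟨s, t, hs, ht, hst⟩ := hnc
  apply hst
  have h1 : ∀ u : L, u ≠ 0 → lpt m p u = v := by
    intro u hu
    funext j
    change (p j).eval u / u ^ m = v j
    rw [hc j, Polynomial.eval_mul, Polynomial.eval_pow, Polynomial.eval_X, Polynomial.eval_C,
      mul_div_cancel_left₀ _ (pow_ne_zero _ hu)]
  rw [h1 s hs, h1 t ht]

theorem lauDegNF_of_seqDeg {I : Ideal (MvPolynomial (Fin n) K)} (h : SeqDeg I) :
    LauDegNF I := by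
  intro d
  obtain ⟨G, hG1, hG2⟩ := h d
  refine ⟨G, hG1, ?_⟩
  intro L _ _ _ m p hm hp1 hp2 hp3
  exact lau_of_fin (hG2 L _ (iterVec_lau p hp1 hm) fun h F hF =>
    hp2 _ (zpow_ne_zero _ two_ne_zero) F hF) hp3

theorem seqDeg_of_recDeg {I : Ideal (MvPolynomial (Fin n) K)} (h : RecDeg I) : SeqDeg I := by
  intro d
  obtain ⟨G, hG1, B, hB⟩ := h 1 1 d
  refine ⟨G, hG1, ?_⟩
  intro L _ _ _ x hx hF
  have τ : L →+* ℂ := (IsAlgClosed.lift : L →ₐ[ℚ] ℂ).toRingHom
  exact Set.finite_of_encard_le_coe (hB L τ (Multiplicative ℤ) x hx hF)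

theorem lauDegNF_of_odeDegS {I : Ideal (MvPolynomial (Fin n) K)} (h : OdeDegS I) :
    LauDegNF I := by
  intro d
  obtain ⟨G, hG1, hG2⟩ := h 1 1 d
  refine ⟨G, hG1, ?_⟩
  intro L _ _ _ m p hm hp1 hp2 hp3
  have τ : L →+* ℂ := (IsAlgClosed.lift : L →ₐ[ℚ] ℂ).toRingHom
  let pτ : Fin n → Polynomial ℂ := fun j => (p j).map τ
  -- polynomials which vanish on the curve
  have hmap : ∀ F : MvPolynomial (Fin n) K, (∀ t : L, t ≠ 0 → aeval (lpt m p t) F = 0) →
      ∀ t : ℂ, t ≠ 0 → eval₂ (τ.comp (algebraMap K L)) (lpt m pτ t) F = 0 := by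
    intro F hF
    have h1 : aeval (lau m p) (homK F) = 0 := (on_iffL m p F).2 hF
    let _ : Algebra L ℂ := τ.toAlgebra
    let _ : Algebra K ℂ := (τ.comp (algebraMap K L)).toAlgebra
    have : IsScalarTower K L ℂ := IsScalarTower.of_algebraMap_eq fun _ => rfl
    let φ : Polynomial L →ₐ[K] Polynomial ℂ :=
      Polynomial.mapAlgHom (IsScalarTower.toAlgHom K L ℂ)
    have h4 : φ (aeval (lau m p) (homK F)) = aeval (fun j => φ (lau m p j)) (homK F) :=
      MvPolynomial.comp_aeval_apply (f := lau m p) φ (homK F)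
    have h5 : (fun j => φ (lau m p j)) = lau m pτ := by
      funext j
      refine Fin.cases ?_ (fun l => rfl) j
      change φ (Polynomial.X ^ m) = Polynomial.X ^ m
      rw [map_pow]
      change (Polynomial.map _ Polynomial.X) ^ m = _
      rw [Polynomial.map_X]
    rw [h5, h1, map_zero] at h4
    exact fun t ht => (on_iffL m pτ F).1 h4.symm t ht
  have hlpt : ∀ t : L, lpt m pτ (τ t) = fun j => τ (lpt m p t j) := by
    intro t
    funext j
    change ((p j).map τ).eval (τ t) / (τ t) ^ m = τ ((p j).eval t / t ^ m)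
    rw [map_div₀, map_pow, Polynomial.eval_map, Polynomial.eval₂_at_apply]
  have h1 := hG2 (τ.comp (algebraMap K L)) univ isOpen_univ isPreconnected_univ
    (fun z => lpt m pτ (Complex.exp z)) (dvec_laur pτ (fun j =>
      (Polynomial.natDegree_map_le).trans (hp1 j)) hm) (fun z _ F hF =>
      hmap F (fun t ht => hp2 t ht F hF) _ (Complex.exp_ne_zero z)) ?_
  · intro t ht
    have hτt : τ t ≠ 0 := (map_ne_zero τ).2 ht
    have h2 := h1 (Complex.log (τ t)) (mem_univ _)
    rw [Complex.exp_log hτt, hlpt] at h2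
    have h3 := eval₂_comp_left τ (algebraMap K L) (lpt m p t) G
    have h4 : τ (aeval (lpt m p t) G) = 0 := by
      rw [aeval_def, h3]
      exact h2
    exact (map_eq_zero τ).1 h4
  · obtain ⟨s, t, hs, ht, hst⟩ := hp3
    have hτs : τ s ≠ 0 := (map_ne_zero τ).2 hs
    have hτt : τ t ≠ 0 := (map_ne_zero τ).2 ht
    refine ⟨Complex.log (τ s), mem_univ _, Complex.log (τ t), mem_univ _, ?_⟩
    rw [Complex.exp_log hτs, Complex.exp_log hτt, hlpt, hlpt]
    intro h2
    apply hst
    funext j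
    exact τ.injective (congrFun h2 j)

/-- enumerations -/
theorem exists_enum [Countable K] {I : Ideal (MvPolynomial (Fin n) K)} (hprime : I.IsPrime) :
    ∃ Q : ℕ → MvPolynomial (Fin n) K, (∀ i, Q i ∉ I) ∧
      ∀ G, G ∉ I → ∃ j, ∀ i, j ≤ i → G ∣ Q i := by
  classical
  let S : Type := {G : MvPolynomial (Fin n) K // G ∉ I}
  have hcs : Countable (MvPolynomial (Fin n) K) := by
    rw [← Cardinal.mk_le_aleph0_iff]
    refine cardinalMk_le_max.trans ?_
    exact max_le (max_le (Cardinal.mk_le_aleph0_iff.2 inferInstance)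
      (Cardinal.mk_le_aleph0_iff.2 inferInstance)) le_rfl
  have hne : Nonempty S := ⟨⟨1, fun h1 => hprime.ne_top ((Ideal.eq_top_iff_one _).2 h1)⟩⟩
  obtain ⟨en, hen⟩ := exists_surjective_nat S
  refine ⟨fun i => ∏ j ∈ Finset.range (i + 1), (en j).1, fun i h1 => ?_, fun G hG => ?_⟩
  · obtain ⟨j, -, hj⟩ := (hprime.prod_mem_iff).1 h1
    exact (en j).2 hj
  · obtain ⟨j, hj⟩ := hen ⟨G, hG⟩
    refine ⟨j, fun i hi => ?_⟩
    have h1 : G = (en j).1 := by rw [hj]
    rw [h1]
    exact Finset.dvd_prod_of_mem (fun j => (en j).1) (Finset.mem_range.2 (by omega))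

/-- different points off `G = 0` -/
theorem exists_seqNF {I : Ideal (MvPolynomial (Fin n) K)} {G : MvPolynomial (Fin n) K}
    {s r e : ℕ} {L : Type} [Field L] [Algebra K L] (τ : L →+* ℂ) {H : Type} [Group H]
    {x : H → Fin n → L} (hx : IterVec s r e x) (hF : ∀ h, ∀ F ∈ I, aeval (x h) F = 0) {B : ℕ}
    (hB : ¬ (offK G x).encard ≤ (B : ℕ∞)) :
    ∃ (σ : K →+* ℂ) (H : Type) (_ : Group H) (x : H → Fin n → ℂ), IterVec s r e x ∧
      (∀ h, ∀ F ∈ I, eval₂ σ (x h) F = 0) ∧ ∃ hs : ℕ → H, (∀ i, eval₂ σ (x (hs i)) G ≠ 0) ∧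
        ∀ i j, i ≤ B → j ≤ B → i ≠ j → x (hs i) ≠ x (hs j) := by
  classical
  have hev : ∀ (v : Fin n → L) (F : MvPolynomial (Fin n) K),
      eval₂ (τ.comp (algebraMap K L)) (fun j => τ (v j)) F = τ (aeval v F) := fun v F =>
    (eval₂_comp_left τ (algebraMap K L) v F).symm
  have h1 : ((B + 1 : ℕ) : ℕ∞) ≤ (offK G x).encard := by
    rw [Nat.cast_add, Nat.cast_one]
    exact Order.add_one_le_of_lt (not_le.1 hB)
  obtain ⟨t, hts, htc⟩ := Set.exists_subset_encard_eq h1
  have htf : t.Finite := Set.finite_of_encard_eq_coe htc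
  have hcard : htf.toFinset.card = B + 1 := by
    have h2 := htf.encard_eq_coe_toFinset_card
    rw [htc] at h2
    exact_mod_cast h2.symm
  let P : Fin (B + 1) ≃ htf.toFinset := (Finset.equivFinOfCardEq hcard).symm
  have hP : ∀ i : Fin (B + 1), ((P i : htf.toFinset) : Fin n → L) ∈ offK G x :=
    fun i => hts (htf.mem_toFinset.1 (P i).2)
  choose hs0 hPe hG0 using hP
  let c : ℕ → Fin (B + 1) := fun i => if hi : i < B + 1 then ⟨i, hi⟩ else 0
  refine ⟨τ.comp (algebraMap K L), H, inferInstance, fun h j => τ (x h j), hx.map τ, ?_,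
    fun i => hs0 (c i), fun i => ?_, ?_⟩
  · intro h F hFF
    rw [hev, hF h F hFF, map_zero]
  · rw [hev, hPe]
    exact (map_ne_zero τ).2 (hG0 (c i))
  · intro i j hi hj hij h2
    have hci : c i = ⟨i, by omega⟩ := dif_pos (by omega)
    have hcj : c j = ⟨j, by omega⟩ := dif_pos (by omega)
    have hcij : c i ≠ c j := by
      rw [hci, hcj]
      intro h2
      exact hij (Fin.mk.inj_iff.1 h2)
    apply hcij
    apply P.injective
    apply Subtype.ext
    rw [← hPe (c i), ← hPe (c j)]
    funext u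
    exact τ.injective (congrFun h2 u)

/-- **Uniform bounds outside of one closed subset.** -/
theorem recDeg_of_not [Countable K] {I : Ideal (MvPolynomial (Fin n) K)} (hprime : I.IsPrime)
    (hgm : ¬ GmUniruled I) : RecDeg I := by
  classical
  intro s r e
  by_contra hcon
  apply hgm
  obtain ⟨Q, hQ1, hQ2⟩ := exists_enum hprime
  have hC : ∀ B : ℕ,
      ∃ (σ : K →+* ℂ) (H : Type) (_ : Group H) (x : H → Fin n → ℂ), IterVec s r e x ∧
        (∀ h, ∀ F ∈ I, eval₂ σ (x h) F = 0) ∧ ∃ hs : ℕ → H,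
          (∀ i, eval₂ σ (x (hs i)) (Q B) ≠ 0) ∧
          ∀ i j, i ≤ B → j ≤ B → i ≠ j → x (hs i) ≠ x (hs j) := by
    intro B
    by_contra h1
    refine hcon ⟨Q B, hQ1 B, B, ?_⟩
    intro L _ _ τ H _ x hx hF
    by_contra h2
    exact h1 (exists_seqNF τ hx hF h2)
  choose σ Hs iH x hx hF hs hoff hnp using hC
  obtain ⟨θ, hsur, hk⟩ := exists_theta
  have hΘ : ∀ f : ℕ → ℂ, (∃ n, ∀ i, n ≤ i → f i = 0) → θ f = 0 := by
    rintro f ⟨N, hN⟩
    rw [hk]
    have h1 : ∀ᶠ i : ℕ in cofinite, N ≤ i := by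
      rw [Nat.cofinite_eq_atTop]
      exact eventually_ge_atTop N
    filter_upwards [h1.filter_mono hyperfilter_le_cofinite] with i hi
    exact hN i hi
  let σs : K →+* ℂ := θ.comp (RingHom.pi σ)
  let xs : (∀ i, Hs i) → Fin n → ℂ := fun h j => θ fun i => x i (h i) j
  have hxs : IterVec s r e xs := (IterVec.prod hx).map θ
  have key : ∀ (F : MvPolynomial (Fin n) K) (h : ∀ i, Hs i),
      eval (xs h) (map σs F) = θ fun i => eval₂ (σ i) (x i (h i)) F := by
    intro F h
    rw [eval_map]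
    have h1 := eval₂_comp_left θ (RingHom.pi σ) (fun j i => x i (h i) j) F
    have h2 : eval₂ (RingHom.pi σ) (fun j i => x i (h i) j) F =
        fun i => eval₂ (σ i) (x i (h i)) F := by
      funext i
      exact eval₂_comp_left (Pi.evalRingHom (fun _ : ℕ => ℂ) i) (RingHom.pi σ)
        (fun j i => x i (h i) j) F
    rw [h2] at h1
    exact h1.symm
  let a : ℕ → ∀ i, Hs i := fun m i => hs i m
  have hne : ∀ m m', m ≠ m' → xs (a m) ≠ xs (a m') := by
    intro m m' hmm heq
    obtain ⟨u, h1⟩ := theta_ne hΘ (fun (u : Fin n) i => x i (a m i) u - x i (a m' i) u)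
      (max m m') (fun i hi => by
        obtain ⟨u, hu⟩ := Function.ne_iff.1 (hnp i m m' ((le_max_left _ _).trans hi)
          ((le_max_right _ _).trans hi) hmm)
        exact ⟨u, sub_ne_zero.2 hu⟩)
    apply h1
    have h3 : (fun i => x i (a m i) u - x i (a m' i) u) =
        (fun i => x i (a m i) u) - (fun i => x i (a m' i) u) := rfl
    change (θ fun i => x i (a m i) u - x i (a m' i) u) = 0
    rw [h3, map_sub, sub_eq_zero]
    exact congrFun heq u
  obtain ⟨R, hR, hmem⟩ := hxs.tow
  obtain ⟨Nn, hn, hfi, hres⟩ := exists_res fhyp hR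
  have hq : Finite ((∀ i, Hs i) ⧸ Nn) := inferInstance
  obtain ⟨m, m', hmm, hmk⟩ := Finite.exists_ne_map_eq_of_infinite
    fun m : ℕ => (QuotientGroup.mk (a m) : (∀ i, Hs i) ⧸ Nn)
  have hco : a m' * (a m)⁻¹ ∈ Nn := hn.mem_comm (QuotientGroup.eq.1 hmk)
  obtain ⟨E, i1, i2, Γ, ρ, hρ⟩ := hres (a m)
  obtain ⟨M, j1, j2, q, m1, p, hq1, hq2, hq3⟩ := rat_pointB hmem hρ hco (hne m m' hmm)
  refine gmUniruled_of σs q m1 p (fun F hFF => ?_) (fun G hG => ?_) hq2 hq3
  · rw [hq1]
    intro g _
    rw [key, hk]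
    exact Eventually.of_forall fun i => hF i _ F hFF
  · intro h0
    rw [hq1] at h0
    have h2 := h0 1 Nn.one_mem
    rw [one_mul, key, hk] at h2
    obtain ⟨j, hj⟩ := hQ2 G hG
    have hge : ∀ᶠ i in (hyperfilter ℕ : Filter ℕ), j ≤ i := by
      have h1 : ∀ᶠ i : ℕ in cofinite, j ≤ i := by
        rw [Nat.cofinite_eq_atTop]
        exact eventually_ge_atTop j
      exact h1.filter_mono hyperfilter_le_cofinite
    obtain ⟨i, h3, h4⟩ := (h2.and hge).exists
    obtain ⟨G', hG'⟩ := hj i h4
    apply hoff i m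
    rw [hG', eval₂_mul]
    have h5 : eval₂ (σ i) (x i (hs i m)) G = 0 := h3
    rw [h5, zero_mul]

/-- **One closed subset for all curves of bounded complexity.** -/
theorem odeDegS_of_not [Countable K] {I : Ideal (MvPolynomial (Fin n) K)} (hprime : I.IsPrime)
    (hgm : ¬ GmUniruled I) : OdeDegS I := by
  classical
  intro s r e
  by_contra hcon
  apply hgm
  obtain ⟨Q, hQ1, hQ2⟩ := exists_enum hprime
  have hC : ∀ B : ℕ, ∃ (σ : K →+* ℂ) (E : Type) (_ : Field E) (_ : Algebra ℂ E)
      (D : Derivation ℂ E E) (x : Fin n → E), Cst D ∧ DVecF D s r e x ∧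
      (∀ F ∈ I, aeval x (map σ F) = 0) ∧ (∃ u, D (x u) ≠ 0) ∧
        aeval x (map σ (Q B)) ≠ 0 := by
    intro B
    by_contra h1
    refine hcon ⟨Q B, hQ1 B, ?_⟩
    intro σ Ω hΩ hΩc f hf hF hnc z hz
    have h2 : OdeInA ((map σ) '' (I : Set (MvPolynomial (Fin n) K))) (map σ (Q B)) s r e := by
      apply odeInA_of_diff
      intro E _ _ D hD x hx hFx hu
      by_contra h3
      exact h1 ⟨σ, E, _, _, D, x, hD, hx, fun F hF => hFx _ ⟨F, hF, rfl⟩, hu, h3⟩
    have h3 := h2 Ω hΩ hΩc f hf (by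
      rintro z hz _ ⟨F, hFI, rfl⟩
      rw [eval_map]
      exact hF z hz F hFI) hnc z hz
    rwa [eval_map] at h3
  choose σ E iE jE D1 x hCD hx hF huv hGne using hC
  obtain ⟨K', iK', jK', D', π, θ, hC', hD', hal, hker, hk, hs⟩ := exists_ultra2 D1 hCD
  let σs : K →+* ℂ := θ.comp (RingHom.pi σ)
  let x' : Fin n → K' := fun j => π fun i => x i j
  have hx' : DVecF D' s r e x' := DVecF.ultra hD' hal hx
  obtain ⟨u, hu'⟩ := der_ultra hD' hker huv
  obtain ⟨M, j1, j2, q, m, p, hq1, hq2, hq3⟩ := rat_pointA hC' hx' hu'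
  have key : ∀ F : MvPolynomial (Fin n) K,
      aeval x' (map σs F) = π fun i => aeval (x i) (map (σ i) F) := by
    intro F
    let τ : K →+* (∀ i, E i) := RingHom.pi fun i => (algebraMap ℂ (E i)).comp (σ i)
    have h1 := eval₂_comp_left π τ (fun j i => x i j) F
    have h2 : eval₂ τ (fun j i => x i j) F =
        fun i => aeval (x i) (map (σ i) F) := by
      funext i
      rw [aeval_def, eval₂_map]
      exact eval₂_comp_left (Pi.evalRingHom E i) τ (fun j i => x i j) F
    rw [h2] at h1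
    have h3 : π.comp τ = (algebraMap ℂ K').comp σs := by
      ext c
      exact hal fun i => σ i c
    rw [h3] at h1
    rw [aeval_def, eval₂_map]
    exact h1.symm
  refine gmUniruled_of σs q m p (fun F hFF => ?_) (fun G hG => ?_) hq2 hq3
  · rw [hq1, key, hker]
    exact Eventually.of_forall fun i => hF i F hFF
  · intro h0
    rw [hq1, key, hker] at h0
    obtain ⟨j, hj⟩ := hQ2 G hG
    have hge : ∀ᶠ i in (hyperfilter ℕ : Filter ℕ), j ≤ i := by
      have h1 : ∀ᶠ i : ℕ in cofinite, j ≤ i := by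
        rw [Nat.cofinite_eq_atTop]
        exact eventually_ge_atTop j
      exact h1.filter_mono hyperfilter_le_cofinite
    obtain ⟨i, h3, h4⟩ := (h0.and hge).exists
    obtain ⟨G', hG'⟩ := hj i h4
    apply hGne i
    rw [hG', map_mul, map_mul, h3, zero_mul]

/-- polynomials with coefficients in a number field -/
theorem exists_nf [NumberField K] {N : ℕ} (p : Fin N → Polynomial (AlgebraicClosure K)) :
    ∃ (L : Type) (_ : Field L) (_ : NumberField L) (_ : Algebra K L)
      (τ : L →ₐ[K] AlgebraicClosure K) (p' : Fin N → Polynomial L),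
        ∀ j, (p' j).map (τ : L →+* AlgebraicClosure K) = p j := by
  classical
  let T : Finset (AlgebraicClosure K) := Finset.univ.biUnion fun j => (p j).coeffs
  let L : IntermediateField K (AlgebraicClosure K) :=
    IntermediateField.adjoin K (T : Set (AlgebraicClosure K))
  have hfd : FiniteDimensional K L :=
    IntermediateField.finiteDimensional_adjoin fun x _ => Algebra.IsIntegral.isIntegral x
  have hfq : FiniteDimensional ℚ L := FiniteDimensional.trans ℚ K L
  have hnf : NumberField L := { to_charZero := inferInstance, to_finiteDimensional := hfq }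
  have h1 : ∀ j, p j ∈ Polynomial.lifts (algebraMap L (AlgebraicClosure K)) := by
    intro j
    rw [Polynomial.lifts_iff_coeff_lifts]
    intro a
    by_cases h0 : (p j).coeff a = 0
    · exact ⟨0, by rw [map_zero, h0]⟩
    · refine ⟨⟨(p j).coeff a, IntermediateField.subset_adjoin K _ ?_⟩, rfl⟩
      exact Finset.mem_coe.2 (Finset.mem_biUnion.2
        ⟨j, Finset.mem_univ j, Polynomial.coeff_mem_coeffs h0⟩)
  choose p' hp' using fun j => (Polynomial.mem_lifts _).1 (h1 j)
  exact ⟨L, inferInstance, hnf, inferInstance, L.val, p', hp'⟩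

/-- base change of Laurent curves -/
theorem lau_map {k L E : Type} [Field k] [Field L] [Field E] [Algebra k L] [Algebra k E]
    (τ : L →ₐ[k] E) (m : ℕ) (p : Fin n → Polynomial L) (F : MvPolynomial (Fin n) k) :
    aeval (lau m fun j => (p j).map (τ : L →+* E)) (homK F) = 0 ↔
      aeval (lau m p) (homK F) = 0 := by
  let φ : Polynomial L →ₐ[k] Polynomial E := Polynomial.mapAlgHom τ
  have h4 : φ (aeval (lau m p) (homK F)) = aeval (fun j => φ (lau m p j)) (homK F) :=
    MvPolynomial.comp_aeval_apply (f := lau m p) φ (homK F)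
  have h5 : (fun j => φ (lau m p j)) = lau m fun j => (p j).map (τ : L →+* E) := by
    funext j
    refine Fin.cases ?_ (fun l => rfl) j
    change φ (Polynomial.X ^ m) = Polynomial.X ^ m
    rw [map_pow]
    change (Polynomial.map _ Polynomial.X) ^ m = _
    rw [Polynomial.map_X]
  rw [← h5, ← h4]
  exact map_eq_zero_iff φ (Polynomial.map_injective _ τ.toRingHom.injective)

theorem nonc_map {L E : Type} [Field L] [Field E] (τ : L →+* E) (m : ℕ)
    (p : Fin n → Polynomial L) :
    (∃ j, Polynomial.X ^ m * Polynomial.C (((p j).map τ).eval 1) ≠ (p j).map τ) ↔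
      ∃ j, Polynomial.X ^ m * Polynomial.C ((p j).eval 1) ≠ p j := by
  refine exists_congr fun j => not_congr ?_
  have h1 : ((p j).map τ).eval 1 = τ ((p j).eval 1) := by
    have h2 := Polynomial.eval₂_at_apply (p := p j) τ 1
    rw [map_one] at h2
    rw [Polynomial.eval_map, h2]
  have h2 : Polynomial.X ^ m * Polynomial.C (((p j).map τ).eval 1) =
      (Polynomial.X ^ m * Polynomial.C ((p j).eval 1)).map τ := by
    rw [h1, Polynomial.map_mul, Polynomial.map_pow, Polynomial.map_X, Polynomial.map_C]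
  rw [h2]
  exact (Polynomial.map_injective τ τ.injective).eq_iff

theorem not_gm_of_lauDegNF [NumberField K] {I : Ideal (MvPolynomial (Fin n) K)}
    (h : LauDegNF I) : ¬ GmUniruled I := by
  classical
  rintro ⟨L, _, _, m, p, hp1, hp2, hp3⟩
  have : CharZero L := charZero_of_injective_algebraMap (algebraMap K L).injective
  obtain ⟨G, hG1, hG2⟩ := h (max m (Finset.univ.sup fun j => (p j).natDegree))
  let kk := AlgebraicClosure K
  let M := AlgebraicClosure L
  let ψ : kk →ₐ[K] M := IsAlgClosed.lift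
  let _ : Algebra kk M := ψ.toRingHom.toAlgebra
  have hst : IsScalarTower K kk M := IsScalarTower.of_algebraMap_eq fun a => (ψ.commutes a).symm
  let τ : L →ₐ[K] M := IsScalarTower.toAlgHom K L M
  let pM : Fin n → Polynomial M := fun j => (p j).map (τ : L →+* M)
  have hM : ∀ F : MvPolynomial (Fin n) K,
      aeval (lau m pM) (homK (map (algebraMap K kk) F)) = 0 ↔ aeval (lau m p) (homK F) = 0 := by
    intro F
    rw [← lau_map τ m p F, ← map_homK, MvPolynomial.aeval_map_algebraMap]
  obtain ⟨p', h1, h2, h3, h4⟩ := spec_lau (k := kk) m pM (G := map (algebraMap K kk) G)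
    (fun h0 => hp2 G hG1 ((on_iffL m p G).1 ((hM G).1 h0) 1 one_ne_zero))
    ((nonc_map (τ : L →+* M) m p).2 ((nonc_iff m p).2 hp3))
  obtain ⟨L', i1, i2, i3, τ', p'', hp''⟩ := exists_nf p'
  have hL' : ∀ F : MvPolynomial (Fin n) K,
      aeval (lau m p') (homK (map (algebraMap K kk) F)) = 0 ↔
        aeval (lau m p'') (homK F) = 0 := by
    intro F
    rw [← lau_map τ' m p'' F, ← map_homK, MvPolynomial.aeval_map_algebraMap]
    have h5 : (fun j => (p'' j).map (τ' : L' →+* kk)) = p' := funext hp''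
    rw [h5]
  have hfun : (fun j => (p'' j).map (τ' : L' →+* kk)) = p' := funext hp''
  apply h3
  rw [hL', on_iffL]
  refine hG2 L' m p'' (le_max_left _ _) (fun j => ?_) (fun t ht F hF => ?_) ?_
  · have h5 : (p'' j).natDegree = (p' j).natDegree := by
      rw [← hp'' j]
      exact (Polynomial.natDegree_map_eq_of_injective (τ' : L' →+* kk).injective _).symm
    rw [h5]
    refine (h1 j).trans ?_
    refine (Polynomial.natDegree_map_le).trans ?_
    exact (Finset.le_sup (f := fun j => (p j).natDegree) (Finset.mem_univ j)).trans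
      (le_max_right _ _)
  · refine (on_iffL m p'' F).1 ?_ t ht
    rw [← hL']
    exact h2 _ ((hM F).2 ((on_iffL m p F).2 fun t ht => hp1 t ht F hF))
  · refine (nonc_iff m p'').1 ((nonc_map (τ' : L' →+* kk) m p'').1 ?_)
    obtain ⟨j, hj⟩ := h4
    refine ⟨j, ?_⟩
    rw [hp'' j]
    exact hj

/-- **The strong Bombieri-Lang-Vojta equivalence for bounded complexity.** -/
theorem nf_tfae [NumberField K] {I : Ideal (MvPolynomial (Fin n) K)} (hprime : I.IsPrime) :
    List.TFAE [¬ GmUniruled I, LauDegNF I, OdeDegS I, RecDeg I, SeqDeg I] := by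
  have : Countable K := (Module.finBasis ℚ K).equivFun.injective.countable
  tfae_have 1 → 3 := odeDegS_of_not hprime
  tfae_have 1 → 4 := recDeg_of_not hprime
  tfae_have 3 → 2 := lauDegNF_of_odeDegS
  tfae_have 4 → 5 := seqDeg_of_recDeg
  tfae_have 5 → 2 := lauDegNF_of_seqDeg
  tfae_have 2 → 1 := not_gm_of_lauDegNF
  tfae_finish

end Pool.Agent.Q1.SL
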