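import Pool.Agent.Q1.SL.Uni
import Pool.Agent.Y377.AO.Proj

/-!
Uniform bounds for families of points given by iterated recurrences outside a closed subset `Z`
which contains all rational curves.
-/

set_option autoImplicit false

namespace Pool.Agent.Q1.SL

open MvPolynomial Pool.Agent.Y377.EL Pool.Agent.Y377.IL Pool.Agent.Y377.IR Pool.Agent.H533R3.SL
  Pool.Agent.TH717.GO Pool.Agent.Y377.ST
open scoped LinearAlgebra.Projectivization

/-- **Uniform bounds off `G = 0`.** -/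
theorem uniformG {k : Type} [Field k] {n : ℕ} (FF : Set (MvPolynomial (Fin (n + 1)) k))
    (hhom : ∀ F ∈ FF, ∃ e, F.IsHomogeneous e) (G : MvPolynomial (Fin (n + 1)) k)
    (hGh : ∃ d, G.IsHomogeneous d) (hno : ∀ R, CurCond FF G R) (s r e : ℕ) :
    ∃ B : ℕ, ∀ (L : Type) [Field L] [Algebra k L] (_ : L →+* ℂ) (H : Type) [Group H]
        (x : H → Fin (n + 1) → L), IterVec s r e x → (∀ h, ∀ F ∈ FF, aeval (x h) F = 0) →
        (ptsOff G x).encard ≤ (B : ℕ∞) := by
  classical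
  by_contra hcon
  have hC : ∀ B : ℕ,
      ∃ (σ : k →+* ℂ) (H : Type) (_ : Group H) (x : H → Fin (n + 1) → ℂ), IterVec s r e x ∧
        (∀ h, ∀ F ∈ FF, eval₂ σ (x h) F = 0) ∧ ∃ hs : ℕ → H, (∀ i, x (hs i) ≠ 0) ∧
          (∀ i, eval₂ σ (x (hs i)) G ≠ 0) ∧
          ∀ i j, i ≤ B → j ≤ B → i ≠ j →
            ∃ u v, x (hs i) u * x (hs j) v ≠ x (hs i) v * x (hs j) u := by
    intro B
    by_contra h1
    refine hcon ⟨B, ?_⟩
    intro L _ _ τ H _ x hx hF
    by_contra h2
    exact h1 (exists_seqG τ hx hF h2)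
  choose σ Hs iH x hx hF hs h0 hoff hnp using hC
  obtain ⟨Θ, hΘ⟩ := Pool.Agent.Y455.ST.t_THETA
  let σs : k →+* ℂ := Θ.comp (RingHom.pi σ)
  let xs : (∀ i, Hs i) → Fin (n + 1) → ℂ := fun h j => Θ fun i => x i (h i) j
  have hxs : IterVec s r e xs := (IterVec.prod hx).map Θ
  have key : ∀ (F : MvPolynomial (Fin (n + 1)) k) (h : ∀ i, Hs i),
      eval₂ σs (xs h) F = Θ fun i => eval₂ (σ i) (x i (h i)) F := by
    intro F h
    have h1 := eval₂_comp_left Θ (RingHom.pi σ) (fun j i => x i (h i) j) F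
    have h2 : eval₂ (RingHom.pi σ) (fun j i => x i (h i) j) F =
        fun i => eval₂ (σ i) (x i (h i)) F := by
      funext i
      have h3 := eval₂_comp_left (Pi.evalRingHom (fun _ : ℕ => ℂ) i) (RingHom.pi σ)
        (fun j i => x i (h i) j) F
      exact h3
    rw [h2] at h1
    exact h1.symm
  let a : ℕ → ∀ i, Hs i := fun m i => hs i m
  have hzero : ∀ F ∈ FF, ∀ h, eval₂ σs (xs h) F = 0 := by
    intro F hFF h
    rw [key]
    have h1 : (fun i => eval₂ (σ i) (x i (h i)) F) = 0 := funext fun i => hF i (h i) F hFF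
    rw [h1, map_zero]
  have hGne : ∀ m, eval₂ σs (xs (a m)) G ≠ 0 := by
    intro m
    rw [key]
    obtain ⟨-, h1⟩ := theta_ne hΘ (fun _ : Unit => fun i => eval₂ (σ i) (x i (a m i)) G) 0
      (fun i _ => ⟨(), hoff i m⟩)
    exact h1
  have hxne : ∀ m, ∃ l, xs (a m) l ≠ 0 := fun m =>
    theta_ne hΘ (fun l i => x i (a m i) l) 0 fun i _ => Function.ne_iff.1 (h0 i m)
  have hcross : ∀ m m', m ≠ m' → ∃ u v, xs (a m) u * xs (a m') v ≠ xs (a m) v * xs (a m') u := by
    intro m m' hmm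
    obtain ⟨⟨u, v⟩, h1⟩ := theta_ne hΘ (fun (p : Fin (n + 1) × Fin (n + 1)) i =>
      x i (a m i) p.1 * x i (a m' i) p.2 - x i (a m i) p.2 * x i (a m' i) p.1) (max m m')
      (fun i hi => by
        obtain ⟨u, v, h1⟩ := hnp i m m' ((le_max_left _ _).trans hi)
          ((le_max_right _ _).trans hi) hmm
        exact ⟨(u, v), sub_ne_zero.2 h1⟩)
    refine ⟨u, v, fun h2 => h1 ?_⟩
    have h3 : (fun i => x i (a m i) u * x i (a m' i) v - x i (a m i) v * x i (a m' i) u) =
        (fun i => x i (a m i) u) * (fun i => x i (a m' i) v) -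
          (fun i => x i (a m i) v) * (fun i => x i (a m' i) u) := rfl
    change Θ (fun i => x i (a m i) u * x i (a m' i) v - x i (a m i) v * x i (a m' i) u) = 0
    rw [h3, map_sub, map_mul, map_mul]
    exact sub_eq_zero.2 h2
  obtain ⟨R, hR, hmem⟩ := hxs.tow
  obtain ⟨Nn, hn, hfi, hres⟩ := exists_res fhyp hR
  have hq : Finite ((∀ i, Hs i) ⧸ Nn) := inferInstance
  obtain ⟨m, m', hmm, hmk⟩ := Finite.exists_ne_map_eq_of_infinite
    fun m : ℕ => (QuotientGroup.mk (a m) : (∀ i, Hs i) ⧸ Nn)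
  have hco : a m' * (a m)⁻¹ ∈ Nn := hn.mem_comm (QuotientGroup.eq.1 hmk)
  obtain ⟨l, hl⟩ := hxne m
  obtain ⟨u, v, huv⟩ := hcross m m' hmm
  obtain ⟨K, i1, i2, Γ, ρ, hρ⟩ := hres (a m)
  obtain ⟨M, j1, j2, q, hq1, hq2, i, hq3⟩ := rat_point hmem hρ hl hco huv
  let _ : Algebra k M := ((algebraMap ℂ M).comp σs).toAlgebra
  have hcz : CharZero M := charZero_of_injective_algebraMap (algebraMap ℂ M).injective
  have hal : algebraMap k (RatFunc M) = (algebraMap ℂ (RatFunc M)).comp σs := by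
    ext c
    rw [IsScalarTower.algebraMap_apply k M (RatFunc M), RingHom.comp_apply,
      IsScalarTower.algebraMap_apply ℂ M (RatFunc M)]
    rfl
  have hae : ∀ F : MvPolynomial (Fin (n + 1)) k, aeval q F = aeval q (map σs F) := by
    intro F
    rw [aeval_def, aeval_def, eval₂_map, hal]
  have hFq : ∀ F ∈ FF, aeval q F = 0 := by
    intro F hFF
    obtain ⟨d, hd⟩ := hhom F hFF
    rw [hae, hq1 _ d (hd.map σs)]
    intro g _
    rw [eval_map]
    exact hzero F hFF _
  have hGq : aeval q G ≠ 0 := by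
    obtain ⟨d, hd⟩ := hGh
    intro h1
    rw [hae, hq1 _ d (hd.map σs)] at h1
    have h2 := h1 1 Nn.one_mem
    rw [one_mul, eval_map] at h2
    exact hGne m h2
  have hspan : ∀ F ∈ Ideal.span {F : MvPolynomial (Fin (n + 1)) k |
      (∃ d, F.IsHomogeneous d) ∧ aeval q F = 0}, aeval q F = 0 := by
    intro F hF'
    have h1 : Ideal.span {F : MvPolynomial (Fin (n + 1)) k |
        (∃ d, F.IsHomogeneous d) ∧ aeval q F = 0} ≤
        RingHom.ker (aeval q : MvPolynomial (Fin (n + 1)) k →ₐ[k] RatFunc M) := by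
      rw [Ideal.span_le]
      intro F' hF'
      exact hF'.2
    exact h1 hF'
  obtain ⟨L', iL, iA, p, hp1, hp2, i', l', hp3⟩ := Pool.Agent.Y837.ST.t_UNI k n
    {F | (∃ d, F.IsHomogeneous d) ∧ aeval q F = 0} (fun F hF' => hF'.1) M q
    (fun F hF' _ _ => hF'.2)
    (fun G hG1 hG2 h1 => hG2 (Ideal.subset_span ⟨hG1, h1⟩)) ⟨i, l, hq2, hq3⟩
  apply hp3
  refine hno (Finset.univ.biUnion fun i => (p i).support).card L' p
    (Finset.univ.biUnion fun i => (p i).support) le_rfl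
    (fun i => Finset.subset_biUnion_of_mem (fun i => (p i).support) (Finset.mem_univ i)) ?_
    (hp2 G hGh fun h1 => hGq (hspan G h1)) i' l'
  intro F hFF
  exact hp1 F (Ideal.subset_span ⟨hhom F hFF, hFq F hFF⟩)

open Pool.Agent.Y719.SU Pool.Agent.Y377.AO

variable {K : Type} [Field K] {N : ℕ}

/-- The points of `X(L)` with homogeneous coordinates `x(h)`, `x(h) ≠ 0`, outside of `Z`. -/
def outPts (I' : Ideal (MvPolynomial (Fin (N + 1)) K)) {L H : Type} [Field L] [Algebra K L]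
    (x : H → Fin (N + 1) → L) : Set (ℙ L (Fin (N + 1) → L)) :=
  {P | ∃ (h : H) (h0 : x h ≠ 0), ¬ OnI (algebraMap K L) I' (x h) ∧
    P = Projectivization.mk L (x h) h0}

/-- For all `s`, `r`, `e` there is one bound for the numbers of the points outside of `Z` in the
families of points of `X(L)` given by iterated recurrences with `s` steps, matrices of size `r` and
polynomials of degree at most `e` in each variable, for all groups and all fields `L ⊇ K`
embeddable in `ℂ`. -/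
def UniformOut (I I' : Ideal (MvPolynomial (Fin (N + 1)) K)) : Prop :=
  ∀ s r e : ℕ, ∃ B : ℕ, ∀ (L : Type) [Field L] [Algebra K L] (_ : L →+* ℂ) (H : Type) [Group H]
    (x : H → Fin (N + 1) → L), IterVec s r e x → (∀ h, OnI (algebraMap K L) I (x h)) →
      (outPts I' x).encard ≤ (B : ℕ∞)

/-- finitely many forms suffice -/
theorem exists_forms (I : Ideal (MvPolynomial (Fin (N + 1)) K)) :
    ∃ S : Finset (MvPolynomial (Fin (N + 1)) K), (∀ G ∈ S, G ∈ I ∧ ∃ d, G.IsHomogeneous d) ∧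
      ∀ (A : Type) [CommRing A] (φ : K →+* A) (x : Fin (N + 1) → A),
        (∀ G ∈ S, eval₂ φ x G = 0) → OnI φ I x := by
  classical
  have hfg : (Ideal.span {G : MvPolynomial (Fin (N + 1)) K | G ∈ I ∧ ∃ d, G.IsHomogeneous d}).FG :=
    IsNoetherian.noetherian _
  obtain ⟨S, hS1, hS2⟩ := (Submodule.fg_span_iff_fg_span_finset_subset _).1 hfg
  refine ⟨S, fun G hG => hS1 hG, ?_⟩
  intro A _ φ x hx G hG hGh
  have h1 : G ∈ Ideal.span (S : Set (MvPolynomial (Fin (N + 1)) K)) := by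
    have h2 : G ∈ Ideal.span {G : MvPolynomial (Fin (N + 1)) K | G ∈ I ∧ ∃ d, G.IsHomogeneous d} :=
      Ideal.subset_span ⟨hG, hGh⟩
    have h3 : Ideal.span {G : MvPolynomial (Fin (N + 1)) K | G ∈ I ∧ ∃ d, G.IsHomogeneous d} =
        Ideal.span (S : Set (MvPolynomial (Fin (N + 1)) K)) := hS2
    rwa [h3] at h2
  have h2 : Ideal.span (S : Set (MvPolynomial (Fin (N + 1)) K)) ≤
      RingHom.ker (eval₂Hom φ x) := by
    rw [Ideal.span_le]
    intro F hF
    exact hx F hF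
  exact h2 h1

theorem uniformOut_of [NumberField K] {I I' : Ideal (MvPolynomial (Fin (N + 1)) K)}
    (h : NoRatNF I I') : UniformOut I I' := by
  classical
  intro s r e
  obtain ⟨S, hS1, hS2⟩ := exists_forms I'
  have hB : ∀ G : S, ∃ B : ℕ, ∀ (L : Type) [Field L] [Algebra K L] (_ : L →+* ℂ) (H : Type)
      [Group H] (x : H → Fin (N + 1) → L), IterVec s r e x →
      (∀ h, ∀ F ∈ Forms I, aeval (x h) F = 0) → (ptsOff G.1 x).encard ≤ (B : ℕ∞) := fun G =>
    uniformG (Forms I) (fun F hF => hF.2) G.1 (hS1 G.1 G.2).2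
      (curCond_of_noRatNF h (hS1 G.1 G.2).1 (hS1 G.1 G.2).2) s r e
  choose B hB using hB
  refine ⟨∑ G : S, B G, ?_⟩
  intro L _ _ τ H _ x hx hX
  have hsub : outPts I' x ⊆ ⋃ G : S, ptsOff G.1 x := by
    rintro P ⟨g, h0, hg, rfl⟩
    have h1 : ∃ G ∈ S, eval₂ (algebraMap K L) (x g) G ≠ 0 := by
      by_contra hcon
      push Not at hcon
      exact hg (hS2 L (algebraMap K L) (x g) hcon)
    obtain ⟨G, hG, hGne⟩ := h1
    exact Set.mem_iUnion.2 ⟨⟨G, hG⟩, g, h0, hGne, rfl⟩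
  have hsum : ∀ T : Finset S, (⋃ G ∈ T, ptsOff G.1 x).encard ≤ ((∑ G ∈ T, B G : ℕ) : ℕ∞) := by
    intro T
    induction T using Finset.induction_on with
    | empty => simp
    | insert G T hG ih =>
      rw [Finset.set_biUnion_insert, Finset.sum_insert hG, Nat.cast_add]
      refine (Set.encard_union_le _ _).trans (add_le_add ?_ ih)
      exact hB G L τ H x hx (fun g F hF => hX g F hF.1 hF.2)
  have h2 := hsum Finset.univ
  refine (Set.encard_le_encard hsub).trans ?_
  simpa using h2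

/-- **Rational curves and uniform bounds.** -/
theorem noRatNF_iff_uniformOut [NumberField K] {I I' : Ideal (MvPolynomial (Fin (N + 1)) K)} :
    NoRatNF I I' ↔ UniformOut I I' := by
  classical
  refine ⟨uniformOut_of, fun h => ?_⟩
  intro L _ _ _ p hp
  obtain ⟨r, ρ, M, v, h2, h3⟩ := inf_off hp
  obtain ⟨B, hB⟩ := h 1 r 1
  have τ : L →+* ℂ := (IsAlgClosed.lift : L →ₐ[ℚ] ℂ).toRingHom
  have h4 := hB L τ (Multiplicative ℤ) (orb M ρ v) (iterVec_orb M ρ v) h2
  refine h3 (Set.Finite.subset (Set.finite_of_encard_le_coe h4) ?_)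
  rintro P ⟨⟨g, h0, rfl⟩, hP⟩
  refine ⟨g, h0, fun hon => hP ?_, rfl⟩
  obtain ⟨c, hc⟩ := Projectivization.exists_smul_eq_mk_rep L (orb M ρ v g) h0
  change OnI (algebraMap K L) I' (Projectivization.mk L (orb M ρ v g) h0).rep
  rw [← hc]
  exact onI_smul hon (c : L)

end Pool.Agent.Q1.SL
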