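import Pool.Agent.Y377.IL.Asm

/-!
Ultraproducts of differential fields with the constants `ℂ`.
-/

set_option autoImplicit false

namespace Pool.Agent.Q1.SL

open Filter Cardinal Pool.Agent.Y377.IL

section ultra

variable (K : ℕ → Type) [∀ i, Field (K i)]

/-- the ideal of the sequences which are zero almost everywhere for the ultrafilter -/
def uI : Ideal (∀ i, K i) where
  carrier := {x | ∀ᶠ i in (hyperfilter ℕ : Filter ℕ), x i = 0}
  add_mem' := fun {x y} hx hy => by
    have hx' : ∀ᶠ i in (hyperfilter ℕ : Filter ℕ), x i = 0 := hx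
    have hy' : ∀ᶠ i in (hyperfilter ℕ : Filter ℕ), y i = 0 := hy
    change ∀ᶠ i in (hyperfilter ℕ : Filter ℕ), (x + y) i = 0
    filter_upwards [hx', hy'] with i h1 h2
    rw [Pi.add_apply, h1, h2, add_zero]
  zero_mem' := Eventually.of_forall fun i => rfl
  smul_mem' := fun c x hx => by
    have hx' : ∀ᶠ i in (hyperfilter ℕ : Filter ℕ), x i = 0 := hx
    change ∀ᶠ i in (hyperfilter ℕ : Filter ℕ), (c • x) i = 0
    filter_upwards [hx'] with i h1
    rw [smul_eq_mul, Pi.mul_apply, h1, mul_zero]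

variable {K}

theorem mem_uI {x : ∀ i, K i} :
    x ∈ uI K ↔ ∀ᶠ i in (hyperfilter ℕ : Filter ℕ), x i = 0 := Iff.rfl

theorem uI_max : (uI K).IsMaximal := by
  classical
  rw [Ideal.isMaximal_iff]
  refine ⟨fun h => ?_, fun J x hJ hx hxJ => ?_⟩
  · obtain ⟨i, hi⟩ := (mem_uI.1 h).exists
    exact one_ne_zero hi
  · have h1 : ∀ᶠ i in (hyperfilter ℕ : Filter ℕ), x i ≠ 0 := Ultrafilter.eventually_not.2 hx
    have h2 : 1 - (fun i => (x i)⁻¹) * x ∈ uI K := by
      rw [mem_uI]
      filter_upwards [h1] with i hi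
      change 1 - (x i)⁻¹ * x i = 0
      rw [inv_mul_cancel₀ hi, sub_self]
    have h3 : (fun i => (x i)⁻¹) * x ∈ J := J.mul_mem_left _ hxJ
    have h4 := J.add_mem (hJ h2) h3
    rwa [sub_add_cancel] at h4

variable (K)

/-- the ultraproduct of the fields -/
def UP : Type := (∀ i, K i) ⧸ uI K

noncomputable instance : Field (UP K) :=
  haveI := uI_max (K := K)
  Ideal.Quotient.field (uI K)

/-- the class of a sequence -/
noncomputable def uMk : (∀ i, K i) →+* UP K := Ideal.Quotient.mk (uI K)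

variable {K}

theorem uMk_surj : Function.Surjective (uMk K) := Ideal.Quotient.mk_surjective

theorem uMk_eq_zero {x : ∀ i, K i} :
    uMk K x = 0 ↔ ∀ᶠ i in (hyperfilter ℕ : Filter ℕ), x i = 0 :=
  (Ideal.Quotient.eq_zero_iff_mem (I := uI K)).trans mem_uI

theorem uMk_eq {x y : ∀ i, K i} :
    uMk K x = uMk K y ↔ ∀ᶠ i in (hyperfilter ℕ : Filter ℕ), x i = y i := by
  rw [← sub_eq_zero, ← map_sub, uMk_eq_zero]
  simp only [Pi.sub_apply, sub_eq_zero]

end ultra

/-! ### The constants -/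

/-- the ultrapower of `ℂ` -/
abbrev UC : Type := UP fun _ => ℂ

theorem uc_card_seq : #(ℕ → ℂ) = 𝔠 := by
  rw [← Cardinal.power_def, Cardinal.mk_complex, Cardinal.mk_nat, Cardinal.continuum_power_aleph0]

/-- the constant sequences -/
noncomputable def ucC : ℂ →+* UC := (uMk fun _ => ℂ).comp (Pi.constRingHom ℕ ℂ)

theorem uc_card : #UC = 𝔠 := by
  refine le_antisymm ?_ ?_
  · rw [← uc_card_seq]
    exact Cardinal.mk_le_of_surjective (uMk_surj (K := fun _ => ℂ))
  · rw [← Cardinal.mk_complex]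
    exact Cardinal.mk_le_of_injective ucC.injective

theorem uc_char : CharZero UC := charZero_of_injective_ringHom ucC.injective

theorem uc_closed : IsAlgClosed UC := by
  apply IsAlgClosed.of_exists_root
  intro p hp hirr
  obtain ⟨q, hq1, hq2, hq3⟩ := Polynomial.lifts_and_natDegree_eq_and_monic
    (f := uMk fun _ => ℂ) (p := p) (by
      rw [Polynomial.lifts_iff_coeff_lifts]
      intro n
      exact uMk_surj _) hp
  have h1 : ∀ i : ℕ, ∃ z : ℂ, (q.map (Pi.evalRingHom (fun _ : ℕ => ℂ) i)).eval z = 0 := by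
    intro i
    refine IsAlgClosed.exists_root _ ?_
    have h2 := hq3.natDegree_map (Pi.evalRingHom (fun _ : ℕ => ℂ) i)
    intro h3
    rw [Polynomial.degree_eq_natDegree (hq3.map _).ne_zero, h2, hq2] at h3
    have h4 := hirr.natDegree_pos
    have h5 : p.natDegree = 0 := by exact_mod_cast h3
    omega
  choose z hz using h1
  refine ⟨uMk _ z, ?_⟩
  have h2 : q.eval z = 0 := by
    funext i
    have h3 := hz i
    rw [Polynomial.eval_map] at h3
    have h4 := Polynomial.eval₂_at_apply (p := q) (Pi.evalRingHom (fun _ : ℕ => ℂ) i) z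
    exact h4.symm.trans h3
  rw [← hq1, Polynomial.eval_map, Polynomial.eval₂_at_apply, h2, map_zero]

theorem exists_psi : Nonempty (UC ≃+* ℂ) := by
  have h1 := uc_closed
  have h2 := uc_char
  exact IsAlgClosed.ringEquiv_of_equiv_of_charZero
    (by rw [uc_card]; exact Cardinal.aleph0_lt_continuum)
    (Cardinal.eq.1 (by rw [uc_card, Cardinal.mk_complex]))

/-! ### The differential field -/

/-- derivations of quotients -/
theorem der_of {K' A : Type} [Field K'] [Algebra ℂ K'] [CommRing A] (π : A →+* K')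
    (hs : Function.Surjective π) (d : K' → K') (δ : A → A) (hd : ∀ x, d (π x) = π (δ x))
    (hadd : ∀ x y, δ (x + y) = δ x + δ y) (hmul : ∀ x y, δ (x * y) = x * δ y + y * δ x)
    (hc : ∀ a : ℂ, ∃ c : A, π c = algebraMap ℂ K' a ∧ δ c = 0) :
    ∃ D' : Derivation ℂ K' K', ∀ x, D' x = d x := by
  let L : K' →ₗ[ℂ] K' :=
    { toFun := d
      map_add' := fun y z => by
        obtain ⟨y, rfl⟩ := hs y
        obtain ⟨z, rfl⟩ := hs z
        rw [← map_add, hd, hd, hd, ← map_add, hadd]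
      map_smul' := fun a y => by
        obtain ⟨y, rfl⟩ := hs y
        obtain ⟨c, h1, h2⟩ := hc a
        rw [RingHom.id_apply, Algebra.smul_def, Algebra.smul_def, ← h1, ← map_mul, hd, hd, hmul,
          h2, mul_zero, add_zero, map_mul] }
  have hL : ∀ y, L y = d y := fun y => rfl
  refine ⟨Derivation.mk' L ?_, fun x => rfl⟩
  intro y z
  obtain ⟨y, rfl⟩ := hs y
  obtain ⟨z, rfl⟩ := hs z
  rw [hL, hL, hL, smul_eq_mul, smul_eq_mul, ← map_mul, hd, hd, hd, hmul, map_add, map_mul,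
    map_mul]

section diff

variable (K : ℕ → Type) [∀ i, Field (K i)] [∀ i, Algebra ℂ (K i)]

/-- the constants of the ultraproduct -/
noncomputable def cPi : (ℕ → ℂ) →+* (∀ i, K i) :=
  RingHom.pi fun i => (algebraMap ℂ (K i)).comp (Pi.evalRingHom (fun _ : ℕ => ℂ) i)

/-- the map of the ultraproducts -/
noncomputable def uMap : UC →+* UP K :=
  Ideal.Quotient.lift (uI fun _ => ℂ) ((uMk K).comp (cPi K)) (by
    intro c hc
    have h1 : ∀ᶠ i in (hyperfilter ℕ : Filter ℕ), c i = 0 := hc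
    rw [RingHom.comp_apply, uMk_eq_zero]
    filter_upwards [h1] with i hi
    change algebraMap ℂ (K i) (c i) = 0
    rw [hi, map_zero])

theorem uMap_mk (c : ℕ → ℂ) : uMap K (uMk _ c) = uMk K fun i => algebraMap ℂ (K i) (c i) := rfl

variable {K}

/-- **Ultraproducts of differential fields.** -/
theorem exists_ultra (D : ∀ i, Derivation ℂ (K i) (K i)) (hC : ∀ i, Cst (D i)) :
    ∃ (K' : Type) (_ : Field K') (_ : Algebra ℂ K') (D' : Derivation ℂ K' K')
      (π : (∀ i, K i) →+* K') (θ : (ℕ → ℂ) →+* ℂ), Cst D' ∧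
      (∀ x, D' (π x) = π fun i => D i (x i)) ∧
      (∀ c : ℕ → ℂ, π (fun i => algebraMap ℂ (K i) (c i)) = algebraMap ℂ K' (θ c)) ∧
      (∀ x, π x = 0 ↔ ∀ᶠ i in (hyperfilter ℕ : Filter ℕ), x i = 0) ∧
      ∀ c : ℕ → ℂ, θ c = 0 ↔ ∀ᶠ i in (hyperfilter ℕ : Filter ℕ), c i = 0 := by
  classical
  obtain ⟨ψ⟩ := exists_psi
  have hD : ∀ y : UP K, ∃ y' : UP K, ∀ x, uMk K x = y → uMk K (fun i => D i (x i)) = y' := by
    intro y
    obtain ⟨x, rfl⟩ := uMk_surj y
    refine ⟨uMk K fun i => D i (x i), fun x' hx' => ?_⟩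
    rw [uMk_eq] at hx' ⊢
    filter_upwards [hx'] with i hi
    rw [hi]
  choose d hd using hD
  have hd' : ∀ x, d (uMk K x) = uMk K fun i => D i (x i) := fun x => (hd _ x rfl).symm
  let iA : Algebra ℂ (UP K) := ((uMap K).comp (ψ.symm : ℂ →+* UC)).toAlgebra
  have hal : ∀ c : ℕ → ℂ, uMk K (fun i => algebraMap ℂ (K i) (c i)) =
      algebraMap ℂ (UP K) (ψ (uMk _ c)) := by
    intro c
    change _ = uMap K (ψ.symm (ψ (uMk _ c)))
    rw [ψ.symm_apply_apply, uMap_mk]
  have hsurj : ∀ a : ℂ, ∃ c : ℕ → ℂ, ψ (uMk _ c) = a := by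
    intro a
    obtain ⟨c, hc⟩ := uMk_surj (ψ.symm a)
    exact ⟨c, by rw [hc, ψ.apply_symm_apply]⟩
  obtain ⟨D', hD''⟩ := der_of (uMk K) uMk_surj d (fun x i => D i (x i)) hd'
    (fun x y => by
      funext i
      exact map_add (D i) _ _)
    (fun x y => by
      funext i
      change D i (x i * y i) = x i * D i (y i) + y i * D i (x i)
      rw [(D i).leibniz, smul_eq_mul, smul_eq_mul])
    (fun a => by
      obtain ⟨c, rfl⟩ := hsurj a
      refine ⟨fun i => algebraMap ℂ (K i) (c i), hal c, ?_⟩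
      funext i
      exact (D i).map_algebraMap (c i))
  have hD' : ∀ x, D' (uMk K x) = uMk K fun i => D i (x i) := fun x => (hD'' _).trans (hd' x)
  refine ⟨UP K, inferInstance, iA, D', uMk K, (ψ : UC →+* ℂ).comp (uMk fun _ => ℂ), ?_, hD', hal,
    fun x => uMk_eq_zero, fun c => ?_⟩
  · intro y hy
    obtain ⟨y, rfl⟩ := uMk_surj y
    rw [hD', uMk_eq_zero] at hy
    have h1 : ∀ i, ∃ c : ℂ, D i (y i) = 0 → y i = algebraMap ℂ (K i) c := by
      intro i
      by_cases h0 : D i (y i) = 0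
      · obtain ⟨c, hc⟩ := hC i _ h0
        exact ⟨c, fun _ => hc⟩
      · exact ⟨0, fun h => absurd h h0⟩
    choose c hc using h1
    refine ⟨ψ (uMk _ c), ?_⟩
    rw [← hal, uMk_eq]
    filter_upwards [hy] with i hi
    exact hc i hi
  · rw [RingHom.comp_apply]
    change ψ (uMk (fun _ => ℂ) c) = 0 ↔ _
    rw [map_eq_zero_iff ψ ψ.injective, uMk_eq_zero]

end diff

end Pool.Agent.Q1.SL
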