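import Pool.Agent.Q1.SL.Key
import Pool.Agent.Q1.SL.OverC

/-!
Curves given by iterated linear differential equations and rational curves of bounded degree.
-/

set_option autoImplicit false

namespace Pool.Agent.Q1.SL

open Set MvPolynomial Pool.Agent.TH143 Pool.Agent.Y377.EL Pool.Agent.Y377.IL Pool.Agent.Y377.ST

variable {n : ℕ}

/-- All nonconstant rational curves of degree at most `d` on the projective variety of `S` lie in
`G = 0`. -/
def RatIn (S : Set (MvPolynomial (Fin (n + 1)) ℂ)) (G : MvPolynomial (Fin (n + 1)) ℂ) (d : ℕ) :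
    Prop :=
  ∀ p : Fin (n + 1) → Polynomial ℂ, (∀ j, (p j).natDegree ≤ d) → (∀ F ∈ S, aeval p F = 0) →
    NonC p → aeval p G = 0

/-- All nonconstant curves `f : Ω → X`, on all domains `Ω` of the plane, on the projective variety
`X` of `S`, given by `s` iterated linear differential equations with matrices of size `r` and
polynomials of degree at most `e`, lie in `G = 0`. -/
def OdeIn (S : Set (MvPolynomial (Fin (n + 1)) ℂ)) (G : MvPolynomial (Fin (n + 1)) ℂ)
    (s r e : ℕ) : Prop :=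
  ∀ Ω : Set ℂ, IsOpen Ω → IsPreconnected Ω → ∀ f : ℂ → Fin (n + 1) → ℂ, DVec Ω s r e f →
    (∀ z ∈ Ω, ∀ F ∈ S, eval (f z) F = 0) →
    (∃ z ∈ Ω, ∃ w ∈ Ω, ∃ i j, f z i * f w j ≠ f z j * f w i) → ∀ z ∈ Ω, eval (f z) G = 0

theorem odeIn_of_diff {S : Set (MvPolynomial (Fin (n + 1)) ℂ)}
    {G : MvPolynomial (Fin (n + 1)) ℂ} {s r e : ℕ}
    (h : ∀ (K : Type) [Field K] [Algebra ℂ K] (D : Derivation ℂ K K), Cst D →
        ∀ x : Fin (n + 1) → K, DVecF D s r e x → (∀ F ∈ S, aeval x F = 0) →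
        (∃ u v, D (x u) * x v ≠ x u * D (x v)) → aeval x G = 0) : OdeIn S G s r e := by
  intro Ω hΩ hΩc f hf hF hnc
  obtain ⟨K, _, _, D, A, i, hA⟩ := exists_amb hΩ hΩc ⟨_, hnc.choose_spec.1⟩
  have hC : Cst D := hA.con
  have h1 := h K D hC _ (hf.toF hΩ hA) (fun F hFF =>
    (vanish_iff hA.inj (f := f) (fun j => hf.an hΩ j) F).2 fun z hz => hF z hz F hFF)
    (exists_cross hΩ hΩc hA (fun j => hf.an hΩ j) hnc)
  exact (vanish_iff hA.inj (f := f) (fun j => hf.an hΩ j) G).1 h1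

/-- **Uniform degrees.** -/
theorem ode_uniform (n D s r e : ℕ) : ∃ d : ℕ,
    ∀ (S : Set (MvPolynomial (Fin (n + 1)) ℂ)) (G : MvPolynomial (Fin (n + 1)) ℂ),
      (∀ F ∈ S, ∃ e, e ≤ D ∧ F.IsHomogeneous e) → (∃ e, e ≤ D ∧ G.IsHomogeneous e) →
        RatIn S G d → OdeIn S G s r e := by
  obtain ⟨d, hd⟩ := ode_uniform_diff n D s r e
  exact ⟨d, fun S G hS hG h => odeIn_of_diff (hd S G hS hG h)⟩

/-- **Special sets.** -/
theorem ode_special (S : Set (MvPolynomial (Fin (n + 1)) ℂ))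
    (hS : ∀ F ∈ S, ∃ e, F.IsHomogeneous e) (s r e : ℕ) : ∃ d : ℕ,
    ∀ G : MvPolynomial (Fin (n + 1)) ℂ, (∃ e, G.IsHomogeneous e) → RatIn S G d →
      OdeIn S G s r e := by
  obtain ⟨d, hd⟩ := ode_special_diff S hS s r e
  exact ⟨d, fun G hG h => odeIn_of_diff (hd G hG h)⟩

/-- rational curves are given by linear differential equations -/
theorem ratIn_of_odeIn {S : Set (MvPolynomial (Fin (n + 1)) ℂ)}
    {G : MvPolynomial (Fin (n + 1)) ℂ} {d : ℕ} (h : OdeIn S G 1 2 d) : RatIn S G d := by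
  intro p hp1 hp2 hp3
  obtain ⟨s, t, i, j, hst⟩ := hp3
  apply Polynomial.funext
  intro w
  rw [poly_eval, Polynomial.eval_zero]
  refine h univ isOpen_univ isPreconnected_univ (fun z j => (p j).eval z) (dvec_poly p hp1)
    (fun z _ F hF => ?_) ⟨s, mem_univ s, t, mem_univ t, i, j, hst⟩ w (mem_univ w)
  rw [← poly_eval, hp2 F hF, Polynomial.eval_zero]

end Pool.Agent.Q1.SL
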