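import Pool.Agent.Q1.SL.KeyA

/-!
Curves given by iterated linear differential equations and Laurent curves of bounded degree.
-/

set_option autoImplicit false

namespace Pool.Agent.Q1.SL

open Set MvPolynomial Pool.Agent.TH143 Pool.Agent.Y377.EL Pool.Agent.Y377.IL Pool.Agent.Y377.ST

variable {n : ℕ}

/-- All nonconstant curves `f : Ω → V`, on all domains `Ω` of the plane, on the affine variety `V`
of `S`, given by `s` iterated linear differential equations with matrices of size `r` and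
polynomials of degree at most `e`, lie in `G = 0`. -/
def OdeInA (S : Set (MvPolynomial (Fin n) ℂ)) (G : MvPolynomial (Fin n) ℂ) (s r e : ℕ) : Prop :=
  ∀ Ω : Set ℂ, IsOpen Ω → IsPreconnected Ω → ∀ f : ℂ → Fin n → ℂ, DVec Ω s r e f →
    (∀ z ∈ Ω, ∀ F ∈ S, eval (f z) F = 0) → (∃ z ∈ Ω, ∃ w ∈ Ω, f z ≠ f w) →
      ∀ z ∈ Ω, eval (f z) G = 0

theorem odeInA_of_diff {S : Set (MvPolynomial (Fin n) ℂ)}
    {G : MvPolynomial (Fin n) ℂ} {s r e : ℕ}
    (h : ∀ (K : Type) [Field K] [Algebra ℂ K] (D : Derivation ℂ K K), Cst D →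
        ∀ x : Fin n → K, DVecF D s r e x → (∀ F ∈ S, aeval x F = 0) →
        (∃ u, D (x u) ≠ 0) → aeval x G = 0) : OdeInA S G s r e := by
  intro Ω hΩ hΩc f hf hF hnc
  obtain ⟨K, _, _, D, A, i, hA⟩ := exists_amb hΩ hΩc ⟨_, hnc.choose_spec.1⟩
  have hC : Cst D := hA.con
  have h1 := h K D hC _ (hf.toF hΩ hA) (fun F hFF =>
    (vanish_iff hA.inj (f := f) (fun j => hf.an hΩ j) F).2 fun z hz => hF z hz F hFF) ?_
  · exact (vanish_iff hA.inj (f := f) (fun j => hf.an hΩ j) G).1 h1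
  · by_contra hcon
    push Not at hcon
    obtain ⟨z, hz, w, hw, hne⟩ := hnc
    apply hne
    funext u
    obtain ⟨c, hc⟩ := hC _ (hcon u)
    have h2 : toHol _ (hf.an hΩ u) = algebraMap ℂ (Hol Ω) c := by
      apply hA.inj
      rw [i.commutes]
      exact hc
    have h3 : ∀ v (hv : v ∈ Ω), f v u = c := by
      intro v hv
      have h4 := congrArg (evz (⟨v, hv⟩ : Ω)) h2
      rw [evz_toHol] at h4
      rw [h4, AlgHom.commutes]
      rfl
    rw [h3 z hz, h3 w hw]

/-- **Uniform degrees.** -/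
theorem ode_uniformA (n D s r e : ℕ) : ∃ d : ℕ,
    ∀ (S : Set (MvPolynomial (Fin n) ℂ)) (G : MvPolynomial (Fin n) ℂ),
      (∀ F ∈ S, F.totalDegree ≤ D) → G.totalDegree ≤ D → LauIn S G d → OdeInA S G s r e := by
  obtain ⟨d, hd⟩ := ode_uniform_diffA n D s r e
  exact ⟨d, fun S G hS hG h => odeInA_of_diff (hd S G hS hG h)⟩

/-- **Special sets.** -/
theorem ode_specialA (S : Set (MvPolynomial (Fin n) ℂ)) (s r e : ℕ) : ∃ d : ℕ,
    ∀ G : MvPolynomial (Fin n) ℂ, LauIn S G d → OdeInA S G s r e := by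
  obtain ⟨d, hd⟩ := ode_special_diffA S s r e
  exact ⟨d, fun G h => odeInA_of_diff (hd G h)⟩

/-- Laurent curves are given by linear differential equations -/
theorem lauIn_of_odeInA {S : Set (MvPolynomial (Fin n) ℂ)}
    {G : MvPolynomial (Fin n) ℂ} {d : ℕ} (h : OdeInA S G 1 1 d) : LauIn S G d := by
  intro m p hm hp1 hp2 hp3 t ht
  obtain ⟨s, t', hs, ht', hst⟩ := hp3
  have h1 := h univ isOpen_univ isPreconnected_univ (fun z => lpt m p (Complex.exp z))
    (dvec_laur p hp1 hm) (fun z _ F hF => hp2 _ (Complex.exp_ne_zero z) F hF)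
    ⟨Complex.log s, mem_univ _, Complex.log t', mem_univ _, by
      rw [Complex.exp_log hs, Complex.exp_log ht']
      exact hst⟩ (Complex.log t) (mem_univ _)
  rwa [Complex.exp_log ht] at h1

end Pool.Agent.Q1.SL
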