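import Pool.Agent.Q1.SL.UnifA
import Pool.Agent.Q1.SL.UnifR

/-!
Families of points of affine varieties given by iterated recurrences and Laurent curves of bounded
degree.
-/

set_option autoImplicit false

namespace Pool.Agent.Q1.SL

open Filter MvPolynomial Pool.Agent.Y377.EL Pool.Agent.Y377.IL Pool.Agent.Y377.IR
  Pool.Agent.H533R3.SL Pool.Agent.TH717.GO Pool.Agent.Y377.ST

/-- the values of a point -/
theorem val_resA {H : Type} [Group H] {N : ℕ} {R : Subalgebra ℂ (H → ℂ)} {Nn : Subgroup H} {a : H}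
    {K : Type} [Field K] [Algebra ℂ K] {Γ : Subgroup (K ≃ₐ[ℂ] K)} {ρ : R →ₐ[ℂ] K}
    (hρ : Res R Nn a K Γ ρ) {f : Fin N → H → ℂ} (hf : ∀ j, f j ∈ R)
    (G : MvPolynomial (Fin N) ℂ) : aeval (fun j => ρ ⟨f j, hf j⟩) G = 0 ↔
      ∀ g ∈ Nn, eval (fun j => f j (g * a)) G = 0 := by
  have h1 : aeval (fun j => ρ ⟨f j, hf j⟩) G = ρ (aeval (fun j => (⟨f j, hf j⟩ : R)) G) :=
    (MvPolynomial.comp_aeval_apply (f := fun j => (⟨f j, hf j⟩ : R)) ρ G).symm
  rw [h1, hρ.ker]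
  have h2 : ((aeval (fun j => (⟨f j, hf j⟩ : R)) G : R) : H → ℂ) = aeval f G :=
    MvPolynomial.comp_aeval_apply (f := fun j => (⟨f j, hf j⟩ : R)) R.val G
  rw [h2]
  refine forall_congr' fun g => forall_congr' fun _ => ?_
  have h3 := MvPolynomial.comp_aeval_apply (f := f) (Pi.evalAlgHom ℂ (fun _ : H => ℂ) (g * a)) G
  have h4 : (Pi.evalAlgHom ℂ (fun _ : H => ℂ) (g * a)) (aeval f G) =
    (aeval f G : H → ℂ) (g * a) := rfl
  rw [← h4, h3, MvPolynomial.aeval_eq_eval]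
  rfl

/-- a Laurent curve through the generic point of the closure of the values on a coset -/
theorem rat_pointB {H : Type} [Group H] {n : ℕ} {R : Subalgebra ℂ (H → ℂ)} {x : H → Fin n → ℂ}
    (hx : ∀ j, (fun h => x h j) ∈ R) {Nn : Subgroup H} {a b : H} {K : Type} [Field K]
    [Algebra ℂ K] {Γ : Subgroup (K ≃ₐ[ℂ] K)} {ρ : R →ₐ[ℂ] K} (hρ : Res R Nn a K Γ ρ)
    (hb : b * a⁻¹ ∈ Nn) (hab : x a ≠ x b) :
    ∃ (M : Type) (_ : Field M) (_ : Algebra ℂ M) (q : Fin n → RatFunc M) (m : ℕ)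
      (p : Fin n → Polynomial M),
      (∀ G : MvPolynomial (Fin n) ℂ, aeval q G = 0 ↔ ∀ g ∈ Nn, eval (x (g * a)) G = 0) ∧
      (∀ j, q j * RatFunc.X ^ m = algebraMap (Polynomial M) (RatFunc M) (p j)) ∧
      ∃ i, ∀ c : M, q i ≠ algebraMap M (RatFunc M) c := by
  classical
  let y : Fin n → K := fun j => ρ ⟨fun h => x h j, hx j⟩
  let t : Finset K := Finset.univ.image y
  have ht : ∀ z ∈ t, z ∈ frac ρ.range := by
    intro z hz
    obtain ⟨j, -, rfl⟩ := Finset.mem_image.1 hz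
    exact le_frac ρ.range ⟨_, rfl⟩
  have hne : ∃ z ∈ t, ¬ IsAlgebraic (⊥ : Subalgebra ℂ K) z := by
    by_contra hcon
    push Not at hcon
    choose c hc using fun j => const_of_alg (hcon (y j)
      (Finset.mem_image_of_mem _ (Finset.mem_univ j)))
    have h1 : ∀ g ∈ Nn, ∀ j, x (g * a) j = c j := by
      intro g hg j
      have h2 : ρ (⟨fun h => x h j, hx j⟩ - algebraMap ℂ R (c j)) = 0 := by
        rw [map_sub, AlgHom.commutes]
        exact sub_eq_zero.2 (hc j)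
      have h3 := (hρ.ker _).1 h2 g hg
      have h4 : x (g * a) j - c j = 0 := h3
      exact sub_eq_zero.1 h4
    apply hab
    funext j
    have h2 := h1 _ hb j
    have h3 := h1 1 Nn.one_mem j
    rw [inv_mul_cancel_right] at h2
    rw [one_mul] at h3
    rw [h2, h3]
  obtain ⟨S0, M, i1, i2, φ, -, h2, h3, ⟨z, hz, hzc⟩, h4⟩ := coset_alt hyp ghyp hρ t ht hne
  have hm : ∀ j, y j ∈ S0 := fun j =>
    h3 _ (Finset.mem_image_of_mem _ (Finset.mem_univ j)) ⟨_, rfl⟩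
  let w : Fin n → frac S0 := fun j => ⟨y j, le_frac S0 (hm j)⟩
  choose p k hpk using fun j => h4 (w j) (hm j)
  refine ⟨M, i1, i2, fun j => φ (w j), ∑ j, k j,
    fun j => p j * Polynomial.X ^ (∑ i ∈ Finset.univ.erase j, k i), fun G => ?_, fun j => ?_, ?_⟩
  · have h5 : aeval (fun j => φ (w j)) G = φ (aeval w G) :=
      (MvPolynomial.comp_aeval_apply (f := w) φ G).symm
    have h6 : ((aeval w G : frac S0) : K) = aeval y G :=
      MvPolynomial.comp_aeval_apply (f := w) (frac S0).val G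
    rw [h5, map_eq_zero_iff φ φ.toRingHom.injective, ← Subtype.coe_inj, h6]
    exact val_resA (f := fun j h => x h j) hρ hx G
  · have h5 : ∑ i, k i = k j + ∑ i ∈ Finset.univ.erase j, k i :=
      (Finset.add_sum_erase Finset.univ k (Finset.mem_univ j)).symm
    rw [h5, pow_add, ← mul_assoc, hpk, map_mul, map_pow, RatFunc.algebraMap_X]
  · obtain ⟨i, -, hi⟩ := Finset.mem_image.1 hz
    refine ⟨i, fun c hc => hzc c ?_⟩
    have h5 : w i = z := Subtype.ext hi
    rw [← h5]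
    exact hc

/-- The points `x(h)` outside of `G = 0`. -/
def offA {n : ℕ} (G : MvPolynomial (Fin n) ℂ) {H : Type} (x : H → Fin n → ℂ) : Set (Fin n → ℂ) :=
  {v | ∃ h, x h = v ∧ eval v G ≠ 0}

/-- different points off `G = 0` -/
theorem exists_seqCA {n : ℕ} {G : MvPolynomial (Fin n) ℂ} {H : Type}
    {x : H → Fin n → ℂ} {B : ℕ} (hB : ¬ (offA G x).encard ≤ (B : ℕ∞)) :
    ∃ hs : ℕ → H, (∀ i, eval (x (hs i)) G ≠ 0) ∧
      ∀ i j, i ≤ B → j ≤ B → i ≠ j → x (hs i) ≠ x (hs j) := by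
  classical
  have h1 : ((B + 1 : ℕ) : ℕ∞) ≤ (offA G x).encard := by
    rw [Nat.cast_add, Nat.cast_one]
    exact Order.add_one_le_of_lt (not_le.1 hB)
  obtain ⟨t, hts, htc⟩ := Set.exists_subset_encard_eq h1
  have htf : t.Finite := Set.finite_of_encard_eq_coe htc
  have hcard : htf.toFinset.card = B + 1 := by
    have h2 := htf.encard_eq_coe_toFinset_card
    rw [htc] at h2
    exact_mod_cast h2.symm
  let P : Fin (B + 1) ≃ htf.toFinset := (Finset.equivFinOfCardEq hcard).symm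
  have hP : ∀ i : Fin (B + 1), ((P i : htf.toFinset) : Fin n → ℂ) ∈ offA G x :=
    fun i => hts (htf.mem_toFinset.1 (P i).2)
  choose hs0 hPe hG0 using hP
  let c : ℕ → Fin (B + 1) := fun i => if hi : i < B + 1 then ⟨i, hi⟩ else 0
  refine ⟨fun i => hs0 (c i), fun i => ?_, ?_⟩
  · rw [hPe]
    exact hG0 (c i)
  · intro i j hi hj hij h2
    have hci : c i = ⟨i, by omega⟩ := dif_pos (by omega)
    have hcj : c j = ⟨j, by omega⟩ := dif_pos (by omega)
    have hcij : c i ≠ c j := by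
      rw [hci, hcj]
      intro h2
      exact hij (Fin.mk.inj_iff.1 h2)
    apply hcij
    apply P.injective
    apply Subtype.ext
    rw [← hPe (c i), ← hPe (c j)]
    exact h2

/-- **Bounds which are uniform in the affine variety.** -/
theorem rec_uniformA (n D s r e : ℕ) : ∃ d B : ℕ,
    ∀ (S : Set (MvPolynomial (Fin n) ℂ)) (G : MvPolynomial (Fin n) ℂ),
      (∀ F ∈ S, F.totalDegree ≤ D) → G.totalDegree ≤ D → LauIn S G d →
      ∀ (H : Type) [Group H] (x : H → Fin n → ℂ), IterVec s r e x →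
        (∀ h, ∀ F ∈ S, eval (x h) F = 0) → (offA G x).encard ≤ (B : ℕ∞) := by
  classical
  by_contra hcon
  have hC : ∀ d : ℕ, ∃ (S : Set (MvPolynomial (Fin n) ℂ))
      (G : MvPolynomial (Fin n) ℂ) (H : Type) (_ : Group H) (x : H → Fin n → ℂ),
      (∀ F ∈ S, F.totalDegree ≤ D) ∧ G.totalDegree ≤ D ∧
      LauIn S G d ∧ IterVec s r e x ∧ (∀ h, ∀ F ∈ S, eval (x h) F = 0) ∧
      ∃ hs : ℕ → H, (∀ i, eval (x (hs i)) G ≠ 0) ∧
        ∀ i j, i ≤ d → j ≤ d → i ≠ j → x (hs i) ≠ x (hs j) := by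
    intro d
    by_contra h1
    refine hcon ⟨d, d, ?_⟩
    intro S G h2 h3 h4 H _ x h5 h6
    by_contra h7
    exact h1 ⟨S, G, H, _, x, h2, h3, h4, h5, h6, exists_seqCA h7⟩
  choose S G Hs iH x hS hG hrat hx hF hs hoff hnp using hC
  obtain ⟨θ, hsur, hk⟩ := exists_theta
  have hΘ : ∀ f : ℕ → ℂ, (∃ n, ∀ i, n ≤ i → f i = 0) → θ f = 0 := by
    rintro f ⟨N, hN⟩
    rw [hk]
    have h1 : ∀ᶠ i : ℕ in cofinite, N ≤ i := by
      rw [Nat.cofinite_eq_atTop]
      exact eventually_ge_atTop N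
    filter_upwards [h1.filter_mono hyperfilter_le_cofinite] with i hi
    exact hN i hi
  let xs : (∀ i, Hs i) → Fin n → ℂ := fun h j => θ fun i => x i (h i) j
  have hxs : IterVec s r e xs := (IterVec.prod hx).map θ
  have key : ∀ (T : Finset (Fin n →₀ ℕ)) (F : ℕ → MvPolynomial (Fin n) ℂ),
      (∀ᶠ i in (hyperfilter ℕ : Filter ℕ), (F i).support ⊆ T) → ∀ h : ∀ i, Hs i,
        eval (xs h) (limT θ T F) = θ fun i => eval (x i (h i)) (F i) := fun T F hF h =>
    eval_limT hk hF fun i => x i (h i)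
  let a : ℕ → ∀ i, Hs i := fun m i => hs i m
  have hne : ∀ m m', m ≠ m' → xs (a m) ≠ xs (a m') := by
    intro m m' hmm heq
    obtain ⟨u, h1⟩ := theta_ne hΘ (fun (u : Fin n) i => x i (a m i) u - x i (a m' i) u)
      (max m m') (fun i hi => by
        obtain ⟨u, hu⟩ := Function.ne_iff.1 (hnp i m m' ((le_max_left _ _).trans hi)
          ((le_max_right _ _).trans hi) hmm)
        exact ⟨u, sub_ne_zero.2 hu⟩)
    apply h1
    have h3 : (fun i => x i (a m i) u - x i (a m' i) u) =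
        (fun i => x i (a m i) u) - (fun i => x i (a m' i) u) := rfl
    change (θ fun i => x i (a m i) u - x i (a m' i) u) = 0
    rw [h3, map_sub, sub_eq_zero]
    exact congrFun heq u
  obtain ⟨R, hR, hmem⟩ := hxs.tow
  obtain ⟨Nn, hn, hfi, hres⟩ := exists_res fhyp hR
  have hq : Finite ((∀ i, Hs i) ⧸ Nn) := inferInstance
  obtain ⟨m, m', hmm, hmk⟩ := Finite.exists_ne_map_eq_of_infinite
    fun m : ℕ => (QuotientGroup.mk (a m) : (∀ i, Hs i) ⧸ Nn)
  have hco : a m' * (a m)⁻¹ ∈ Nn := hn.mem_comm (QuotientGroup.eq.1 hmk)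
  obtain ⟨K, i1, i2, Γ, ρ, hρ⟩ := hres (a m)
  obtain ⟨M, j1, j2, q, m1, p, hq1, hq2, hq3⟩ := rat_pointB hmem hρ hco (hne m m' hmm)
  obtain ⟨d0, hm0, hd0⟩ := key_aff hsur hk hS q m1 p hq2 (fun F hF' => by
    rw [hq1]
    intro g _
    rw [key _ F (by
      filter_upwards [hF'] with i hi
      exact support_TD (hS i _ hi)), hk]
    filter_upwards [hF'] with i hi
    exact hF i _ _ hi) hq3
  have h1 := hd0 G D (Eventually.of_forall hG) (fun h0 => by
    rw [hq1] at h0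
    have h2 := h0 1 Nn.one_mem
    rw [one_mul, key _ G (Eventually.of_forall fun i => support_TD (hG i)), hk] at h2
    obtain ⟨i, hi⟩ := h2.exists
    exact hoff i m hi)
  have hge : ∀ᶠ i in (hyperfilter ℕ : Filter ℕ), d0 ≤ i := by
    have h1 : ∀ᶠ i : ℕ in cofinite, d0 ≤ i := by
      rw [Nat.cofinite_eq_atTop]
      exact eventually_ge_atTop d0
    exact h1.filter_mono hyperfilter_le_cofinite
  obtain ⟨i, ⟨p, hp1, hp2, hp3, t, ht, hp4⟩, hi⟩ := (h1.and hge).exists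
  exact hp4 (hrat i m1 p (hm0.trans hi) (fun j => (hp1 j).trans hi) hp2 hp3 t ht)

/-- values of Laurent polynomials at the powers of `2` -/
theorem iterVec_lau {L : Type} [Field L] [CharZero L] {d m N : ℕ} (p : Fin N → Polynomial L)
    (hp : ∀ j, (p j).natDegree ≤ d) (hm : m ≤ d) :
    IterVec 1 1 d fun (h : Multiplicative ℤ) => lpt m p ((2 : L) ^ (Multiplicative.toAdd h : ℤ)) := by
  refine ⟨fun _ h => Matrix.of fun _ _ => (2 : L) ^ (Multiplicative.toAdd h : ℤ),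
    fun _ h => Matrix.of fun _ _ => ((2 : L) ^ (Multiplicative.toAdd h : ℤ))⁻¹, ⟨fun l h => ?_,
    fun l g i j => ?_⟩, fun j => ?_⟩
  · ext i j
    rw [Matrix.mul_apply, Fin.sum_univ_one, Matrix.of_apply, Matrix.of_apply,
      mul_inv_cancel₀ (zpow_ne_zero _ two_ne_zero), Subsingleton.elim i j, Matrix.one_apply_eq]
  · refine ⟨fun m => if m = 0 then (2 : L) ^ (Multiplicative.toAdd g : ℤ) else 0, fun h => ?_⟩
    rw [pev_const, Matrix.mul_apply, Fin.sum_univ_one, Matrix.of_apply, Matrix.of_apply,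
      toAdd_mul, zpow_add₀ two_ne_zero, mul_assoc, mul_inv_cancel₀ (zpow_ne_zero _ two_ne_zero),
      mul_one]
  · obtain ⟨c, hc⟩ := pev_two (p j) (hp j) hm (v1 := ((0, true, 0, 0) : Ix 1 1))
      (v2 := ((0, false, 0, 0) : Ix 1 1)) (by simp)
    refine ⟨c, fun h => ?_⟩
    rw [hc]
    change (p j).eval ((2 : L) ^ (Multiplicative.toAdd h : ℤ)) /
      ((2 : L) ^ (Multiplicative.toAdd h : ℤ)) ^ m =
      (p j).eval ((2 : L) ^ (Multiplicative.toAdd h : ℤ)) *
        ((2 : L) ^ (Multiplicative.toAdd h : ℤ))⁻¹ ^ m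
    rw [inv_pow, div_eq_mul_inv]

theorem two_zpow_inj {L : Type} [Field L] [CharZero L] :
    Function.Injective fun h : ℤ => (2 : L) ^ h := by
  intro a b hab
  have h1 : ((2 : ℚ) ^ a : ℚ) = (2 : ℚ) ^ b := by
    have h2 : ((((2 : ℚ) ^ a : ℚ)) : L) = (((2 : ℚ) ^ b : ℚ) : L) := by
      push_cast
      exact hab
    exact_mod_cast h2
  exact zpow_right_injective₀ (by norm_num) (by norm_num) h1

/-- **The converse.** -/
theorem lauIn_of_rec {n : ℕ} {S : Set (MvPolynomial (Fin n) ℂ)}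
    {G : MvPolynomial (Fin n) ℂ} {d : ℕ}
    (h : ∀ x : Multiplicative ℤ → Fin n → ℂ, IterVec 1 1 d x →
      (∀ h, ∀ F ∈ S, eval (x h) F = 0) → (offA G x).Finite) : LauIn S G d := by
  classical
  intro m p hm hp1 hp2 hp3
  by_contra hG
  push Not at hG
  have hP : aeval (lau m p) (homK G) ≠ 0 := by
    intro h0
    obtain ⟨t, ht, hne⟩ := hG
    exact hne ((on_iff m p G).1 h0 t ht)
  let xx : Multiplicative ℤ → Fin n → ℂ := fun h =>
    lpt m p ((2 : ℂ) ^ (Multiplicative.toAdd h : ℤ))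
  have hfin : (offA G xx).Finite := h _ (iterVec_lau p hp1 hm) fun h F hF =>
    hp2 _ (zpow_ne_zero _ two_ne_zero) F hF
  let W : Set ℤ := {h | (aeval (lau m p) (homK G)).eval ((2 : ℂ) ^ h) ≠ 0}
  have hW : W.Infinite := by
    have h1 : {h : ℤ | (aeval (lau m p) (homK G)).eval ((2 : ℂ) ^ h) = 0}.Finite :=
      Set.Finite.preimage (fun a _ b _ hab => two_zpow_inj hab)
        (Polynomial.finite_setOfPred_isRoot hP) (f := fun h : ℤ => (2 : ℂ) ^ h)
    have h2 : W = {h : ℤ | (aeval (lau m p) (homK G)).eval ((2 : ℂ) ^ h) = 0}ᶜ := rfl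
    rw [h2]
    exact h1.infinite_compl
  have hmaps : ∀ h ∈ W, lpt m p ((2 : ℂ) ^ h) ∈ offA G xx := by
    intro h hh
    refine ⟨Multiplicative.ofAdd h, rfl, fun h0 => hh ?_⟩
    rw [eval_lau m p G (zpow_ne_zero h two_ne_zero), h0, mul_zero]
  obtain ⟨v, hv, hvi⟩ : ∃ v ∈ offA G xx, {h ∈ W | lpt m p ((2 : ℂ) ^ h) = v}.Infinite := by
    by_contra hcon
    push Not at hcon
    apply hW
    refine Set.Finite.subset (hfin.biUnion (t := fun v => {h ∈ W | lpt m p ((2 : ℂ) ^ h) = v})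
      fun v hv => hcon v hv) fun h hh => ?_
    rw [Set.mem_iUnion₂]
    exact ⟨_, hmaps h hh, hh, rfl⟩
  have hc : ∀ j : Fin n, p j = Polynomial.X ^ m * Polynomial.C (v j) := by
    intro j
    refine Polynomial.eq_of_infinite_eval_eq _ _ (Set.Infinite.mono ?_
      (hvi.image (f := fun h : ℤ => (2 : ℂ) ^ h) fun a _ b _ hab => two_zpow_inj hab))
    rintro _ ⟨h, ⟨hh, hhv⟩, rfl⟩
    change (p j).eval ((2 : ℂ) ^ h) = (Polynomial.X ^ m * Polynomial.C (v j)).eval ((2 : ℂ) ^ h)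
    rw [Polynomial.eval_mul, Polynomial.eval_pow, Polynomial.eval_X, Polynomial.eval_C, ← hhv]
    change (p j).eval ((2 : ℂ) ^ h) = ((2 : ℂ) ^ h) ^ m *
      ((p j).eval ((2 : ℂ) ^ h) / ((2 : ℂ) ^ h) ^ m)
    rw [mul_div_cancel₀ _ (pow_ne_zero _ (zpow_ne_zero _ two_ne_zero))]
  obtain ⟨s, t, hs, ht, hst⟩ := hp3
  apply hst
  have h1 : ∀ u : ℂ, u ≠ 0 → lpt m p u = v := by
    intro u hu
    funext j
    change (p j).eval u / u ^ m = v j
    rw [hc j, Polynomial.eval_mul, Polynomial.eval_pow, Polynomial.eval_X, Polynomial.eval_C,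
      mul_div_cancel_left₀ _ (pow_ne_zero _ hu)]
  rw [h1 s hs, h1 t ht]

end Pool.Agent.Q1.SL
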